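import Pool.Agent.Bous.Seq

/-!
# Algebraic identities for the Boussinesq kernels, and cancellations for finitely supported fields
-/

open Complex Set MeasureTheory Filter Topology
open scoped ComplexConjugate ENNReal

namespace Pool.Agent.Bous

lemma nsq_nonneg (k : K) : 0 ≤ nsq k := by unfold nsq; positivity

lemma nsq_neg (k : K) : nsq (-k) = nsq k := by
  unfold nsq
  simp only [Pi.neg_apply, Int.cast_neg]
  ring

lemma nrm_neg (k : K) : nrm (-k) = nrm k := by unfold nrm; rw [nsq_neg]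

lemma nrm_nonneg (k : K) : 0 ≤ nrm k := Real.sqrt_nonneg _

lemma nrm_sq (k : K) : nrm k ^ 2 = nsq k := Real.sq_sqrt (nsq_nonneg k)

lemma nsq_zero : nsq 0 = 0 := by simp [nsq]

lemma nrm_zero : nrm 0 = 0 := by simp [nrm, nsq_zero]

lemma one_le_nsq {k : K} (hk : k ≠ 0) : 1 ≤ nsq k := by
  unfold nsq
  have h : k 0 ≠ 0 ∨ k 1 ≠ 0 := by
    by_contra hcon
    push Not at hcon
    apply hk
    funext i
    fin_cases i
    · exact hcon.1
    · exact hcon.2
  have hsq : ∀ n : ℤ, n ≠ 0 → (1 : ℝ) ≤ (n : ℝ) ^ 2 := by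
    intro n hn
    have h1 : (1 : ℤ) ≤ n ^ 2 := by
      have := Int.one_le_abs hn
      rw [← sq_abs]
      nlinarith
    exact_mod_cast h1
  rcases h with h | h
  · have := hsq _ h
    have := sq_nonneg ((k 1 : ℤ) : ℝ)
    linarith
  · have := hsq _ h
    have := sq_nonneg ((k 0 : ℤ) : ℝ)
    linarith

lemma one_le_nrm {k : K} (hk : k ≠ 0) : 1 ≤ nrm k := by
  unfold nrm
  rw [Real.one_le_sqrt]
  exact one_le_nsq hk

lemma nrm_pos {k : K} (hk : k ≠ 0) : 0 < nrm k := lt_of_lt_of_le one_pos (one_le_nrm hk)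

lemma cross_zero_left (l : K) : cross 0 l = 0 := by simp [cross]

lemma cross_zero_right (j : K) : cross j 0 = 0 := by simp [cross]

lemma cross_self (j : K) : cross j j = 0 := by unfold cross; ring

lemma cross_add_right (j l m : K) : cross j (l + m) = cross j l + cross j m := by
  unfold cross
  simp only [Pi.add_apply, Int.cast_add]
  ring

lemma cross_neg_right (j l : K) : cross j (-l) = -cross j l := by
  unfold cross
  simp only [Pi.neg_apply, Int.cast_neg]
  ring

lemma cross_neg_neg (j l : K) : cross (-j) (-l) = cross j l := by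
  unfold cross
  simp only [Pi.neg_apply, Int.cast_neg]
  ring

lemma cross_swap (j l : K) : cross l j = -cross j l := by unfold cross; ring

lemma al_neg_neg (j l : K) : al (-j) (-l) = al j l := by
  unfold al
  rw [cross_neg_neg, nrm_neg]

lemma be_neg_neg (j l : K) : be (-j) (-l) = be j l := by
  unfold be
  rw [cross_neg_neg, nrm_neg, nrm_neg, nsq_neg, nsq_neg, show -j + -l = -(j + l) by abel, nrm_neg]

/-- antisymmetry of the transport kernel -/
lemma al_third (j l : K) : al j (-(j + l)) = -al j l := by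
  unfold al
  rw [cross_neg_right, cross_add_right, cross_self]
  ring

/-- the three cyclic values of the cross product agree -/
lemma cross_cyc (j l : K) : cross l (-(j + l)) = cross j l := by
  unfold cross
  simp only [Pi.neg_apply, Pi.add_apply, Int.cast_neg, Int.cast_add]
  ring

/-- cyclic identity for the enstrophy -/
lemma be_cyc (j l : K) :
    nsq (j + l) * be j l + nsq j * be l (-(j + l)) + nsq l * be (-(j + l)) j = 0 := by
  unfold be
  have e1 : nrm (l + -(j + l)) = nrm j := by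
    rw [show l + -(j + l) = -j by abel, nrm_neg]
  have e2 : nrm (-(j + l) + j) = nrm l := by
    rw [show -(j + l) + j = -l by abel, nrm_neg]
  have e3 : cross (-(j + l)) j = cross j l := by
    unfold cross
    simp only [Pi.neg_apply, Pi.add_apply, Int.cast_neg, Int.cast_add]
    ring
  rw [e1, e2, e3, cross_cyc, nrm_neg, nsq_neg]
  set A := nrm j
  set B := nrm l
  set D := nrm (j + l)
  set X := cross j l
  have h1 : 2 * B * D * A = 2 * A * B * D := by ring
  have h2 : 2 * D * A * B = 2 * A * B * D := by ring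
  rw [h1, h2, ← mul_div_assoc, ← mul_div_assoc, ← mul_div_assoc, ← add_div, ← add_div]
  rw [div_eq_zero_iff]
  left
  ring

/-- cyclic identity for the energy -/
lemma be_cyc' (j l : K) : be j l + be l (-(j + l)) + be (-(j + l)) j = 0 := by
  unfold be
  have e1 : nrm (l + -(j + l)) = nrm j := by
    rw [show l + -(j + l) = -j by abel, nrm_neg]
  have e2 : nrm (-(j + l) + j) = nrm l := by
    rw [show -(j + l) + j = -l by abel, nrm_neg]
  have e3 : cross (-(j + l)) j = cross j l := by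
    unfold cross
    simp only [Pi.neg_apply, Pi.add_apply, Int.cast_neg, Int.cast_add]
    ring
  rw [e1, e2, e3, cross_cyc, nrm_neg, nsq_neg]
  set A := nrm j
  set B := nrm l
  set D := nrm (j + l)
  set X := cross j l
  have h1 : 2 * B * D * A = 2 * A * B * D := by ring
  have h2 : 2 * D * A * B = 2 * A * B * D := by ring
  rw [h1, h2, ← add_div, ← add_div]
  rw [div_eq_zero_iff]
  left
  ring

/-! ### modes -/

lemma mem_modes {N : ℕ} {k : K} : k ∈ modes N ↔ k ≠ 0 ∧ ∀ i, -(N : ℤ) ≤ k i ∧ k i ≤ N := by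
  unfold modes
  rw [Finset.mem_erase, Fintype.mem_piFinset]
  simp only [Finset.mem_Icc]

lemma neg_mem_modes {N : ℕ} {k : K} : -k ∈ modes N ↔ k ∈ modes N := by
  rw [mem_modes, mem_modes]
  simp only [ne_eq, neg_eq_zero, Pi.neg_apply]
  constructor
  · rintro ⟨h1, h2⟩
    refine ⟨h1, fun i => ?_⟩
    have := h2 i
    constructor <;> linarith [this.1, this.2]
  · rintro ⟨h1, h2⟩
    refine ⟨h1, fun i => ?_⟩
    have := h2 i
    constructor <;> linarith [this.1, this.2]

lemma ne_zero_of_mem {N : ℕ} {k : K} (h : k ∈ modes N) : k ≠ 0 := (mem_modes.1 h).1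

lemma sum_modes_neg {M : Type*} [AddCommMonoid M] (N : ℕ) (f : K → M) :
    ∑ k ∈ modes N, f (-k) = ∑ k ∈ modes N, f k := by
  refine Finset.sum_bij' (fun k _ => -k) (fun k _ => -k) ?_ ?_ ?_ ?_ ?_
  · intro k hk; exact neg_mem_modes.2 hk
  · intro k hk; exact neg_mem_modes.2 hk
  · intro k _; exact neg_neg k
  · intro k _; exact neg_neg k
  · intro k _; rfl

lemma AL_eq_sum {N : ℕ} {v : K → ℂ} (hv : ∀ k, k ∉ modes N → v k = 0) (θ : K → ℂ) (k : K) :
    AL v θ k = ∑ j ∈ modes N, (al j (k - j) : ℂ) * v j * θ (k - j) := by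
  unfold AL
  refine tsum_eq_sum fun j hj => ?_
  rw [hv j hj, mul_zero, zero_mul]

lemma BE_eq_sum {N : ℕ} {v : K → ℂ} (hv : ∀ k, k ∉ modes N → v k = 0) (w : K → ℂ) (k : K) :
    BE v w k = ∑ j ∈ modes N, (be j (k - j) : ℂ) * v j * w (k - j) := by
  unfold BE
  refine tsum_eq_sum fun j hj => ?_
  rw [hv j hj, mul_zero, zero_mul]

/-- finitely supported double sums -/
lemma summable_of_supp {N : ℕ} {f : K × K → ℂ} (hf : ∀ j l, j ∉ modes N ∨ l ∉ modes N →
    f (j, l) = 0) : Summable f := by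
  refine summable_of_ne_finset_zero (s := modes N ×ˢ modes N) ?_
  rintro ⟨j, l⟩ h
  rw [Finset.mem_product, not_and_or] at h
  exact hf j l h

lemma tsum_of_supp {N : ℕ} {f : K × K → ℂ} (hf : ∀ j l, j ∉ modes N ∨ l ∉ modes N →
    f (j, l) = 0) : ∑' p, f p = ∑ j ∈ modes N, ∑ l ∈ modes N, f (j, l) := by
  rw [tsum_eq_sum (s := modes N ×ˢ modes N)]
  · rw [Finset.sum_product]
  · rintro ⟨j, l⟩ h
    rw [Finset.mem_product, not_and_or] at h
    exact hf j l h

/-- change of variables: a trilinear sum over `k` and `j` as a sum over `(j, l)` -/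
lemma sum_trilinear {N : ℕ} {v w z : K → ℂ} (hv : ∀ k, k ∉ modes N → v k = 0)
    (hw : ∀ k, k ∉ modes N → w k = 0) (hz : ∀ k, k ∉ modes N → z k = 0) (c : K → K → ℂ) :
    ∑ k ∈ modes N, (∑ j ∈ modes N, c j (k - j) * v j * w (k - j)) * z (-k) =
      ∑ j ∈ modes N, ∑ l ∈ modes N, c j l * v j * w l * z (-(j + l)) := by
  simp only [Finset.sum_mul]
  rw [Finset.sum_comm]
  refine Finset.sum_congr rfl fun j _ => ?_
  -- both sides are sums over all of K
  have h1 : ∑ k ∈ modes N, c j (k - j) * v j * w (k - j) * z (-k) =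
      ∑' k, c j (k - j) * v j * w (k - j) * z (-k) := by
    rw [tsum_eq_sum]
    intro k hk
    rw [hz (-k) (fun h => hk (neg_mem_modes.1 h)), mul_zero]
  have h2 : ∑ l ∈ modes N, c j l * v j * w l * z (-(j + l)) =
      ∑' l, c j l * v j * w l * z (-(j + l)) := by
    rw [tsum_eq_sum]
    intro l hl
    rw [hw l hl, mul_zero, zero_mul]
  rw [h1, h2, ← (Equiv.subRight j).tsum_eq (fun l => c j l * v j * w l * z (-(j + l)))]
  refine tsum_congr fun k => ?_
  simp only [Equiv.subRight_apply, add_sub_cancel]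

/-- conservation of the temperature norm -/
lemma sum_AL_eq_zero {N : ℕ} {v θ : K → ℂ} (hv : ∀ k, k ∉ modes N → v k = 0)
    (hθ : ∀ k, k ∉ modes N → θ k = 0) : ∑ k ∈ modes N, AL v θ k * θ (-k) = 0 := by
  have h1 : ∑ k ∈ modes N, AL v θ k * θ (-k) =
      ∑ k ∈ modes N, (∑ j ∈ modes N, (al j (k - j) : ℂ) * v j * θ (k - j)) * θ (-k) :=
    Finset.sum_congr rfl fun k _ => by rw [AL_eq_sum hv]
  rw [h1, sum_trilinear hv hθ hθ (fun j l => (al j l : ℂ))]
  refine Finset.sum_eq_zero fun j _ => ?_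
  have h2 : ∑ l ∈ modes N, (al j l : ℂ) * v j * θ l * θ (-(j + l)) =
      ∑' l, (al j l : ℂ) * v j * θ l * θ (-(j + l)) := by
    rw [tsum_eq_sum]
    intro l hl
    rw [hθ l hl, mul_zero, zero_mul]
  rw [h2]
  set F : K → ℂ := fun l => (al j l : ℂ) * v j * θ l * θ (-(j + l)) with hF
  have h3 : ∑' l, F l = -∑' l, F l := by
    rw [← tsum_neg]
    rw [← (Equiv.subLeft (-j)).tsum_eq F]
    refine tsum_congr fun l => ?_
    simp only [hF, Equiv.subLeft_apply]
    have e1 : -j - l = -(j + l) := by abel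
    have e2 : -(j + -(j + l)) = l := by abel
    rw [e1, al_third, e2]
    push_cast
    ring
  have h4 : (2 : ℂ) * ∑' l, F l = 0 := by
    rw [two_mul]
    nth_rewrite 2 [h3]
    exact add_neg_cancel _
  exact (mul_eq_zero.1 h4).resolve_left two_ne_zero

/-- the rotation `(j, l) ↦ (l, -(j + l))` -/
def rotEquiv : K × K ≃ K × K where
  toFun p := (p.2, -(p.1 + p.2))
  invFun p := (-(p.1 + p.2), p.1)
  left_inv p := by ext1 <;> simp
  right_inv p := by ext1 <;> simp

/-- no enstrophy production -/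
lemma sum_BE_eq_zero {N : ℕ} {v : K → ℂ} (hv : ∀ k, k ∉ modes N → v k = 0) :
    ∑ k ∈ modes N, (nsq k : ℂ) * BE v v k * v (-k) = 0 := by
  have h1 : ∑ k ∈ modes N, (nsq k : ℂ) * BE v v k * v (-k) =
      ∑ k ∈ modes N, (∑ j ∈ modes N, ((nsq (j + (k - j)) : ℂ) * (be j (k - j) : ℂ)) * v j *
        v (k - j)) * v (-k) := by
    refine Finset.sum_congr rfl fun k _ => ?_
    rw [BE_eq_sum hv, Finset.mul_sum]
    congr 1
    refine Finset.sum_congr rfl fun j _ => ?_
    rw [show j + (k - j) = k by abel]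
    ring
  rw [h1, sum_trilinear hv hv hv (fun j l => (nsq (j + l) : ℂ) * (be j l : ℂ))]
  set F : K × K → ℂ := fun p =>
    (nsq (p.1 + p.2) : ℂ) * (be p.1 p.2 : ℂ) * v p.1 * v p.2 * v (-(p.1 + p.2)) with hF
  have hsupp : ∀ j l, j ∉ modes N ∨ l ∉ modes N → F (j, l) = 0 := by
    intro j l h
    simp only [hF]
    rcases h with h | h
    · rw [hv j h]; ring
    · rw [hv l h]; ring
  have hsum := summable_of_supp hsupp
  have h2 := tsum_of_supp hsupp
  rw [← h2]
  have r1 : ∑' p, F (rotEquiv p) = ∑' p, F p := rotEquiv.tsum_eq F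
  have r2 : ∑' p, F (rotEquiv (rotEquiv p)) = ∑' p, F p := by
    rw [← r1]
    exact rotEquiv.tsum_eq (fun p => F (rotEquiv p))
  have s1 : Summable fun p => F (rotEquiv p) := (rotEquiv.summable_iff).2 hsum
  have s2 : Summable fun p => F (rotEquiv (rotEquiv p)) :=
    (rotEquiv.summable_iff (f := fun p => F (rotEquiv p))).2 s1
  have h3 : ∑' p, (F p + F (rotEquiv p) + F (rotEquiv (rotEquiv p))) = 0 := by
    have : ∀ p, F p + F (rotEquiv p) + F (rotEquiv (rotEquiv p)) = 0 := by
      rintro ⟨j, l⟩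
      simp only [hF, rotEquiv, Equiv.coe_fn_mk]
      have e1 : l + -(j + l) = -j := by abel
      have e2 : -(j + l) + -(-j) = -l := by abel
      have e3 : - -j = j := neg_neg j
      have e4 : -(-(j + l) + j) = l := by abel
      rw [e1, e3]
      have e5 : -(j + l) + j = -l := by abel
      rw [e5, nsq_neg, nsq_neg, neg_neg]
      have := be_cyc j l
      have h4 : ((nsq (j + l) * be j l + nsq j * be l (-(j + l)) +
          nsq l * be (-(j + l)) j : ℝ) : ℂ) = 0 := by rw [this]; simp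
      push_cast at h4
      linear_combination (v j * v l * v (-(j + l))) * h4
    simp only [this, tsum_zero]
  rw [(hsum.add s1).tsum_add s2, hsum.tsum_add s1, r1, r2] at h3
  have h4 : (3 : ℂ) * ∑' p, F p = 0 := by linear_combination h3
  exact (mul_eq_zero.1 h4).resolve_left (by norm_num)

/-- symmetry of the nonlinear terms -/
lemma AL_symm {v θ : K → ℂ} (hv : ∀ k, v (-k) = conj (v k)) (hθ : ∀ k, θ (-k) = conj (θ k))
    (k : K) : AL v θ (-k) = conj (AL v θ k) := by
  unfold AL
  rw [← (Equiv.neg K).tsum_eq, Complex.conj_tsum]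
  refine tsum_congr fun j => ?_
  simp only [Equiv.neg_apply]
  rw [show -k - -j = -(k - j) by abel, al_neg_neg, hv, hθ, map_mul, map_mul, Complex.conj_ofReal]

lemma BE_symm {v w : K → ℂ} (hv : ∀ k, v (-k) = conj (v k)) (hw : ∀ k, w (-k) = conj (w k))
    (k : K) : BE v w (-k) = conj (BE v w k) := by
  unfold BE
  rw [← (Equiv.neg K).tsum_eq, Complex.conj_tsum]
  refine tsum_congr fun j => ?_
  simp only [Equiv.neg_apply]
  rw [show -k - -j = -(k - j) by abel, be_neg_neg, hv, hw, map_mul, map_mul, Complex.conj_ofReal]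

lemma rt_symm {κ : ℝ} {v θ : K → ℂ} (hv : ∀ k, v (-k) = conj (v k))
    (hθ : ∀ k, θ (-k) = conj (θ k)) (k : K) : rt κ v θ (-k) = conj (rt κ v θ k) := by
  unfold rt
  rw [AL_symm hv hθ, map_mul, Complex.conj_ofReal]

lemma rv_symm {κ ν g : ℝ} {v θ : K → ℂ} (hv : ∀ k, v (-k) = conj (v k))
    (hθ : ∀ k, θ (-k) = conj (θ k)) (k : K) : rv κ ν g v θ (-k) = conj (rv κ ν g v θ k) := by
  unfold rv
  rw [BE_symm hv hv, hv, hθ, nsq_neg, nrm_neg]
  simp only [map_sub, map_mul, Complex.conj_ofReal, Complex.conj_I, Pi.neg_apply, Int.cast_neg]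
  push_cast
  ring

end Pool.Agent.Bous
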