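import Mathlib

/-!
# The semi-dissipative 2D Boussinesq system: weak solutions, solution maps, sigma-attractor

A function `f` on the torus `ℝ² / (L ℤ²)` is represented by the function `y ↦ f (L y)` on the unit
torus `UnitAddTorus (Fin 2)`; then `∂_j` becomes multiplication of the Fourier coefficients by
`2 π i k_j / L`.
-/

open MeasureTheory Set Filter Topology Complex
open scoped ENNReal InnerProductSpace

namespace Pool.Agent.Bous

/-- The unit torus `ℝ² / ℤ²`. -/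
abbrev Torus := UnitAddTorus (Fin 2)

/-- Real square integrable functions on the torus. -/
noncomputable abbrev RL2 := Lp ℝ 2 (volume : Measure Torus)

/-- The Fourier coefficient `∫ f(y) e^{-2 π i k·y} dy` of a real function. -/
noncomputable def coef (f : Torus → ℝ) (k : Fin 2 → ℤ) : ℂ :=
  ∫ y, UnitAddTorus.mFourier (-k) y * (f y : ℂ)

/-- Pairs (velocity field, temperature). -/
noncomputable abbrev State := (Fin 2 → RL2) × RL2

/-- The phase space `X = H × L²` of mean-free pairs with divergence-free velocity: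
`û_j(0) = 0`, `θ̂(0) = 0` and `k · û(k) = 0` for all `k`. -/
def PhaseSpace : Set State :=
  {s | (∀ j, coef (s.1 j) 0 = 0) ∧ (∀ k : Fin 2 → ℤ, ∑ j, (k j : ℂ) * coef (s.1 j) k = 0) ∧
    coef s.2 0 = 0}

/-- Weak solutions `t ↦ s t = (u(t), θ(t))`, `t ≥ 0`, of the semi-dissipative Boussinesq system on
the torus of period `L`: `u ∈ C([0,∞); L²) ∩ L²_loc([0,∞); H¹)`, `θ` is weakly continuous with
values in `L²`, and the equations hold weakly, tested against `e^{2 π i k·y}` for the temperature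
and against `a e^{2 π i k·y}` with `a · k = 0` for the velocity (so that the pressure drops out). -/
structure IsWeakSolution (L ν g : ℝ) (s : ℝ → State) : Prop where
  mem : ∀ t, 0 ≤ t → s t ∈ PhaseSpace
  velocity_continuous : ∀ j, ContinuousOn (fun t => (s t).1 j) (Ici 0)
  temperature_weakly_continuous : ∀ f : RL2, ContinuousOn (fun t => ⟪f, (s t).2⟫_ℝ) (Ici 0)
  velocity_sobolev : ∀ T, ∫⁻ t in Icc 0 T, ∑' k : Fin 2 → ℤ, ∑ j,
    ENNReal.ofReal (((k 0 : ℝ) ^ 2 + (k 1 : ℝ) ^ 2) * ‖coef ((s t).1 j) k‖ ^ 2) < ⊤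
  velocity_equation : ∀ (k : Fin 2 → ℤ) (a : Fin 2 → ℝ), ∑ i, a i * (k i : ℝ) = 0 →
    ∀ t, 0 ≤ t →
      ∑ i, (a i : ℂ) * coef ((s t).1 i) k = ∑ i, (a i : ℂ) * coef ((s 0).1 i) k +
        ∫ r in (0 : ℝ)..t,
          (-(2 * Real.pi * I / L) *
              ∑ i, ∑ j, (a i : ℂ) * (k j : ℂ) * coef (fun y => (s r).1 j y * (s r).1 i y) k
            - ν * (2 * Real.pi / L) ^ 2 * ((k 0 : ℂ) ^ 2 + (k 1 : ℂ) ^ 2) *
              ∑ i, (a i : ℂ) * coef ((s r).1 i) k
            + g * (a 1 : ℂ) * coef (s r).2 k)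
  temperature_equation : ∀ (k : Fin 2 → ℤ), ∀ t, 0 ≤ t →
      coef (s t).2 k = coef (s 0).2 k +
        ∫ r in (0 : ℝ)..t,
          -(2 * Real.pi * I / L) * ∑ j, (k j : ℂ) * coef (fun y => (s r).1 j y * (s r).2 y) k

/-- Weak convergence in the phase space. -/
def WeakLim (s : ℕ → State) (a : State) : Prop :=
  (∀ (f : RL2) (j : Fin 2), Tendsto (fun n => ⟪f, (s n).1 j⟫_ℝ) atTop (𝓝 ⟪f, a.1 j⟫_ℝ)) ∧
    ∀ f : RL2, Tendsto (fun n => ⟪f, (s n).2⟫_ℝ) atTop (𝓝 ⟪f, a.2⟫_ℝ)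

/-- The weak sigma-attractor of a set `𝒮` of trajectories: all weak limits of `s_n(t_n)` with
`s_n ∈ 𝒮`, initial data `s_n(0)` in a bounded subset of `X`, and `t_n → ∞`. -/
def SigmaAttractor (𝒮 : Set (ℝ → State)) : Set State :=
  {a | a ∈ PhaseSpace ∧ ∃ (t : ℕ → ℝ) (s : ℕ → ℝ → State) (M : ℝ),
    (∀ n, 0 ≤ t n) ∧ Tendsto t atTop atTop ∧ (∀ n, s n ∈ 𝒮) ∧
    (∀ n, s n 0 ∈ PhaseSpace ∧ ‖s n 0‖ ≤ M) ∧ WeakLim (fun n => s n (t n)) a}

/-- `S` is a solution operator of the system: for every `x ∈ X`, `t ↦ S t x` is a weak solution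
with initial value `x`. -/
def IsSolutionOperator (L ν g : ℝ) (S : ℝ → State → State) : Prop :=
  ∀ x ∈ PhaseSpace, S 0 x = x ∧ IsWeakSolution L ν g (fun t => S t x)

/-- The trajectories of a solution operator. -/
def trajectories (S : ℝ → State → State) : Set (ℝ → State) :=
  {s | ∃ x ∈ PhaseSpace, s = fun t => S t x}

end Pool.Agent.Bous
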