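import Pool.Agent.Bous.Seq

/-!
# Passage to the limit in the Galerkin scheme (target M4)
-/

open Complex Set MeasureTheory Filter Topology
open scoped ComplexConjugate ENNReal

namespace Pool.Agent.Bous
namespace Lim

/-! ### kernels -/

theorem nsq_nonneg (k : K) : 0 ≤ nsq k := by unfold nsq; positivity

theorem nrm_nonneg (k : K) : 0 ≤ nrm k := Real.sqrt_nonneg _

theorem nrm_sq (k : K) : nrm k ^ 2 = nsq k := Real.sq_sqrt (nsq_nonneg k)

theorem one_le_nsq {k : K} (hk : k ≠ 0) : 1 ≤ nsq k := by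
  have h : k 0 ≠ 0 ∨ k 1 ≠ 0 := by
    by_contra hcon
    push Not at hcon
    apply hk
    funext i
    fin_cases i
    · exact hcon.1
    · exact hcon.2
  have key : ∀ n : ℤ, n ≠ 0 → (1 : ℝ) ≤ (n : ℝ) ^ 2 := by
    intro n hn
    have h1 : (1 : ℤ) ≤ n ^ 2 := by
      have := sq_nonneg n
      have h2 : n ^ 2 ≠ 0 := pow_ne_zero 2 hn
      omega
    exact_mod_cast h1
  unfold nsq
  rcases h with h | h
  · have := key _ h; nlinarith [sq_nonneg ((k 1 : ℤ) : ℝ)]
  · have := key _ h; nlinarith [sq_nonneg ((k 0 : ℤ) : ℝ)]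

theorem nrm_pos {k : K} (hk : k ≠ 0) : 0 < nrm k :=
  Real.sqrt_pos.mpr (lt_of_lt_of_le one_pos (one_le_nsq hk))

theorem abs_cross_le (j l : K) : |cross j l| ≤ nrm j * nrm l := by
  apply abs_le_of_sq_le_sq _ (mul_nonneg (nrm_nonneg _) (nrm_nonneg _))
  rw [mul_pow, nrm_sq, nrm_sq]
  unfold cross nsq
  nlinarith [sq_nonneg ((j 0 : ℝ) * (l 0 : ℝ) + (j 1 : ℝ) * (l 1 : ℝ))]

theorem abs_dot_le (j l : K) :
    |(j 0 : ℝ) * (l 0 : ℝ) + (j 1 : ℝ) * (l 1 : ℝ)| ≤ nrm j * nrm l := by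
  apply abs_le_of_sq_le_sq _ (mul_nonneg (nrm_nonneg _) (nrm_nonneg _))
  rw [mul_pow, nrm_sq, nrm_sq]
  unfold nsq
  nlinarith [sq_nonneg ((j 0 : ℝ) * (l 1 : ℝ) - (j 1 : ℝ) * (l 0 : ℝ))]

theorem nrm_sub_le (j l : K) : nrm (j - l) ≤ nrm j + nrm l := by
  apply le_of_sq_le_sq _ (add_nonneg (nrm_nonneg _) (nrm_nonneg _))
  rw [add_sq, nrm_sq, nrm_sq, nrm_sq]
  have h := (abs_le.mp (abs_dot_le j l)).1
  unfold nsq
  simp only [Pi.sub_apply, Int.cast_sub]
  nlinarith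

theorem cross_sub (j k : K) : cross j (k - j) = cross j k := by
  unfold cross
  simp only [Pi.sub_apply, Int.cast_sub]
  ring

theorem cross_sub' (j k : K) : cross j (k - j) = cross k (k - j) := by
  unfold cross
  simp only [Pi.sub_apply, Int.cast_sub]
  ring

theorem abs_al_le (j k : K) : |al j (k - j)| ≤ nrm k := by
  unfold al
  rw [cross_sub, abs_div, abs_of_nonneg (nrm_nonneg j)]
  rcases eq_or_ne j 0 with rfl | hj
  · have : nrm (0 : K) = 0 := by simp [nrm, nsq]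
    rw [this, div_zero]; exact nrm_nonneg k
  · rw [div_le_iff₀ (nrm_pos hj), mul_comm]
    exact abs_cross_le j k

theorem abs_be_le (j k : K) : |be j (k - j)| ≤ nrm k := by
  unfold be
  set l := k - j with hl
  have hjl : j + l = k := by rw [hl]; abel
  rw [hjl]
  have h0 : nrm (0 : K) = 0 := by simp [nrm, nsq]
  rcases eq_or_ne j 0 with hj | hj
  · rw [hj, h0]; simp [nrm_nonneg]
  rcases eq_or_ne l 0 with hl0 | hl0
  · rw [hl0, h0]; simp [nrm_nonneg]
  rcases eq_or_ne k 0 with hk | hk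
  · rw [hk, h0]; simp
  have pj := nrm_pos hj
  have pl := nrm_pos hl0
  have pk := nrm_pos hk
  rw [abs_div, abs_mul, abs_of_pos (show 0 < 2 * nrm j * nrm l * nrm k by positivity),
    div_le_iff₀ (by positivity)]
  have e1 : nsq l - nsq j = ((l - j) 0 : ℝ) * (k 0 : ℝ) + ((l - j) 1 : ℝ) * (k 1 : ℝ) := by
    rw [← hjl]; unfold nsq
    simp only [Pi.sub_apply, Pi.add_apply, Int.cast_sub, Int.cast_add]
    ring
  have h1 : |nsq l - nsq j| ≤ (nrm l + nrm j) * nrm k := by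
    rw [e1]
    refine (abs_dot_le (l - j) k).trans ?_
    exact mul_le_mul_of_nonneg_right (nrm_sub_le l j) pk.le
  have h2 : |cross j l| ≤ nrm j * nrm k := by
    rw [hl, cross_sub]; exact abs_cross_le j k
  have h3 : |cross j l| ≤ nrm k * nrm l := by
    rw [hl, cross_sub']; exact abs_cross_le k _
  have h4 : |cross j l| * (nrm l + nrm j) ≤ 2 * nrm j * nrm l * nrm k := by nlinarith
  calc |cross j l| * |nsq l - nsq j| ≤ |cross j l| * ((nrm l + nrm j) * nrm k) :=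
        mul_le_mul_of_nonneg_left h1 (abs_nonneg _)
    _ = (|cross j l| * (nrm l + nrm j)) * nrm k := by ring
    _ ≤ (2 * nrm j * nrm l * nrm k) * nrm k := mul_le_mul_of_nonneg_right h4 pk.le
    _ = nrm k * (2 * nrm j * nrm l * nrm k) := by ring

/-! ### the bilinear expressions -/

/-- uniform square bound -/
def B2 (w : K → ℂ) (B : ℝ) : Prop := ∀ s : Finset K, ∑ k ∈ s, ‖w k‖ ^ 2 ≤ B

/-- uniform `h¹` bound -/
def H1 (v : K → ℂ) (C : ℝ) : Prop := v 0 = 0 ∧ ∀ s : Finset K, ∑ k ∈ s, nsq k * ‖v k‖ ^ 2 ≤ C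

theorem H1.b2 {v : K → ℂ} {C : ℝ} (h : H1 v C) : B2 v C := by
  intro s
  refine le_trans (Finset.sum_le_sum fun k _ => ?_) (h.2 s)
  rcases eq_or_ne k 0 with rfl | hk
  · rw [h.1]; simp
  · have := one_le_nsq hk
    nlinarith [sq_nonneg ‖v k‖]

theorem B2.nonneg {w : K → ℂ} {B : ℝ} (h : B2 w B) : 0 ≤ B := by
  simpa using h ∅

theorem B2.le {w : K → ℂ} {B : ℝ} (h : B2 w B) (k : K) : ‖w k‖ ≤ Real.sqrt B := by
  apply Real.le_sqrt_of_sq_le
  simpa using h {k}

/-- generic bilinear sum -/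
noncomputable def bil (a : K → ℝ) (v w : K → ℂ) (k : K) : ℂ := ∑' j, (a j : ℂ) * v j * w (k - j)

/-- boxes -/
noncomputable def box (M : ℕ) : Finset K := Fintype.piFinset fun _ : Fin 2 => Finset.Icc (-(M : ℤ)) M

theorem mem_box {M : ℕ} {k : K} : k ∈ box M ↔ ∀ i, |k i| ≤ M := by
  unfold box
  simp only [Fintype.mem_piFinset, Finset.mem_Icc, abs_le]

theorem le_nsq_of_not_mem {M : ℕ} {k : K} (h : k ∉ box M) : (M : ℝ) ^ 2 ≤ nsq k := by
  rw [mem_box] at h
  push Not at h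
  obtain ⟨i, hi⟩ := h
  have h1 : (M : ℝ) ≤ |(k i : ℝ)| := by
    have : (M : ℤ) ≤ |k i| := hi.le
    have h2 : ((M : ℤ) : ℝ) ≤ ((|k i| : ℤ) : ℝ) := by exact_mod_cast this
    simpa using h2
  have h2 : (M : ℝ) ^ 2 ≤ (k i : ℝ) ^ 2 := by
    rw [← sq_abs (k i : ℝ)]
    exact pow_le_pow_left₀ (Nat.cast_nonneg M) h1 2
  unfold nsq
  fin_cases i
  · simp only [Fin.zero_eta, Fin.isValue] at h2
    nlinarith [sq_nonneg ((k 1 : ℤ) : ℝ)]
  · simp only [Fin.mk_one, Fin.isValue] at h2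
    nlinarith [sq_nonneg ((k 0 : ℤ) : ℝ)]

section bilin

variable {a : K → ℝ} {A : ℝ} {v w : K → ℂ} {B C : ℝ}

theorem sum_shift_le (hw : B2 w B) (k : K) (s : Finset K) :
    ∑ j ∈ s, ‖w (k - j)‖ ^ 2 ≤ B := by
  have h : ∑ j ∈ s, ‖w (k - j)‖ ^ 2 = ∑ l ∈ s.image (fun j => k - j), ‖w l‖ ^ 2 := by
    rw [Finset.sum_image]
    intro x _ y _ hxy
    simpa using hxy
  rw [h]
  exact hw _

theorem sum_bil_le (ha : ∀ j, |a j| ≤ A) (hw : B2 w B) (k : K) (s : Finset K) {D : ℝ}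
    (hD : ∑ j ∈ s, ‖v j‖ ^ 2 ≤ D) :
    ∑ j ∈ s, ‖(a j : ℂ) * v j * w (k - j)‖ ≤ A * (Real.sqrt D * Real.sqrt B) := by
  have hA : 0 ≤ A := (abs_nonneg _).trans (ha 0)
  calc ∑ j ∈ s, ‖(a j : ℂ) * v j * w (k - j)‖
      ≤ ∑ j ∈ s, A * (‖v j‖ * ‖w (k - j)‖) := by
        refine Finset.sum_le_sum fun j _ => ?_
        rw [norm_mul, norm_mul, Complex.norm_real, Real.norm_eq_abs, mul_assoc]
        exact mul_le_mul_of_nonneg_right (ha j) (by positivity)
    _ = A * ∑ j ∈ s, ‖v j‖ * ‖w (k - j)‖ := by rw [Finset.mul_sum]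
    _ ≤ A * (Real.sqrt D * Real.sqrt B) := by
        refine mul_le_mul_of_nonneg_left ?_ hA
        refine (Real.sum_mul_le_sqrt_mul_sqrt s _ _).trans ?_
        exact mul_le_mul (Real.sqrt_le_sqrt hD) (Real.sqrt_le_sqrt (sum_shift_le hw k s))
          (Real.sqrt_nonneg _) (Real.sqrt_nonneg _)

theorem summable_bil (ha : ∀ j, |a j| ≤ A) (hv : B2 v C) (hw : B2 w B) (k : K) :
    Summable fun j => (a j : ℂ) * v j * w (k - j) := by
  apply Summable.of_norm
  exact summable_of_sum_le (fun _ => norm_nonneg _)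
    (fun s => sum_bil_le ha hw k s (hv s))

theorem bil_bound (ha : ∀ j, |a j| ≤ A) (hv : B2 v C) (hw : B2 w B) (k : K) :
    ‖bil a v w k‖ ≤ A * (Real.sqrt C * Real.sqrt B) := by
  have h := (summable_bil ha hv hw k).hasSum
  refine le_of_tendsto (continuous_norm.continuousAt.tendsto.comp h) ?_
  refine Eventually.of_forall fun s => ?_
  exact (norm_sum_le _ _).trans (sum_bil_le ha hw k s (hv s))

theorem tail_sum_le (hv : H1 v C) {M : ℕ} (hM : 0 < M) (s : Finset K)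
    (hs : ∀ j ∈ s, j ∉ box M) : ∑ j ∈ s, ‖v j‖ ^ 2 ≤ C / (M : ℝ) ^ 2 := by
  have hM' : (0 : ℝ) < (M : ℝ) ^ 2 := by positivity
  rw [le_div_iff₀ hM', Finset.sum_mul]
  refine le_trans (Finset.sum_le_sum fun j hj => ?_) (hv.2 s)
  rw [mul_comm]
  exact mul_le_mul_of_nonneg_right (le_nsq_of_not_mem (hs j hj)) (by positivity)

theorem bil_tail (ha : ∀ j, |a j| ≤ A) (hv : H1 v C) (hw : B2 w B) (k : K) {M : ℕ}
    (hM : 0 < M) :
    ‖bil a v w k - ∑ j ∈ box M, (a j : ℂ) * v j * w (k - j)‖ ≤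
      A * (Real.sqrt (C / (M : ℝ) ^ 2) * Real.sqrt B) := by
  have h := (summable_bil ha hv.b2 hw k).hasSum
  have h2 : Tendsto (fun s : Finset K => ‖∑ j ∈ s, (a j : ℂ) * v j * w (k - j) -
      ∑ j ∈ box M, (a j : ℂ) * v j * w (k - j)‖) atTop
      (𝓝 ‖bil a v w k - ∑ j ∈ box M, (a j : ℂ) * v j * w (k - j)‖) := by
    apply Tendsto.norm
    exact Tendsto.sub_const h _
  refine le_of_tendsto h2 ?_
  filter_upwards [eventually_ge_atTop (box M)] with s hs
  have hsub : box M ⊆ s := hs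
  rw [← Finset.sum_sdiff hsub, add_sub_cancel_right]
  refine (norm_sum_le _ _).trans (sum_bil_le ha hw k _ ?_)
  exact tail_sum_le hv hM _ (fun j hj => (Finset.mem_sdiff.mp hj).2)

end bilin

theorem tendsto_of_approx {f : ℕ → ℂ} {x : ℂ}
    (h : ∀ ε > 0, ∃ (g : ℕ → ℂ) (y : ℂ), Tendsto g atTop (𝓝 y) ∧ (∀ n, ‖f n - g n‖ ≤ ε) ∧
      ‖x - y‖ ≤ ε) : Tendsto f atTop (𝓝 x) := by
  rw [Metric.tendsto_atTop]
  intro ε hε
  obtain ⟨g, y, hg, h1, h2⟩ := h (ε / 4) (by positivity)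
  rw [Metric.tendsto_atTop] at hg
  obtain ⟨N, hN⟩ := hg (ε / 4) (by positivity)
  refine ⟨N, fun n hn => ?_⟩
  have h3 := hN n hn
  rw [dist_eq_norm] at h3 ⊢
  have e : f n - x = (f n - g n) + (g n - y) - (x - y) := by ring
  rw [e]
  calc ‖(f n - g n) + (g n - y) - (x - y)‖ ≤ ‖(f n - g n) + (g n - y)‖ + ‖x - y‖ := norm_sub_le _ _
    _ ≤ ‖f n - g n‖ + ‖g n - y‖ + ‖x - y‖ := by gcongr; exact norm_add_le _ _
    _ < ε := by linarith [h1 n]

theorem bil_tendsto {a : K → ℝ} {A : ℝ} (ha : ∀ j, |a j| ≤ A) {v w : ℕ → K → ℂ} {v' w' : K → ℂ}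
    {B C : ℝ} (hv : ∀ n, H1 (v n) C) (hw : ∀ n, B2 (w n) B) (hv' : H1 v' C) (hw' : B2 w' B)
    (h1 : ∀ k, Tendsto (fun n => v n k) atTop (𝓝 (v' k)))
    (h2 : ∀ k, Tendsto (fun n => w n k) atTop (𝓝 (w' k))) (k : K) :
    Tendsto (fun n => bil a (v n) (w n) k) atTop (𝓝 (bil a v' w' k)) := by
  apply tendsto_of_approx
  intro ε hε
  have hlim : Tendsto (fun M : ℕ => A * (Real.sqrt (C / (M : ℝ) ^ 2) * Real.sqrt B)) atTop
      (𝓝 (A * (Real.sqrt 0 * Real.sqrt B))) := by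
    apply Tendsto.const_mul
    apply Tendsto.mul_const
    apply (Real.continuous_sqrt.tendsto 0).comp
    apply Tendsto.const_div_atTop
    exact (tendsto_pow_atTop two_ne_zero).comp tendsto_natCast_atTop_atTop
  rw [Real.sqrt_zero, zero_mul, mul_zero] at hlim
  obtain ⟨M, hM0, hM⟩ := ((eventually_gt_atTop 0).and (hlim.eventually_lt_const hε)).exists
  refine ⟨fun n => ∑ j ∈ box M, (a j : ℂ) * v n j * w n (k - j),
    ∑ j ∈ box M, (a j : ℂ) * v' j * w' (k - j), ?_, ?_, ?_⟩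
  · apply tendsto_finsetSum
    intro j _
    exact ((h1 j).const_mul _).mul (h2 _)
  · intro n
    exact (bil_tail ha (hv n) (hw n) k hM0).trans hM.le
  · exact (bil_tail ha hv' hw' k hM0).trans hM.le

/-- bound of the right-hand side of the velocity equation -/
noncomputable def cv (κ ν g C B : ℝ) (k : K) : ℝ :=
  κ * (nrm k * (Real.sqrt C * Real.sqrt C)) + |ν * κ ^ 2 * nsq k| * Real.sqrt C +
    |g * (k 0 / nrm k)| * Real.sqrt B

/-- bound of the right-hand side of the temperature equation -/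
noncomputable def ct (κ C B : ℝ) (k : K) : ℝ := κ * (nrm k * (Real.sqrt C * Real.sqrt B))

theorem rv_bound {κ ν g C B : ℝ} (hκ : 0 < κ) {v θ : K → ℂ} (hv : B2 v C) (hθ : B2 θ B) (k : K) :
    ‖rv κ ν g v θ k‖ ≤ cv κ ν g C B k := by
  unfold rv cv
  refine (norm_sub_le _ _).trans ?_
  refine add_le_add ((norm_sub_le _ _).trans (add_le_add ?_ ?_)) ?_
  · rw [norm_mul, Complex.norm_real, Real.norm_eq_abs, abs_of_pos hκ]
    refine mul_le_mul_of_nonneg_left ?_ hκ.le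
    exact bil_bound (fun j => abs_be_le j k) hv hv k
  · rw [norm_mul, Complex.norm_real, Real.norm_eq_abs]
    exact mul_le_mul_of_nonneg_left (hv.le k) (abs_nonneg _)
  · rw [norm_mul, norm_mul, Complex.norm_real, Real.norm_eq_abs, Complex.norm_I, one_mul]
    exact mul_le_mul_of_nonneg_left (hθ.le k) (abs_nonneg _)

theorem rt_bound {κ C B : ℝ} (hκ : 0 < κ) {v θ : K → ℂ} (hv : B2 v C) (hθ : B2 θ B) (k : K) :
    ‖rt κ v θ k‖ ≤ ct κ C B k := by
  unfold rt ct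
  rw [norm_mul, Complex.norm_real, Real.norm_eq_abs, abs_of_pos hκ]
  refine mul_le_mul_of_nonneg_left ?_ hκ.le
  exact bil_bound (fun j => abs_al_le j k) hv hθ k

theorem rv_tendsto (κ ν g : ℝ) {v w : ℕ → K → ℂ} {v' w' : K → ℂ}
    {C : ℝ} (hv : ∀ n, H1 (v n) C) (hv' : H1 v' C)
    (h1 : ∀ k, Tendsto (fun n => v n k) atTop (𝓝 (v' k)))
    (h2 : ∀ k, Tendsto (fun n => w n k) atTop (𝓝 (w' k))) (k : K) :
    Tendsto (fun n => rv κ ν g (v n) (w n) k) atTop (𝓝 (rv κ ν g v' w' k)) := by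
  unfold rv
  refine Tendsto.sub (Tendsto.sub (Tendsto.const_mul _ ?_) ((h1 k).const_mul _))
    ((h2 k).const_mul _)
  exact bil_tendsto (fun j => abs_be_le j k) hv (fun n => (hv n).b2) hv' hv'.b2 h1 h1 k

theorem rt_tendsto (κ : ℝ) {v w : ℕ → K → ℂ} {v' w' : K → ℂ}
    {B C : ℝ} (hv : ∀ n, H1 (v n) C) (hw : ∀ n, B2 (w n) B) (hv' : H1 v' C) (hw' : B2 w' B)
    (h1 : ∀ k, Tendsto (fun n => v n k) atTop (𝓝 (v' k)))
    (h2 : ∀ k, Tendsto (fun n => w n k) atTop (𝓝 (w' k))) (k : K) :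
    Tendsto (fun n => rt κ (v n) (w n) k) atTop (𝓝 (rt κ v' w' k)) := by
  unfold rt
  refine Tendsto.const_mul _ ?_
  exact bil_tendsto (fun j => abs_al_le j k) hv hw hv' hw' h1 h2 k

/-! ### extraction of a subsequence -/

theorem extract {ι : Type*} [Countable ι] (f : ℕ → ℝ → ι → ℂ) (R L : ι → ℝ)
    (hR : ∀ n t k, 0 ≤ t → ‖f n t k‖ ≤ R k)
    (hL : ∀ n k t t', 0 ≤ t → 0 ≤ t' → ‖f n t k - f n t' k‖ ≤ L k * |t - t'|) :
    ∃ (φ : ℕ → ℕ) (g : ℝ → ι → ℂ), StrictMono φ ∧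
      ∀ t, 0 ≤ t → ∀ k, Tendsto (fun n => f (φ n) t k) atTop (𝓝 (g t k)) := by
  classical
  let x : ℕ → (ℚ × ι → ℂ) := fun n p => f n (max (p.1 : ℝ) 0) p.2
  have hx : ∀ n, x n ∈ Set.pi univ (fun p : ℚ × ι => Metric.closedBall (0 : ℂ) (R p.2)) := by
    intro n p _
    rw [mem_closedBall_zero_iff]
    exact hR n _ _ (le_max_right _ _)
  obtain ⟨y, _, φ, hφ, hy⟩ :=
    (isCompact_univ_pi fun p : ℚ × ι => isCompact_closedBall (0 : ℂ) (R p.2)).tendsto_subseq hx
  have hy' : ∀ p, Tendsto (fun n => x (φ n) p) atTop (𝓝 (y p)) := fun p => tendsto_pi_nhds.mp hy p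
  have hc : ∀ t, 0 ≤ t → ∀ k, ∃ z, Tendsto (fun n => f (φ n) t k) atTop (𝓝 z) := by
    intro t ht k
    apply cauchySeq_tendsto_of_complete
    rw [Metric.cauchySeq_iff]
    intro ε hε
    have hLpos : 0 < |L k| + 1 := by positivity
    obtain ⟨q, hq1, hq2⟩ := exists_rat_btwn (show t < t + ε / (4 * (|L k| + 1)) by
      have : 0 < ε / (4 * (|L k| + 1)) := by positivity
      linarith)
    have hq0 : (0 : ℝ) ≤ q := ht.trans hq1.le
    have happ : ∀ n, dist (f (φ n) t k) (x (φ n) (q, k)) ≤ ε / 4 := by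
      intro n
      rw [dist_eq_norm]
      have e : x (φ n) (q, k) = f (φ n) q k := by
        change f (φ n) (max (q : ℝ) 0) k = _
        rw [max_eq_left hq0]
      rw [e]
      refine (hL (φ n) k t q ht hq0).trans ?_
      have h3 : |t - q| ≤ ε / (4 * (|L k| + 1)) := by
        rw [abs_sub_comm, abs_of_nonneg (by linarith)]; linarith
      calc L k * |t - q| ≤ (|L k| + 1) * (ε / (4 * (|L k| + 1))) := by
            refine mul_le_mul ((le_abs_self _).trans (by linarith)) h3 (abs_nonneg _) hLpos.le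
        _ = ε / 4 := by field_simp
    obtain ⟨N, hN⟩ := Metric.cauchySeq_iff.mp (hy' (q, k)).cauchySeq (ε / 4) (by positivity)
    refine ⟨N, fun m hm n hn => ?_⟩
    calc dist (f (φ m) t k) (f (φ n) t k)
        ≤ dist (f (φ m) t k) (x (φ m) (q, k)) + dist (x (φ m) (q, k)) (x (φ n) (q, k)) +
          dist (x (φ n) (q, k)) (f (φ n) t k) := dist_triangle4 _ _ _ _
      _ < ε := by
        have h4 := happ m
        have h5 := happ n
        rw [dist_comm] at h5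
        have h6 := hN m hm n hn
        linarith
  choose! g hg using hc
  exact ⟨φ, g, hφ, hg⟩

/-! ### Galerkin solutions -/

theorem modes_eq (N : ℕ) : modes N = (box N).erase 0 := rfl

theorem zero_not_mem_modes (N : ℕ) : (0 : K) ∉ modes N := by
  rw [modes_eq]; simp

theorem mem_modes_eventually {k : K} (hk : k ≠ 0) : ∀ᶠ N in atTop, k ∈ modes N := by
  filter_upwards [eventually_ge_atTop (max (k 0).natAbs (k 1).natAbs)] with N hN
  rw [modes_eq, Finset.mem_erase, mem_box]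
  refine ⟨hk, fun i => ?_⟩
  have h0 := (le_max_left _ _).trans hN
  have h1 := (le_max_right _ _).trans hN
  fin_cases i
  · simp only [Fin.zero_eta, Fin.isValue]
    rw [Int.abs_eq_natAbs]; exact_mod_cast h0
  · simp only [Fin.mk_one, Fin.isValue]
    rw [Int.abs_eq_natAbs]; exact_mod_cast h1

theorem sum_le_of_supp (f : K → ℝ) (hf : ∀ k, 0 ≤ f k) (S : Finset K) (h0 : ∀ k, k ∉ S → f k = 0)
    (s : Finset K) : ∑ k ∈ s, f k ≤ ∑ k ∈ S, f k := by
  classical
  calc ∑ k ∈ s, f k ≤ ∑ k ∈ s ∪ S, f k :=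
        Finset.sum_le_sum_of_subset_of_nonneg Finset.subset_union_left (fun _ _ _ => hf _)
    _ = ∑ k ∈ S, f k := by
        symm
        apply Finset.sum_subset Finset.subset_union_right
        intro x _ hx
        exact h0 x hx

section gal

variable {κ ν g C B : ℝ} {N : ℕ} {v θ : ℝ → K → ℂ}

theorem gal_b2 (h : GalSol κ ν g N v θ)
    (hB : ∀ t, 0 ≤ t → ∑ k ∈ modes N, ‖θ t k‖ ^ 2 ≤ B) (t : ℝ) (ht : 0 ≤ t) : B2 (θ t) B := by
  intro s
  refine (sum_le_of_supp _ (fun k => by positivity) (modes N) ?_ s).trans (hB t ht)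
  intro k hk
  rw [h.t_supp t ht k hk]; simp

theorem gal_h1 (h : GalSol κ ν g N v θ)
    (hC : ∀ t, 0 ≤ t → ∑ k ∈ modes N, nsq k * ‖v t k‖ ^ 2 ≤ C) (t : ℝ) (ht : 0 ≤ t) :
    H1 (v t) C := by
  refine ⟨h.v_supp t ht 0 (zero_not_mem_modes N), fun s => ?_⟩
  refine (sum_le_of_supp _ (fun k => mul_nonneg (nsq_nonneg k) (by positivity)) (modes N)
    ?_ s).trans (hC t ht)
  intro k hk
  rw [h.v_supp t ht k hk]; simp

theorem rv_cont (h : GalSol κ ν g N v θ) (k : K) :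
    ContinuousOn (fun s => rv κ ν g (v s) (θ s) k) (Ici 0) := by
  have h1 : ContinuousOn (fun s => BE (v s) (v s) k) (Ici 0) := by
    have h2 : ContinuousOn (fun s => ∑ j ∈ modes N, (be j (k - j) : ℂ) * v s j * v s (k - j))
        (Ici 0) := by
      apply continuousOn_finsetSum
      intro j _
      exact (continuousOn_const.mul (h.v_cont j)).mul (h.v_cont _)
    refine h2.congr fun s hs => ?_
    unfold BE
    apply tsum_eq_sum
    intro j hj
    rw [h.v_supp s hs j hj]; simp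
  unfold rv
  exact ((continuousOn_const.mul h1).sub (continuousOn_const.mul (h.v_cont k))).sub
    (continuousOn_const.mul (h.t_cont k))

theorem rt_cont (h : GalSol κ ν g N v θ) (k : K) :
    ContinuousOn (fun s => rt κ (v s) (θ s) k) (Ici 0) := by
  have h1 : ContinuousOn (fun s => AL (v s) (θ s) k) (Ici 0) := by
    have h2 : ContinuousOn (fun s => ∑ j ∈ modes N, (al j (k - j) : ℂ) * v s j * θ s (k - j))
        (Ici 0) := by
      apply continuousOn_finsetSum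
      intro j _
      exact (continuousOn_const.mul (h.v_cont j)).mul (h.t_cont _)
    refine h2.congr fun s hs => ?_
    unfold AL
    apply tsum_eq_sum
    intro j hj
    rw [h.v_supp s hs j hj]; simp
  unfold rt
  exact continuousOn_const.mul h1

theorem lip_of_eq {x : ℝ → ℂ} {f : ℝ → ℂ} {c : ℝ} (hf : ContinuousOn f (Ici 0))
    (hx : ∀ t, 0 ≤ t → x t = x 0 + ∫ s in (0 : ℝ)..t, f s) (hc : ∀ s, 0 ≤ s → ‖f s‖ ≤ c)
    (t t' : ℝ) (ht : 0 ≤ t) (ht' : 0 ≤ t') : ‖x t - x t'‖ ≤ c * |t - t'| := by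
  have hint : ∀ r, 0 ≤ r → IntervalIntegrable f volume 0 r := by
    intro r hr
    apply ContinuousOn.intervalIntegrable
    refine hf.mono ?_
    rw [uIcc_of_le hr]
    exact fun y hy => hy.1
  rw [hx t ht, hx t' ht', add_sub_add_left_eq_sub,
    intervalIntegral.integral_interval_sub_left (hint t ht) (hint t' ht')]
  apply intervalIntegral.norm_integral_le_of_norm_le_const
  intro s hs
  apply hc
  rw [Set.mem_uIoc] at hs
  rcases hs with hs | hs
  · exact ht'.trans hs.1.le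
  · exact ht.trans hs.1.le

theorem gal_lip_v (hκ : 0 < κ) (h : GalSol κ ν g N v θ) (hB : ∀ t, 0 ≤ t → B2 (θ t) B)
    (hC : ∀ t, 0 ≤ t → H1 (v t) C) (k : K) (t t' : ℝ) (ht : 0 ≤ t) (ht' : 0 ≤ t') :
    ‖v t k - v t' k‖ ≤ cv κ ν g C B k * |t - t'| := by
  by_cases hk : k ∈ modes N
  · exact lip_of_eq (x := fun t => v t k) (rv_cont h k) (h.v_eq k hk)
      (fun s hs => rv_bound hκ (hC s hs).b2 (hB s hs) k) t t' ht ht'
  · rw [h.v_supp t ht k hk, h.v_supp t' ht' k hk, sub_self, norm_zero]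
    have := rv_bound (ν := ν) (g := g) hκ (hC 0 le_rfl).b2 (hB 0 le_rfl) k
    exact mul_nonneg ((norm_nonneg _).trans this) (abs_nonneg _)

theorem gal_lip_t (hκ : 0 < κ) (h : GalSol κ ν g N v θ) (hB : ∀ t, 0 ≤ t → B2 (θ t) B)
    (hC : ∀ t, 0 ≤ t → H1 (v t) C) (k : K) (t t' : ℝ) (ht : 0 ≤ t) (ht' : 0 ≤ t') :
    ‖θ t k - θ t' k‖ ≤ ct κ C B k * |t - t'| := by
  by_cases hk : k ∈ modes N
  · exact lip_of_eq (x := fun t => θ t k) (rt_cont h k) (h.t_eq k hk)
      (fun s hs => rt_bound hκ (hC s hs).b2 (hB s hs) k) t t' ht ht'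
  · rw [h.t_supp t ht k hk, h.t_supp t' ht' k hk, sub_self, norm_zero]
    have := rt_bound hκ (hC 0 le_rfl).b2 (hB 0 le_rfl) k
    exact mul_nonneg ((norm_nonneg _).trans this) (abs_nonneg _)

end gal

/-! ### elements of `Seq2` -/

theorem B2.mem {w : K → ℂ} {B : ℝ} (h : B2 w B) : Memℓp w 2 := by
  apply memℓp_gen' (C := B)
  intro s
  simpa using h s

/-- time-dependent element of `Seq2` -/
noncomputable def toSeq (w : ℝ → K → ℂ) (h : ∀ t, 0 ≤ t → Memℓp (w t) 2) : ℝ → Seq2 :=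
  fun t => if ht : 0 ≤ t then ⟨w t, h t ht⟩ else 0

theorem toSeq_apply (w : ℝ → K → ℂ) (h : ∀ t, 0 ≤ t → Memℓp (w t) 2) {t : ℝ} (ht : 0 ≤ t) (k : K) :
    toSeq w h t k = w t k := by
  unfold toSeq
  rw [dif_pos ht]

theorem toSeq_coe (w : ℝ → K → ℂ) (h : ∀ t, 0 ≤ t → Memℓp (w t) 2) {t : ℝ} (ht : 0 ≤ t) :
    (toSeq w h t : K → ℂ) = w t := by
  funext k
  exact toSeq_apply w h ht k

theorem norm_le_of {x : Seq2} {η c : ℝ} (hc : 0 ≤ c) (hη : η ≤ c ^ 2) (h : B2 (x : K → ℂ) η) :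
    ‖x‖ ≤ c := by
  apply lp.norm_le_of_forall_sum_le (by norm_num) hc
  intro s
  have := (h s).trans hη
  simpa using this

theorem B2_of_norm (x : Seq2) : B2 (x : K → ℂ) (‖x‖ ^ 2) := by
  intro s
  have := lp.sum_rpow_le_norm_rpow (p := 2) (by norm_num) x s
  simpa using this

theorem toSeq_cont {w : ℝ → K → ℂ} {C : ℝ} (h : ∀ t, 0 ≤ t → Memℓp (w t) 2)
    (hH : ∀ t, 0 ≤ t → H1 (w t) C)
    (hc : ∀ k, ContinuousOn (fun t => w t k) (Ici 0)) : ContinuousOn (toSeq w h) (Ici 0) := by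
  classical
  intro t ht
  have ht : (0 : ℝ) ≤ t := ht
  rw [ContinuousWithinAt, Metric.tendsto_nhds]
  intro ε hε
  have hlim : Tendsto (fun M : ℕ => 4 * (C / (M : ℝ) ^ 2)) atTop (𝓝 (4 * 0)) := by
    apply Tendsto.const_mul
    apply Tendsto.const_div_atTop
    exact (tendsto_pow_atTop two_ne_zero).comp tendsto_natCast_atTop_atTop
  rw [mul_zero] at hlim
  obtain ⟨M, hM0, hM⟩ := ((eventually_gt_atTop 0).and
    (hlim.eventually_lt_const (show 0 < (ε / 2) ^ 2 / 2 by positivity))).exists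
  have hlim2 : Tendsto (fun s => ∑ k ∈ box M, ‖w s k - w t k‖ ^ 2) (𝓝[Ici 0] t)
      (𝓝 (∑ k ∈ box M, ‖w t k - w t k‖ ^ 2)) := by
    apply tendsto_finsetSum
    intro k _
    exact (((hc k t ht).tendsto.sub_const _).norm).pow 2
  simp only [sub_self, norm_zero, ne_eq, OfNat.ofNat_ne_zero, not_false_eq_true, zero_pow,
    Finset.sum_const_zero] at hlim2
  filter_upwards [hlim2.eventually_lt_const (show 0 < (ε / 2) ^ 2 / 2 by positivity),
    self_mem_nhdsWithin] with s hs hs0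
  have hs0 : (0 : ℝ) ≤ s := hs0
  rw [dist_eq_norm]
  refine lt_of_le_of_lt (norm_le_of (η := (ε / 2) ^ 2) (c := ε / 2) (by positivity) le_rfl ?_)
    (by linarith)
  intro S
  have e : ∀ k, ‖(toSeq w h s - toSeq w h t : Seq2) k‖ ^ 2 = ‖w s k - w t k‖ ^ 2 := by
    intro k
    rw [lp.coeFn_sub, Pi.sub_apply, toSeq_apply w h hs0, toSeq_apply w h ht]
  simp only [e]
  rw [← Finset.sum_filter_add_sum_filter_not S (fun k => k ∈ box M)]
  have a1 : ∑ k ∈ S.filter (fun k => k ∈ box M), ‖w s k - w t k‖ ^ 2 ≤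
      ∑ k ∈ box M, ‖w s k - w t k‖ ^ 2 := by
    apply Finset.sum_le_sum_of_subset_of_nonneg
    · intro k hk
      exact (Finset.mem_filter.mp hk).2
    · intro _ _ _; positivity
  have a2 : ∑ k ∈ S.filter (fun k => k ∉ box M), ‖w s k - w t k‖ ^ 2 ≤
      4 * (C / (M : ℝ) ^ 2) := by
    have b1 := tail_sum_le (hH s hs0) hM0 (S.filter (fun k => k ∉ box M))
      (fun j hj => (Finset.mem_filter.mp hj).2)
    have b2 := tail_sum_le (hH t ht) hM0 (S.filter (fun k => k ∉ box M))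
      (fun j hj => (Finset.mem_filter.mp hj).2)
    calc ∑ k ∈ S.filter (fun k => k ∉ box M), ‖w s k - w t k‖ ^ 2
        ≤ ∑ k ∈ S.filter (fun k => k ∉ box M), (2 * ‖w s k‖ ^ 2 + 2 * ‖w t k‖ ^ 2) := by
          apply Finset.sum_le_sum
          intro k _
          have h3 := norm_sub_le (w s k) (w t k)
          have h4 : ‖w s k - w t k‖ ^ 2 ≤ (‖w s k‖ + ‖w t k‖) ^ 2 :=
            pow_le_pow_left₀ (norm_nonneg _) h3 2
          nlinarith [sq_nonneg (‖w s k‖ - ‖w t k‖)]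
      _ = 2 * ∑ k ∈ S.filter (fun k => k ∉ box M), ‖w s k‖ ^ 2 +
          2 * ∑ k ∈ S.filter (fun k => k ∉ box M), ‖w t k‖ ^ 2 := by
          rw [Finset.sum_add_distrib, Finset.mul_sum, Finset.mul_sum]
      _ ≤ _ := by linarith
  linarith

/-! ### limits -/

theorem cont_of_lip {x : ℝ → ℂ} {c : ℝ}
    (h : ∀ t t', 0 ≤ t → 0 ≤ t' → ‖x t - x t'‖ ≤ c * |t - t'|) : ContinuousOn x (Ici 0) := by
  have h' : ∀ t ∈ Ici (0 : ℝ), ∀ t' ∈ Ici (0 : ℝ), dist (x t) (x t') ≤ (Real.toNNReal c) * dist t t' := by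
    intro t ht t' ht'
    rw [dist_eq_norm, Real.dist_eq]
    refine (h t t' ht ht').trans (mul_le_mul_of_nonneg_right (Real.le_coe_toNNReal c) (abs_nonneg _))
  exact (LipschitzOnWith.of_dist_le_mul h').continuousOn

theorem limit_eq {x : ℕ → ℝ → ℂ} {f : ℕ → ℝ → ℂ} {x' f' : ℝ → ℂ} {c : ℝ}
    (hf : ∀ n, ContinuousOn (f n) (Ici 0)) (hc : ∀ n s, 0 ≤ s → ‖f n s‖ ≤ c)
    (hx : ∀ t, 0 ≤ t → Tendsto (fun n => x n t) atTop (𝓝 (x' t)))
    (hff : ∀ t, 0 ≤ t → Tendsto (fun n => f n t) atTop (𝓝 (f' t)))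
    (heq : ∀ᶠ n in atTop, ∀ t, 0 ≤ t → x n t = x n 0 + ∫ s in (0 : ℝ)..t, f n s)
    (t : ℝ) (ht : 0 ≤ t) : x' t = x' 0 + ∫ s in (0 : ℝ)..t, f' s := by
  have h1 : Tendsto (fun n => ∫ s in (0 : ℝ)..t, f n s) atTop (𝓝 (∫ s in (0 : ℝ)..t, f' s)) := by
    apply intervalIntegral.tendsto_integral_filter_of_dominated_convergence (fun _ => c)
    · refine Eventually.of_forall fun n => ?_
      apply ContinuousOn.aestronglyMeasurable _ measurableSet_uIoc
      refine (hf n).mono ?_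
      rw [uIoc_of_le ht]
      exact fun y hy => hy.1.le
    · refine Eventually.of_forall fun n => ae_of_all _ fun s hs => ?_
      rw [uIoc_of_le ht] at hs
      exact hc n s hs.1.le
    · exact intervalIntegrable_const
    · refine ae_of_all _ fun s hs => ?_
      rw [uIoc_of_le ht] at hs
      exact hff s hs.1.le
  have h2 := (hx 0 le_rfl).add h1
  refine tendsto_nhds_unique (hx t ht) (h2.congr' ?_)
  filter_upwards [heq] with n hn
  exact (hn t ht).symm

theorem h2_bound {σ : ℕ → ℕ} {V : ℕ → ℝ → K → ℂ} {v : ℝ → K → ℂ} {C : ℝ}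
    (hV0 : ∀ n t, 0 ≤ t → ∀ k, k ∉ modes n → V n t k = 0)
    (hVc : ∀ n k, ContinuousOn (fun t => V n t k) (Ici 0))
    (hVC : ∀ n t, 0 ≤ t → B2 (V n t) C)
    (hD : ∀ n t, 0 ≤ t → ∫ s in (0 : ℝ)..t, ∑ k ∈ modes n, nsq k ^ 2 * ‖V n s k‖ ^ 2 ≤ C * t)
    (hlim : ∀ t, 0 ≤ t → ∀ k, Tendsto (fun n => V (σ n) t k) atTop (𝓝 (v t k)))
    (S : Finset K) (T : ℝ) (hT : 0 ≤ T) :
    ∫ s in (0 : ℝ)..T, ∑ k ∈ S, nsq k ^ 2 * ‖v s k‖ ^ 2 ≤ C * T := by
  have hcont : ∀ n (S' : Finset K),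
      ContinuousOn (fun s => ∑ k ∈ S', nsq k ^ 2 * ‖V n s k‖ ^ 2) (Ici 0) := by
    intro n S'
    apply continuousOn_finsetSum
    intro k _
    exact continuousOn_const.mul ((hVc n k).norm.pow 2)
  have h1 : Tendsto (fun n => ∫ s in (0 : ℝ)..T, ∑ k ∈ S, nsq k ^ 2 * ‖V (σ n) s k‖ ^ 2) atTop
      (𝓝 (∫ s in (0 : ℝ)..T, ∑ k ∈ S, nsq k ^ 2 * ‖v s k‖ ^ 2)) := by
    apply intervalIntegral.tendsto_integral_filter_of_dominated_convergence
      (fun _ => ∑ k ∈ S, nsq k ^ 2 * C)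
    · refine Eventually.of_forall fun n => ?_
      apply ContinuousOn.aestronglyMeasurable _ measurableSet_uIoc
      refine (hcont _ S).mono ?_
      rw [uIoc_of_le hT]
      exact fun y hy => hy.1.le
    · refine Eventually.of_forall fun n => ae_of_all _ fun s hs => ?_
      rw [uIoc_of_le hT] at hs
      rw [Real.norm_eq_abs, abs_of_nonneg (Finset.sum_nonneg fun k _ => by positivity)]
      apply Finset.sum_le_sum
      intro k _
      refine mul_le_mul_of_nonneg_left ?_ (by positivity)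
      simpa using hVC (σ n) s hs.1.le {k}
    · exact intervalIntegrable_const
    · refine ae_of_all _ fun s hs => ?_
      rw [uIoc_of_le hT] at hs
      apply tendsto_finsetSum
      intro k _
      exact (((hlim s hs.1.le k).norm).pow 2).const_mul _
  refine le_of_tendsto h1 (Eventually.of_forall fun n => ?_)
  refine le_trans ?_ (hD (σ n) T hT)
  apply intervalIntegral.integral_mono_on hT
  · apply ContinuousOn.intervalIntegrable
    refine (hcont _ _).mono ?_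
    rw [uIcc_of_le hT]
    exact fun y hy => hy.1
  · apply ContinuousOn.intervalIntegrable
    refine (hcont _ _).mono ?_
    rw [uIcc_of_le hT]
    exact fun y hy => hy.1
  · intro s hs
    apply sum_le_of_supp
    · intro k; positivity
    · intro k hk
      rw [hV0 (σ n) s hs.1 k hk]; simp

theorem lintegral_tsum_lt_top {v : ℝ → K → ℂ} {C : ℝ}
    (hc : ∀ k, ContinuousOn (fun t => v t k) (Ici 0))
    (h : ∀ (S : Finset K) (T : ℝ), 0 ≤ T →
      ∫ s in (0 : ℝ)..T, ∑ k ∈ S, nsq k ^ 2 * ‖v s k‖ ^ 2 ≤ C * T) (T : ℝ) (hT : 0 ≤ T) :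
    ∫⁻ t in Icc 0 T, ∑' k, ENNReal.ofReal (nsq k ^ 2 * ‖v t k‖ ^ 2) < ⊤ := by
  have hcont : ∀ k, ContinuousOn (fun s => nsq k ^ 2 * ‖v s k‖ ^ 2) (Icc 0 T) := by
    intro k
    refine ContinuousOn.mono ?_ (fun y hy => hy.1 : Icc (0 : ℝ) T ⊆ Ici 0)
    exact continuousOn_const.mul ((hc k).norm.pow 2)
  have hint : ∀ k, IntegrableOn (fun s => nsq k ^ 2 * ‖v s k‖ ^ 2) (Icc 0 T) := fun k =>
    (hcont k).integrableOn_Icc
  rw [lintegral_tsum]
  · refine lt_of_le_of_lt (b := ENNReal.ofReal (C * T)) ?_ ENNReal.ofReal_lt_top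
    rw [ENNReal.tsum_eq_iSup_sum]
    apply iSup_le
    intro S
    have e : ∑ k ∈ S, ∫⁻ t in Icc 0 T, ENNReal.ofReal (nsq k ^ 2 * ‖v t k‖ ^ 2) =
        ENNReal.ofReal (∫ s in (0 : ℝ)..T, ∑ k ∈ S, nsq k ^ 2 * ‖v s k‖ ^ 2) := by
      rw [intervalIntegral.integral_of_le hT, ← integral_Icc_eq_integral_Ioc,
        integral_finsetSum S (fun k _ => hint k), ENNReal.ofReal_sum_of_nonneg]
      · apply Finset.sum_congr rfl
        intro k _
        rw [ofReal_integral_eq_lintegral_ofReal (hint k)]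
        exact ae_of_all _ fun s => by positivity
      · intro k _
        exact integral_nonneg fun s => by positivity
    rw [e]
    exact ENNReal.ofReal_le_ofReal (h S T hT)
  · intro k
    exact ((hcont k).aemeasurable measurableSet_Icc).ennreal_ofReal

end Lim

open Lim in
/-- **M4** -/
theorem targetM4 : TargetM4 := by
  intro κ ν g C T hκ hν hg hT φ hsym hφ0 hGal
  choose V Θ hGS hV0 hΘT hB hC hD using hGal
  have hb : ∀ N t, 0 ≤ t → B2 (Θ N t) (‖φ‖ ^ 2) := fun N => gal_b2 (hGS N) (hB N)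
  have hh : ∀ N t, 0 ≤ t → H1 (V N t) C := fun N => gal_h1 (hGS N) (hC N)
  obtain ⟨σ, G, hσ, hG⟩ := extract (ι := K ⊕ K) (fun n t => Sum.elim (V n t) (Θ n t))
    (Sum.elim (fun _ => Real.sqrt C) (fun _ => Real.sqrt (‖φ‖ ^ 2)))
    (Sum.elim (cv κ ν g C (‖φ‖ ^ 2)) (ct κ C (‖φ‖ ^ 2)))
    (by
      rintro n t (k | k) ht
      · exact (hh n t ht).b2.le k
      · exact (hb n t ht).le k)
    (by
      rintro n (k | k) t t' ht ht'
      · exact gal_lip_v hκ (hGS n) (hb n) (hh n) k t t' ht ht'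
      · exact gal_lip_t hκ (hGS n) (hb n) (hh n) k t t' ht ht')
  set v' : ℝ → K → ℂ := fun t k => G t (Sum.inl k) with hv'def
  set θ' : ℝ → K → ℂ := fun t k => G t (Sum.inr k) with hθ'def
  have h1 : ∀ t, 0 ≤ t → ∀ k, Tendsto (fun n => V (σ n) t k) atTop (𝓝 (v' t k)) :=
    fun t ht k => hG t ht (Sum.inl k)
  have h2 : ∀ t, 0 ≤ t → ∀ k, Tendsto (fun n => Θ (σ n) t k) atTop (𝓝 (θ' t k)) :=
    fun t ht k => hG t ht (Sum.inr k)
  have hv' : ∀ t, 0 ≤ t → H1 (v' t) C := by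
    intro t ht
    refine ⟨?_, fun s => ?_⟩
    · refine tendsto_nhds_unique (h1 t ht 0) ?_
      simp only [(hh _ t ht).1]
      exact tendsto_const_nhds
    · refine le_of_tendsto (tendsto_finsetSum s fun k _ => ((h1 t ht k).norm.pow 2).const_mul
        (nsq k)) (Eventually.of_forall fun n => (hh (σ n) t ht).2 s)
  have hθ' : ∀ t, 0 ≤ t → B2 (θ' t) (‖φ‖ ^ 2) := by
    intro t ht s
    exact le_of_tendsto (tendsto_finsetSum s fun k _ => ((h2 t ht k).norm.pow 2))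
      (Eventually.of_forall fun n => (hb (σ n) t ht) s)
  have hθ0 : ∀ t, 0 ≤ t → θ' t 0 = 0 := by
    intro t ht
    refine tendsto_nhds_unique (h2 t ht 0) ?_
    have : ∀ n, Θ (σ n) t 0 = 0 := fun n => (hGS (σ n)).t_supp t ht 0 (zero_not_mem_modes _)
    simp only [this]
    exact tendsto_const_nhds
  have hlv : ∀ k t t', 0 ≤ t → 0 ≤ t' → ‖v' t k - v' t' k‖ ≤ cv κ ν g C (‖φ‖ ^ 2) k * |t - t'| := by
    intro k t t' ht ht'
    exact le_of_tendsto ((h1 t ht k).sub (h1 t' ht' k)).norm (Eventually.of_forall fun n =>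
      gal_lip_v hκ (hGS _) (hb _) (hh _) k t t' ht ht')
  have hlt : ∀ k t t', 0 ≤ t → 0 ≤ t' → ‖θ' t k - θ' t' k‖ ≤ ct κ C (‖φ‖ ^ 2) k * |t - t'| := by
    intro k t t' ht ht'
    exact le_of_tendsto ((h2 t ht k).sub (h2 t' ht' k)).norm (Eventually.of_forall fun n =>
      gal_lip_t hκ (hGS _) (hb _) (hh _) k t t' ht ht')
  have hcv : ∀ k, ContinuousOn (fun t => v' t k) (Ici 0) := fun k => cont_of_lip (hlv k)
  have hct : ∀ k, ContinuousOn (fun t => θ' t k) (Ici 0) := fun k => cont_of_lip (hlt k)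
  have mv : ∀ t, 0 ≤ t → Memℓp (v' t) 2 := fun t ht => (hv' t ht).b2.mem
  have mt : ∀ t, 0 ≤ t → Memℓp (θ' t) 2 := fun t ht => (hθ' t ht).mem
  -- convergence of the right-hand sides
  have hrv : ∀ t, 0 ≤ t → ∀ k, Tendsto (fun n => rv κ ν g (V (σ n) t) (Θ (σ n) t) k) atTop
      (𝓝 (rv κ ν g (v' t) (θ' t) k)) := fun t ht k =>
    rv_tendsto κ ν g (fun n => hh (σ n) t ht) (hv' t ht) (h1 t ht) (h2 t ht) k
  have hrt : ∀ t, 0 ≤ t → ∀ k, Tendsto (fun n => rt κ (V (σ n) t) (Θ (σ n) t) k) atTop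
      (𝓝 (rt κ (v' t) (θ' t) k)) := fun t ht k =>
    rt_tendsto κ (fun n => hh (σ n) t ht) (fun n => hb (σ n) t ht) (hv' t ht) (hθ' t ht)
      (h1 t ht) (h2 t ht) k
  have hn0 : nrm (0 : K) = 0 := by simp [nrm, nsq]
  have hs0 : nsq (0 : K) = 0 := by simp [nsq]
  have veq : ∀ k t, 0 ≤ t → v' t k = v' 0 k + ∫ s in (0 : ℝ)..t, rv κ ν g (v' s) (θ' s) k := by
    intro k t ht
    rcases eq_or_ne k 0 with rfl | hk
    · rw [(hv' t ht).1, (hv' 0 le_rfl).1]
      have : ∫ s in (0 : ℝ)..t, rv κ ν g (v' s) (θ' s) 0 = 0 := by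
        rw [← norm_le_zero_iff]
        refine (intervalIntegral.norm_integral_le_of_norm_le_const (C := 0) ?_).trans (by simp)
        intro s hs
        rw [uIoc_of_le ht] at hs
        refine (rv_bound hκ (hv' s hs.1.le).b2 (hθ' s hs.1.le) 0).trans ?_
        unfold cv
        rw [hn0, hs0]; simp
      rw [this]; simp
    · refine limit_eq (x := fun n t => V (σ n) t k) (f := fun n t => rv κ ν g (V (σ n) t) (Θ (σ n) t) k)
        (x' := fun t => v' t k) (f' := fun t => rv κ ν g (v' t) (θ' t) k)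
        (c := cv κ ν g C (‖φ‖ ^ 2) k) (fun n => rv_cont (hGS _) k)
        (fun n s hs => rv_bound hκ (hh _ s hs).b2 (hb _ s hs) k) (fun t ht => h1 t ht k)
        (fun t ht => hrv t ht k) ?_ t ht
      filter_upwards [hσ.tendsto_atTop.eventually (mem_modes_eventually hk)] with n hn
      exact (hGS (σ n)).v_eq k hn
  have teq : ∀ k t, 0 ≤ t → θ' t k = θ' 0 k + ∫ s in (0 : ℝ)..t, rt κ (v' s) (θ' s) k := by
    intro k t ht
    rcases eq_or_ne k 0 with rfl | hk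
    · rw [hθ0 t ht, hθ0 0 le_rfl]
      have : ∫ s in (0 : ℝ)..t, rt κ (v' s) (θ' s) 0 = 0 := by
        rw [← norm_le_zero_iff]
        refine (intervalIntegral.norm_integral_le_of_norm_le_const (C := 0) ?_).trans (by simp)
        intro s hs
        rw [uIoc_of_le ht] at hs
        refine (rt_bound hκ (hv' s hs.1.le).b2 (hθ' s hs.1.le) 0).trans ?_
        unfold ct
        rw [hn0]; simp
      rw [this]; simp
    · refine limit_eq (x := fun n t => Θ (σ n) t k) (f := fun n t => rt κ (V (σ n) t) (Θ (σ n) t) k)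
        (x' := fun t => θ' t k) (f' := fun t => rt κ (v' t) (θ' t) k)
        (c := ct κ C (‖φ‖ ^ 2) k) (fun n => rt_cont (hGS _) k)
        (fun n s hs => rt_bound hκ (hh _ s hs).b2 (hb _ s hs) k) (fun t ht => h2 t ht k)
        (fun t ht => hrt t ht k) ?_ t ht
      filter_upwards [hσ.tendsto_atTop.eventually (mem_modes_eventually hk)] with n hn
      exact (hGS (σ n)).t_eq k hn
  have hθn : ∀ t, 0 ≤ t → ‖toSeq θ' mt t‖ ≤ ‖φ‖ := by
    intro t ht
    refine norm_le_of (norm_nonneg φ) le_rfl ?_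
    rw [toSeq_coe θ' mt ht]
    exact hθ' t ht
  refine ⟨toSeq v' mv, toSeq θ' mt, ?_, ?_, ?_, hθn, ?_, ?_⟩
  · refine ⟨?_, ?_, ?_, ?_, toSeq_cont mv hv' hcv, ?_, ?_, ?_, ?_, ?_⟩
    · intro t ht k
      rw [toSeq_apply v' mv ht, toSeq_apply v' mv ht]
      refine tendsto_nhds_unique (h1 t ht (-k)) ?_
      simp only [fun n => (hGS (σ n)).v_symm t ht k]
      exact (Complex.continuous_conj.tendsto _).comp (h1 t ht k)
    · intro t ht k
      rw [toSeq_apply θ' mt ht, toSeq_apply θ' mt ht]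
      refine tendsto_nhds_unique (h2 t ht (-k)) ?_
      simp only [fun n => (hGS (σ n)).t_symm t ht k]
      exact (Complex.continuous_conj.tendsto _).comp (h2 t ht k)
    · intro t ht
      rw [toSeq_apply v' mv ht]
      exact (hv' t ht).1
    · intro t ht
      rw [toSeq_apply θ' mt ht]
      exact hθ0 t ht
    · intro k
      exact (hct k).congr fun t ht => toSeq_apply θ' mt ht k
    · intro T
      exact ⟨‖φ‖, fun t ht => hθn t ht.1⟩
    · intro T
      refine lt_of_le_of_lt (b := ∫⁻ t in Icc (0 : ℝ) T, ENNReal.ofReal C) ?_ ?_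
      · refine setLIntegral_mono' measurableSet_Icc fun t ht => ?_
        rw [ENNReal.tsum_eq_iSup_sum]
        apply iSup_le
        intro S
        rw [← ENNReal.ofReal_sum_of_nonneg
          (fun k _ => mul_nonneg (nsq_nonneg k) (by positivity))]
        apply ENNReal.ofReal_le_ofReal
        simp only [toSeq_apply v' mv ht.1]
        exact (hv' t ht.1).2 S
      · rw [setLIntegral_const]
        exact ENNReal.mul_lt_top ENNReal.ofReal_lt_top (by simp)
    · intro k t ht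
      rw [toSeq_apply v' mv ht, toSeq_apply v' mv le_rfl, veq k t ht]
      congr 1
      apply intervalIntegral.integral_congr
      intro s hs
      rw [uIcc_of_le ht] at hs
      simp only [toSeq_coe v' mv hs.1, toSeq_coe θ' mt hs.1]
    · intro k t ht
      rw [toSeq_apply θ' mt ht, toSeq_apply θ' mt le_rfl, teq k t ht]
      congr 1
      apply intervalIntegral.integral_congr
      intro s hs
      rw [uIcc_of_le ht] at hs
      simp only [toSeq_coe v' mv hs.1, toSeq_coe θ' mt hs.1]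
  · ext k
    rw [toSeq_apply v' mv le_rfl]
    refine tendsto_nhds_unique (h1 0 le_rfl k) ?_
    simp only [hV0]
    exact tendsto_const_nhds
  · ext k
    rw [toSeq_apply θ' mt hT]
    rcases eq_or_ne k 0 with rfl | hk
    · rw [hθ0 T hT, hφ0]
    · refine tendsto_nhds_unique (h2 T hT k) ?_
      refine tendsto_const_nhds.congr' ?_
      filter_upwards [hσ.tendsto_atTop.eventually (mem_modes_eventually hk)] with n hn
      exact (hΘT (σ n) k hn).symm
  · intro t ht s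
    simp only [toSeq_apply v' mv ht]
    exact (hv' t ht).2 s
  · intro T'
    rcases lt_or_ge T' 0 with hT' | hT'
    · rw [Icc_eq_empty (not_le.mpr hT')]
      simp
    · have key := lintegral_tsum_lt_top hcv (C := C) (h2_bound (σ := σ)
        (fun n t ht k hk => (hGS n).v_supp t ht k hk) (fun n k => (hGS n).v_cont k)
        (fun n t ht => (hh n t ht).b2) (fun n t ht => hD n t ht) h1) T' hT'
      refine lt_of_le_of_lt (le_of_eq ?_) key
      refine setLIntegral_congr_fun measurableSet_Icc fun t ht => ?_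
      simp only [toSeq_apply v' mv ht.1]

end Pool.Agent.Bous
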