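import Mathlib

/-!
# The Boussinesq system in Fourier coefficients (sequence level)

For a real, mean-free, divergence-free velocity `u` on the torus with wave numbers `κ k`
(`κ = 2 π / L`, `k ∈ ℤ²`) we write `û_k = i (k^⊥ / |k|) v_k`, `k^⊥ = (-k₁, k₀)`. Then the
semi-dissipative Boussinesq system is

* `v_k' = κ ∑_{j+l=k} be j l v_j v_l - ν κ² |k|² v_k - i g (k₀ / |k|) θ_k`,
* `θ_k' = κ ∑_{j+l=k} al j l v_j θ_l`.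
-/

open Complex Set MeasureTheory Filter Topology
open scoped ComplexConjugate ENNReal

namespace Pool.Agent.Bous

/-- wave vectors -/
abbrev K := Fin 2 → ℤ

/-- squared Euclidean length -/
def nsq (k : K) : ℝ := (k 0 : ℝ) ^ 2 + (k 1 : ℝ) ^ 2

/-- Euclidean length -/
noncomputable def nrm (k : K) : ℝ := Real.sqrt (nsq k)

/-- cross product -/
def cross (j l : K) : ℝ := (j 0 : ℝ) * (l 1 : ℝ) - (j 1 : ℝ) * (l 0 : ℝ)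

/-- kernel of the transport term -/
noncomputable def al (j l : K) : ℝ := cross j l / nrm j

/-- (symmetric) kernel of the Navier-Stokes nonlinearity -/
noncomputable def be (j l : K) : ℝ :=
  cross j l * (nsq l - nsq j) / (2 * nrm j * nrm l * nrm (j + l))

/-- transport term -/
noncomputable def AL (v θ : K → ℂ) (k : K) : ℂ := ∑' j, (al j (k - j) : ℂ) * v j * θ (k - j)

/-- Navier-Stokes nonlinearity -/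
noncomputable def BE (v w : K → ℂ) (k : K) : ℂ := ∑' j, (be j (k - j) : ℂ) * v j * w (k - j)

/-- right-hand side of the velocity equation -/
noncomputable def rv (κ ν g : ℝ) (v θ : K → ℂ) (k : K) : ℂ :=
  κ * BE v v k - ((ν * κ ^ 2 * nsq k : ℝ) : ℂ) * v k - I * ((g * (k 0 / nrm k) : ℝ) : ℂ) * θ k

/-- right-hand side of the temperature equation -/
noncomputable def rt (κ : ℝ) (v θ : K → ℂ) (k : K) : ℂ := κ * AL v θ k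

/-- square summable coefficient sequences -/
noncomputable abbrev Seq2 := lp (fun _ : K => ℂ) 2

/-- Weak solutions on `[0, ∞)` at the sequence level. -/
structure SeqSol (κ ν g : ℝ) (v θ : ℝ → Seq2) : Prop where
  v_symm : ∀ t, 0 ≤ t → ∀ k, v t (-k) = conj (v t k)
  t_symm : ∀ t, 0 ≤ t → ∀ k, θ t (-k) = conj (θ t k)
  v_mean : ∀ t, 0 ≤ t → v t 0 = 0
  t_mean : ∀ t, 0 ≤ t → θ t 0 = 0
  v_cont : ContinuousOn v (Ici 0)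
  t_cont : ∀ k, ContinuousOn (fun t => θ t k) (Ici 0)
  t_bdd : ∀ T, ∃ C, ∀ t ∈ Icc 0 T, ‖θ t‖ ≤ C
  v_h1 : ∀ T, ∫⁻ t in Icc 0 T, ∑' k, ENNReal.ofReal (nsq k * ‖v t k‖ ^ 2) < ⊤
  v_eq : ∀ k t, 0 ≤ t → v t k = v 0 k + ∫ s in (0 : ℝ)..t, rv κ ν g (v s) (θ s) k
  t_eq : ∀ k t, 0 ≤ t → θ t k = θ 0 k + ∫ s in (0 : ℝ)..t, rt κ (v s) (θ s) k

/-- The Galerkin modes. -/
noncomputable def modes (N : ℕ) : Finset K :=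
  (Fintype.piFinset fun _ : Fin 2 => Finset.Icc (-(N : ℤ)) N).erase 0

/-- Solutions of the Galerkin system with modes `modes N`. -/
structure GalSol (κ ν g : ℝ) (N : ℕ) (v θ : ℝ → K → ℂ) : Prop where
  v_symm : ∀ t, 0 ≤ t → ∀ k, v t (-k) = conj (v t k)
  t_symm : ∀ t, 0 ≤ t → ∀ k, θ t (-k) = conj (θ t k)
  v_supp : ∀ t, 0 ≤ t → ∀ k, k ∉ modes N → v t k = 0
  t_supp : ∀ t, 0 ≤ t → ∀ k, k ∉ modes N → θ t k = 0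
  v_cont : ∀ k, ContinuousOn (fun t => v t k) (Ici 0)
  t_cont : ∀ k, ContinuousOn (fun t => θ t k) (Ici 0)
  v_eq : ∀ k ∈ modes N, ∀ t, 0 ≤ t → v t k = v 0 k + ∫ s in (0 : ℝ)..t, rv κ ν g (v s) (θ s) k
  t_eq : ∀ k ∈ modes N, ∀ t, 0 ≤ t → θ t k = θ 0 k + ∫ s in (0 : ℝ)..t, rt κ (v s) (θ s) k

/-- **M3**: solution of the mixed Galerkin problem `v(0) = 0`, `θ(T) = φ` with bounds. -/
def TargetM3 : Prop :=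
  ∀ (κ ν g : ℝ), 0 < κ → 0 < ν → 0 < g → ∃ C : ℝ, ∀ (N : ℕ) (T : ℝ), 0 ≤ T → ∀ (φ : K → ℂ),
    (∀ k, φ (-k) = conj (φ k)) → (∀ k, k ∉ modes N → φ k = 0) →
    ∃ v θ : ℝ → K → ℂ, GalSol κ ν g N v θ ∧ v 0 = 0 ∧ θ T = φ ∧
      (∀ t, 0 ≤ t → ∑ k ∈ modes N, ‖θ t k‖ ^ 2 = ∑ k ∈ modes N, ‖φ k‖ ^ 2) ∧
      (∀ t, 0 ≤ t → ∑ k ∈ modes N, nsq k * ‖v t k‖ ^ 2 ≤ C * ∑ k ∈ modes N, ‖φ k‖ ^ 2) ∧
      (∀ t, 0 ≤ t → ∫ s in (0 : ℝ)..t, ∑ k ∈ modes N, nsq k ^ 2 * ‖v s k‖ ^ 2 ≤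
        C * t * ∑ k ∈ modes N, ‖φ k‖ ^ 2)

/-- **M4**: passage to the limit. -/
def TargetM4 : Prop :=
  ∀ (κ ν g C T : ℝ), 0 < κ → 0 < ν → 0 < g → 0 ≤ T → ∀ φ : Seq2,
    (∀ k, φ (-k) = conj (φ k)) → φ 0 = 0 →
    (∀ N : ℕ, ∃ v θ : ℝ → K → ℂ, GalSol κ ν g N v θ ∧ v 0 = 0 ∧
      (∀ k ∈ modes N, θ T k = φ k) ∧
      (∀ t, 0 ≤ t → ∑ k ∈ modes N, ‖θ t k‖ ^ 2 ≤ ‖φ‖ ^ 2) ∧
      (∀ t, 0 ≤ t → ∑ k ∈ modes N, nsq k * ‖v t k‖ ^ 2 ≤ C) ∧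
      (∀ t, 0 ≤ t → ∫ s in (0 : ℝ)..t, ∑ k ∈ modes N, nsq k ^ 2 * ‖v s k‖ ^ 2 ≤ C * t)) →
    ∃ v θ : ℝ → Seq2, SeqSol κ ν g v θ ∧ v 0 = 0 ∧ θ T = φ ∧
      (∀ t, 0 ≤ t → ‖θ t‖ ≤ ‖φ‖) ∧
      (∀ t, 0 ≤ t → ∀ s : Finset K, ∑ k ∈ s, nsq k * ‖v t k‖ ^ 2 ≤ C) ∧
      (∀ T, ∫⁻ t in Icc 0 T, ∑' k, ENNReal.ofReal (nsq k ^ 2 * ‖v t k‖ ^ 2) < ⊤)

/-- **M5**: uniqueness of weak solutions starting from `(0, θ₀)`, when one of them is regular. -/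
def TargetM5 : Prop :=
  ∀ (κ ν g C : ℝ), 0 < κ → 0 < ν → 0 < g → ∀ v θ v' θ' : ℝ → Seq2,
    SeqSol κ ν g v θ → SeqSol κ ν g v' θ' → v 0 = 0 → v' 0 = 0 → θ' 0 = θ 0 →
    (∀ t, 0 ≤ t → ∀ s : Finset K, ∑ k ∈ s, nsq k * ‖v t k‖ ^ 2 ≤ C) →
    (∀ T, ∫⁻ t in Icc 0 T, ∑' k, ENNReal.ofReal (nsq k ^ 2 * ‖v t k‖ ^ 2) < ⊤) →
    ∀ t, 0 ≤ t → v' t = v t ∧ θ' t = θ t

end Pool.Agent.Bous
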