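import Pool.Agent.Bous.Defs
import Pool.Agent.Bous.Seq

/-!
# Correspondence between the function level and the sequence level (statements)
-/

open MeasureTheory Set Filter Topology Complex
open scoped ENNReal InnerProductSpace ComplexConjugate

namespace Pool.Agent.Bous

/-- `k^⊥` -/
noncomputable def kperp (k : K) : Fin 2 → ℝ := ![-(k 1 : ℝ), (k 0 : ℝ)]

/-- `(v, θ)` are the coefficient sequences of the state `s`. -/
def Rel (s : State) (v θ : Seq2) : Prop :=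
  (∀ k, coef s.2 k = θ k) ∧ ∀ j k, coef (s.1 j) k = I * ((kperp k j / nrm k : ℝ) : ℂ) * v k

/-- **M6c**: basic correspondence for a single real function. -/
def TargetM6c : Prop :=
  (∀ f : RL2, ∃ a : Seq2, (∀ k, a k = coef f k) ∧ ‖a‖ = ‖f‖ ∧ ∀ k, a (-k) = conj (a k)) ∧
  (∀ a : Seq2, (∀ k, a (-k) = conj (a k)) → ∃ f : RL2, ∀ k, coef f k = a k) ∧
  (∀ f g : RL2, (∀ k, coef f k = coef g k) → f = g) ∧
  (∀ f g : RL2, ∀ a b : Seq2, (∀ k, a k = coef f k) → (∀ k, b k = coef g k) →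
    ((⟪f, g⟫_ℝ : ℝ) : ℂ) = ⟪a, b⟫_ℂ)

/-- **M6a**: weak solutions give sequence solutions. -/
def TargetM6a : Prop :=
  ∀ (L ν g : ℝ), 0 < L → 0 < ν → 0 < g → ∀ s : ℝ → State, IsWeakSolution L ν g s →
    ∃ v θ : ℝ → Seq2, SeqSol (2 * Real.pi / L) ν g v θ ∧ ∀ t, 0 ≤ t → Rel (s t) (v t) (θ t)

/-- **M6b**: sequence solutions give weak solutions. -/
def TargetM6b : Prop :=
  ∀ (L ν g : ℝ), 0 < L → 0 < ν → 0 < g → ∀ v θ : ℝ → Seq2,
    SeqSol (2 * Real.pi / L) ν g v θ →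
    ∃ s : ℝ → State, IsWeakSolution L ν g s ∧ ∀ t, 0 ≤ t → Rel (s t) (v t) (θ t)

end Pool.Agent.Bous
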