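import Pool.Agent.Bous.Flow
import Pool.Agent.Bous.Limit
import Pool.Agent.Bous.TransferDefs

/-!
# Assembly: the temperature projection of the sigma-attractor is everything
-/

open Complex Set MeasureTheory Filter Topology
open scoped ComplexConjugate ENNReal InnerProductSpace

namespace Pool.Agent.Bous.Asm

/-- The mixed problem `v(0) = 0`, `θ(T) = φ` at the sequence level. -/
theorem mixed_problem (κ ν g : ℝ) (hκ : 0 < κ) (hν : 0 < ν) (hg : 0 < g) (φ : Seq2)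
    (hs : ∀ k, φ (-k) = conj (φ k)) (h0 : φ 0 = 0) :
    ∃ C : ℝ, 0 ≤ C ∧ ∀ T, 0 ≤ T → ∃ v θ : ℝ → Seq2, SeqSol κ ν g v θ ∧ v 0 = 0 ∧ θ T = φ ∧
      (∀ t, 0 ≤ t → ‖θ t‖ ≤ ‖φ‖) ∧
      (∀ t, 0 ≤ t → ∀ s : Finset K, ∑ k ∈ s, nsq k * ‖v t k‖ ^ 2 ≤ C) ∧
      (∀ T, ∫⁻ t in Icc 0 T, ∑' k, ENNReal.ofReal (nsq k ^ 2 * ‖v t k‖ ^ 2) < ⊤) := by
  obtain ⟨C₀, hC₀⟩ := targetM3 κ ν g hκ hν hg
  refine ⟨|C₀| * ‖φ‖ ^ 2, by positivity, fun T hT => ?_⟩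
  refine targetM4 κ ν g (|C₀| * ‖φ‖ ^ 2) T hκ hν hg hT φ hs h0 fun N => ?_
  obtain ⟨v, θ, h1, h2, h3, h4, h5, h6⟩ := hC₀ N T hT (fun k => if k ∈ modes N then φ k else 0)
    (by
      intro k
      by_cases hk : k ∈ modes N
      · rw [if_pos hk, if_pos (neg_mem_modes.2 hk), hs]
      · rw [if_neg hk, if_neg (fun h => hk (neg_mem_modes.1 h)), map_zero])
    (fun k hk => if_neg hk)
  have hsum : ∑ k ∈ modes N, ‖(if k ∈ modes N then φ k else 0 : ℂ)‖ ^ 2 ≤ ‖φ‖ ^ 2 := by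
    have e : ∑ k ∈ modes N, ‖(if k ∈ modes N then φ k else 0 : ℂ)‖ ^ 2 =
        ∑ k ∈ modes N, ‖φ k‖ ^ 2 :=
      Finset.sum_congr rfl fun k hk => by rw [if_pos hk]
    rw [e]
    exact Lim.B2_of_norm φ _
  have hsum0 : 0 ≤ ∑ k ∈ modes N, ‖(if k ∈ modes N then φ k else 0 : ℂ)‖ ^ 2 :=
    Finset.sum_nonneg fun k _ => by positivity
  refine ⟨v, θ, h1, h2, ?_, ?_, ?_, ?_⟩
  · intro k hk
    rw [h3]
    exact if_pos hk
  · intro t ht
    exact (h4 t ht).trans_le hsum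
  · intro t ht
    refine (h5 t ht).trans ?_
    exact mul_le_mul (le_abs_self _) hsum hsum0 (abs_nonneg _)
  · intro t ht
    refine (h6 t ht).trans ?_
    have h7 : C₀ * t ≤ |C₀| * t := mul_le_mul_of_nonneg_right (le_abs_self _) ht
    calc C₀ * t * ∑ k ∈ modes N, ‖(if k ∈ modes N then φ k else 0 : ℂ)‖ ^ 2
        ≤ |C₀| * t * ‖φ‖ ^ 2 := mul_le_mul h7 hsum hsum0 (by positivity)
      _ = |C₀| * ‖φ‖ ^ 2 * t := by ring

/-- Bounded coefficientwise convergent sequences converge weakly in `Seq2`. -/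
theorem weak_of_coef {b : ℕ → Seq2} {b' : Seq2} {M : ℝ} (hM : ∀ n, ‖b n‖ ≤ M)
    (hb : ∀ k, Tendsto (fun n => b n k) atTop (𝓝 (b' k))) (a : Seq2) :
    Tendsto (fun n => ⟪a, b n⟫_ℂ) atTop (𝓝 ⟪a, b'⟫_ℂ) := by
  have hM0 : 0 ≤ M := (norm_nonneg _).trans (hM 0)
  -- approximate `a` by finitely supported sequences
  have happ := lp.hasSum_single (p := 2) (by norm_num) a
  rw [Metric.tendsto_atTop]
  intro ε hε
  obtain ⟨s, hs⟩ : ∃ s : Finset K, ‖a - ∑ k ∈ s, lp.single 2 k (a k)‖ * (M + ‖b'‖ + 1) < ε / 2 := by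
    have h1 : Tendsto (fun s : Finset K => ‖a - ∑ k ∈ s, lp.single 2 k (a k)‖ * (M + ‖b'‖ + 1))
        atTop (𝓝 (‖a - a‖ * (M + ‖b'‖ + 1))) :=
      ((tendsto_const_nhds.sub happ).norm).mul_const _
    rw [sub_self, norm_zero, zero_mul] at h1
    exact (h1.eventually_lt_const (show (0 : ℝ) < ε / 2 by positivity)).exists
  have h2 : Tendsto (fun n => ⟪(∑ k ∈ s, lp.single 2 k (a k) : Seq2), b n⟫_ℂ) atTop
      (𝓝 ⟪(∑ k ∈ s, lp.single 2 k (a k) : Seq2), b'⟫_ℂ) := by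
    simp only [sum_inner, lp.inner_single_left]
    refine tendsto_finsetSum _ fun k _ => ?_
    exact Tendsto.inner tendsto_const_nhds (hb k)
  rw [Metric.tendsto_atTop] at h2
  obtain ⟨n₀, hn₀⟩ := h2 (ε / 2) (by positivity)
  refine ⟨n₀, fun n hn => ?_⟩
  have h3 := hn₀ n hn
  rw [dist_eq_norm] at h3 ⊢
  obtain ⟨r, hr⟩ : ∃ r : Seq2, r = a - ∑ k ∈ s, lp.single 2 k (a k) := ⟨_, rfl⟩
  rw [← hr] at hs
  have h4 : ⟪a, b n⟫_ℂ - ⟪a, b'⟫_ℂ = ⟪r, b n - b'⟫_ℂ +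
      (⟪(∑ k ∈ s, lp.single 2 k (a k) : Seq2), b n⟫_ℂ -
        ⟪(∑ k ∈ s, lp.single 2 k (a k) : Seq2), b'⟫_ℂ) := by
    rw [hr, inner_sub_right, inner_sub_left, inner_sub_left]
    ring
  rw [h4]
  have h5 : ‖⟪r, b n - b'⟫_ℂ‖ ≤ ‖r‖ * (M + ‖b'‖ + 1) := by
    refine (norm_inner_le_norm _ _).trans ?_
    refine mul_le_mul_of_nonneg_left ?_ (norm_nonneg _)
    have := norm_sub_le (b n) b'
    linarith [hM n]
  refine (norm_add_le _ _).trans_lt ?_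
  linarith

/-! ### The velocity coefficients -/

lemma abs_kperp_div_le (j : Fin 2) (k : K) : |kperp k j / nrm k| ≤ 1 := by
  have h1 : |kperp k j| ≤ nrm k := by
    apply abs_le_of_sq_le_sq _ (nrm_nonneg k)
    have h2 : nrm k ^ 2 = nsq k := Real.sq_sqrt (nsq_nonneg k)
    rw [h2]
    unfold kperp nsq
    fin_cases j
    · simp only [Fin.zero_eta, Fin.isValue, Matrix.cons_val_zero, even_two, Even.neg_pow]
      nlinarith [sq_nonneg ((k 0 : ℤ) : ℝ)]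
    · simp only [Fin.mk_one, Fin.isValue, Matrix.cons_val_one, Matrix.cons_val_fin_one]
      nlinarith [sq_nonneg ((k 1 : ℤ) : ℝ)]
  rw [abs_div, abs_of_nonneg (nrm_nonneg k)]
  exact div_le_one_of_le₀ h1 (nrm_nonneg k)

lemma kperp_neg (j : Fin 2) (k : K) : kperp (-k) j = -kperp k j := by
  unfold kperp
  fin_cases j <;> simp

lemma norm_velcoef_le (j : Fin 2) (w : K → ℂ) (k : K) :
    ‖I * ((kperp k j / nrm k : ℝ) : ℂ) * w k‖ ≤ ‖w k‖ := by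
  rw [norm_mul, norm_mul, Complex.norm_I, one_mul, Complex.norm_real, Real.norm_eq_abs]
  calc |kperp k j / nrm k| * ‖w k‖ ≤ 1 * ‖w k‖ :=
        mul_le_mul_of_nonneg_right (abs_kperp_div_le j k) (norm_nonneg _)
    _ = ‖w k‖ := one_mul _

/-- velocity coefficients of the stream-function-type coefficients `w` -/
noncomputable def vel (j : Fin 2) (w : Seq2) : Seq2 :=
  ⟨fun k => I * ((kperp k j / nrm k : ℝ) : ℂ) * w k, by
    refine Lim.B2.mem (B := ‖w‖ ^ 2) fun s => ?_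
    refine le_trans (Finset.sum_le_sum fun k _ => ?_) (Lim.B2_of_norm w s)
    exact pow_le_pow_left₀ (norm_nonneg _) (norm_velcoef_le j w k) 2⟩

lemma vel_apply (j : Fin 2) (w : Seq2) (k : K) :
    vel j w k = I * ((kperp k j / nrm k : ℝ) : ℂ) * w k := rfl

lemma norm_vel_le (j : Fin 2) (w : Seq2) : ‖vel j w‖ ≤ ‖w‖ := by
  refine Lim.norm_le_of (norm_nonneg _) le_rfl fun s => ?_
  refine le_trans (Finset.sum_le_sum fun k _ => ?_) (Lim.B2_of_norm w s)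
  exact pow_le_pow_left₀ (norm_nonneg _) (norm_velcoef_le j w k) 2

lemma vel_symm (j : Fin 2) {w : Seq2} (hw : ∀ k, w (-k) = conj (w k)) (k : K) :
    vel j w (-k) = conj (vel j w k) := by
  rw [vel_apply, vel_apply, kperp_neg, nrm_neg, hw, map_mul, map_mul, Complex.conj_I,
    Complex.conj_ofReal]
  push_cast
  ring

lemma kperp_ne_zero {k : K} (hk : k ≠ 0) : ∃ j, kperp k j / nrm k ≠ 0 := by
  have h1 := nrm_pos hk
  by_contra hcon
  push Not at hcon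
  apply hk
  have h2 := hcon 0
  have h3 := hcon 1
  rw [div_eq_zero_iff] at h2 h3
  have h2' := h2.resolve_right h1.ne'
  have h3' := h3.resolve_right h1.ne'
  unfold kperp at h2' h3'
  simp only [Fin.isValue, Matrix.cons_val_zero, neg_eq_zero, Int.cast_eq_zero] at h2'
  simp only [Fin.isValue, Matrix.cons_val_one, Matrix.cons_val_fin_one, Int.cast_eq_zero] at h3'
  funext i
  fin_cases i
  · exact h3'
  · exact h2'

lemma rel_eq (hc : TargetM6c) {s s' : State} {v θ : Seq2} (h : Rel s v θ) (h' : Rel s' v θ) :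
    s = s' := by
  refine Prod.ext (funext fun j => hc.2.2.1 _ _ fun k => ?_) (hc.2.2.1 _ _ fun k => ?_)
  · rw [h.2, h'.2]
  · rw [h.1, h'.1]

lemma rel_seq_eq {s : State} {v θ v' θ' : Seq2} (h : Rel s v θ) (h' : Rel s v' θ')
    (h0 : v 0 = 0) (h0' : v' 0 = 0) : v' = v ∧ θ' = θ := by
  constructor
  · ext k
    by_cases hk : k = 0
    · rw [hk, h0, h0']
    · obtain ⟨j, hj⟩ := kperp_ne_zero hk
      have h1 := h.2 j k
      rw [h'.2 j k] at h1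
      have h2 : I * ((kperp k j / nrm k : ℝ) : ℂ) ≠ 0 :=
        mul_ne_zero Complex.I_ne_zero (Complex.ofReal_ne_zero.2 hj)
      exact mul_left_cancel₀ h2 h1
  · ext k
    rw [← h.1, ← h'.1]

/-! ### Uniqueness at the function level -/

theorem unique_of_seq (hM5 : TargetM5) (hM6a : TargetM6a) (hc : TargetM6c) {L ν g : ℝ}
    (hL : 0 < L) (hν : 0 < ν) (hg : 0 < g) {C : ℝ} {v θ : ℝ → Seq2}
    (h : SeqSol (2 * Real.pi / L) ν g v θ) (hv0 : v 0 = 0)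
    (hC : ∀ t, 0 ≤ t → ∀ s : Finset K, ∑ k ∈ s, nsq k * ‖v t k‖ ^ 2 ≤ C)
    (hP : ∀ T, ∫⁻ t in Icc 0 T, ∑' k, ENNReal.ofReal (nsq k ^ 2 * ‖v t k‖ ^ 2) < ⊤)
    {s s' : ℝ → State} (hs : ∀ t, 0 ≤ t → Rel (s t) (v t) (θ t))
    (hs' : IsWeakSolution L ν g s') (h0 : s' 0 = s 0) : ∀ t, 0 ≤ t → s' t = s t := by
  have hκ : 0 < 2 * Real.pi / L := by positivity
  obtain ⟨v', θ', h', hrel'⟩ := hM6a L ν g hL hν hg s' hs'
  have hr0 := hs 0 le_rfl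
  have hr0' := hrel' 0 le_rfl
  rw [h0] at hr0'
  obtain ⟨e1, e2⟩ := rel_seq_eq hr0 hr0' (h.v_mean 0 le_rfl) (h'.v_mean 0 le_rfl)
  have hu := hM5 _ ν g C hκ hν hg v θ v' θ' h h' hv0 (by rw [e1, hv0]) e2 hC hP
  intro t ht
  have h1 := hrel' t ht
  rw [(hu t ht).1, (hu t ht).2] at h1
  exact rel_eq hc h1 (hs t ht)

/-- The mixed problem `u(0) = 0`, `θ(T) = φ` at the function level. -/
theorem mixed_function (hM5 : TargetM5) (hM6a : TargetM6a) (hM6b : TargetM6b) (hc : TargetM6c)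
    {L ν g : ℝ} (hL : 0 < L) (hν : 0 < ν) (hg : 0 < g) (φ : RL2) (hφ : coef φ 0 = 0) :
    ∃ C : ℝ, 0 ≤ C ∧ ∀ T, 0 ≤ T → ∃ (s : ℝ → State) (w : Seq2), IsWeakSolution L ν g s ∧
      (s 0).1 = 0 ∧ ‖(s 0).2‖ ≤ ‖φ‖ ∧ (s T).2 = φ ∧ ‖w‖ ≤ C ∧ w 0 = 0 ∧
      (∀ k, w (-k) = conj (w k)) ∧ (∀ j k, coef ((s T).1 j) k = vel j w k) ∧
      (∀ s', IsWeakSolution L ν g s' → s' 0 = s 0 → ∀ t, 0 ≤ t → s' t = s t) := by
  have hκ : 0 < 2 * Real.pi / L := by positivity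
  obtain ⟨a, ha, han, has⟩ := hc.1 φ
  obtain ⟨C, hC0, hC⟩ := mixed_problem (2 * Real.pi / L) ν g hκ hν hg a has (by rw [ha, hφ])
  refine ⟨Real.sqrt C, Real.sqrt_nonneg _, fun T hT => ?_⟩
  obtain ⟨v, θ, h1, h2, h3, h4, h5, h6⟩ := hC T hT
  obtain ⟨s, hs, hrel⟩ := hM6b L ν g hL hν hg v θ h1
  refine ⟨s, v T, hs, ?_, ?_, ?_, ?_, h1.v_mean T hT, h1.v_symm T hT, ?_, ?_⟩
  · funext j
    refine hc.2.2.1 _ _ fun k => ?_
    rw [(hrel 0 le_rfl).2, h2]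
    obtain ⟨b, hb, hbn, -⟩ := hc.1 (0 : RL2)
    rw [norm_zero, norm_eq_zero] at hbn
    show _ = coef ((0 : RL2) : Torus → ℝ) k
    rw [← hb, hbn]
    simp
  · obtain ⟨b, hb, hbn, -⟩ := hc.1 (s 0).2
    have e : b = θ 0 := by
      ext k
      rw [hb, (hrel 0 le_rfl).1]
    rw [← hbn, e, ← han]
    exact h4 0 le_rfl
  · refine hc.2.2.1 _ _ fun k => ?_
    rw [(hrel T hT).1, h3, ha]
  · refine Lim.norm_le_of (Real.sqrt_nonneg _) (by rw [Real.sq_sqrt hC0]) ?_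
    exact Lim.H1.b2 ⟨h1.v_mean T hT, h5 T hT⟩
  · intro j k
    rw [(hrel T hT).2, vel_apply]
  · intro s' hs' h0
    exact unique_of_seq hM5 hM6a hc hL hν hg h1 h2 h5 h6 hrel hs' h0

/-- Every mean-free `φ ∈ L²` is in the temperature projection of the sigma-attractor. -/
theorem mem_image (hM5 : TargetM5) (hM6a : TargetM6a) (hM6b : TargetM6b) (hc : TargetM6c)
    {L ν g : ℝ} (hL : 0 < L) (hν : 0 < ν) (hg : 0 < g) {𝒮 : Set (ℝ → State)}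
    (h𝒮 : ∀ s, IsWeakSolution L ν g s →
      (∀ s', IsWeakSolution L ν g s' → s' 0 = s 0 → ∀ t, 0 ≤ t → s' t = s t) →
      ∃ s' ∈ 𝒮, ∀ t, 0 ≤ t → s' t = s t)
    {φ : RL2} (hφ : coef φ 0 = 0) : φ ∈ Prod.snd '' SigmaAttractor 𝒮 := by
  obtain ⟨C, hC0, hC⟩ := mixed_function hM5 hM6a hM6b hc hL hν hg φ hφ
  choose s w h1 h2 h3 h4 h5 h6 h7 h8 h9 using fun n : ℕ => hC n n.cast_nonneg
  -- extract a coefficientwise convergent subsequence of the velocities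
  obtain ⟨ψ, z, hψ, hz⟩ := Lim.extract (fun n _ k => w n k) (fun _ => C) (fun _ => 0)
    (fun n t k _ => (lp.norm_apply_le_norm (by norm_num) (w n) k).trans (h5 n))
    (fun n k t t' _ _ => by simp)
  have hz0 : ∀ k, Tendsto (fun n => w (ψ n) k) atTop (𝓝 (z 0 k)) := hz 0 le_rfl
  have hzB : Lim.B2 (z 0) (C ^ 2) := by
    intro F
    have hlim : Tendsto (fun n => ∑ k ∈ F, ‖w (ψ n) k‖ ^ 2) atTop (𝓝 (∑ k ∈ F, ‖z 0 k‖ ^ 2)) :=
      tendsto_finsetSum _ fun k _ => ((hz0 k).norm.pow 2)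
    refine le_of_tendsto hlim (Eventually.of_forall fun n => ?_)
    refine (Lim.B2_of_norm (w (ψ n)) F).trans ?_
    exact pow_le_pow_left₀ (norm_nonneg _) (h5 _) 2
  obtain ⟨W, hW⟩ : ∃ W : Seq2, ∀ k, W k = z 0 k := ⟨⟨z 0, Lim.B2.mem hzB⟩, fun _ => rfl⟩
  have hWt : ∀ k, Tendsto (fun n => w (ψ n) k) atTop (𝓝 (W k)) := fun k => by
    rw [hW]; exact hz0 k
  have hW0 : W 0 = 0 := by
    refine tendsto_nhds_unique (hWt 0) ?_
    simp only [h6]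
    exact tendsto_const_nhds
  have hWs : ∀ k, W (-k) = conj (W k) := by
    intro k
    refine tendsto_nhds_unique (hWt (-k)) ?_
    simp only [h7]
    exact (Complex.continuous_conj.tendsto _).comp (hWt k)
  choose U hU using fun j : Fin 2 => hc.2.1 (vel j W) (vel_symm j hWs)
  choose s' hs'm hs' using fun n : ℕ => h𝒮 (s n) (h1 n) (h9 n)
  refine ⟨(U, φ), ⟨⟨?_, ?_, hφ⟩, fun n => (ψ n : ℝ), fun n => s' (ψ n), ‖φ‖, ?_, ?_, ?_, ?_, ?_, ?_⟩,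
    rfl⟩
  · intro j
    show coef (U j) 0 = 0
    rw [hU, vel_apply, hW0, mul_zero]
  · intro k
    show ∑ j, (k j : ℂ) * coef (U j) k = 0
    simp only [hU, vel_apply, Fin.sum_univ_two, kperp, Matrix.cons_val_zero, Matrix.cons_val_one,
      Fin.isValue, Matrix.cons_val_fin_one]
    push_cast
    ring
  · intro n
    exact Nat.cast_nonneg _
  · exact tendsto_natCast_atTop_atTop.comp hψ.tendsto_atTop
  · intro n
    exact hs'm _
  · intro n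
    show s' (ψ n) 0 ∈ PhaseSpace ∧ ‖s' (ψ n) 0‖ ≤ ‖φ‖
    rw [hs' _ 0 le_rfl]
    refine ⟨(h1 _).mem 0 le_rfl, ?_⟩
    rw [Prod.norm_def, h2, norm_zero]
    exact max_le (norm_nonneg _) (h3 _)
  · intro f j
    obtain ⟨a, ha, -, -⟩ := hc.1 f
    have e1 : ∀ n, ⟪f, (s' (ψ n) (ψ n)).1 j⟫_ℝ = (⟪a, vel j (w (ψ n))⟫_ℂ).re := by
      intro n
      rw [hs' _ _ (Nat.cast_nonneg _), ← hc.2.2.2 f ((s (ψ n) (ψ n)).1 j) a (vel j (w (ψ n))) ha
        (fun k => (h8 (ψ n) j k).symm), Complex.ofReal_re]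
    have e2 : ⟪f, U j⟫_ℝ = (⟪a, vel j W⟫_ℂ).re := by
      rw [← hc.2.2.2 f (U j) a (vel j W) ha (fun k => (hU j k).symm), Complex.ofReal_re]
    show Tendsto (fun n => ⟪f, (s' (ψ n) (ψ n)).1 j⟫_ℝ) atTop (𝓝 ⟪f, U j⟫_ℝ)
    simp only [e1, e2]
    refine (Complex.continuous_re.tendsto _).comp ?_
    refine weak_of_coef (M := C) (fun n => (norm_vel_le j _).trans (h5 _)) (fun k => ?_) a
    simp only [vel_apply]
    exact (hWt k).const_mul _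
  · intro f
    show Tendsto (fun n => ⟪f, (s' (ψ n) (ψ n)).2⟫_ℝ) atTop (𝓝 ⟪f, φ⟫_ℝ)
    have e1 : ∀ n, (s' (ψ n) (ψ n)).2 = φ := by
      intro n
      rw [hs' _ _ (Nat.cast_nonneg _)]
      exact h4 _
    simp only [e1]
    exact tendsto_const_nhds

theorem final (hM5 : TargetM5) (hM6a : TargetM6a) (hM6b : TargetM6b) (hc : TargetM6c)
    (L ν g : ℝ) (hL : 0 < L) (hν : 0 < ν) (hg : 0 < g) :
    Prod.snd '' SigmaAttractor {s | IsWeakSolution L ν g s} = {φ : RL2 | coef φ 0 = 0} ∧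
    ∀ S : ℝ → State → State, IsSolutionOperator L ν g S →
      Prod.snd '' SigmaAttractor (trajectories S) = {φ : RL2 | coef φ 0 = 0} := by
  have hsub : ∀ 𝒮 : Set (ℝ → State), Prod.snd '' SigmaAttractor 𝒮 ⊆ {φ : RL2 | coef φ 0 = 0} := by
    rintro 𝒮 _ ⟨a, ha, rfl⟩
    exact ha.1.2.2
  refine ⟨Subset.antisymm (hsub _) fun φ hφ => ?_, fun S hS =>
    Subset.antisymm (hsub _) fun φ hφ => ?_⟩
  · exact mem_image hM5 hM6a hM6b hc hL hν hg (fun s hs _ => ⟨s, hs, fun _ _ => rfl⟩) hφ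
  · refine mem_image hM5 hM6a hM6b hc hL hν hg (fun s hs hu => ?_) hφ
    have hx := hs.mem 0 le_rfl
    exact ⟨fun t => S t (s 0), ⟨s 0, hx, rfl⟩, hu _ (hS _ hx).2 (hS _ hx).1⟩

end Pool.Agent.Bous.Asm
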