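import Pool.Agent.Bous.Galerkin

/-!
# The mixed Galerkin problem `v(0) = 0`, `θ(T) = φ` (target M3)
-/

open Complex Set MeasureTheory Filter Topology Metric
open scoped ComplexConjugate ENNReal NNReal ContDiff InnerProductSpace

namespace Pool.Agent.Bous

variable {N : ℕ}

lemma cx_add (r s : HS N) (k : K) : cx (r + s) k = cx r k + cx s k := by
  apply Complex.ext
  · rw [Complex.add_re, cx_re, cx_re, cx_re, ex_add, ex_add]; ring
  · rw [Complex.add_im, cx_im, cx_im, cx_im, ex_add, ex_add]; ring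

lemma cx_smul (c : ℝ) (r : HS N) (k : K) : cx (c • r) k = c • cx r k := by
  apply Complex.ext
  · rw [Complex.smul_re, cx_re, cx_re, ex_smul, ex_smul, smul_eq_mul]; ring
  · rw [Complex.smul_im, cx_im, cx_im, ex_smul, ex_smul, smul_eq_mul]; ring

/-- `r ↦ ex r k` as a continuous linear map -/
noncomputable def exL (N : ℕ) (k : K) : HS N →L[ℝ] ℝ :=
  LinearMap.toContinuousLinearMap
    { toFun := fun r => ex r k
      map_add' := fun r s => ex_add r s k
      map_smul' := fun c r => ex_smul c r k }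

/-- `r ↦ cx r k` as a continuous linear map -/
noncomputable def cxL (N : ℕ) (k : K) : HS N →L[ℝ] ℂ :=
  LinearMap.toContinuousLinearMap
    { toFun := fun r => cx r k
      map_add' := fun r s => cx_add r s k
      map_smul' := fun c r => cx_smul c r k }

lemma hasDerivAt_ex {α : ℝ → HS N} {α' : HS N} {t : ℝ} (h : HasDerivAt α α' t) (k : K) :
    HasDerivAt (fun s => ex (α s) k) (ex α' k) t :=
  (exL N k).hasFDerivAt.comp_hasDerivAt t h

lemma hasDerivAt_cx {α : ℝ → HS N} {α' : HS N} {t : ℝ} (h : HasDerivAt α α' t) (k : K) :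
    HasDerivAt (fun s => cx (α s) k) (cx α' k) t :=
  (cxL N k).hasFDerivAt.comp_hasDerivAt t h

lemma hasDerivAt_ens {α : ℝ → HS N} {α' : HS N} {t : ℝ} (h : HasDerivAt α α' t) :
    HasDerivAt (fun s => ens (α s)) (∑ k ∈ modes N, nsq k * (2 * ex (α t) k * ex α' k)) t := by
  unfold ens
  refine HasDerivAt.fun_sum fun k _ => ?_
  have h1 := ((hasDerivAt_ex h k).pow 2).const_mul (nsq k)
  refine h1.congr_deriv ?_
  push_cast
  ring

lemma cx_zero (k : K) : cx (0 : HS N) k = 0 := by
  apply Complex.ext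
  · rw [cx_re]
    unfold ex
    simp
  · rw [cx_im]
    unfold ex
    simp

lemma ens_zero : ens (0 : HS N) = 0 := by
  rw [ens_eq]
  refine Finset.sum_eq_zero fun k _ => ?_
  rw [cx_zero]
  simp

lemma norm_sq_le_ens (r : HS N) : ‖r‖ ^ 2 ≤ ens r := by
  rw [norm_sq_eq]
  unfold ens
  refine Finset.sum_le_sum fun k hk => ?_
  have h1 := one_le_nsq (ne_zero_of_mem hk)
  nlinarith [sq_nonneg (ex r k)]

lemma ens_nonneg (r : HS N) : 0 ≤ ens r := (sq_nonneg _).trans (norm_sq_le_ens r)

lemma pal_nonneg (r : HS N) : 0 ≤ pal r := (ens_nonneg r).trans (ens_le_pal r)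

lemma continuous_cx (k : K) : Continuous (fun r : HS N => cx r k) := (contDiff_cx k).continuous

lemma continuous_pal : Continuous (pal : HS N → ℝ) := by
  unfold pal
  refine continuous_finsetSum _ fun k _ => ?_
  exact continuous_const.mul ((continuous_cx k).norm.pow 2)

theorem targetM3 : TargetM3 := by
  intro κ ν g hκ hν hg
  obtain ⟨m, hm⟩ : ∃ m, m = ν * κ ^ 2 := ⟨_, rfl⟩
  have hm0 : 0 < m := by rw [hm]; positivity
  obtain ⟨C, hC⟩ : ∃ C, C = g ^ 2 / m ^ 2 := ⟨_, rfl⟩
  have hC0 : 0 < C := by rw [hC]; positivity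
  have hCm : m * C = g ^ 2 / m := by rw [hC]; field_simp
  refine ⟨C, ?_⟩
  intro N T hT φ hφs hφ0
  obtain ⟨y, hy⟩ : ∃ y, y = hc N φ := ⟨_, rfl⟩
  have hcy : cx y = φ := by rw [hy]; exact cx_hc' hφs hφ0
  obtain ⟨R, hR⟩ : ∃ R, R = ‖y‖ + Real.sqrt (C * ‖y‖ ^ 2) + 1 := ⟨_, rfl⟩
  have hR0 : 0 < R := by rw [hR]; positivity
  let b : ContDiffBump (0 : HS N × HS N) := ⟨R, R + 1, hR0, by linarith⟩
  obtain ⟨F, hF⟩ : ∃ F : HS N × HS N → HS N × HS N, F = fun p => b p • gf N κ ν g p := ⟨_, rfl⟩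
  have hFc : ContDiff ℝ ∞ F := by
    rw [hF]
    exact b.contDiff.smul (contDiff_gf κ ν g)
  have hFs : HasCompactSupport F := by
    rw [hF]
    exact b.hasCompactSupport.smul_right
  obtain ⟨Kc, hLip⟩ := hFc.lipschitzWith_of_hasCompactSupport hFs (by simp)
  obtain ⟨M, hM⟩ := hFc.continuous.bounded_above_of_compact_support hFs
  have hM' : ∀ x, ‖F x‖ ≤ M.toNNReal := fun x => (hM x).trans (Real.le_coe_toNNReal M)
  choose α hα0 hα using fun x => exists_solution_global hLip hM' x
  have hfst : ∀ x t, HasDerivAt (fun s => (α x s).1) (F (α x t)).1 t := fun x t =>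
    (hasFDerivAt_fst (p := α x t)).comp_hasDerivAt t (hα x t)
  have hsnd : ∀ x t, HasDerivAt (fun s => (α x s).2) (F (α x t)).2 t := fun x t =>
    (hasFDerivAt_snd (p := α x t)).comp_hasDerivAt t (hα x t)
  -- conservation of the temperature norm
  have hcons : ∀ x t, ‖(α x t).2‖ = ‖x.2‖ := by
    intro x t
    have h1 : ∀ t, HasDerivAt (fun s => ⟪(α x s).2, (α x s).2⟫_ℝ) 0 t := by
      intro t
      have h2 := (hsnd x t).inner ℝ (hsnd x t)
      refine h2.congr_deriv ?_
      have h3 : ⟪(α x t).2, (F (α x t)).2⟫_ℝ = 0 := by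
        rw [hF]
        show ⟪(α x t).2, b (α x t) • (gf N κ ν g (α x t)).2⟫_ℝ = 0
        rw [inner_smul_right, inner_gf_snd, mul_zero]
      have h3' : ⟪(F (α x t)).2, (α x t).2⟫_ℝ = 0 := by rw [real_inner_comm]; exact h3
      rw [h3, h3', add_zero]
    have h4 : ∀ s, deriv (fun s => ⟪(α x s).2, (α x s).2⟫_ℝ) s = 0 := fun s => (h1 s).deriv
    have h5 := is_const_of_deriv_eq_zero (fun s => (h1 s).differentiableAt) h4 t 0
    simp only [real_inner_self_eq_norm_sq] at h5
    rw [hα0] at h5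
    exact (sq_eq_sq₀ (norm_nonneg _) (norm_nonneg _)).1 h5
  -- surjectivity
  obtain ⟨ρ, hρ⟩ : ∃ ρ : HS N, (α (0, ρ) T).2 = y := by
    refine Brouwer.surjective_of_norm_preserving hT (Φ := fun t ρ => (α (0, ρ) t).2) ?_ ?_ ?_ y
    · have h1 := flow_continuousOn hLip (Φ := fun t x => α x t) hα0 hα T
      have h2 : ContinuousOn (fun q : ℝ × HS N => α ((0 : HS N), q.2) q.1) (Icc 0 T ×ˢ univ) := by
        refine h1.comp (f := fun q : ℝ × HS N => (q.1, ((0 : HS N), q.2))) ?_ ?_
        · exact (continuous_fst.prodMk (continuous_const.prodMk continuous_snd)).continuousOn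
        · intro q hq
          exact ⟨hq.1, mem_univ _⟩
      exact continuous_snd.comp_continuousOn h2
    · intro x
      rw [hα0]
    · intro t _ x
      exact hcons (0, x) t
  obtain ⟨β, hβ⟩ : ∃ β : ℝ → HS N × HS N, β = α (0, ρ) := ⟨_, rfl⟩
  have hβd : ∀ t, HasDerivAt β (F (β t)) t := by rw [hβ]; exact hα (0, ρ)
  have hβ1 : ∀ t, HasDerivAt (fun s => (β s).1) (F (β t)).1 t := by rw [hβ]; exact hfst (0, ρ)
  have hβ2 : ∀ t, HasDerivAt (fun s => (β s).2) (F (β t)).2 t := by rw [hβ]; exact hsnd (0, ρ)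
  have hβc : Continuous β := continuous_iff_continuousAt.2 fun t => (hβd t).continuousAt
  have hβ0 : β 0 = (0, ρ) := by rw [hβ]; exact hα0 _
  have hβT : (β T).2 = y := by rw [hβ]; exact hρ
  have hnorm : ∀ t, ‖(β t).2‖ = ‖y‖ := by
    intro t
    have h1 := hcons (0, ρ) t
    have h2 := hcons (0, ρ) T
    rw [hρ] at h2
    rw [hβ, h1, h2]
  -- enstrophy barrier
  have hens : ∀ t, 0 ≤ t → ens (β t).1 ≤ C * ‖y‖ ^ 2 := by
    intro t ht
    refine le_of_deriv_nonpos_above (f := fun s => ens (β s).1)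
      (f' := fun t => ∑ k ∈ modes N, nsq k * (2 * ex (β t).1 k * ex (F (β t)).1 k)) ?_ ?_ ?_ ht
    · show ens (β 0).1 ≤ _
      rw [hβ0]
      show ens (0 : HS N) ≤ _
      rw [ens_zero]
      positivity
    · intro t _
      exact hasDerivAt_ens (hβ1 t)
    · intro t _ hlt
      have h1 : ∑ k ∈ modes N, nsq k * (2 * ex (β t).1 k * ex (F (β t)).1 k) =
          b (β t) * ∑ k ∈ modes N, nsq k * (2 * ex (β t).1 k * ex (gf N κ ν g (β t)).1 k) := by
        rw [Finset.mul_sum]
        refine Finset.sum_congr rfl fun k _ => ?_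
        rw [hF]
        show nsq k * (2 * ex (β t).1 k * ex (b (β t) • (gf N κ ν g (β t)).1) k) = _
        rw [ex_smul]
        ring
      show ∑ k ∈ modes N, nsq k * (2 * ex (β t).1 k * ex (F (β t)).1 k) ≤ 0
      rw [h1]
      have h2 := ens_rate hκ hν hg (β t)
      rw [hnorm t, ← hm, ← hCm] at h2
      have h3 := ens_le_pal (β t).1
      have h4 : C * ‖y‖ ^ 2 < ens (β t).1 := hlt
      refine mul_nonpos_of_nonneg_of_nonpos b.nonneg (h2.trans ?_)
      nlinarith
  -- the trajectory stays where the cut-off is one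
  have hb1 : ∀ t, 0 ≤ t → b (β t) = 1 := by
    intro t ht
    refine b.one_of_mem_closedBall ?_
    rw [mem_closedBall, dist_zero_right]
    show ‖β t‖ ≤ R
    rw [Prod.norm_def]
    refine max_le ?_ ?_
    · have h1 := (norm_sq_le_ens (β t).1).trans (hens t ht)
      have h2 : ‖(β t).1‖ ≤ Real.sqrt (C * ‖y‖ ^ 2) := Real.le_sqrt_of_sq_le h1
      rw [hR]
      linarith [norm_nonneg y]
    · rw [hnorm t, hR]
      linarith [Real.sqrt_nonneg (C * ‖y‖ ^ 2)]
  have hFg : ∀ t, 0 ≤ t → F (β t) = gf N κ ν g (β t) := by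
    intro t ht
    rw [hF]
    show b (β t) • gf N κ ν g (β t) = _
    rw [hb1 t ht, one_smul]
  have hsumφ : ∑ k ∈ modes N, ‖φ k‖ ^ 2 = ‖y‖ ^ 2 := by
    rw [norm_sq_eq_cx, hcy]
  refine ⟨fun t => cx (β t).1, fun t => cx (β t).2, ?_, ?_, ?_, ?_, ?_, ?_⟩
  · refine ⟨fun t _ => cx_symm _, fun t _ => cx_symm _, fun t _ k hk => cx_supp _ hk,
      fun t _ k hk => cx_supp _ hk, ?_, ?_, ?_, ?_⟩
    · intro k
      exact ((continuous_cx k).comp (continuous_fst.comp hβc)).continuousOn
    · intro k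
      exact ((continuous_cx k).comp (continuous_snd.comp hβc)).continuousOn
    · intro k hk t ht
      have h1 : ∀ s ∈ uIcc 0 t, HasDerivAt (fun s => cx (β s).1 k)
          (rv κ ν g (cx (β s).1) (cx (β s).2) k) s := by
        intro s hs
        rw [uIcc_of_le ht] at hs
        refine (hasDerivAt_cx (hβ1 s) k).congr_deriv ?_
        rw [hFg s hs.1]
        exact cx_hc (rv_symm (cx_symm _) (cx_symm _)) hk
      have h2 : Continuous (fun s => rv κ ν g (cx (β s).1) (cx (β s).2) k) :=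
        (contDiff_rv κ ν g k).continuous.comp hβc
      have h3 := intervalIntegral.integral_eq_sub_of_hasDerivAt h1 (h2.intervalIntegrable 0 t)
      show cx (β t).1 k = cx (β 0).1 k + ∫ s in (0 : ℝ)..t, rv κ ν g (cx (β s).1) (cx (β s).2) k
      rw [h3]
      ring
    · intro k hk t ht
      have h1 : ∀ s ∈ uIcc 0 t, HasDerivAt (fun s => cx (β s).2 k)
          (rt κ (cx (β s).1) (cx (β s).2) k) s := by
        intro s hs
        rw [uIcc_of_le ht] at hs
        refine (hasDerivAt_cx (hβ2 s) k).congr_deriv ?_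
        rw [hFg s hs.1]
        exact cx_hc (rt_symm (cx_symm _) (cx_symm _)) hk
      have h2 : Continuous (fun s => rt κ (cx (β s).1) (cx (β s).2) k) :=
        (contDiff_rt κ k).continuous.comp hβc
      have h3 := intervalIntegral.integral_eq_sub_of_hasDerivAt h1 (h2.intervalIntegrable 0 t)
      show cx (β t).2 k = cx (β 0).2 k + ∫ s in (0 : ℝ)..t, rt κ (cx (β s).1) (cx (β s).2) k
      rw [h3]
      ring
  · funext k
    show cx (β 0).1 k = 0
    rw [hβ0]
    exact cx_zero k
  · show cx (β T).2 = φ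
    rw [hβT, hcy]
  · intro t _
    show ∑ k ∈ modes N, ‖cx (β t).2 k‖ ^ 2 = _
    rw [← norm_sq_eq_cx, hnorm t, hsumφ]
  · intro t ht
    show ∑ k ∈ modes N, nsq k * ‖cx (β t).1 k‖ ^ 2 ≤ _
    rw [← ens_eq, hsumφ]
    exact hens t ht
  · intro t ht
    rw [hsumφ]
    show ∫ s in (0 : ℝ)..t, pal (β s).1 ≤ C * t * ‖y‖ ^ 2
    have hgd : ∀ s ∈ uIcc 0 t, HasDerivAt (fun s => ens (β s).1)
        (∑ k ∈ modes N, nsq k * (2 * ex (β s).1 k * ex (gf N κ ν g (β s)).1 k)) s := by
      intro s hs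
      rw [uIcc_of_le ht] at hs
      have := hasDerivAt_ens (hβ1 s)
      rw [hFg s hs.1] at this
      exact this
    have hgc : Continuous (fun s => ∑ k ∈ modes N,
        nsq k * (2 * ex (β s).1 k * ex (gf N κ ν g (β s)).1 k)) := by
      refine continuous_finsetSum _ fun k _ => continuous_const.mul ?_
      refine (continuous_const.mul ?_).mul ?_
      · exact (contDiff_ex k).continuous.comp (continuous_fst.comp hβc)
      · exact (contDiff_ex k).continuous.comp
          (continuous_fst.comp ((contDiff_gf κ ν g).continuous.comp hβc))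
    have h1 := intervalIntegral.integral_eq_sub_of_hasDerivAt hgd (hgc.intervalIntegrable 0 t)
    have hpc : Continuous (fun s => pal (β s).1) := continuous_pal.comp (continuous_fst.comp hβc)
    have h2 : ∫ s in (0 : ℝ)..t, (∑ k ∈ modes N,
        nsq k * (2 * ex (β s).1 k * ex (gf N κ ν g (β s)).1 k)) ≤
        ∫ s in (0 : ℝ)..t, (-m * pal (β s).1 + m * C * ‖y‖ ^ 2) := by
      refine intervalIntegral.integral_mono_on ht (hgc.intervalIntegrable 0 t)
        (((continuous_const.mul hpc).add continuous_const).intervalIntegrable 0 t) ?_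
      intro s _
      have h3 := ens_rate hκ hν hg (β s)
      rw [hnorm s, ← hm, ← hCm] at h3
      exact h3
    have h2' : ∫ s in (0 : ℝ)..t, (-m * pal (β s).1 + m * C * ‖y‖ ^ 2) =
        -m * (∫ s in (0 : ℝ)..t, pal (β s).1) + (t - 0) • (m * C * ‖y‖ ^ 2) := by
      rw [intervalIntegral.integral_add (f := fun s => -m * pal (β s).1)
        (g := fun _ => m * C * ‖y‖ ^ 2) ((continuous_const.mul hpc).intervalIntegrable 0 t)
        (continuous_const.intervalIntegrable 0 t), intervalIntegral.integral_const_mul,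
        intervalIntegral.integral_const]
    rw [h2', h1, hβ0] at h2
    have h3 : ens ((0 : HS N), ρ).1 = 0 := ens_zero
    rw [h3] at h2
    have h4 := ens_nonneg (β t).1
    simp only [smul_eq_mul, sub_zero] at h2
    have h5 : m * ∫ s in (0 : ℝ)..t, pal (β s).1 ≤ m * (C * t * ‖y‖ ^ 2) := by nlinarith
    exact le_of_mul_le_mul_left h5 hm0

end Pool.Agent.Bous
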