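import Mathlib

/-!
# Global solutions of Lipschitz equations (adapted from `Pool.Agent.Knieper.Flow`, helper82)
and a barrier lemma
-/

noncomputable section

open Set Filter Topology Metric
open scoped NNReal ContDiff

namespace Pool.Agent.Bous

variable {W : Type*} [NormedAddCommGroup W] [NormedSpace ℝ W]

/-- Gluing solutions defined on large bounded intervals. -/
theorem glue_solutions {f : ℝ → W → W} {K : ℝ≥0} (hf : ∀ t, LipschitzWith K (f t)) {x₀ : W}
    (h : ∀ n : ℕ, ∃ α : ℝ → W, α 0 = x₀ ∧ ∀ t ∈ Ioo (-(n : ℝ)) n, HasDerivAt α (f t (α t)) t) :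
    ∃ α : ℝ → W, α 0 = x₀ ∧ ∀ t, HasDerivAt α (f t (α t)) t := by
  choose α h0 hα using h
  have huniq : ∀ n m : ℕ, n ≤ m → ∀ t ∈ Ioo (-(n : ℝ)) n, α n t = α m t := by
    intro n m hnm t ht
    have hn : (0 : ℝ) < n := by
      have := ht.1.trans ht.2
      linarith
    have hnm' : (n : ℝ) ≤ m := by exact_mod_cast hnm
    exact ODE_solution_unique_of_mem_Ioo (v := f) (s := fun _ => univ) (K := K) (t₀ := 0)
      (fun t _ => (hf t).lipschitzOnWith) ⟨by linarith, hn⟩
      (fun s hs => ⟨hα n s hs, trivial⟩)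
      (fun s hs => ⟨hα m s ⟨by linarith [hs.1], by linarith [hs.2]⟩, trivial⟩)
      ((h0 n).trans (h0 m).symm) ht
  set β : ℝ → W := fun t => α (⌊|t|⌋₊ + 1) t with hβ
  refine ⟨β, by simp [hβ, h0], fun t => ?_⟩
  set N : ℕ := ⌊|t|⌋₊ + 3 with hN
  have htN : |t| + 1 < N := by
    have := Nat.lt_floor_add_one |t|
    rw [hN]; push_cast; linarith
  have heq : β =ᶠ[𝓝 t] α N := by
    filter_upwards [ball_mem_nhds t (show (0 : ℝ) < 1 by norm_num)] with s hs
    rw [Metric.mem_ball, Real.dist_eq] at hs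
    have hs1 : |s| < |t| + 1 := by
      have := abs_sub_abs_le_abs_sub s t
      linarith
    have hle : ⌊|s|⌋₊ + 1 ≤ N := by
      have h1 : (⌊|s|⌋₊ : ℝ) ≤ |s| := Nat.floor_le (abs_nonneg s)
      have h2 : (⌊|s|⌋₊ : ℝ) + 1 < N + 1 := by linarith
      have h3 : ⌊|s|⌋₊ + 1 < N + 1 := by exact_mod_cast h2
      omega
    refine huniq _ N hle s ?_
    have := Nat.lt_floor_add_one |s|
    rw [mem_Ioo]
    push_cast
    exact abs_lt.mp this
  have ht' : t ∈ Ioo (-(N : ℝ)) N := abs_lt.mp (by linarith)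
  have h1 := hα N t ht'
  rw [← heq.eq_of_nhds] at h1
  exact h1.congr_of_eventuallyEq heq

variable [CompleteSpace W]

/-- Solutions of bounded Lipschitz non-autonomous equations on a large bounded interval. -/
theorem exists_solution_bounded {f : ℝ → W → W} {K : ℝ≥0} (hf : ∀ t, LipschitzWith K (f t))
    (hc : ∀ x, Continuous fun t => f t x) {M : ℝ≥0} (hM : ∀ t x, ‖f t x‖ ≤ M) (x₀ : W) (T : ℝ)
    (hT : 0 < T) :
    ∃ α : ℝ → W, α 0 = x₀ ∧ ∀ t ∈ Ioo (-T) T, HasDerivAt α (f t (α t)) t := by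
  have hpl : IsPicardLindelof f (tmin := -T) (tmax := T) ⟨0, by constructor <;> linarith⟩ x₀
      (M * T.toNNReal) 0 M K :=
    { lipschitzOnWith := fun t _ => (hf t).lipschitzOnWith
      continuousOn := fun x _ => (hc x).continuousOn
      norm_le := fun t _ x _ => hM t x
      mul_max_le := by
        simp [Real.coe_toNNReal T hT.le] }
  obtain ⟨α, h0, hα⟩ := hpl.exists_eq_forall_mem_Icc_hasDerivWithinAt₀
  refine ⟨α, h0, fun t ht => (hα t (Ioo_subset_Icc_self ht)).hasDerivAt (Icc_mem_nhds ht.1 ht.2)⟩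

/-- Global solutions of bounded Lipschitz autonomous equations. -/
theorem exists_solution_global {f : W → W} {K : ℝ≥0} (hf : LipschitzWith K f)
    {M : ℝ≥0} (hM : ∀ x, ‖f x‖ ≤ M) (x₀ : W) :
    ∃ α : ℝ → W, α 0 = x₀ ∧ ∀ t, HasDerivAt α (f (α t)) t := by
  refine glue_solutions (f := fun _ => f) (fun _ => hf) fun n => ?_
  obtain ⟨α, h0, hα⟩ := exists_solution_bounded (f := fun _ => f) (fun _ => hf)
    (fun _ => continuous_const) (fun _ => hM) x₀ (n + 1) (by positivity)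
  exact ⟨α, h0, fun t ht => hα t ⟨by linarith [ht.1], by linarith [ht.2]⟩⟩

/-- Joint continuity of the flow. -/
theorem flow_continuousOn {f : W → W} {K : ℝ≥0} (hf : LipschitzWith K f)
    {Φ : ℝ → W → W} (h0 : ∀ x, Φ 0 x = x) (hΦ : ∀ x t, HasDerivAt (fun s => Φ s x) (f (Φ t x)) t)
    (T : ℝ) : ContinuousOn (fun q : ℝ × W => Φ q.1 q.2) (Icc 0 T ×ˢ univ) := by
  have hd : ∀ x y, ∀ t ∈ Icc 0 T, dist (Φ t x) (Φ t y) ≤ dist x y * Real.exp (K * T) := by
    intro x y t ht
    have h1 := dist_le_of_trajectories_ODE (v := fun _ => f) (K := K) (a := 0) (b := T)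
      (f := fun s => Φ s x) (g := fun s => Φ s y) (fun _ => hf)
      (fun s _ => (hΦ x s).continuousAt.continuousWithinAt)
      (fun s _ => (hΦ x s).hasDerivWithinAt)
      (fun s _ => (hΦ y s).continuousAt.continuousWithinAt)
      (fun s _ => (hΦ y s).hasDerivWithinAt) (δ := dist x y) (by rw [h0, h0]) t ht
    refine h1.trans ?_
    have := dist_nonneg (x := x) (y := y)
    have h2 : (0 : ℝ) ≤ K := K.2
    gcongr
    linarith [ht.2]
  rintro ⟨t, x⟩ ⟨ht, -⟩
  rw [ContinuousWithinAt, tendsto_iff_dist_tendsto_zero]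
  have hc : Tendsto (fun q : ℝ × W => dist q.2 x * Real.exp (K * T) + dist (Φ q.1 x) (Φ t x))
      (𝓝[Icc 0 T ×ˢ univ] (t, x)) (𝓝 0) := by
    have h1 : Tendsto (fun q : ℝ × W => dist q.2 x * Real.exp (K * T) +
        dist (Φ q.1 x) (Φ t x)) (𝓝 (t, x)) (𝓝 (dist x x * Real.exp (K * T) +
          dist (Φ t x) (Φ t x))) := by
      have h2 : Tendsto (fun q : ℝ × W => Φ q.1 x) (𝓝 (t, x)) (𝓝 (Φ t x)) :=
        Tendsto.comp (hΦ x t).continuousAt (continuous_fst.tendsto (t, x))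
      exact (((continuous_snd.tendsto (t, x)).dist tendsto_const_nhds).mul_const _).add
        (h2.dist tendsto_const_nhds)
    rw [dist_self, dist_self, zero_mul, zero_add] at h1
    exact h1.mono_left nhdsWithin_le_nhds
  refine squeeze_zero' (Eventually.of_forall fun _ => dist_nonneg) ?_ hc
  filter_upwards [self_mem_nhdsWithin] with q hq
  refine (dist_triangle _ (Φ q.1 x) _).trans ?_
  have := hd q.2 x q.1 hq.1
  linarith

/-- Barrier lemma. -/
theorem le_of_deriv_nonpos_above {f f' : ℝ → ℝ} {c : ℝ} (h0 : f 0 ≤ c)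
    (hd : ∀ t, 0 ≤ t → HasDerivAt f (f' t) t) (hb : ∀ t, 0 ≤ t → c < f t → f' t ≤ 0)
    {t : ℝ} (ht : 0 ≤ t) : f t ≤ c := by
  by_contra hcon
  rw [not_le] at hcon
  have hcont : ContinuousOn f (Icc 0 t) := fun s hs => (hd s hs.1).continuousAt.continuousWithinAt
  set S : Set ℝ := Icc 0 t ∩ f ⁻¹' Iic c with hS
  have hScl : IsClosed S := hcont.preimage_isClosed_of_isClosed isClosed_Icc isClosed_Iic
  have hScpt : IsCompact S := isCompact_Icc.of_isClosed_subset hScl inter_subset_left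
  obtain ⟨s, ⟨hsI, hsc⟩, hsm⟩ := hScpt.exists_isGreatest ⟨0, ⟨le_rfl, ht⟩, h0⟩
  have hst : s ≤ t := hsI.2
  have hne : s ≠ t := by
    rintro rfl
    exact absurd hsc (not_le.2 hcon)
  have hlt : s < t := lt_of_le_of_ne hst hne
  have hanti : AntitoneOn f (Icc s t) := by
    refine antitoneOn_of_deriv_nonpos (convex_Icc s t)
      (hcont.mono (Icc_subset_Icc_left hsI.1)) ?_ ?_
    · intro r hr
      rw [interior_Icc] at hr
      exact (hd r (hsI.1.trans hr.1.le)).differentiableAt.differentiableWithinAt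
    · intro r hr
      rw [interior_Icc] at hr
      have hr0 : 0 ≤ r := hsI.1.trans hr.1.le
      rw [(hd r hr0).deriv]
      refine hb r hr0 ?_
      by_contra hle
      rw [not_lt] at hle
      have := hsm (show r ∈ S from ⟨⟨hr0, hr.2.le⟩, hle⟩)
      linarith [hr.1]
  have := hanti ⟨le_rfl, hst⟩ ⟨hst, le_rfl⟩ hst
  have h1 : f s ≤ c := hsc
  linarith

end Pool.Agent.Bous
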