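import Pool.Agent.Bous.Alg
import Pool.Agent.Bous.Ode
import Pool.Agent.Lib.Brouwer

/-!
# The Galerkin system in real (Hartley) coordinates, and the mixed problem `v(0) = 0`, `θ(T) = φ`
-/

open Complex Set MeasureTheory Filter Topology
open scoped ComplexConjugate ENNReal NNReal ContDiff InnerProductSpace

namespace Pool.Agent.Bous

/-- real coordinates -/
abbrev HS (N : ℕ) := EuclideanSpace ℝ (modes N)

variable {N : ℕ}

/-- extension by zero -/
noncomputable def ex (r : HS N) (k : K) : ℝ := if h : k ∈ modes N then r ⟨k, h⟩ else 0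

/-- complex Fourier coefficients from Hartley coordinates -/
noncomputable def cx (r : HS N) (k : K) : ℂ :=
  (((ex r k + ex r (-k)) / 2 : ℝ) : ℂ) + (((ex r k - ex r (-k)) / 2 : ℝ) : ℂ) * I

lemma ex_of_mem (r : HS N) {k : K} (h : k ∈ modes N) : ex r k = r ⟨k, h⟩ := dif_pos h

lemma ex_of_not_mem (r : HS N) {k : K} (h : k ∉ modes N) : ex r k = 0 := dif_neg h

lemma cx_re (r : HS N) (k : K) : (cx r k).re = (ex r k + ex r (-k)) / 2 := by
  unfold cx
  simp

lemma cx_im (r : HS N) (k : K) : (cx r k).im = (ex r k - ex r (-k)) / 2 := by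
  unfold cx
  simp

lemma cx_supp (r : HS N) {k : K} (h : k ∉ modes N) : cx r k = 0 := by
  have h' : -k ∉ modes N := fun h'' => h (neg_mem_modes.1 h'')
  unfold cx
  rw [ex_of_not_mem r h, ex_of_not_mem r h']
  simp

lemma cx_symm (r : HS N) (k : K) : cx r (-k) = conj (cx r k) := by
  apply Complex.ext
  · rw [Complex.conj_re, cx_re, cx_re, neg_neg]; ring
  · rw [Complex.conj_im, cx_im, cx_im, neg_neg]; ring

lemma cx_re_add_im (r : HS N) (k : K) : (cx r k).re + (cx r k).im = ex r k := by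
  rw [cx_re, cx_im]; ring

/-- Hartley coordinates of a symmetric family -/
noncomputable def hc (N : ℕ) (Y : K → ℂ) : HS N :=
  WithLp.toLp 2 fun i : modes N => (Y i).re + (Y i).im

lemma ex_hc (Y : K → ℂ) {k : K} (h : k ∈ modes N) : ex (hc N Y) k = (Y k).re + (Y k).im := by
  rw [ex_of_mem _ h]; rfl

lemma cx_hc {Y : K → ℂ} (hY : ∀ k, Y (-k) = conj (Y k)) {k : K} (h : k ∈ modes N) :
    cx (hc N Y) k = Y k := by
  have h' : -k ∈ modes N := neg_mem_modes.2 h
  apply Complex.ext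
  · rw [cx_re, ex_hc Y h, ex_hc Y h', hY, Complex.conj_re, Complex.conj_im]; ring
  · rw [cx_im, ex_hc Y h, ex_hc Y h', hY, Complex.conj_re, Complex.conj_im]; ring

lemma cx_hc' {Y : K → ℂ} (hY : ∀ k, Y (-k) = conj (Y k)) (h0 : ∀ k, k ∉ modes N → Y k = 0) :
    cx (hc N Y) = Y := by
  funext k
  by_cases h : k ∈ modes N
  · exact cx_hc hY h
  · rw [cx_supp _ h, h0 k h]

lemma ex_add (r s : HS N) (k : K) : ex (r + s) k = ex r k + ex s k := by
  unfold ex
  split_ifs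
  · rfl
  · simp

lemma ex_smul (c : ℝ) (r : HS N) (k : K) : ex (c • r) k = c * ex r k := by
  unfold ex
  split_ifs
  · rfl
  · simp

lemma sum_coe_modes (N : ℕ) (f : K → ℝ) : ∑ i : modes N, f i = ∑ k ∈ modes N, f k :=
  Finset.sum_coe_sort (modes N) f

lemma norm_sq_eq (r : HS N) : ‖r‖ ^ 2 = ∑ k ∈ modes N, ex r k ^ 2 := by
  rw [EuclideanSpace.norm_sq_eq, ← sum_coe_modes]
  refine Finset.sum_congr rfl fun i _ => ?_
  rw [ex_of_mem r i.2, Real.norm_eq_abs, sq_abs]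

lemma inner_eq (r s : HS N) : ⟪r, s⟫_ℝ = ∑ k ∈ modes N, ex r k * ex s k := by
  rw [PiLp.inner_apply, ← sum_coe_modes]
  refine Finset.sum_congr rfl fun i _ => ?_
  rw [ex_of_mem r i.2, ex_of_mem s i.2]
  simp [mul_comm]

/-- the pairing between real coordinates and symmetric families -/
lemma pairing (r : HS N) {Y : K → ℂ} (hY : ∀ k, Y (-k) = conj (Y k)) {wt : K → ℝ}
    (hwt : ∀ k, wt (-k) = wt k) :
    ∑ k ∈ modes N, wt k * ex r k * ((Y k).re + (Y k).im) =
      ∑ k ∈ modes N, wt k * (Y k * cx r (-k)).re := by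
  have h1 : ∀ k, wt k * (Y k * cx r (-k)).re =
      (wt k * ex r k * ((Y k).re + (Y k).im)) / 2 +
        (wt (-k) * ex r (-k) * ((Y (-k)).re + (Y (-k)).im)) / 2 := by
    intro k
    rw [cx_symm, Complex.mul_re, Complex.conj_re, Complex.conj_im, cx_re, cx_im, hwt, hY,
      Complex.conj_re, Complex.conj_im]
    ring
  rw [Finset.sum_congr rfl fun k _ => h1 k, Finset.sum_add_distrib,
    sum_modes_neg N fun k => (wt k * ex r k * ((Y k).re + (Y k).im)) / 2, ← Finset.sum_add_distrib]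
  exact Finset.sum_congr rfl fun k _ => by ring

lemma weight_sum (r : HS N) {wt : K → ℝ} (hwt : ∀ k, wt (-k) = wt k) :
    ∑ k ∈ modes N, wt k * ex r k ^ 2 = ∑ k ∈ modes N, wt k * ‖cx r k‖ ^ 2 := by
  have h1 : ∀ k, wt k * ‖cx r k‖ ^ 2 = (wt k * ex r k ^ 2) / 2 + (wt (-k) * ex r (-k) ^ 2) / 2 := by
    intro k
    rw [← Complex.normSq_eq_norm_sq, Complex.normSq_apply, cx_re, cx_im, hwt]
    ring
  rw [Finset.sum_congr rfl fun k _ => h1 k, Finset.sum_add_distrib,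
    sum_modes_neg N fun k => (wt k * ex r k ^ 2) / 2, ← Finset.sum_add_distrib]
  exact Finset.sum_congr rfl fun k _ => by ring

/-! ### Smoothness of the Galerkin field -/

lemma contDiff_ex (k : K) : ContDiff ℝ ∞ (fun r : HS N => ex r k) := by
  by_cases h : k ∈ modes N
  · have : (fun r : HS N => ex r k) = fun r : HS N => r ⟨k, h⟩ := by
      funext r; exact ex_of_mem r h
    rw [this]
    exact (EuclideanSpace.proj (𝕜 := ℝ) (⟨k, h⟩ : modes N)).contDiff
  · have : (fun r : HS N => ex r k) = fun _ : HS N => (0 : ℝ) := by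
      funext r; exact ex_of_not_mem r h
    rw [this]
    exact contDiff_const

lemma contDiff_cx (k : K) : ContDiff ℝ ∞ (fun r : HS N => cx r k) := by
  unfold cx
  have h1 : ContDiff ℝ ∞ (fun r : HS N => (((ex r k + ex r (-k)) / 2 : ℝ) : ℂ)) :=
    Complex.ofRealCLM.contDiff.comp (((contDiff_ex k).add (contDiff_ex (-k))).div_const 2)
  have h2 : ContDiff ℝ ∞ (fun r : HS N => (((ex r k - ex r (-k)) / 2 : ℝ) : ℂ)) :=
    Complex.ofRealCLM.contDiff.comp (((contDiff_ex k).sub (contDiff_ex (-k))).div_const 2)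
  exact h1.add (h2.mul contDiff_const)

lemma contDiff_AL (k : K) : ContDiff ℝ ∞ (fun p : HS N × HS N => AL (cx p.1) (cx p.2) k) := by
  have h : (fun p : HS N × HS N => AL (cx p.1) (cx p.2) k) = fun p : HS N × HS N =>
      ∑ j ∈ modes N, (al j (k - j) : ℂ) * cx p.1 j * cx p.2 (k - j) := by
    funext p
    exact AL_eq_sum (fun j hj => cx_supp _ hj) _ _
  rw [h]
  refine ContDiff.sum fun j _ => ?_
  exact (contDiff_const.mul ((contDiff_cx j).comp contDiff_fst)).mul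
    ((contDiff_cx (k - j)).comp contDiff_snd)

lemma contDiff_BE (k : K) : ContDiff ℝ ∞ (fun p : HS N × HS N => BE (cx p.1) (cx p.1) k) := by
  have h : (fun p : HS N × HS N => BE (cx p.1) (cx p.1) k) = fun p : HS N × HS N =>
      ∑ j ∈ modes N, (be j (k - j) : ℂ) * cx p.1 j * cx p.1 (k - j) := by
    funext p
    exact BE_eq_sum (fun j hj => cx_supp _ hj) _ _
  rw [h]
  refine ContDiff.sum fun j _ => ?_
  exact (contDiff_const.mul ((contDiff_cx j).comp contDiff_fst)).mul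
    ((contDiff_cx (k - j)).comp contDiff_fst)

lemma contDiff_rv (κ ν g : ℝ) (k : K) :
    ContDiff ℝ ∞ (fun p : HS N × HS N => rv κ ν g (cx p.1) (cx p.2) k) := by
  unfold rv
  exact ((contDiff_const.mul (contDiff_BE k)).sub
    (contDiff_const.mul ((contDiff_cx k).comp contDiff_fst))).sub
    (contDiff_const.mul ((contDiff_cx k).comp contDiff_snd))

lemma contDiff_rt (κ : ℝ) (k : K) :
    ContDiff ℝ ∞ (fun p : HS N × HS N => rt κ (cx p.1) (cx p.2) k) := by
  unfold rt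
  exact contDiff_const.mul (contDiff_AL k)

/-- The Galerkin vector field. -/
noncomputable def gf (N : ℕ) (κ ν g : ℝ) (p : HS N × HS N) : HS N × HS N :=
  (hc N (rv κ ν g (cx p.1) (cx p.2)), hc N (rt κ (cx p.1) (cx p.2)))

lemma contDiff_gf (κ ν g : ℝ) : ContDiff ℝ ∞ (gf N κ ν g) := by
  unfold gf hc
  refine ContDiff.prodMk ?_ ?_
  · rw [contDiff_euclidean]
    intro i
    exact (Complex.reCLM.contDiff.comp (contDiff_rv κ ν g i)).add
      (Complex.imCLM.contDiff.comp (contDiff_rv κ ν g i))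
  · rw [contDiff_euclidean]
    intro i
    exact (Complex.reCLM.contDiff.comp (contDiff_rt κ i)).add
      (Complex.imCLM.contDiff.comp (contDiff_rt κ i))

/-! ### Energy identities -/

lemma inner_gf_snd (κ ν g : ℝ) (p : HS N × HS N) : ⟪p.2, (gf N κ ν g p).2⟫_ℝ = 0 := by
  rw [inner_eq]
  have h1 : ∑ k ∈ modes N, ex p.2 k * ex (gf N κ ν g p).2 k =
      ∑ k ∈ modes N, (1 : ℝ) * ex p.2 k *
        ((rt κ (cx p.1) (cx p.2) k).re + (rt κ (cx p.1) (cx p.2) k).im) := by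
    refine Finset.sum_congr rfl fun k hk => ?_
    rw [one_mul]
    congr 1
    exact ex_hc _ hk
  rw [h1, pairing p.2 (rt_symm (cx_symm p.1) (cx_symm p.2)) (wt := fun _ => 1) (fun _ => rfl)]
  have h2 : ∑ k ∈ modes N, (1 : ℝ) * (rt κ (cx p.1) (cx p.2) k * cx p.2 (-k)).re =
      (κ * ∑ k ∈ modes N, AL (cx p.1) (cx p.2) k * cx p.2 (-k) : ℂ).re := by
    rw [Finset.mul_sum, Complex.re_sum]
    refine Finset.sum_congr rfl fun k _ => ?_
    rw [one_mul]
    congr 1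
    unfold rt
    ring
  rw [h2, sum_AL_eq_zero (fun k hk => cx_supp _ hk) (fun k hk => cx_supp _ hk)]
  simp

/-- enstrophy -/
noncomputable def ens (r : HS N) : ℝ := ∑ k ∈ modes N, nsq k * ex r k ^ 2

lemma ens_eq (r : HS N) : ens r = ∑ k ∈ modes N, nsq k * ‖cx r k‖ ^ 2 :=
  weight_sum r nsq_neg

/-- palinstrophy -/
noncomputable def pal (r : HS N) : ℝ := ∑ k ∈ modes N, nsq k ^ 2 * ‖cx r k‖ ^ 2

lemma ens_le_pal (r : HS N) : ens r ≤ pal r := by
  rw [ens_eq]
  unfold pal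
  refine Finset.sum_le_sum fun k hk => ?_
  have h1 := one_le_nsq (ne_zero_of_mem hk)
  have h2 : nsq k ≤ nsq k ^ 2 := by nlinarith
  gcongr

lemma norm_sq_eq_cx (r : HS N) : ‖r‖ ^ 2 = ∑ k ∈ modes N, ‖cx r k‖ ^ 2 := by
  rw [norm_sq_eq]
  have := weight_sum r (wt := fun _ => 1) (fun _ => rfl)
  simpa using this

/-- the enstrophy production rate -/
lemma ens_rate {κ ν g : ℝ} (hκ : 0 < κ) (hν : 0 < ν) (hg : 0 < g) (p : HS N × HS N) :
    ∑ k ∈ modes N, nsq k * (2 * ex p.1 k * ex (gf N κ ν g p).1 k) ≤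
      -(ν * κ ^ 2) * pal p.1 + g ^ 2 / (ν * κ ^ 2) * ‖p.2‖ ^ 2 := by
  set v := cx p.1 with hv
  set θ := cx p.2 with hθ
  have hvs : ∀ k, k ∉ modes N → v k = 0 := fun k hk => cx_supp _ hk
  have h1 : ∑ k ∈ modes N, nsq k * (2 * ex p.1 k * ex (gf N κ ν g p).1 k) =
      2 * ∑ k ∈ modes N, nsq k * ex p.1 k * ((rv κ ν g v θ k).re + (rv κ ν g v θ k).im) := by
    rw [Finset.mul_sum]
    refine Finset.sum_congr rfl fun k hk => ?_
    have : ex (gf N κ ν g p).1 k = (rv κ ν g v θ k).re + (rv κ ν g v θ k).im := ex_hc _ hk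
    rw [this]
    ring
  rw [h1, pairing p.1 (rv_symm (cx_symm p.1) (cx_symm p.2)) nsq_neg]
  have hterm : ∀ k, nsq k * (rv κ ν g v θ k * v (-k)).re =
      (κ * ((nsq k : ℂ) * BE v v k * v (-k))).re - ν * κ ^ 2 * (nsq k ^ 2 * ‖v k‖ ^ 2) -
        nsq k * (I * ((g * (k 0 / nrm k) : ℝ) : ℂ) * θ k * v (-k)).re := by
    intro k
    have e1 : v k * v (-k) = ((‖v k‖ ^ 2 : ℝ) : ℂ) := by
      rw [hv, cx_symm, Complex.mul_conj, Complex.normSq_eq_norm_sq]
    have e2 : (nsq k : ℂ) * (rv κ ν g v θ k * v (-k)) =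
        κ * ((nsq k : ℂ) * BE v v k * v (-k)) -
          ((ν * κ ^ 2 * (nsq k ^ 2 * ‖v k‖ ^ 2) : ℝ) : ℂ) -
          (nsq k : ℂ) * (I * ((g * (k 0 / nrm k) : ℝ) : ℂ) * θ k * v (-k)) := by
      unfold rv
      push_cast
      push_cast at e1
      linear_combination (-(ν : ℂ) * κ ^ 2 * nsq k ^ 2) * e1
    have e3 : ∀ z : ℂ, nsq k * z.re = ((nsq k : ℂ) * z).re := fun z => by
      rw [Complex.re_ofReal_mul]
    rw [e3, e2, Complex.sub_re, Complex.sub_re, Complex.ofReal_re, ← e3]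
  have hsum : ∑ k ∈ modes N, nsq k * (rv κ ν g v θ k * v (-k)).re =
      -(ν * κ ^ 2) * pal p.1 -
        ∑ k ∈ modes N, nsq k * (I * ((g * (k 0 / nrm k) : ℝ) : ℂ) * θ k * v (-k)).re := by
    rw [Finset.sum_congr rfl fun k _ => hterm k, Finset.sum_sub_distrib, Finset.sum_sub_distrib,
      ← Complex.re_sum, ← Finset.mul_sum, sum_BE_eq_zero hvs, ← Finset.mul_sum]
    unfold pal
    rw [← hv]
    simp
  rw [hsum]
  have hforce : |∑ k ∈ modes N, nsq k * (I * ((g * (k 0 / nrm k) : ℝ) : ℂ) * θ k * v (-k)).re| ≤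
      g * (Real.sqrt (∑ k ∈ modes N, ‖θ k‖ ^ 2) * Real.sqrt (pal p.1)) := by
    refine (Finset.abs_sum_le_sum_abs _ _).trans ?_
    have h2 : ∀ k ∈ modes N, |nsq k * (I * ((g * (k 0 / nrm k) : ℝ) : ℂ) * θ k * v (-k)).re| ≤
        g * (‖θ k‖ * (nsq k * ‖v k‖)) := by
      intro k hk
      rw [abs_mul, abs_of_nonneg (nsq_nonneg k)]
      have h3 : |(k 0 : ℝ) / nrm k| ≤ 1 := by
        rw [abs_div, abs_of_nonneg (nrm_nonneg k), div_le_one (nrm_pos (ne_zero_of_mem hk))]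
        unfold nrm nsq
        rw [← Real.sqrt_sq_eq_abs]
        apply Real.sqrt_le_sqrt
        have := sq_nonneg ((k 1 : ℤ) : ℝ)
        linarith
      have h4 : ‖I * ((g * (k 0 / nrm k) : ℝ) : ℂ) * θ k * v (-k)‖ ≤ g * (‖θ k‖ * ‖v k‖) := by
        rw [norm_mul, norm_mul, norm_mul, Complex.norm_I, one_mul, Complex.norm_real,
          Real.norm_eq_abs, abs_mul, abs_of_pos hg, hv, cx_symm, Complex.norm_conj]
        have h5 : 0 ≤ ‖θ k‖ * ‖cx p.1 k‖ := by positivity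
        calc g * |(k 0 : ℝ) / nrm k| * ‖θ k‖ * ‖cx p.1 k‖
            = |(k 0 : ℝ) / nrm k| * (g * (‖θ k‖ * ‖cx p.1 k‖)) := by ring
          _ ≤ 1 * (g * (‖θ k‖ * ‖cx p.1 k‖)) := by gcongr
          _ = _ := one_mul _
      calc nsq k * |(I * ((g * (k 0 / nrm k) : ℝ) : ℂ) * θ k * v (-k)).re|
          ≤ nsq k * (g * (‖θ k‖ * ‖v k‖)) := by
            have := nsq_nonneg k
            gcongr
            exact (Complex.abs_re_le_norm _).trans h4
        _ = _ := by ring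
    refine (Finset.sum_le_sum h2).trans ?_
    rw [← Finset.mul_sum]
    have h3 := Real.sum_mul_le_sqrt_mul_sqrt (modes N) (fun k => ‖θ k‖) (fun k => nsq k * ‖v k‖)
    have h4 : ∑ k ∈ modes N, (nsq k * ‖v k‖) ^ 2 = pal p.1 := by
      unfold pal
      exact Finset.sum_congr rfl fun k _ => by rw [mul_pow]
    rw [h4] at h3
    gcongr
  have hθ2 : ∑ k ∈ modes N, ‖θ k‖ ^ 2 = ‖p.2‖ ^ 2 := (norm_sq_eq_cx p.2).symm
  rw [hθ2, Real.sqrt_sq (norm_nonneg _)] at hforce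
  have hpal : 0 ≤ pal p.1 := by
    unfold pal
    exact Finset.sum_nonneg fun k _ => by positivity
  have h5 := abs_le.1 hforce
  have h6 : 2 * (g * (‖p.2‖ * Real.sqrt (pal p.1))) ≤
      ν * κ ^ 2 * pal p.1 + g ^ 2 / (ν * κ ^ 2) * ‖p.2‖ ^ 2 := by
    have h7 : Real.sqrt (pal p.1) ^ 2 = pal p.1 := Real.sq_sqrt hpal
    set q := Real.sqrt (pal p.1)
    set m := ν * κ ^ 2 with hm
    have hm0 : 0 < m := by positivity
    have h8 : m * q ^ 2 + g ^ 2 / m * ‖p.2‖ ^ 2 - 2 * (g * (‖p.2‖ * q)) =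
        (m * q - g * ‖p.2‖) ^ 2 / m := by
      field_simp
      ring
    have h9 : 0 ≤ (m * q - g * ‖p.2‖) ^ 2 / m := by positivity
    rw [← h7]
    linarith
  linarith [h5.1, h6]

end Pool.Agent.Bous
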