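import Pool.Agent.Bous.Defs

/-!
# The semi-dissipative 2D Boussinesq system in terms of functions on the torus

A function `f` on the torus `ℝ² / (L ℤ²)` is represented by the function `y ↦ f (L y)` on the unit
torus `UnitAddTorus (Fin 2)`; then `∂_j` becomes multiplication of the Fourier coefficients by
`2 π i k_j / L`.
-/

open MeasureTheory Set Filter Topology Complex
open scoped ENNReal InnerProductSpace

namespace Pool.Agent.Bous

/-- Square integrable real functions on the unit torus. -/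
def SqInt (f : Torus → ℝ) : Prop := MemLp f 2 volume

/-- The pairing `∫ f g`. -/
noncomputable def pair (f g : Torus → ℝ) : ℝ := ∫ y, f y * g y

/-- Pairs (velocity field, temperature) of functions. -/
abbrev FState := (Fin 2 → Torus → ℝ) × (Torus → ℝ)

/-- The phase space `X = H × L²` of mean-free square integrable pairs with divergence-free
velocity: `û_j(0) = 0`, `θ̂(0) = 0` and `k · û(k) = 0` for all `k`. -/
def FPhase : Set FState :=
  {x | (∀ j, SqInt (x.1 j)) ∧ SqInt x.2 ∧ (∀ j, coef (x.1 j) 0 = 0) ∧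
    (∀ k : Fin 2 → ℤ, ∑ j, (k j : ℂ) * coef (x.1 j) k = 0) ∧ coef x.2 0 = 0}

/-- `d/dt ∑ a_i û_i(k)` for a state `x = (u, θ)`, when `a · k = 0`. -/
noncomputable def velocityRate (L ν g : ℝ) (k : Fin 2 → ℤ) (a : Fin 2 → ℝ) (x : FState) : ℂ :=
  -(2 * Real.pi * I / L) *
      ∑ i, ∑ j, (a i : ℂ) * (k j : ℂ) * coef (fun y => x.1 j y * x.1 i y) k
    - ν * (2 * Real.pi / L) ^ 2 * ((k 0 : ℂ) ^ 2 + (k 1 : ℂ) ^ 2) *
      ∑ i, (a i : ℂ) * coef (x.1 i) k
    + g * (a 1 : ℂ) * coef x.2 k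

/-- `d/dt θ̂(k)` for a state `x = (u, θ)`. -/
noncomputable def temperatureRate (L : ℝ) (k : Fin 2 → ℤ) (x : FState) : ℂ :=
  -(2 * Real.pi * I / L) * ∑ j, (k j : ℂ) * coef (fun y => x.1 j y * x.2 y) k

/-- `∑_k |k|² |û(k)|²`, a multiple of the squared `H¹` seminorm. -/
noncomputable def enstrophy (u : Fin 2 → Torus → ℝ) : ℝ≥0∞ :=
  ∑' k : Fin 2 → ℤ, ∑ j, ENNReal.ofReal (((k 0 : ℝ) ^ 2 + (k 1 : ℝ) ^ 2) * ‖coef (u j) k‖ ^ 2)

/-- Continuity of `[0, ∞) → L²` in the norm topology. -/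
def StronglyContinuous (f : ℝ → Torus → ℝ) : Prop :=
  ∀ t, 0 ≤ t → Tendsto (fun r => ∫ y, (f r y - f t y) ^ 2) (𝓝[Ici 0] t) (𝓝 0)

/-- Continuity of `[0, ∞) → L²` in the weak topology. -/
def WeaklyContinuous (f : ℝ → Torus → ℝ) : Prop :=
  ∀ h, SqInt h → ContinuousOn (fun t => pair h (f t)) (Ici 0)

/-- Weak solutions `t ↦ s t = (u(t), θ(t))`, `t ≥ 0`, of the semi-dissipative Boussinesq system on
the torus of period `L`: `u ∈ C([0,∞); L²) ∩ L²_loc([0,∞); H¹)`, `θ` is weakly continuous with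
values in `L²`, and the equations hold weakly, tested against `e^{2 π i k·y}` for the temperature
and against `a e^{2 π i k·y}` with `a · k = 0` for the velocity (so that the pressure drops out). -/
structure WeakSol (L ν g : ℝ) (s : ℝ → FState) : Prop where
  mem : ∀ t, 0 ≤ t → s t ∈ FPhase
  velocity_continuous : ∀ j, StronglyContinuous fun t => (s t).1 j
  temperature_weakly_continuous : WeaklyContinuous fun t => (s t).2
  velocity_sobolev : ∀ T, ∫⁻ t in Icc 0 T, enstrophy (s t).1 < ⊤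
  velocity_equation : ∀ (k : Fin 2 → ℤ) (a : Fin 2 → ℝ), ∑ i, a i * (k i : ℝ) = 0 →
    ∀ t, 0 ≤ t → ∑ i, (a i : ℂ) * coef ((s t).1 i) k =
      ∑ i, (a i : ℂ) * coef ((s 0).1 i) k + ∫ r in (0 : ℝ)..t, velocityRate L ν g k a (s r)
  temperature_equation : ∀ (k : Fin 2 → ℤ), ∀ t, 0 ≤ t →
      coef (s t).2 k = coef (s 0).2 k + ∫ r in (0 : ℝ)..t, temperatureRate L k (s r)

/-- Weak convergence in `L²`. -/
def WeaklyTendsto (f : ℕ → Torus → ℝ) (a : Torus → ℝ) : Prop :=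
  ∀ h, SqInt h → Tendsto (fun n => pair h (f n)) atTop (𝓝 (pair h a))

/-- The weak sigma-attractor of a set `𝒮` of trajectories: all weak limits of `s_n(t_n)` with
`s_n ∈ 𝒮`, initial data `s_n(0)` in a bounded subset of `X`, and `t_n → ∞`. -/
def FAttractor (𝒮 : Set (ℝ → FState)) : Set FState :=
  {a | a ∈ FPhase ∧ ∃ (t : ℕ → ℝ) (s : ℕ → ℝ → FState) (M : ℝ),
    (∀ n, 0 ≤ t n) ∧ Tendsto t atTop atTop ∧ (∀ n, s n ∈ 𝒮) ∧ (∀ n, s n 0 ∈ FPhase) ∧
    (∀ n, (∀ j, pair ((s n 0).1 j) ((s n 0).1 j) ≤ M) ∧ pair (s n 0).2 (s n 0).2 ≤ M) ∧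
    (∀ j, WeaklyTendsto (fun n => (s n (t n)).1 j) (a.1 j)) ∧
    WeaklyTendsto (fun n => (s n (t n)).2) a.2}

/-- `S` is a solution operator of the system: for every `x ∈ X`, `t ↦ S t x` is a weak solution
with initial value `x`. -/
def SolutionOperator (L ν g : ℝ) (S : ℝ → FState → FState) : Prop :=
  ∀ x ∈ FPhase, S 0 x = x ∧ WeakSol L ν g (fun t => S t x)

/-- The trajectories of a solution operator. -/
def orbits (S : ℝ → FState → FState) : Set (ℝ → FState) :=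
  {s | ∃ x ∈ FPhase, s = fun t => S t x}

end Pool.Agent.Bous
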