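import Pool.Agent.Bous.TransferMul

/-!
# Function level and sequence level: M6a, M6b
-/

open MeasureTheory Set Filter Topology Complex
open scoped ENNReal InnerProductSpace ComplexConjugate

namespace Pool.Agent.Bous

/-- the integrand of the velocity equation tested with `k^⊥` -/
lemma Rel.velocity_integrand {x : State} {V Θ : Seq2} (h : Rel x V Θ) (L ν g : ℝ) {k : K}
    (hk : k ≠ 0) :
    (-(2 * Real.pi * I / L) *
        ∑ i, ∑ j, ((kperp k i : ℝ) : ℂ) * (k j : ℂ) * coef (fun y => x.1 j y * x.1 i y) k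
      - ν * (2 * Real.pi / L) ^ 2 * ((k 0 : ℂ) ^ 2 + (k 1 : ℂ) ^ 2) *
        ∑ i, ((kperp k i : ℝ) : ℂ) * coef (x.1 i) k
      + g * ((kperp k 1 : ℝ) : ℂ) * coef x.2 k) =
    I * (nrm k : ℂ) * rv (2 * Real.pi / L) ν g V Θ k := by
  rw [h.convect hk, h.perp_self, h.1, kperp_one_idx]
  unfold rv nsq
  have hn : (nrm k : ℂ) ≠ 0 := by exact_mod_cast (nrm_pos' hk).ne'
  push_cast
  rw [show I * (nrm k : ℂ) * (2 * (Real.pi : ℂ) / (L : ℂ) * BE (V) (V) k -
    (ν : ℂ) * (2 * (Real.pi : ℂ) / (L : ℂ)) ^ 2 * ((k 0 : ℂ) ^ 2 + (k 1 : ℂ) ^ 2) * V k -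
      I * ((g : ℂ) * ((k 0 : ℂ) / (nrm k : ℂ))) * Θ k) =
      I * (nrm k : ℂ) * (2 * (Real.pi : ℂ) / (L : ℂ) * BE (V) (V) k) -
      I * (nrm k : ℂ) * ((ν : ℂ) * (2 * (Real.pi : ℂ) / (L : ℂ)) ^ 2 *
        ((k 0 : ℂ) ^ 2 + (k 1 : ℂ) ^ 2) * V k) -
      (I * I) * (g : ℂ) * ((nrm k : ℂ) / (nrm k : ℂ)) * (k 0 : ℂ) * Θ k by ring, I_mul_I,
      div_self hn]
  ring

lemma Rel.temperature_integrand {x : State} {V Θ : Seq2} (h : Rel x V Θ) (L : ℝ) (k : K) :
    -(2 * Real.pi * I / L) * ∑ j, (k j : ℂ) * coef (fun y => x.1 j y * x.2 y) k =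
      rt (2 * Real.pi / L) V Θ k := by
  rw [h.transport]
  unfold rt
  push_cast
  rw [show -(2 * (Real.pi : ℂ) * I / (L : ℂ)) * (I * AL V Θ k) =
    -(I * I) * (2 * (Real.pi : ℂ) / (L : ℂ) * AL V Θ k) by ring, I_mul_I]
  ring

theorem targetM6a : TargetM6a := by
  intro L ν g hL hν hg s hs
  have hrel : ∀ t, 0 ≤ t → Rel (s t) (vOf (s t)) (tOf (s t)) := fun t ht => rel_of_mem (hs.mem t ht)
  refine ⟨fun t => vOf (s t), fun t => tOf (s t), ?_, hrel⟩
  have hv0 : ∀ t, vOf (s t) 0 = 0 := by
    intro t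
    rw [vOf_apply]
    simp
  refine
    { v_symm := ?_, t_symm := ?_, v_mean := ?_, t_mean := ?_, v_cont := ?_, t_cont := ?_,
      t_bdd := ?_, v_h1 := ?_, v_eq := ?_, t_eq := ?_ }
  · intro t _ k
    rw [vOf_apply, vOf_apply, coef_neg, coef_neg, nrm_neg']
    simp only [map_neg, map_add, map_mul, conj_I, conj_ofReal, Pi.neg_apply, Int.cast_neg]
    push_cast
    ring
  · intro t _ k
    show tOf (s t) (-k) = conj (tOf (s t) k)
    unfold tOf
    rw [coefL_apply, coefL_apply, coef_neg]
  · intro t _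
    exact hv0 t
  · intro t ht
    show tOf (s t) 0 = 0
    unfold tOf
    rw [coefL_apply]
    exact (hs.mem t ht).2.2
  · unfold vOf
    refine ContinuousOn.neg ?_
    refine continuousOn_finsetSum _ fun j _ => ?_
    exact (rieszL j).continuous.comp_continuousOn
      (coefL.continuous.comp_continuousOn (hs.velocity_continuous j))
  · intro k
    refine (coef_continuousOn hs.temperature_weakly_continuous k).congr fun t _ => ?_
    show tOf (s t) k = _
    unfold tOf
    rw [coefL_apply]
  · intro T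
    obtain ⟨C, hC⟩ := bounded_of_weak (S := Icc 0 T) isCompact_Icc
      (fun f => (hs.temperature_weakly_continuous f).mono Icc_subset_Ici_self)
    refine ⟨C, fun t ht => ?_⟩
    show ‖tOf (s t)‖ ≤ C
    unfold tOf
    rw [norm_coefL]
    exact hC t ht
  · intro T
    refine lt_of_eq_of_lt ?_ (hs.velocity_sobolev T)
    refine setLIntegral_congr_fun measurableSet_Icc fun t ht => ?_
    refine tsum_congr fun k => ?_
    exact ((hrel t ht.1).energy k).symm
  · intro k t ht
    rcases eq_or_ne k 0 with hk | hk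
    · subst hk
      show vOf (s t) 0 = vOf (s 0) 0 + _
      rw [hv0, hv0, zero_add]
      have h1 : ∀ r, rv (2 * Real.pi / L) ν g (vOf (s r)) (tOf (s r)) 0 = 0 := by
        intro r
        unfold rv
        rw [BE_zero]
        simp [nsq]
      simp only [h1]
      simp
    · have h1 := hs.velocity_equation k (kperp k) (by
        rw [Fin.sum_univ_two, kperp_zero_idx, kperp_one_idx]; ring) t ht
      rw [(hrel t ht).perp_self, (hrel 0 le_rfl).perp_self] at h1
      have h2 : ∫ r in (0 : ℝ)..t,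
          (-(2 * Real.pi * I / L) *
              ∑ i, ∑ j, ((kperp k i : ℝ) : ℂ) * (k j : ℂ) * coef (fun y => (s r).1 j y * (s r).1 i y) k
            - ν * (2 * Real.pi / L) ^ 2 * ((k 0 : ℂ) ^ 2 + (k 1 : ℂ) ^ 2) *
              ∑ i, ((kperp k i : ℝ) : ℂ) * coef ((s r).1 i) k
            + g * ((kperp k 1 : ℝ) : ℂ) * coef (s r).2 k) =
          ∫ r in (0 : ℝ)..t, I * (nrm k : ℂ) *
            rv (2 * Real.pi / L) ν g (vOf (s r)) (tOf (s r)) k := by
        refine intervalIntegral.integral_congr fun r hr => ?_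
        rw [uIcc_of_le ht] at hr
        exact (hrel r hr.1).velocity_integrand L ν g hk
      rw [h2, intervalIntegral.integral_const_mul, ← mul_add] at h1
      have hn : I * (nrm k : ℂ) ≠ 0 :=
        mul_ne_zero I_ne_zero (by exact_mod_cast (nrm_pos' hk).ne')
      exact mul_left_cancel₀ hn h1
  · intro k t ht
    have h1 := hs.temperature_equation k t ht
    show tOf (s t) k = tOf (s 0) k + _
    have h2 : ∫ r in (0 : ℝ)..t,
        -(2 * Real.pi * I / L) * ∑ j, (k j : ℂ) * coef (fun y => (s r).1 j y * (s r).2 y) k =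
        ∫ r in (0 : ℝ)..t, rt (2 * Real.pi / L) (vOf (s r)) (tOf (s r)) k := by
      refine intervalIntegral.integral_congr fun r hr => ?_
      rw [uIcc_of_le ht] at hr
      exact (hrel r hr.1).temperature_integrand L k
    rw [h2] at h1
    unfold tOf at h1 ⊢
    rw [coefL_apply, coefL_apply]
    exact h1

/-- The state with given coefficients. -/
noncomputable def stateOf (v θ : Seq2) : State := (fun j => invL (rieszL j v), invL θ)

lemma rel_stateOf {v θ : Seq2} (hv : ∀ k, v (-k) = conj (v k)) (hθ : ∀ k, θ (-k) = conj (θ k)) :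
    Rel (stateOf v θ) v θ := by
  refine ⟨fun k => coef_invL θ hθ k, fun j k => ?_⟩
  show coef (invL (rieszL j v)) k = _
  rw [coef_invL _ (rieszL_symm j v hv), rieszL_apply]

lemma coef_zero_of_rel {x : State} {V Θ : Seq2} (h : Rel x V Θ) (j : Fin 2) :
    coef (x.1 j) 0 = 0 := by
  rw [h.2, kperp_zero]
  simp

theorem targetM6b : TargetM6b := by
  intro L ν g hL hν hg v θ hs
  have hrel : ∀ t, 0 ≤ t → Rel (stateOf (v t) (θ t)) (v t) (θ t) := fun t ht =>
    rel_stateOf (hs.v_symm t ht) (hs.t_symm t ht)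
  refine ⟨fun t => stateOf (v t) (θ t), ?_, hrel⟩
  refine
    { mem := ?_, velocity_continuous := ?_, temperature_weakly_continuous := ?_,
      velocity_sobolev := ?_, velocity_equation := ?_, temperature_equation := ?_ }
  · intro t ht
    refine ⟨fun j => coef_zero_of_rel (hrel t ht) j, fun k => ?_, ?_⟩
    · rw [(hrel t ht).u_sum]
      have : al k (k - k) = 0 := by
        unfold al
        rw [cross_sub]
        unfold cross
        rw [mul_comm, sub_self, zero_div]
      rw [this]
      simp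
    · rw [(hrel t ht).1]
      exact hs.t_mean t ht
  · intro j
    exact invL.continuous.comp_continuousOn ((rieszL j).continuous.comp_continuousOn hs.v_cont)
  · intro f
    refine continuousOn_Ici_of_Icc fun T => ?_
    obtain ⟨C, hC⟩ := hs.t_bdd T
    have h1 := weak_of_bounded (θ := θ) (T := T) (C := C)
      (fun k => (hs.t_cont k).mono Icc_subset_Ici_self) hC (coefL f)
    have h2 := continuous_re.comp_continuousOn h1
    refine h2.congr fun t ht => ?_
    show ⟪f, invL (θ t)⟫_ℝ = (⟪coefL f, θ t⟫_ℂ).re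
    have h3 : coefL (invL (θ t)) = θ t := by
      refine lp.ext ?_
      funext k
      rw [coefL_apply, coef_invL _ (hs.t_symm t ht.1)]
    have h4 := inner_eq_coef f (invL (θ t))
    rw [h3] at h4
    rw [← h4, ofReal_re]
  · intro T
    refine lt_of_eq_of_lt ?_ (hs.v_h1 T)
    refine setLIntegral_congr_fun measurableSet_Icc fun t ht => ?_
    refine tsum_congr fun k => ?_
    exact ((hrel t ht.1).energy k)
  · intro k a ha t ht
    rcases eq_or_ne k 0 with hk | hk
    · subst hk
      have hz : ∀ r, 0 ≤ r → ∀ i, coef ((stateOf (v r) (θ r)).1 i) 0 = 0 :=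
        fun r hr i => coef_zero_of_rel (hrel r hr) i
      have h1 : ∀ r ∈ uIcc 0 t, (-(2 * Real.pi * I / L) *
              ∑ i, ∑ j, (a i : ℂ) * (((0 : K) j : ℤ) : ℂ) * coef (fun y =>
                (stateOf (v r) (θ r)).1 j y * (stateOf (v r) (θ r)).1 i y) 0
            - ν * (2 * Real.pi / L) ^ 2 * ((((0 : K) 0 : ℤ) : ℂ) ^ 2 + (((0 : K) 1 : ℤ) : ℂ) ^ 2) *
              ∑ i, (a i : ℂ) * coef ((stateOf (v r) (θ r)).1 i) 0
            + g * (a 1 : ℂ) * coef (stateOf (v r) (θ r)).2 0) = 0 := by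
        intro r hr
        rw [uIcc_of_le ht] at hr
        have h3 : coef (stateOf (v r) (θ r)).2 0 = 0 := by
          rw [(hrel r hr.1).1]
          exact hs.t_mean r hr.1
        rw [h3]
        simp
      rw [intervalIntegral.integral_congr (g := fun _ => (0 : ℂ)) h1]
      simp only [hz t ht, hz 0 le_rfl]
      simp
    · -- `a` is a multiple of `kperp k`
      rw [Fin.sum_univ_two] at ha
      have hq := nsq_pos' hk
      set c : ℝ := (a 0 * kperp k 0 + a 1 * kperp k 1) / nsq k with hc
      have hac : ∀ i, a i = c * kperp k i := by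
        have h0 : a 0 = c * kperp k 0 := by
          rw [hc, div_mul_eq_mul_div, eq_div_iff hq.ne', kperp_zero_idx, kperp_one_idx]
          unfold nsq
          linear_combination (k 0 : ℝ) * ha
        have h1 : a 1 = c * kperp k 1 := by
          rw [hc, div_mul_eq_mul_div, eq_div_iff hq.ne', kperp_zero_idx, kperp_one_idx]
          unfold nsq
          linear_combination (k 1 : ℝ) * ha
        intro i
        fin_cases i
        · exact h0
        · exact h1
      have hsum : ∀ X : Fin 2 → ℂ, ∑ i, (a i : ℂ) * X i =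
          (c : ℂ) * ∑ i, ((kperp k i : ℝ) : ℂ) * X i := by
        intro X
        rw [Finset.mul_sum]
        refine Finset.sum_congr rfl fun i _ => ?_
        rw [hac i]
        push_cast
        ring
      have hsum2 : ∀ X : Fin 2 → Fin 2 → ℂ, ∑ i, ∑ j, (a i : ℂ) * (k j : ℂ) * X i j =
          (c : ℂ) * ∑ i, ∑ j, ((kperp k i : ℝ) : ℂ) * (k j : ℂ) * X i j := by
        intro X
        rw [Finset.mul_sum]
        refine Finset.sum_congr rfl fun i _ => ?_
        rw [Finset.mul_sum]
        refine Finset.sum_congr rfl fun j _ => ?_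
        rw [hac i]
        push_cast
        ring
      have h1 : ∀ r ∈ uIcc 0 t, (-(2 * Real.pi * I / L) *
              ∑ i, ∑ j, (a i : ℂ) * (k j : ℂ) * coef (fun y =>
                (stateOf (v r) (θ r)).1 j y * (stateOf (v r) (θ r)).1 i y) k
            - ν * (2 * Real.pi / L) ^ 2 * ((k 0 : ℂ) ^ 2 + (k 1 : ℂ) ^ 2) *
              ∑ i, (a i : ℂ) * coef ((stateOf (v r) (θ r)).1 i) k
            + g * (a 1 : ℂ) * coef (stateOf (v r) (θ r)).2 k) =
          (c : ℂ) * (I * (nrm k : ℂ)) * rv (2 * Real.pi / L) ν g (v r) (θ r) k := by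
        intro r hr
        rw [uIcc_of_le ht] at hr
        have h2 := (hrel r hr.1).velocity_integrand L ν g hk
        rw [mul_assoc (c : ℂ), ← h2, hsum, hsum2, hac 1]
        push_cast
        ring
      rw [intervalIntegral.integral_congr h1, intervalIntegral.integral_const_mul, hsum, hsum,
        (hrel t ht).perp_self, (hrel 0 le_rfl).perp_self]
      have h3 := hs.v_eq k t ht
      rw [h3]
      ring
  · intro k t ht
    have h2 : ∫ r in (0 : ℝ)..t,
        -(2 * Real.pi * I / L) * ∑ j, (k j : ℂ) * coef (fun y => (stateOf (v r) (θ r)).1 j y *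
          (stateOf (v r) (θ r)).2 y) k =
        ∫ r in (0 : ℝ)..t, rt (2 * Real.pi / L) (v r) (θ r) k := by
      refine intervalIntegral.integral_congr fun r hr => ?_
      rw [uIcc_of_le ht] at hr
      exact (hrel r hr.1).temperature_integrand L k
    rw [h2, (hrel t ht).1, (hrel 0 le_rfl).1]
    exact hs.t_eq k t ht

end Pool.Agent.Bous
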