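import Pool.Agent.Bous.UGron

/-!
# Weak-strong uniqueness (target M5)
-/

open Complex Set MeasureTheory Filter Topology
open scoped ComplexConjugate ENNReal

namespace Pool.Agent.Bous.U

section
variable {κ ν g : ℝ} {v θ v' θ' : ℝ → Seq2}

lemma yy_nonneg (d e : ℝ → Seq2) (t : ℝ) : 0 ≤ yy d e t := by unfold yy; positivity

/-- the differential inequality in integrated form -/
lemma energy_ineq (hκ : 0 < κ) (hν : 0 < ν) (hg : 0 < g) {T M : ℝ}
    (P : Pair κ ν g T M v θ v' θ') :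
    ∃ A B : ℝ, 0 ≤ A ∧ 0 ≤ B ∧ ∀ n : ℕ, ∀ s ∈ Icc 0 T, ∀ t ∈ Icc 0 T, s ≤ t →
      yy (dd v v') (dd θ θ') s = 0 →
      yy (dd v v') (dd θ θ') t ≤ ρ ^ n * (A * ∫ r in Icc 0 T, mm v v' r) +
        ∫ r in s..t, (A * mm v v' r + B * (n + 1)) * yy (dd v v') (dd θ θ') r := by
  obtain ⟨C, hC, hc4, hcl, hch, hc5⟩ := constants
  have hM := P.hM
  set A : ℝ := 8 * C ^ 2 / ν + 2 * (κ * C) + 2 * (g ^ 2 / (ν * κ ^ 2)) + 2 * (κ * C * M ^ 2) +
    C ^ 2 * M ^ 4 / ν with hA
  set B : ℝ := 2 * (C ^ 2 * M ^ 2 / ν) + 2 * (κ * C) with hB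
  have hA0 : 0 ≤ A := by positivity
  have hB0 : 0 ≤ B := by positivity
  refine ⟨A, B, hA0, hB0, fun n s hs t ht hst hzero => ?_⟩
  obtain ⟨hDint, hid⟩ := energy_identity hκ hν hg P
  have hmm := mm_int P
  have hmm0 : ∀ r, 0 ≤ mm v v' r := fun r => by
    unfold mm
    have : 0 ≤ (H2 (v r)).toReal := ENNReal.toReal_nonneg
    have : 0 ≤ (H1 (dd v v' r)).toReal := ENNReal.toReal_nonneg
    linarith
  have hρn : 0 ≤ ρ ^ n := (pow_pos ρ_pos n).le
  -- pointwise inequality
  have hpt : ∀ᵐ r ∂(volume.restrict (Icc 0 T)), DD κ ν g v θ v' θ' r ≤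
      (A * mm v v' r + B * (n + 1)) * yy (dd v v') (dd θ θ') r + ρ ^ n * (A * mm v v' r) := by
    filter_upwards [ae_fin P] with r hr
    have h1 := qq_re (data_of P hr.1 hr.2.1 hr.2.2) hC hc4 hcl hch hc5 hκ hν hg n
    rw [Real.sq_sqrt ENNReal.toReal_nonneg] at h1
    refine h1.trans ?_
    have h2 : 1 + (H2 (v r)).toReal ≤ mm v v' r := by
      unfold mm
      have : 0 ≤ (H1 (dd v v' r)).toReal := ENNReal.toReal_nonneg
      linarith
    have h3 := yy_nonneg (dd v v') (dd θ θ') r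
    have h4 : (‖dd v v' r‖ ^ 2 + (N2 (fun k => wi k * ‖dd θ θ' r k‖ₑ)).toReal ^ 2) / 2 =
      yy (dd v v') (dd θ θ') r := rfl
    rw [h4]
    gcongr
  -- continuity and integrability of the energy
  have hycont : ContinuousOn (yy (dd v v') (dd θ θ')) (Icc 0 T) := by
    have h0 : (0:ℝ) ∈ Icc 0 T := ⟨le_rfl, P.hT⟩
    have h1 : ContinuousOn (fun q => yy (dd v v') (dd θ θ') 0 +
        ∫ r in (0:ℝ)..q, DD κ ν g v θ v' θ' r) (Icc 0 T) := by
      apply ContinuousOn.add continuousOn_const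
      have h2 : IntervalIntegrable (DD κ ν g v θ v' θ') volume 0 T := by
        rw [intervalIntegrable_iff]
        exact hDint.mono_set (uIoc_subset_uIcc.trans (uIcc_subset_Icc h0 ⟨P.hT, le_rfl⟩))
      have := intervalIntegral.continuousOn_primitive_interval' h2 (left_mem_uIcc)
      rwa [uIcc_of_le P.hT] at this
    refine h1.congr fun q hq => ?_
    have := hid 0 h0 q hq hq.1
    linarith
  have hcoef : IntegrableOn (fun r => A * mm v v' r + B * (n + 1)) (Icc 0 T) :=
    (hmm.const_mul A).add (integrable_const _)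
  have hprod : IntegrableOn (fun r => (A * mm v v' r + B * (n + 1)) *
      yy (dd v v') (dd θ θ') r) (Icc 0 T) :=
    hcoef.mul_continuousOn hycont isCompact_Icc
  have hrem : IntegrableOn (fun r => ρ ^ n * (A * mm v v' r)) (Icc 0 T) :=
    (hmm.const_mul A).const_mul _
  have hsub : Set.uIoc s t ⊆ Icc 0 T := uIoc_subset_uIcc.trans (uIcc_subset_Icc hs ht)
  have hsub' : Icc s t ⊆ Icc 0 T := Icc_subset_Icc hs.1 ht.2
  have i1 : IntervalIntegrable (DD κ ν g v θ v' θ') volume s t := by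
    rw [intervalIntegrable_iff]; exact hDint.mono_set hsub
  have i2 : IntervalIntegrable (fun r => (A * mm v v' r + B * (n + 1)) *
      yy (dd v v') (dd θ θ') r) volume s t := by
    rw [intervalIntegrable_iff]; exact hprod.mono_set hsub
  have i3 : IntervalIntegrable (fun r => ρ ^ n * (A * mm v v' r)) volume s t := by
    rw [intervalIntegrable_iff]; exact hrem.mono_set hsub
  have h1 := hid s hs t ht hst
  rw [hzero, sub_zero] at h1
  have h2 : (∫ r in s..t, DD κ ν g v θ v' θ' r) ≤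
      ∫ r in s..t, ((A * mm v v' r + B * (n + 1)) * yy (dd v v') (dd θ θ') r +
        ρ ^ n * (A * mm v v' r)) := by
    apply intervalIntegral.integral_mono_ae_restrict hst i1 (i2.add i3)
    exact ae_restrict_of_ae_restrict_of_subset hsub' hpt
  rw [intervalIntegral.integral_add i2 i3] at h2
  have h3 : (∫ r in s..t, ρ ^ n * (A * mm v v' r)) ≤
      ρ ^ n * (A * ∫ r in Icc 0 T, mm v v' r) := by
    rw [intervalIntegral.integral_const_mul, intervalIntegral.integral_const_mul]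
    gcongr
    rw [intervalIntegral.integral_of_le hst]
    apply setIntegral_mono_set hmm
    · exact Eventually.of_forall fun r => hmm0 r
    · exact (Ioc_subset_Icc_self.trans hsub').eventuallyLE
  rw [h1]
  linarith

lemma local_zero (hκ : 0 < κ) (hν : 0 < ν) (hg : 0 < g) {T M : ℝ}
    (P : Pair κ ν g T M v θ v' θ') :
    ∃ τ : ℝ, 0 < τ ∧ ∀ s ∈ Icc 0 T, ∀ t ∈ Icc 0 T, s ≤ t → t - s ≤ τ →
      yy (dd v v') (dd θ θ') s = 0 → yy (dd v v') (dd θ θ') t = 0 := by
  obtain ⟨A, B, hA0, hB0, hineq⟩ := energy_ineq hκ hν hg P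
  have hmm := mm_int P
  have hmm0 : ∀ r, 0 ≤ mm v v' r := fun r => by
    unfold mm
    have : 0 ≤ (H2 (v r)).toReal := ENNReal.toReal_nonneg
    have : 0 ≤ (H1 (dd v v' r)).toReal := ENNReal.toReal_nonneg
    linarith
  set J : ℝ := ∫ r in Icc 0 T, mm v v' r with hJ
  have hJ0 : 0 ≤ J := integral_nonneg fun r => hmm0 r
  refine ⟨1 / (16 * (B + 1)), by positivity, fun s hs t ht hst hts hzero => ?_⟩
  set k0 : ℕ := ⌈2 * A * J⌉₊ with hk0
  have hycont : IntegrableOn (fun _ : ℝ => (0:ℝ)) (Icc 0 T) := integrable_zero _ _ _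
  -- bound for every N
  have hbd : ∀ N : ℕ, yy (dd v v') (dd θ θ') t ≤
      2 ^ (k0 + 1) * (A * J) * (1 / 2) ^ N := by
    intro N
    set n : ℕ := 8 * N with hn
    have hρn : 0 ≤ ρ ^ n := (pow_pos ρ_pos n).le
    have hcoef : IntegrableOn (fun r => A * mm v v' r + B * ((n:ℝ) + 1)) (Icc 0 T) :=
      (hmm.const_mul A).add (integrable_const _)
    have hsub : Icc s t ⊆ Icc 0 T := Icc_subset_Icc hs.1 ht.2
    have hΦ : ∫ r in s..t, (A * mm v v' r + B * ((n:ℝ) + 1)) ≤ ((k0 + N + 1 : ℕ) : ℝ) / 2 := by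
      have i1 : IntervalIntegrable (fun r => A * mm v v' r) volume s t := by
        rw [intervalIntegrable_iff]
        have : IntegrableOn (fun r => A * mm v v' r) (Icc 0 T) := hmm.const_mul A
        exact this.mono_set (uIoc_subset_uIcc.trans (uIcc_subset_Icc hs ht))
      rw [intervalIntegral.integral_add i1 (by simp), intervalIntegral.integral_const_mul,
        intervalIntegral.integral_const, smul_eq_mul]
      have h1 : ∫ r in s..t, mm v v' r ≤ J := by
        rw [intervalIntegral.integral_of_le hst]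
        apply setIntegral_mono_set hmm
        · exact Eventually.of_forall fun r => hmm0 r
        · exact (Ioc_subset_Icc_self.trans hsub).eventuallyLE
      have h2 : 2 * A * J ≤ k0 := Nat.le_ceil _
      have h3 : (t - s) * (B * ((n:ℝ) + 1)) ≤ (N + 1) / 2 := by
        have h4 : (t - s) * (B * ((n:ℝ) + 1)) ≤ 1 / (16 * (B + 1)) * (B * ((n:ℝ) + 1)) := by
          gcongr
        refine h4.trans ?_
        rw [div_mul_eq_mul_div, one_mul, div_le_iff₀ (by positivity)]
        have h5 : (n:ℝ) = 8 * N := by rw [hn]; push_cast; ring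
        rw [h5]
        have h6 : (0:ℝ) ≤ N := by positivity
        nlinarith [mul_nonneg hB0 h6]
      have h6 := mul_le_mul_of_nonneg_left h1 hA0
      push_cast
      linarith
    have hprod : IntegrableOn (fun r => (A * mm v v' r + B * ((n:ℝ) + 1)) *
        yy (dd v v') (dd θ θ') r) (Icc s t) := by
      obtain ⟨hDint, hid⟩ := energy_identity hκ hν hg P
      have hycont : ContinuousOn (yy (dd v v') (dd θ θ')) (Icc 0 T) := by
        have h0 : (0:ℝ) ∈ Icc 0 T := ⟨le_rfl, P.hT⟩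
        have h1 : ContinuousOn (fun q => yy (dd v v') (dd θ θ') 0 +
            ∫ r in (0:ℝ)..q, DD κ ν g v θ v' θ' r) (Icc 0 T) := by
          apply ContinuousOn.add continuousOn_const
          have h2 : IntervalIntegrable (DD κ ν g v θ v' θ') volume 0 T := by
            rw [intervalIntegrable_iff]
            exact hDint.mono_set (uIoc_subset_uIcc.trans (uIcc_subset_Icc h0 ⟨P.hT, le_rfl⟩))
          have := intervalIntegral.continuousOn_primitive_interval' h2 (left_mem_uIcc)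
          rwa [uIcc_of_le P.hT] at this
        refine h1.congr fun q hq => ?_
        have := hid 0 h0 q hq hq.1
        linarith
      exact (hcoef.mul_continuousOn hycont isCompact_Icc).mono_set hsub
    have hg1 := gronwall (s := s) (T := t)
      (a := fun r => A * mm v v' r + B * ((n:ℝ) + 1)) (y := yy (dd v v') (dd θ θ'))
      (δ := ρ ^ n * (A * J))
      (fun r _ => by have := hmm0 r; positivity) (hcoef.mono_set hsub) hprod
      (fun r _ => yy_nonneg _ _ r)
      (fun q hq => hineq n s hs q (hsub hq) hq.1 hzero) (k0 + N + 1) t ⟨hst, le_rfl⟩ hΦ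
    have h1 := hineq n s hs t ht hst hzero
    refine h1.trans (hg1.trans (le_of_eq ?_))
    have h2 : ρ ^ n = (1 / 4) ^ N := by
      rw [hn, show 8 * N = 4 * (2 * N) by ring, pow_mul, ρ_four, pow_mul]; norm_num
    rw [h2]
    have h3 : (1 / 4 : ℝ) ^ N = (1 / 2) ^ N * (1 / 2) ^ N := by rw [← mul_pow]; norm_num
    have h4 : (2:ℝ) ^ N * (1 / 2) ^ N = 1 := by rw [← mul_pow]; norm_num
    rw [h3, show k0 + N + 1 = (k0 + 1) + N by ring, pow_add]
    calc 2 ^ (k0 + 1) * 2 ^ N * ((1 / 2) ^ N * (1 / 2) ^ N * (A * J))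
        = 2 ^ (k0 + 1) * (A * J) * (1 / 2) ^ N * ((2:ℝ) ^ N * (1 / 2) ^ N) := by ring
      _ = _ := by rw [h4, mul_one]
  have hlim : Tendsto (fun N : ℕ => 2 ^ (k0 + 1) * (A * J) * (1 / 2 : ℝ) ^ N) atTop (𝓝 0) := by
    have := (tendsto_pow_atTop_nhds_zero_of_lt_one (by norm_num : (0:ℝ) ≤ 1 / 2)
      (by norm_num)).const_mul (2 ^ (k0 + 1) * (A * J))
    simpa using this
  exact le_antisymm (ge_of_tendsto' hlim hbd) (yy_nonneg _ _ _)

lemma global_zero (hκ : 0 < κ) (hν : 0 < ν) (hg : 0 < g) {T M : ℝ}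
    (P : Pair κ ν g T M v θ v' θ') (h0 : yy (dd v v') (dd θ θ') 0 = 0) :
    ∀ t ∈ Icc 0 T, yy (dd v v') (dd θ θ') t = 0 := by
  obtain ⟨τ, hτ, hloc⟩ := local_zero hκ hν hg P
  have key : ∀ j : ℕ, ∀ t ∈ Icc 0 T, t ≤ j * τ → yy (dd v v') (dd θ θ') t = 0 := by
    intro j
    induction j with
    | zero =>
      intro t ht h
      have : t = 0 := le_antisymm (by simpa using h) ht.1
      rw [this]; exact h0
    | succ j ih =>
      intro t ht h
      rcases le_or_gt t (j * τ) with h1 | h1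
      · exact ih t ht h1
      · have hs : (j * τ : ℝ) ∈ Icc 0 T := ⟨by positivity, h1.le.trans ht.2⟩
        apply hloc (j * τ) hs t ht h1.le _ (ih _ hs le_rfl)
        push_cast at h
        linarith
  intro t ht
  obtain ⟨j, hj⟩ := exists_nat_ge (t / τ)
  rw [div_le_iff₀ hτ] at hj
  exact key j t ht hj

end

end Pool.Agent.Bous.U

namespace Pool.Agent.Bous

/-- **M5**. -/
theorem targetM5 : TargetM5 := by
  intro κ ν g C hκ hν hg v θ v' θ' h h' hv0 hv0' hθ0 _ hreg t ht
  obtain ⟨C1, h1⟩ := U.v_bdd h.v_cont t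
  obtain ⟨C2, h2⟩ := U.v_bdd h'.v_cont t
  obtain ⟨C3, h3⟩ := h.t_bdd t
  obtain ⟨C4, h4⟩ := h'.t_bdd t
  have n1 : 0 ≤ C1 := (norm_nonneg _).trans (h1 0 ⟨le_rfl, ht⟩)
  have n2 : 0 ≤ C2 := (norm_nonneg _).trans (h2 0 ⟨le_rfl, ht⟩)
  have n3 : 0 ≤ C3 := (norm_nonneg _).trans (h3 0 ⟨le_rfl, ht⟩)
  have n4 : 0 ≤ C4 := (norm_nonneg _).trans (h4 0 ⟨le_rfl, ht⟩)
  have P : U.Pair κ ν g t (C1 + C2 + C3 + C4) v θ v' θ' :=
    { h := h
      h' := h'
      hT := ht
      hM := by positivity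
      bd := fun s hs => by
        have := norm_sub_le (v' s) (v s)
        have := h1 s hs
        have := h2 s hs
        linarith
      be := fun s hs => by
        have := norm_sub_le (θ' s) (θ s)
        have := h3 s hs
        have := h4 s hs
        linarith
      bt := fun s hs => by
        have := h4 s hs
        linarith
      f2 := by
        have := hreg t
        simp only [← U.H2_eq] at this
        exact this.ne }
  have hz : U.yy (U.dd v v') (U.dd θ θ') 0 = 0 := by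
    have e1 : U.dd v v' 0 = 0 := by unfold U.dd; rw [hv0, hv0', sub_zero]
    have e2 : U.dd θ θ' 0 = 0 := by unfold U.dd; rw [hθ0, sub_self]
    unfold U.yy U.N2
    rw [e1, e2]
    simp
  have hfin := U.global_zero hκ hν hg P hz t ⟨ht, le_rfl⟩
  unfold U.yy at hfin
  have a1 : ‖U.dd v v' t‖ = 0 := by
    have : 0 ≤ (U.N2 (fun k => U.wi k * ‖U.dd θ θ' t k‖ₑ)).toReal ^ 2 := by positivity
    have h5 : ‖U.dd v v' t‖ ^ 2 = 0 := by nlinarith [sq_nonneg ‖U.dd v v' t‖]
    exact pow_eq_zero_iff two_ne_zero |>.1 h5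
  have a2 : (U.N2 (fun k => U.wi k * ‖U.dd θ θ' t k‖ₑ)).toReal = 0 := by
    rw [a1] at hfin
    have h5 : (U.N2 (fun k => U.wi k * ‖U.dd θ θ' t k‖ₑ)).toReal ^ 2 = 0 := by linarith
    exact pow_eq_zero_iff two_ne_zero |>.1 h5
  constructor
  · rw [norm_eq_zero] at a1
    unfold U.dd at a1
    exact sub_eq_zero.1 a1
  · rw [ENNReal.toReal_eq_zero_iff] at a2
    have a3 := a2.resolve_right (U.N2_wi_ne_top _)
    have a4 : ∑' k, (U.wi k * ‖U.dd θ θ' t k‖ₑ) ^ 2 = 0 := by rw [← U.N2_sq, a3]; simp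
    rw [ENNReal.tsum_eq_zero] at a4
    ext k
    by_cases hk : k = 0
    · subst hk
      rw [h.t_mean t ht, h'.t_mean t ht]
    · have a5 := a4 k
      rw [pow_eq_zero_iff two_ne_zero, mul_eq_zero] at a5
      have a6 : U.wi k ≠ 0 := by
        intro h0
        have := U.w_mul_wi hk
        rw [h0, mul_zero] at this
        exact zero_ne_one this
      have a7 := a5.resolve_left a6
      rw [enorm_eq_zero] at a7
      unfold U.dd at a7
      rw [lp.coeFn_sub, Pi.sub_apply] at a7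
      exact sub_eq_zero.1 a7

end Pool.Agent.Bous
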