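import Pool.Agent.Bous.Statement
import Pool.Agent.Bous.Final
import Pool.Agent.Bous.Unique
import Pool.Agent.Bous.Transfer

open MeasureTheory Set Filter Topology Complex
open scoped ENNReal InnerProductSpace

namespace Pool.Agent.Bous.Fn

open Classical in
/-- the class of a square integrable function -/
noncomputable def lift (f : Torus → ℝ) : RL2 := if h : MemLp f 2 volume then h.toLp f else 0

lemma lift_ae {f : Torus → ℝ} (h : SqInt f) : (lift f : Torus → ℝ) =ᵐ[volume] f := by
  have h' : MemLp f 2 volume := h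
  unfold lift
  rw [dif_pos h']
  exact h'.coeFn_toLp

lemma sqInt_coe (f : RL2) : SqInt f := Lp.memLp f

lemma lift_coe (f : RL2) : lift (f : Torus → ℝ) = f := by
  apply Lp.ext
  exact lift_ae (sqInt_coe f)

lemma coef_congr {f g : Torus → ℝ} (h : f =ᵐ[volume] g) (k : Fin 2 → ℤ) : coef f k = coef g k := by
  unfold coef
  refine integral_congr_ae ?_
  filter_upwards [h] with y hy
  rw [hy]

lemma coef_lift {f : Torus → ℝ} (h : SqInt f) (k : Fin 2 → ℤ) : coef (lift f) k = coef f k :=
  coef_congr (lift_ae h) k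

lemma pair_congr {f g f' g' : Torus → ℝ} (h : f =ᵐ[volume] f') (h' : g =ᵐ[volume] g') :
    pair f g = pair f' g' := by
  unfold pair
  refine integral_congr_ae ?_
  filter_upwards [h, h'] with y hy hy'
  rw [hy, hy']

lemma inner_eq_pair (f g : RL2) : ⟪f, g⟫_ℝ = pair f g := by
  rw [MeasureTheory.L2.inner_def]
  unfold pair
  refine integral_congr_ae (Eventually.of_forall fun y => ?_)
  simp only
  rw [real_inner_eq_re_inner]
  simp [mul_comm]

lemma inner_lift {f g : Torus → ℝ} (hf : SqInt f) (hg : SqInt g) :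
    ⟪lift f, lift g⟫_ℝ = pair f g := by
  rw [inner_eq_pair]
  exact pair_congr (lift_ae hf) (lift_ae hg)

lemma norm_sq_sub (f g : RL2) : ‖f - g‖ ^ 2 = ∫ y, (f y - g y) ^ 2 := by
  rw [← real_inner_self_eq_norm_sq, inner_eq_pair]
  unfold pair
  refine integral_congr_ae ?_
  filter_upwards [Lp.coeFn_sub f g] with y hy
  rw [hy]
  simp only [Pi.sub_apply]
  ring

/-- from functions to classes -/
noncomputable def up (x : FState) : State := (fun j => lift (x.1 j), lift x.2)

/-- from classes to functions -/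
noncomputable def down (x : State) : FState := (fun j => x.1 j, x.2)

lemma up_down (x : State) : up (down x) = x := by
  unfold up down
  ext1
  · funext j
    exact lift_coe _
  · exact lift_coe _

lemma up_mem {x : FState} (hx : x ∈ FPhase) : up x ∈ PhaseSpace := by
  obtain ⟨h1, h2, h3, h4, h5⟩ := hx
  refine ⟨fun j => ?_, fun k => ?_, ?_⟩
  · exact (coef_lift (h1 j) 0).trans (h3 j)
  · rw [← h4 k]
    exact Finset.sum_congr rfl fun j _ => by rw [← coef_lift (h1 j) k]; rfl
  · exact (coef_lift h2 0).trans h5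

lemma down_mem {x : State} (hx : x ∈ PhaseSpace) : down x ∈ FPhase :=
  ⟨fun j => sqInt_coe _, sqInt_coe _, hx.1, hx.2.1, hx.2.2⟩

lemma velRate_up {L ν g : ℝ} {k : Fin 2 → ℤ} {a : Fin 2 → ℝ} {x : FState} (hx : x ∈ FPhase) :
    velocityRate L ν g k a (down (up x)) = velocityRate L ν g k a x := by
  obtain ⟨h1, h2, h3, h4, h5⟩ := hx
  have e1 : ∀ i, coef ((down (up x)).1 i) k = coef (x.1 i) k := fun i => coef_lift (h1 i) k
  have e2 : coef ((down (up x)).2) k = coef (x.2) k := coef_lift h2 k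
  have e3 : ∀ i j, coef (fun y => (down (up x)).1 j y * (down (up x)).1 i y) k =
      coef (fun y => x.1 j y * x.1 i y) k := by
    intro i j
    refine coef_congr ?_ k
    filter_upwards [lift_ae (h1 i), lift_ae (h1 j)] with y hy hy'
    show lift (x.1 j) y * lift (x.1 i) y = _
    rw [hy, hy']
  unfold velocityRate
  simp only [e1, e2, e3]

lemma tempRate_up {L : ℝ} {k : Fin 2 → ℤ} {x : FState} (hx : x ∈ FPhase) :
    temperatureRate L k (down (up x)) = temperatureRate L k x := by
  obtain ⟨h1, h2, h3, h4, h5⟩ := hx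
  have e3 : ∀ j, coef (fun y => (down (up x)).1 j y * (down (up x)).2 y) k =
      coef (fun y => x.1 j y * x.2 y) k := by
    intro j
    refine coef_congr ?_ k
    filter_upwards [lift_ae h2, lift_ae (h1 j)] with y hy hy'
    show lift (x.1 j) y * lift x.2 y = _
    rw [hy, hy']
  unfold temperatureRate
  simp only [e3]

lemma up_sol {L ν g : ℝ} {s : ℝ → FState} (hs : WeakSol L ν g s) :
    IsWeakSolution L ν g (fun t => up (s t)) := by
  refine ⟨fun t ht => up_mem (hs.mem t ht), fun j => ?_, fun f => ?_, fun T => ?_, ?_, ?_⟩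
  · intro t ht
    have h := hs.velocity_continuous j t ht
    rw [ContinuousWithinAt, tendsto_iff_norm_sub_tendsto_zero]
    have h2 : Tendsto (fun r => Real.sqrt (∫ y, ((s r).1 j y - (s t).1 j y) ^ 2)) (𝓝[Ici 0] t)
        (𝓝 0) := by
      have := h.sqrt
      rwa [Real.sqrt_zero] at this
    refine h2.congr' ?_
    filter_upwards [self_mem_nhdsWithin] with r hr
    rw [← Real.sqrt_sq (norm_nonneg ((up (s r)).1 j - (up (s t)).1 j)), norm_sq_sub]
    congr 1
    refine integral_congr_ae ?_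
    filter_upwards [lift_ae ((hs.mem r hr).1 j), lift_ae ((hs.mem t ht).1 j)] with y hy hy'
    show _ = (lift ((s r).1 j) y - lift ((s t).1 j) y) ^ 2
    rw [hy, hy']
  · refine (hs.temperature_weakly_continuous f (sqInt_coe f)).congr fun t ht => ?_
    have := inner_lift (sqInt_coe f) (hs.mem t ht).2.1
    rw [lift_coe] at this
    exact this
  · refine lt_of_le_of_lt (le_of_eq ?_) (hs.velocity_sobolev T)
    refine setLIntegral_congr_fun measurableSet_Icc fun t ht => ?_
    unfold enstrophy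
    refine tsum_congr fun k => Finset.sum_congr rfl fun j _ => ?_
    have : coef ((up (s t)).1 j) k = coef ((s t).1 j) k := coef_lift ((hs.mem t ht.1).1 j) k
    rw [this]
  · intro k a hk t ht
    have e : ∀ t, 0 ≤ t → ∀ i, coef ((up (s t)).1 i) k = coef ((s t).1 i) k :=
      fun t ht i => coef_lift ((hs.mem t ht).1 i) k
    rw [Finset.sum_congr rfl fun i _ => by rw [e t ht i],
      Finset.sum_congr (s₁ := Finset.univ) (f := fun i => (a i : ℂ) * coef ((up (s 0)).1 i) k) rfl
        fun i _ => by rw [e 0 le_rfl i],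
      hs.velocity_equation k a hk t ht]
    congr 1
    refine intervalIntegral.integral_congr fun r hr => ?_
    rw [uIcc_of_le ht] at hr
    exact (velRate_up (hs.mem r hr.1)).symm
  · intro k t ht
    have e : ∀ t, 0 ≤ t → coef ((up (s t)).2) k = coef ((s t).2) k :=
      fun t ht => coef_lift (hs.mem t ht).2.1 k
    rw [e t ht, e 0 le_rfl, hs.temperature_equation k t ht]
    congr 1
    refine intervalIntegral.integral_congr fun r hr => ?_
    rw [uIcc_of_le ht] at hr
    exact (tempRate_up (hs.mem r hr.1)).symm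

lemma down_sol {L ν g : ℝ} {s : ℝ → State} (hs : IsWeakSolution L ν g s) :
    WeakSol L ν g (fun t => down (s t)) := by
  refine ⟨fun t ht => down_mem (hs.mem t ht), fun j t ht => ?_, fun f hf => ?_,
    hs.velocity_sobolev, hs.velocity_equation, hs.temperature_equation⟩
  · have h := hs.velocity_continuous j t ht
    rw [ContinuousWithinAt, tendsto_iff_norm_sub_tendsto_zero] at h
    have h2 := h.pow 2
    rw [zero_pow two_ne_zero] at h2
    refine h2.congr fun r => ?_
    exact norm_sq_sub _ _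
  · refine (hs.temperature_weakly_continuous (lift f)).congr fun t ht => ?_
    show pair f (s t).2 = ⟪lift f, (s t).2⟫_ℝ
    rw [inner_eq_pair]
    exact pair_congr (lift_ae hf).symm (ae_eq_refl _)

lemma norm_le_of {x : State} {M : ℝ} (h : ∀ j, ‖x.1 j‖ ≤ M) (h' : ‖x.2‖ ≤ M) (hM : 0 ≤ M) :
    ‖x‖ ≤ M := by
  rw [Prod.norm_def]
  exact max_le ((pi_norm_le_iff_of_nonneg hM).2 h) h'

lemma norm_sq_lift {f : Torus → ℝ} (h : SqInt f) : ‖lift f‖ ^ 2 = pair f f := by
  rw [← real_inner_self_eq_norm_sq, inner_lift h h]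

lemma pair_self_le {f : RL2} {M : ℝ} (h : ‖f‖ ≤ M) : pair f f ≤ M ^ 2 := by
  rw [← inner_eq_pair, real_inner_self_eq_norm_sq]
  exact pow_le_pow_left₀ (norm_nonneg _) h 2

lemma norm_comp_le {x : State} {M : ℝ} (h : ‖x‖ ≤ M) : (∀ j, ‖x.1 j‖ ≤ M) ∧ ‖x.2‖ ≤ M :=
  ⟨fun j => (norm_le_pi_norm _ j).trans ((norm_fst_le x).trans h), (norm_snd_le x).trans h⟩

theorem main (L ν g : ℝ) (hL : 0 < L) (hν : 0 < ν) (hg : 0 < g) :
    Prod.snd '' FAttractor {s | WeakSol L ν g s} = {φ | SqInt φ ∧ coef φ 0 = 0} ∧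
      ∀ S : ℝ → FState → FState, SolutionOperator L ν g S →
        Prod.snd '' FAttractor (orbits S) = {φ | SqInt φ ∧ coef φ 0 = 0} := by
  obtain ⟨h1, h2⟩ := Asm.final targetM5 targetM6a targetM6b targetM6c L ν g hL hν hg
  have hsub : ∀ 𝒮 : Set (ℝ → FState),
      Prod.snd '' FAttractor 𝒮 ⊆ {φ | SqInt φ ∧ coef φ 0 = 0} := by
    rintro 𝒮 _ ⟨a, ha, rfl⟩
    exact ⟨ha.1.2.1, ha.1.2.2.2.2⟩
  refine ⟨Subset.antisymm (hsub _) fun φ hφ => ?_, fun S hS =>
    Subset.antisymm (hsub _) fun φ hφ => ?_⟩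
  · have hm : lift φ ∈ {φ : RL2 | coef φ 0 = 0} := (coef_lift hφ.1 0).trans hφ.2
    rw [← h1] at hm
    obtain ⟨a, ⟨ha, t, s, M, ht0, ht, hs, hb, hw⟩, haφ⟩ := hm
    have hae : (a.2 : Torus → ℝ) =ᵐ[volume] φ := by rw [haφ]; exact lift_ae hφ.1
    refine ⟨(fun j => a.1 j, φ), ⟨⟨fun j => sqInt_coe _, hφ.1, ha.1, ha.2.1, hφ.2⟩, t,
      fun n r => down (s n r), M ^ 2, ht0, ht, fun n => down_sol (hs n),
      fun n => down_mem (hb n).1, fun n => ⟨fun j => ?_, ?_⟩, fun j h hh => ?_, fun h hh => ?_⟩, rfl⟩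
    · exact pair_self_le ((norm_comp_le (hb n).2).1 j)
    · exact pair_self_le (norm_comp_le (hb n).2).2
    · have := hw.1 (lift h) j
      simp only [inner_eq_pair] at this
      have e : ∀ f : RL2, pair (lift h) f = pair h f :=
        fun f => pair_congr (lift_ae hh) (ae_eq_refl _)
      simp only [e] at this
      exact this
    · have := hw.2 (lift h)
      simp only [inner_eq_pair] at this
      have e : ∀ f : RL2, pair (lift h) f = pair h f :=
        fun f => pair_congr (lift_ae hh) (ae_eq_refl _)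
      simp only [e] at this
      rw [show pair h φ = pair h a.2 from pair_congr (ae_eq_refl _) hae.symm]
      exact this
  · have hm : lift φ ∈ {φ : RL2 | coef φ 0 = 0} := (coef_lift hφ.1 0).trans hφ.2
    have hS' : IsSolutionOperator L ν g (fun t x => up (S t (down x))) := by
      intro x hx
      refine ⟨?_, up_sol (hS _ (down_mem hx)).2⟩
      show up (S 0 (down x)) = x
      rw [(hS _ (down_mem hx)).1, up_down]
    rw [← h2 _ hS'] at hm
    obtain ⟨a, ⟨ha, t, s, M, ht0, ht, hs, hb, hw⟩, haφ⟩ := hm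
    have hae : (a.2 : Torus → ℝ) =ᵐ[volume] φ := by rw [haφ]; exact lift_ae hφ.1
    choose x hx hsx using hs
    have hsx' : ∀ n r, s n r = up (S r (down (x n))) := fun n r => by rw [hsx n]
    have hmem : ∀ n, ∀ r, 0 ≤ r → S r (down (x n)) ∈ FPhase :=
      fun n r hr => (hS _ (down_mem (hx n))).2.mem r hr
    refine ⟨(fun j => a.1 j, φ), ⟨⟨fun j => sqInt_coe _, hφ.1, ha.1, ha.2.1, hφ.2⟩, t,
      fun n r => S r (down (x n)), M ^ 2, ht0, ht, fun n => ⟨_, down_mem (hx n), rfl⟩,
      fun n => hmem n 0 le_rfl, fun n => ⟨fun j => ?_, ?_⟩, fun j h hh => ?_, fun h hh => ?_⟩, rfl⟩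
    · have h3 := (norm_comp_le (hb n).2).1 j
      rw [hsx'] at h3
      rw [← norm_sq_lift ((hmem n 0 le_rfl).1 j)]
      exact pow_le_pow_left₀ (norm_nonneg _) h3 2
    · have h3 := (norm_comp_le (hb n).2).2
      rw [hsx'] at h3
      rw [← norm_sq_lift (hmem n 0 le_rfl).2.1]
      exact pow_le_pow_left₀ (norm_nonneg _) h3 2
    · have := hw.1 (lift h) j
      have e : ∀ n, ⟪lift h, (s n (t n)).1 j⟫_ℝ = pair h ((S (t n) (down (x n))).1 j) := by
        intro n
        rw [hsx']
        exact inner_lift hh ((hmem n (t n) (ht0 n)).1 j)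
      simp only [e] at this
      rw [inner_eq_pair, pair_congr (lift_ae hh) (ae_eq_refl _)] at this
      exact this
    · have := hw.2 (lift h)
      have e : ∀ n, ⟪lift h, (s n (t n)).2⟫_ℝ = pair h ((S (t n) (down (x n))).2) := by
        intro n
        rw [hsx']
        exact inner_lift hh (hmem n (t n) (ht0 n)).2.1
      simp only [e] at this
      rw [inner_eq_pair, pair_congr (lift_ae hh) hae] at this
      exact this

end Pool.Agent.Bous.Fn
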