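import Pool.Agent.Bous.TransferDefs

/-!
# Function level and sequence level: basic facts (M6c and the convolution formula)
-/

open MeasureTheory Set Filter Topology Complex
open scoped ENNReal InnerProductSpace ComplexConjugate

namespace Pool.Agent.Bous

/-- the Haar probability measure on the torus -/
noncomputable def haarT : Measure Torus := Measure.pi fun _ => AddCircle.haarAddCircle

lemma volume_eq_haarT : (volume : Measure Torus) = haarT := by
  have h : (volume : Measure UnitAddCircle) = AddCircle.haarAddCircle := by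
    have := AddCircle.volume_eq_smul_haarAddCircle (T := (1:ℝ))
    rw [this]
    simp
  show Measure.pi (fun _ => (volume : Measure UnitAddCircle)) = _
  rw [h]
  rfl

lemma exists_basis_haar : ∃ B : HilbertBasis K ℂ (Lp ℂ 2 haarT),
    ∀ f k, B.repr f k = ∫ y, UnitAddTorus.mFourier (-k) y * f y ∂haarT :=
  ⟨UnitAddTorus.mFourierBasis, fun f k => UnitAddTorus.mFourierBasis_repr f k⟩

lemma exists_basis (μ : Measure Torus) (hμ : μ = haarT) : ∃ B : HilbertBasis K ℂ (Lp ℂ 2 μ),
    ∀ f k, B.repr f k = ∫ y, UnitAddTorus.mFourier (-k) y * f y ∂μ := by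
  subst hμ
  exact exists_basis_haar

/-- complex square integrable functions on the torus -/
noncomputable abbrev CL2 := Lp ℂ 2 (volume : Measure Torus)

/-- The Fourier basis -/
noncomputable def FB : HilbertBasis K ℂ CL2 := (exists_basis _ volume_eq_haarT).choose

lemma FB_repr (f : CL2) (k : K) : FB.repr f k = ∫ y, UnitAddTorus.mFourier (-k) y * f y :=
  (exists_basis _ volume_eq_haarT).choose_spec f k

/-- complexification -/
noncomputable def toC (f : RL2) : CL2 := ofRealCLM.compLp f

lemma toC_ae (f : RL2) : ∀ᵐ y ∂(volume : Measure Torus), toC f y = (f y : ℂ) :=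
  ofRealCLM.coeFn_compLp f

lemma coef_eq (f : RL2) (k : K) : coef f k = FB.repr (toC f) k := by
  rw [FB_repr]
  unfold coef
  refine integral_congr_ae ?_
  filter_upwards [toC_ae f] with y hy
  rw [hy]

/-- The coefficient sequence of a real function, as a real-linear map. -/
noncomputable def coefL : RL2 →L[ℝ] Seq2 :=
  (FB.repr.toContinuousLinearEquiv.toContinuousLinearMap.restrictScalars
    ℝ) ∘L (ofRealCLM.compLpL 2 volume)

lemma coefL_eq (f : RL2) : coefL f = FB.repr (toC f) := rfl

lemma coefL_apply (f : RL2) (k : K) : coefL f k = coef f k := (coef_eq f k).symm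

lemma norm_toC (f : RL2) : ‖toC f‖ = ‖f‖ := by
  rw [Lp.norm_def, Lp.norm_def]
  congr 1
  refine eLpNorm_congr_norm_ae ?_
  filter_upwards [toC_ae f] with y hy
  rw [hy]
  simp

lemma norm_coefL (f : RL2) : ‖coefL f‖ = ‖f‖ := by
  rw [coefL_eq, LinearIsometryEquiv.norm_map, norm_toC]

lemma coef_neg (f : Torus → ℝ) (k : K) : coef f (-k) = conj (coef f k) := by
  unfold coef
  rw [← integral_conj]
  refine integral_congr_ae (Filter.Eventually.of_forall fun y => ?_)
  simp only [map_mul, conj_ofReal]
  rw [← UnitAddTorus.mFourier_neg]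

lemma toC_injective {f g : RL2} (h : toC f = toC g) : f = g := by
  refine Lp.ext ?_
  have h2 : (toC f : Torus → ℂ) =ᵐ[volume] toC g := by rw [h]
  filter_upwards [toC_ae f, toC_ae g, h2] with y h3 h4 h5
  rw [h3, h4] at h5
  exact_mod_cast h5

lemma coef_injective {f g : RL2} (h : ∀ k, coef f k = coef g k) : f = g := by
  apply toC_injective
  apply FB.repr.injective
  refine lp.ext ?_
  funext k
  rw [← coef_eq, ← coef_eq, h]

/-- The real function with given Fourier coefficients (the real part of the Fourier series). -/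
noncomputable def invL : Seq2 →L[ℝ] RL2 :=
  (reCLM.compLpL 2 volume) ∘L
    (FB.repr.symm.toContinuousLinearEquiv.toContinuousLinearMap.restrictScalars
      ℝ)

lemma mFourier_integrable (F : CL2) (k : K) :
    Integrable (fun y => UnitAddTorus.mFourier k y * F y) (volume : Measure Torus) := by
  have h1 : Integrable F (volume : Measure Torus) := (Lp.memLp F).integrable (by norm_num)
  refine h1.bdd_mul (c := 1) (UnitAddTorus.mFourier k).continuous.aestronglyMeasurable ?_
  refine Filter.Eventually.of_forall fun y => ?_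
  calc ‖UnitAddTorus.mFourier k y‖ ≤ ‖UnitAddTorus.mFourier k‖ := ContinuousMap.norm_coe_le_norm _ _
    _ = 1 := UnitAddTorus.mFourier_norm

lemma coef_invL (a : Seq2) (ha : ∀ k, a (-k) = conj (a k)) (k : K) : coef (invL a) k = a k := by
  set F : CL2 := FB.repr.symm a with hF
  have hFk : ∀ k, ∫ y, UnitAddTorus.mFourier (-k) y * F y = a k := by
    intro k
    have h1 := FB_repr F k
    rw [← h1, hF, LinearIsometryEquiv.apply_symm_apply]
  have h2 : ∀ᵐ y ∂(volume : Measure Torus), (invL a) y = (F y).re := by
    exact reCLM.coeFn_compLpL (p := 2) (μ := volume) F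
  unfold coef
  have h3 : ∫ y, UnitAddTorus.mFourier (-k) y * ((invL a y : ℝ) : ℂ) =
      ∫ y, ((1 / 2 : ℂ) * (UnitAddTorus.mFourier (-k) y * F y) +
        (1 / 2 : ℂ) * conj (UnitAddTorus.mFourier k y * F y)) := by
    refine integral_congr_ae ?_
    filter_upwards [h2] with y hy
    rw [hy, re_eq_add_conj, map_mul, ← UnitAddTorus.mFourier_neg]
    ring
  have h4 : ∫ y, UnitAddTorus.mFourier k y * F y = conj (a k) := by
    have h4 := hFk (-k)
    rw [neg_neg] at h4
    rw [h4, ha]
  rw [h3, integral_add, integral_const_mul, integral_const_mul, integral_conj, hFk, h4, conj_conj]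
  · ring
  · exact (mFourier_integrable F (-k)).const_mul _
  · refine Integrable.const_mul ?_ _
    have h5 := (mFourier_integrable F k)
    exact conjCLE.toContinuousLinearMap.integrable_comp h5

lemma inner_eq_coef (f g : RL2) : ((⟪f, g⟫_ℝ : ℝ) : ℂ) = ⟪coefL f, coefL g⟫_ℂ := by
  rw [coefL_eq, coefL_eq, LinearIsometryEquiv.inner_map_map, L2.inner_def, L2.inner_def]
  refine (integral_ofReal (𝕜 := ℂ)).symm.trans ?_
  refine integral_congr_ae ?_
  filter_upwards [toC_ae f, toC_ae g] with y hf hg
  rw [hf, hg]
  simp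

theorem targetM6c : TargetM6c := by
  refine ⟨fun f => ⟨coefL f, coefL_apply f, norm_coefL f, fun k => ?_⟩, fun a ha =>
    ⟨invL a, coef_invL a ha⟩, fun f g h => coef_injective h, fun f g a b ha hb => ?_⟩
  · rw [coefL_apply, coefL_apply, coef_neg]
  · have h1 : a = coefL f := by
      refine lp.ext ?_
      funext k
      rw [ha, coefL_apply]
    have h2 : b = coefL g := by
      refine lp.ext ?_
      funext k
      rw [hb, coefL_apply]
    rw [h1, h2, inner_eq_coef]

/-- Convolution formula. -/
lemma hasSum_coef_mul (f g : RL2) (k : K) :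
    HasSum (fun j => coef f j * coef g (k - j)) (coef (fun y => f y * g y) k) := by
  -- the function `e_{-k} g` in `L²`
  have hG : MemLp (fun y => UnitAddTorus.mFourier (-k) y * toC g y) 2 (volume : Measure Torus) := by
    refine (Lp.memLp (toC g)).of_le ?_ ?_
    · exact (UnitAddTorus.mFourier (-k)).continuous.aestronglyMeasurable.mul
        (Lp.memLp (toC g)).aestronglyMeasurable
    · refine Filter.Eventually.of_forall fun y => ?_
      rw [norm_mul]
      have : ‖UnitAddTorus.mFourier (-k) y‖ ≤ 1 :=
        (ContinuousMap.norm_coe_le_norm _ _).trans_eq UnitAddTorus.mFourier_norm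
      calc _ ≤ 1 * ‖toC g y‖ := by gcongr
        _ = _ := one_mul _
  set G : CL2 := hG.toLp _ with hGdef
  have hGae : ∀ᵐ y ∂(volume : Measure Torus), G y = UnitAddTorus.mFourier (-k) y * toC g y :=
    hG.coeFn_toLp
  have h1 : HasSum (fun j => conj (FB.repr (toC f) j) * FB.repr G j) ⟪toC f, G⟫_ℂ := by
    have h1 := lp.hasSum_inner (𝕜 := ℂ) (G := fun _ : K => ℂ) (FB.repr (toC f)) (FB.repr G)
    rw [LinearIsometryEquiv.inner_map_map] at h1
    refine h1.congr_fun fun j => ?_
    rw [RCLike.inner_apply, mul_comm]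
  have h2 : ⟪toC f, G⟫_ℂ = coef (fun y => f y * g y) k := by
    rw [L2.inner_def]
    unfold coef
    refine integral_congr_ae ?_
    filter_upwards [toC_ae f, toC_ae g, hGae] with y hf hg hG
    rw [hG, hf, hg, RCLike.inner_apply, conj_ofReal]
    push_cast
    ring
  have h3 : ∀ j, FB.repr G j = coef g (k + j) := by
    intro j
    rw [FB_repr]
    unfold coef
    refine integral_congr_ae ?_
    filter_upwards [toC_ae g, hGae] with y hg hG
    rw [hG, hg, ← mul_assoc, ← UnitAddTorus.mFourier_add]
    congr 3
    abel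
  rw [h2] at h1
  have h5 : HasSum (fun j : K => coef f (-j) * coef g (k + j)) (coef (fun y => f y * g y) k) := by
    refine h1.congr_fun fun j => ?_
    rw [← coef_eq, h3, coef_neg]
  have h6 := (Equiv.neg K).hasSum_iff.2 h5
  refine h6.congr_fun fun j => ?_
  simp [sub_eq_add_neg]

end Pool.Agent.Bous
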