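import Pool.Agent.Bous.TransferRel

/-!
# Function level and sequence level: multipliers, weak continuity
-/

open MeasureTheory Set Filter Topology Complex
open scoped ENNReal InnerProductSpace ComplexConjugate

namespace Pool.Agent.Bous

/-- multiplication by a sequence bounded by one -/
noncomputable def mulL (m : K → ℂ) (hm : ∀ k, ‖m k‖ ≤ 1) : Seq2 →L[ℂ] Seq2 :=
  LinearMap.mkContinuous
    { toFun := fun a => ⟨fun k => m k * a k, (lp.memℓp a).mono' fun k => by
        rw [norm_mul]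
        exact mul_le_of_le_one_left (norm_nonneg _) (hm k)⟩
      map_add' := fun a b => by
        refine lp.ext ?_
        funext k
        simp only [lp.coeFn_add, Pi.add_apply]
        ring
      map_smul' := fun c a => by
        refine lp.ext ?_
        funext k
        simp only [lp.coeFn_smul, Pi.smul_apply, RingHom.id_apply, smul_eq_mul]
        ring } 1 (fun a => by
        rw [one_mul]
        refine lp.norm_mono (by norm_num) fun k => ?_
        show ‖m k * a k‖ ≤ _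
        rw [norm_mul]
        exact mul_le_of_le_one_left (norm_nonneg _) (hm k))

lemma mulL_apply (m : K → ℂ) (hm : ∀ k, ‖m k‖ ≤ 1) (a : Seq2) (k : K) :
    mulL m hm a k = m k * a k := rfl

lemma norm_I_kperp (j : Fin 2) (k : K) : ‖I * ((kperp k j / nrm k : ℝ) : ℂ)‖ ≤ 1 := by
  rw [norm_mul, norm_I, one_mul, Complex.norm_real, Real.norm_eq_abs]
  exact abs_kperp_le k j

/-- the multiplier `i k^⊥_j / |k|` -/
noncomputable def rieszL (j : Fin 2) : Seq2 →L[ℂ] Seq2 :=
  mulL (fun k => I * ((kperp k j / nrm k : ℝ) : ℂ)) (norm_I_kperp j)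

lemma rieszL_apply (j : Fin 2) (a : Seq2) (k : K) :
    rieszL j a k = I * ((kperp k j / nrm k : ℝ) : ℂ) * a k := rfl

lemma rieszL_symm (j : Fin 2) (a : Seq2) (ha : ∀ k, a (-k) = conj (a k)) (k : K) :
    rieszL j a (-k) = conj (rieszL j a k) := by
  rw [rieszL_apply, rieszL_apply, ha, kperp_neg, nrm_neg']
  simp only [map_mul, conj_I, conj_ofReal]
  push_cast
  ring

/-- the coefficient sequence `v` of a velocity field -/
noncomputable def vOf (x : State) : Seq2 := -∑ j, rieszL j (coefL (x.1 j))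

/-- the coefficient sequence of the temperature -/
noncomputable def tOf (x : State) : Seq2 := coefL x.2

lemma vOf_apply (x : State) (k : K) :
    vOf x k = -(I * ((-(k 1 : ℝ) / nrm k : ℝ) : ℂ) * coef (x.1 0) k +
      I * (((k 0 : ℝ) / nrm k : ℝ) : ℂ) * coef (x.1 1) k) := by
  unfold vOf
  rw [Fin.sum_univ_two]
  simp only [lp.coeFn_neg, lp.coeFn_add, Pi.neg_apply, Pi.add_apply, rieszL_apply, coefL_apply,
    kperp_zero_idx, kperp_one_idx]

lemma rel_of_mem {x : State} (hx : x ∈ PhaseSpace) : Rel x (vOf x) (tOf x) := by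
  obtain ⟨h0, h1, h2⟩ := hx
  refine ⟨fun k => (coefL_apply x.2 k).symm, fun j k => ?_⟩
  rcases eq_or_ne k 0 with hk | hk
  · rw [hk, h0, kperp_zero]
    simp
  · have h3 := h1 k
    rw [Fin.sum_univ_two] at h3
    have hn : (nrm k : ℂ) ≠ 0 := by exact_mod_cast (nrm_pos' hk).ne'
    have hq : (nrm k : ℂ) ^ 2 = (k 0 : ℂ) ^ 2 + (k 1 : ℂ) ^ 2 := by
      have := nrm_sq' k
      unfold nsq at this
      exact_mod_cast this
    rw [vOf_apply]
    fin_cases j
    · simp only [Fin.zero_eta, kperp_zero_idx]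
      push_cast
      rw [show I * (-(k 1 : ℂ) / (nrm k : ℂ)) * -(I * (-(k 1 : ℂ) / (nrm k : ℂ)) * coef (x.1 0) k +
        I * ((k 0 : ℂ) / (nrm k : ℂ)) * coef (x.1 1) k) = (I * I) * (
          ((k 1 : ℂ) * (-(k 1 : ℂ) * coef (x.1 0) k + (k 0 : ℂ) * coef (x.1 1) k)) / (nrm k : ℂ) ^ 2)
          by ring, I_mul_I, hq]
      have hq' : (k 0 : ℂ) ^ 2 + (k 1 : ℂ) ^ 2 ≠ 0 := by rw [← hq]; positivity
      field_simp
      linear_combination (k 0 : ℂ) * h3
    · simp only [Fin.mk_one, kperp_one_idx]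
      push_cast
      rw [show I * ((k 0 : ℂ) / (nrm k : ℂ)) * -(I * (-(k 1 : ℂ) / (nrm k : ℂ)) * coef (x.1 0) k +
        I * ((k 0 : ℂ) / (nrm k : ℂ)) * coef (x.1 1) k) = (I * I) * (
          (-(k 0 : ℂ) * (-(k 1 : ℂ) * coef (x.1 0) k + (k 0 : ℂ) * coef (x.1 1) k)) / (nrm k : ℂ) ^ 2)
          by ring, I_mul_I, hq]
      have hq' : (k 0 : ℂ) ^ 2 + (k 1 : ℂ) ^ 2 ≠ 0 := by rw [← hq]; positivity
      field_simp
      linear_combination (k 1 : ℂ) * h3

lemma coef_continuousOn {s : ℝ → State} {S : Set ℝ}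
    (h : ∀ f : RL2, ContinuousOn (fun t => ⟪f, (s t).2⟫_ℝ) S) (k : K) :
    ContinuousOn (fun t => coef (s t).2 k) S := by
  have key : ∀ φ : RL2 →L[ℝ] ℝ, ContinuousOn (fun t => φ (s t).2) S := by
    intro φ
    have h1 := h ((InnerProductSpace.toDual ℝ RL2).symm φ)
    refine h1.congr fun t _ => ?_
    exact InnerProductSpace.toDual_symm_apply.symm
  -- evaluation at `k`
  let ev : Seq2 →L[ℝ] ℂ := LinearMap.mkContinuous
    { toFun := fun a : Seq2 => a k
      map_add' := fun a b => by simp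
      map_smul' := fun c a => by simp } 1 (fun a => by
        rw [one_mul]
        exact lp.norm_apply_le_norm (by norm_num) a k)
  have hev : ∀ a, ev a = a k := fun a => rfl
  have h1 := key (reCLM ∘L ev ∘L coefL)
  have h2 := key (imCLM ∘L ev ∘L coefL)
  have h3 : ContinuousOn (fun t => (((coef (s t).2 k).re : ℝ) : ℂ) + (((coef (s t).2 k).im : ℝ) : ℂ) * I) S := by
    refine ContinuousOn.add ?_ (ContinuousOn.mul ?_ continuousOn_const)
    · refine continuous_ofReal.comp_continuousOn (h1.congr fun t _ => ?_)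
      simp only [ContinuousLinearMap.comp_apply, hev, coefL_apply, reCLM_apply]
    · refine continuous_ofReal.comp_continuousOn (h2.congr fun t _ => ?_)
      simp only [ContinuousLinearMap.comp_apply, hev, coefL_apply, imCLM_apply]
  refine h3.congr fun t _ => ?_
  exact (re_add_im _).symm

/-- weakly continuous functions are bounded on compact sets -/
lemma bounded_of_weak {s : ℝ → State} {S : Set ℝ} (hS : IsCompact S)
    (h : ∀ f : RL2, ContinuousOn (fun t => ⟪f, (s t).2⟫_ℝ) S) :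
    ∃ C, ∀ t ∈ S, ‖(s t).2‖ ≤ C := by
  have h1 : ∀ f : RL2, ∃ C, ∀ t : S, ‖innerSL ℝ (s t).2 f‖ ≤ C := by
    intro f
    obtain ⟨C, hC⟩ := hS.exists_bound_of_continuousOn (h f)
    refine ⟨C, fun t => ?_⟩
    have := hC t t.2
    rwa [innerSL_apply_apply, real_inner_comm]
  obtain ⟨C, hC⟩ := banach_steinhaus h1
  refine ⟨C, fun t ht => ?_⟩
  have := hC ⟨t, ht⟩
  rwa [innerSL_apply_norm] at this

lemma continuousOn_Ici_of_Icc {E : Type*} [TopologicalSpace E] {f : ℝ → E}
    (h : ∀ T, ContinuousOn f (Icc 0 T)) : ContinuousOn f (Ici 0) := by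
  intro t ht
  have ht' : (0 : ℝ) ≤ t := ht
  have h1 := h (t + 1) t ⟨ht', by linarith⟩
  refine h1.mono_of_mem_nhdsWithin ?_
  have h2 : Iic (t + 1) ∈ 𝓝[Ici 0] t := mem_nhdsWithin_of_mem_nhds (Iic_mem_nhds (by linarith))
  filter_upwards [h2, self_mem_nhdsWithin] with r h3 h4
  exact ⟨h4, h3⟩

/-- bounded and coordinatewise continuous implies weakly continuous -/
lemma weak_of_bounded {θ : ℝ → Seq2} {T C : ℝ} (hc : ∀ k, ContinuousOn (fun t => θ t k) (Icc 0 T))
    (hb : ∀ t ∈ Icc 0 T, ‖θ t‖ ≤ C) (F : Seq2) : ContinuousOn (fun t => ⟪F, θ t⟫_ℂ) (Icc 0 T) := by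
  refine continuousOn_of_uniform_approx_of_continuousOn fun u hu => ?_
  obtain ⟨ε, hε, hu⟩ := Metric.mem_uniformity_dist.1 hu
  have h1 := lp.hasSum_single (p := 2) (by norm_num) F
  have h2 : ∀ᶠ s : Finset K in atTop, ‖F - ∑ k ∈ s, lp.single 2 k (F k)‖ < ε / (|C| + 1) := by
    have h3 := (tendsto_iff_norm_sub_tendsto_zero.1 h1)
    have h4 := h3.eventually (gt_mem_nhds (show (0 : ℝ) < ε / (|C| + 1) by positivity))
    filter_upwards [h4] with s hs
    rwa [norm_sub_rev]
  obtain ⟨s, hs⟩ := h2.exists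
  refine ⟨fun t => ⟪∑ k ∈ s, lp.single 2 k (F k), θ t⟫_ℂ, ?_, fun t ht => hu ?_⟩
  · simp only [sum_inner]
    refine continuousOn_finsetSum _ fun k _ => ?_
    have h5 : ∀ t, ⟪lp.single 2 k (F k), θ t⟫_ℂ = conj (F k) * θ t k := by
      intro t
      rw [lp.inner_single_left, RCLike.inner_apply, mul_comm]
    simp only [h5]
    exact continuousOn_const.mul (hc k)
  · rw [dist_eq_norm, ← inner_sub_left]
    calc ‖⟪F - ∑ k ∈ s, lp.single 2 k (F k), θ t⟫_ℂ‖
        ≤ ‖F - ∑ k ∈ s, lp.single 2 k (F k)‖ * ‖θ t‖ := norm_inner_le_norm _ _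
      _ ≤ ‖F - ∑ k ∈ s, lp.single 2 k (F k)‖ * (|C| + 1) := by
          gcongr
          exact (hb t ht).trans ((le_abs_self C).trans (by linarith))
      _ < ε / (|C| + 1) * (|C| + 1) := by gcongr
      _ = ε := by field_simp

end Pool.Agent.Bous
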