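import Pool.Agent.Bous.TransferBasic

/-!
# Function level and sequence level: algebraic consequences of `Rel`
-/

open MeasureTheory Set Filter Topology Complex
open scoped ENNReal InnerProductSpace ComplexConjugate

namespace Pool.Agent.Bous

lemma nsq_nonneg' (k : K) : 0 ≤ nsq k := by unfold nsq; positivity

lemma nsq_pos' {k : K} (hk : k ≠ 0) : 0 < nsq k := by
  rcases eq_or_lt_of_le (nsq_nonneg' k) with h | h
  · exfalso
    apply hk
    unfold nsq at h
    have h0 : ((k 0 : ℝ)) ^ 2 = 0 := by nlinarith [sq_nonneg (k 0 : ℝ), sq_nonneg (k 1 : ℝ)]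
    have h1 : ((k 1 : ℝ)) ^ 2 = 0 := by nlinarith [sq_nonneg (k 0 : ℝ), sq_nonneg (k 1 : ℝ)]
    have h0' : k 0 = 0 := by
      have := pow_eq_zero_iff (two_ne_zero) |>.1 h0
      exact_mod_cast this
    have h1' : k 1 = 0 := by
      have := pow_eq_zero_iff (two_ne_zero) |>.1 h1
      exact_mod_cast this
    funext i
    fin_cases i
    · exact h0'
    · exact h1'
  · exact h

lemma nrm_sq' (k : K) : nrm k ^ 2 = nsq k := Real.sq_sqrt (nsq_nonneg' k)

lemma nrm_pos' {k : K} (hk : k ≠ 0) : 0 < nrm k := Real.sqrt_pos.2 (nsq_pos' hk)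

lemma nrm_zero' : nrm 0 = 0 := by simp [nrm, nsq]

lemma kperp_zero (j : Fin 2) : kperp 0 j = 0 := by
  unfold kperp
  fin_cases j <;> simp

lemma nrm_neg' (k : K) : nrm (-k) = nrm k := by simp [nrm, nsq]

lemma kperp_neg (k : K) (j : Fin 2) : kperp (-k) j = - kperp k j := by
  unfold kperp
  fin_cases j <;> simp

lemma abs_kperp_le (k : K) (j : Fin 2) : |kperp k j / nrm k| ≤ 1 := by
  rw [abs_div, abs_of_nonneg (show 0 ≤ nrm k from Real.sqrt_nonneg _)]
  refine div_le_one_of_le₀ ?_ (Real.sqrt_nonneg _)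
  unfold nrm nsq
  apply Real.abs_le_sqrt
  unfold kperp
  fin_cases j
  · simp; positivity
  · simp; positivity

lemma kperp_zero_idx (k : K) : kperp k 0 = -(k 1 : ℝ) := rfl

lemma kperp_one_idx (k : K) : kperp k 1 = (k 0 : ℝ) := rfl

lemma cross_sub (p k : K) : cross p (k - p) = cross p k := by
  unfold cross
  simp only [Pi.sub_apply, Int.cast_sub]
  ring

section

variable {x : State} {V Θ : Seq2}

lemma Rel.u_sum (h : Rel x V Θ) (k p : K) :
    ∑ j, (k j : ℂ) * coef (x.1 j) p = I * ((al p (k - p) : ℝ) : ℂ) * V p := by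
  rw [Fin.sum_univ_two, h.2, h.2, kperp_zero_idx, kperp_one_idx]
  unfold al
  rw [cross_sub]
  unfold cross
  push_cast
  ring

/-- the transport term -/
lemma Rel.transport (h : Rel x V Θ) (k : K) :
    ∑ j, (k j : ℂ) * coef (fun y => x.1 j y * x.2 y) k = I * AL V Θ k := by
  have h1 : HasSum (fun p => ∑ j, (k j : ℂ) * (coef (x.1 j) p * coef x.2 (k - p)))
      (∑ j, (k j : ℂ) * coef (fun y => x.1 j y * x.2 y) k) := by
    refine hasSum_sum fun j _ => ?_
    exact (hasSum_coef_mul (x.1 j) x.2 k).mul_left _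
  have h2 : HasSum (fun p => I * (((al p (k - p) : ℝ) : ℂ) * V p * Θ (k - p)))
      (∑ j, (k j : ℂ) * coef (fun y => x.1 j y * x.2 y) k) := by
    refine h1.congr_fun fun p => ?_
    rw [← h.1, Fin.sum_univ_two]
    have h3 := h.u_sum k p
    rw [Fin.sum_univ_two] at h3
    linear_combination (-coef x.2 (k - p)) * h3
  have h4 := h2.mul_left (-I)
  have h5 : HasSum (fun p => (((al p (k - p) : ℝ) : ℂ) * V p * Θ (k - p)))
      (-I * (∑ j, (k j : ℂ) * coef (fun y => x.1 j y * x.2 y) k)) := by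
    refine h4.congr_fun fun p => ?_
    rw [← mul_assoc, neg_mul, I_mul_I, neg_neg, one_mul]
  unfold AL
  rw [h5.tsum_eq, ← mul_assoc, mul_neg, I_mul_I, neg_neg, one_mul]

lemma Rel.perp_sum (h : Rel x V Θ) (k p : K) :
    ∑ i, ((kperp k i : ℝ) : ℂ) * coef (x.1 i) p =
      I * ((((k 0 : ℝ) * (p 0) + (k 1) * (p 1)) / nrm p : ℝ) : ℂ) * V p := by
  rw [Fin.sum_univ_two, h.2, h.2, kperp_zero_idx, kperp_one_idx, kperp_zero_idx, kperp_one_idx]
  push_cast
  ring

lemma Rel.perp_self (h : Rel x V Θ) (k : K) :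
    ∑ i, ((kperp k i : ℝ) : ℂ) * coef (x.1 i) k = I * (nrm k : ℂ) * V k := by
  rw [h.perp_sum]
  have h1 : ((k 0 : ℝ) * (k 0) + (k 1) * (k 1)) / nrm k = nrm k := by
    rcases eq_or_ne k 0 with hk | hk
    · rw [hk, nrm_zero']; simp
    · rw [div_eq_iff (nrm_pos' hk).ne']
      have h2 := nrm_sq' k
      unfold nsq at h2
      linear_combination -h2
  rw [h1]

/-- the Navier-Stokes term -/
lemma Rel.convect (h : Rel x V Θ) {k : K} (hk : k ≠ 0) :
    ∑ i, ∑ j, ((kperp k i : ℝ) : ℂ) * (k j : ℂ) * coef (fun y => x.1 j y * x.1 i y) k =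
      -(nrm k : ℂ) * BE V V k := by
  set S := ∑ i, ∑ j, ((kperp k i : ℝ) : ℂ) * (k j : ℂ) * coef (fun y => x.1 j y * x.1 i y) k
    with hS
  have h1 : HasSum (fun p => ∑ i, ∑ j, ((kperp k i : ℝ) : ℂ) * (k j : ℂ) *
      (coef (x.1 j) p * coef (x.1 i) (k - p))) S := by
    refine hasSum_sum fun i _ => hasSum_sum fun j _ => ?_
    exact (hasSum_coef_mul (x.1 j) (x.1 i) k).mul_left _
  have h2 : HasSum (fun p => -((((cross p (k - p)) *
      ((k 0 : ℝ) * ((k - p) 0) + (k 1) * ((k - p) 1)) / (nrm p * nrm (k - p)) : ℝ) : ℂ)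
        * (V p * V (k - p)))) S := by
    refine h1.congr_fun fun p => ?_
    have h3 := h.u_sum k p
    have h4 := h.perp_sum k (k - p)
    have h5 : ∑ i, ∑ j, ((kperp k i : ℝ) : ℂ) * (k j : ℂ) *
      (coef (x.1 j) p * coef (x.1 i) (k - p)) = (∑ j, (k j : ℂ) * coef (x.1 j) p) *
        (∑ i, ((kperp k i : ℝ) : ℂ) * coef (x.1 i) (k - p)) := by
      rw [Finset.mul_sum]
      refine Finset.sum_congr rfl fun i _ => ?_
      rw [Finset.sum_mul]
      refine Finset.sum_congr rfl fun j _ => ?_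
      ring
    rw [h5, h3, h4]
    unfold al
    push_cast
    rw [show I * ((cross p (k - p) : ℂ) / (nrm p : ℂ)) * V p *
      (I * (((k 0 : ℂ) * ((k - p) 0 : ℂ) + (k 1 : ℂ) * ((k - p) 1 : ℂ)) / (nrm (k - p) : ℂ))
        * V (k - p)) = (I * I) * (((cross p (k - p) : ℂ) / (nrm p : ℂ)) *
      ((((k 0 : ℂ) * ((k - p) 0 : ℂ) + (k 1 : ℂ) * ((k - p) 1 : ℂ)) / (nrm (k - p) : ℂ))) *
        (V p * V (k - p))) by ring, I_mul_I, div_mul_div_comm]
    ring
  have h6 := (Equiv.subLeft k).hasSum_iff.2 h2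
  have h7 := (h2.add h6).mul_left (-(1 / (2 * (nrm k : ℂ))))
  have hn : (nrm k : ℂ) ≠ 0 := by exact_mod_cast (nrm_pos' hk).ne'
  have h8 : HasSum (fun p => (be p (k - p) : ℂ) * V p * V (k - p))
      (-(1 / (2 * (nrm k : ℂ))) * (S + S)) := by
    refine h7.congr_fun fun p => ?_
    simp only [Function.comp_apply, Equiv.subLeft_apply, sub_sub_cancel]
    unfold be
    rw [add_sub_cancel]
    have hc : cross (k - p) p = - cross p (k - p) := by
      unfold cross; ring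
    rw [hc]
    have hq : nsq (k - p) - nsq p = ((k 0 : ℝ) * (((k - p) 0 : ℤ) : ℝ) + (k 1) * (((k - p) 1 : ℤ) : ℝ)) -
        ((k 0 : ℝ) * (p 0) + (k 1) * (p 1)) := by
      unfold nsq
      simp only [Pi.sub_apply, Int.cast_sub]
      ring
    rw [hq]
    push_cast
    rw [mul_comm (nrm (k - p) : ℂ) (nrm p : ℂ)]
    field_simp
    ring
  unfold BE
  rw [h8.tsum_eq]
  field_simp
  ring

lemma BE_zero (V : K → ℂ) : BE V V 0 = 0 := by
  unfold BE
  rw [← tsum_zero (α := ℂ) (β := K)]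
  refine tsum_congr fun j => ?_
  have : be j (0 - j) = 0 := by
    unfold be
    rw [cross_sub]
    simp [cross]
  rw [this]
  simp

/-- the dissipation -/
lemma Rel.energy (h : Rel x V Θ) (k : K) :
    ∑ j, ENNReal.ofReal (((k 0 : ℝ) ^ 2 + (k 1 : ℝ) ^ 2) * ‖coef (x.1 j) k‖ ^ 2) =
      ENNReal.ofReal (nsq k * ‖V k‖ ^ 2) := by
  rw [← ENNReal.ofReal_sum_of_nonneg (fun j _ => by positivity)]
  congr 1
  rw [Fin.sum_univ_two, h.2, h.2]
  simp only [norm_mul, norm_I, one_mul, mul_pow, Complex.norm_real, Real.norm_eq_abs, sq_abs]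
  rw [div_pow, div_pow, nrm_sq', kperp_zero_idx, kperp_one_idx]
  rcases eq_or_ne k 0 with hk | hk
  · rw [hk]; simp [nsq]
  · have := (nsq_pos' hk).ne'
    have h2 : ((k 0 : ℝ) ^ 2 + (k 1 : ℝ) ^ 2) = nsq k := rfl
    have h3 : (-(k 1 : ℝ)) ^ 2 / nsq k + (k 0 : ℝ) ^ 2 / nsq k = 1 := by
      rw [← add_div, neg_sq, add_comm, h2, div_self this]
    rw [h2]
    linear_combination (nsq k * ‖V k‖ ^ 2) * h3

end

end Pool.Agent.Bous
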