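import Pool.Agent.Bous.UPoint

/-!
# Continuity in time of the nonlinear terms
-/

open Complex Set MeasureTheory Filter Topology
open scoped ComplexConjugate ENNReal

namespace Pool.Agent.Bous.U

lemma hasSum_sq (x : Seq2) : HasSum (fun k => ‖x k‖ ^ 2) (‖x‖ ^ 2) := by
  have h := lp.hasSum_norm (p := 2) (by norm_num) x
  have e : (2 : ℝ≥0∞).toReal = (2:ℝ) := by norm_num
  rw [e] at h
  simpa [Real.rpow_two] using h

lemma N2_lp (x : Seq2) : N2 (fun k => ‖x k‖ₑ) = ENNReal.ofReal ‖x‖ := by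
  have h1 : N2 (fun k => ‖x k‖ₑ) ^ 2 = ENNReal.ofReal ‖x‖ ^ 2 := by
    rw [N2_sq, ← ENNReal.ofReal_pow (norm_nonneg _), ← (hasSum_sq x).tsum_eq,
      ENNReal.ofReal_tsum_of_nonneg (fun k => by positivity) (hasSum_sq x).summable]
    refine tsum_congr fun k => ?_
    rw [ENNReal.ofReal_pow (norm_nonneg _), ofReal_norm]
  exact le_antisymm (le_of_sq_le h1.le) (le_of_sq_le h1.ge)

lemma norm_coord_le (x : Seq2) (k : K) : ‖x k‖ ≤ ‖x‖ := lp.norm_apply_le_norm (by norm_num) x k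

variable {c : K → K → ℝ} (hc : ∀ j l, |c j l| ≤ nrm (j + l))
include hc

lemma Cv_enorm_le (a b : K → ℂ) (k : K) :
    ∑' j, ‖(c j (k - j) : ℂ) * a j * b (k - j)‖ₑ ≤
      w k * (N2 (fun j => ‖a j‖ₑ) * N2 (fun j => ‖b j‖ₑ)) := by
  calc ∑' j, ‖(c j (k - j) : ℂ) * a j * b (k - j)‖ₑ
      ≤ ∑' j, w k * (‖a j‖ₑ * ‖b (k - j)‖ₑ) := by
        refine ENNReal.tsum_le_tsum fun j => ?_
        rw [enorm_mul, enorm_mul, enorm_real]
        have h1 : ENNReal.ofReal |c j (k - j)| ≤ w k := by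
          have := hc j (k - j)
          rw [add_sub_cancel] at this
          exact ENNReal.ofReal_le_ofReal this
        calc ENNReal.ofReal |c j (k - j)| * ‖a j‖ₑ * ‖b (k - j)‖ₑ
            ≤ w k * ‖a j‖ₑ * ‖b (k - j)‖ₑ := by gcongr
          _ = _ := by ring
    _ = w k * ∑' j, ‖a j‖ₑ * ‖b (k - j)‖ₑ := ENNReal.tsum_mul_left
    _ ≤ w k * (N2 (fun j => ‖a j‖ₑ) * N2 (fun j => ‖b (k - j)‖ₑ)) := by
        gcongr; exact cs _ _
    _ = _ := by
        congr 2
        unfold N2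
        congr 1
        exact (Equiv.subLeft k).tsum_eq (fun j => ‖b j‖ₑ ^ 2)

lemma Cv_summable (a b : Seq2) (k : K) :
    Summable fun j => (c j (k - j) : ℂ) * a j * b (k - j) := by
  apply summable_of_enorm
  refine ne_top_of_le_ne_top ?_ (Cv_enorm_le hc a b k)
  rw [N2_lp, N2_lp]
  exact ENNReal.mul_ne_top (w_ne_top k) (ENNReal.mul_ne_top ENNReal.ofReal_ne_top
    ENNReal.ofReal_ne_top)

lemma Cv_norm_le (a b : Seq2) (k : K) : ‖Cv c a b k‖ ≤ nrm k * (‖a‖ * ‖b‖) := by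
  apply norm_le_of_enorm (mul_nonneg (nrm_nonneg k) (by positivity))
  refine (enorm_tsum_le _).trans ((Cv_enorm_le hc a b k).trans ?_)
  rw [N2_lp, N2_lp, ENNReal.ofReal_mul (nrm_nonneg k), ENNReal.ofReal_mul (norm_nonneg _)]
  rfl

lemma Cv_add_left (a a' b : Seq2) (k : K) :
    Cv c ((a + a' : Seq2) : K → ℂ) b k = Cv c a b k + Cv c a' b k := by
  unfold Cv
  rw [← (Cv_summable hc a b k).tsum_add (Cv_summable hc a' b k)]
  refine tsum_congr fun j => ?_
  rw [lp.coeFn_add, Pi.add_apply]; ring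

lemma Cv_add_right (a b b' : Seq2) (k : K) :
    Cv c a ((b + b' : Seq2) : K → ℂ) k = Cv c a b k + Cv c a b' k := by
  unfold Cv
  rw [← (Cv_summable hc a b k).tsum_add (Cv_summable hc a b' k)]
  refine tsum_congr fun j => ?_
  rw [lp.coeFn_add, Pi.add_apply]; ring

lemma Cv_sub_left (a a' b : Seq2) (k : K) :
    Cv c ((a - a' : Seq2) : K → ℂ) b k = Cv c a b k - Cv c a' b k := by
  unfold Cv
  rw [← (Cv_summable hc a b k).tsum_sub (Cv_summable hc a' b k)]
  refine tsum_congr fun j => ?_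
  rw [lp.coeFn_sub, Pi.sub_apply]; ring

omit hc in
/-- tails of `ℓ²` sequences -/
lemma tail_tendsto' {f : K → ℝ≥0∞} (hf : N2 f ≠ ⊤) [DecidableEq K] :
    Tendsto (fun F : Finset K => N2 (fun j => if j ∈ F then 0 else f j)) atTop (𝓝 0) := by
  have h1 : ∑' j, f j ^ 2 ≠ ⊤ := by
    rw [← N2_sq]; exact ENNReal.pow_ne_top hf
  have h2 := ENNReal.tendsto_tsum_compl_atTop_zero h1
  have h3 : ∀ F : Finset K, ∑' b : { x // x ∉ F }, f b ^ 2 =
      ∑' j, (if j ∈ F then 0 else f j) ^ 2 := by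
    intro F
    have h4 := tsum_subtype {x | x ∉ F} (fun j => f j ^ 2)
    refine Eq.trans h4 (tsum_congr fun j => ?_)
    by_cases h : j ∈ F <;> simp [Set.indicator, h]
  simp only [h3] at h2
  unfold N2
  have h4 := ((ENNReal.continuous_rpow_const (y := (1 / 2 : ℝ))).tendsto 0).comp h2
  rw [ENNReal.zero_rpow_of_pos (by norm_num)] at h4
  exact h4

omit hc in
lemma tail_tendsto (a : Seq2) [DecidableEq K] :
    Tendsto (fun F : Finset K => N2 (fun j => if j ∈ F then 0 else ‖a j‖ₑ)) atTop (𝓝 0) :=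
  tail_tendsto' (f := fun j => ‖a j‖ₑ) (by rw [N2_lp]; exact ENNReal.ofReal_ne_top)

/-- continuity for a fixed first argument -/
lemma Cv_cont_right (a : Seq2) {x : ℝ → Seq2} (hx : ∀ k, ContinuousOn (fun t => x t k) (Ici 0))
    {T C : ℝ} (hC : ∀ t ∈ Icc 0 T, ‖x t‖ ≤ C) (k : K) :
    ContinuousOn (fun t => Cv c a (x t) k) (Icc 0 T) := by
  classical
  rcases lt_or_ge T 0 with hT | hT
  · rw [Icc_eq_empty (not_le.2 hT)]; exact continuousOn_empty _
  have hC0 : 0 ≤ C := (norm_nonneg _).trans (hC 0 ⟨le_rfl, hT⟩)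
  have hunif : TendstoUniformlyOn
      (fun (F : Finset K) t => ∑ j ∈ F, (c j (k - j) : ℂ) * a j * x t (k - j))
      (fun t => Cv c a (x t) k) atTop (Icc 0 T) := by
    rw [Metric.tendstoUniformlyOn_iff]
    intro ε hε
    have h1 : Tendsto (fun F : Finset K =>
        w k * (N2 (fun j => if j ∈ F then 0 else ‖a j‖ₑ) * ENNReal.ofReal C)) atTop (𝓝 0) := by
      have h2 := ENNReal.Tendsto.mul_const (tail_tendsto a)
        (Or.inr (ENNReal.ofReal_ne_top : ENNReal.ofReal C ≠ ⊤))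
      have h3 := ENNReal.Tendsto.const_mul h2 (Or.inr (w_ne_top k))
      simpa using h3
    have h2 : ∀ᶠ F in (atTop : Filter (Finset K)),
        w k * (N2 (fun j => if j ∈ F then 0 else ‖a j‖ₑ) * ENNReal.ofReal C) <
          ENNReal.ofReal ε := h1.eventually (gt_mem_nhds (ENNReal.ofReal_pos.2 hε))
    filter_upwards [h2] with F hF t ht
    rw [dist_eq_norm]
    have e1 : Cv c a (x t) k - ∑ j ∈ F, (c j (k - j) : ℂ) * a j * x t (k - j) =
        Cv c (fun j => if j ∈ F then 0 else a j) (x t) k := by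
      unfold Cv
      have hs := Cv_summable hc a (x t) k
      have h5 : ∑ j ∈ F, (c j (k - j) : ℂ) * a j * x t (k - j) =
          ∑' j, if j ∈ F then (c j (k - j) : ℂ) * a j * x t (k - j) else 0 := by
        rw [tsum_eq_sum (s := F)]
        · exact Finset.sum_congr rfl fun j hj => by rw [if_pos hj]
        · intro j hj; rw [if_neg hj]
      have hs2 : Summable fun j => if j ∈ F then (c j (k - j) : ℂ) * a j * x t (k - j) else 0 :=
        summable_of_ne_finset_zero (s := F) (fun j hj => by rw [if_neg hj])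
      rw [h5, ← hs.tsum_sub hs2]
      refine tsum_congr fun j => ?_
      by_cases h : j ∈ F <;> simp [h]
    rw [e1]
    have h6 : ‖Cv c (fun j => if j ∈ F then 0 else a j) (x t) k‖ₑ < ENNReal.ofReal ε := by
      refine lt_of_le_of_lt ((enorm_tsum_le _).trans (Cv_enorm_le hc _ _ k)) ?_
      refine lt_of_le_of_lt ?_ hF
      have e2 : (fun j => ‖(if j ∈ F then (0:ℂ) else a j)‖ₑ) =
          fun j => if j ∈ F then 0 else ‖a j‖ₑ := by
        funext j; split_ifs <;> simp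
      rw [e2, N2_lp]
      gcongr
      exact hC t ht
    rw [← ofReal_norm, ENNReal.ofReal_lt_ofReal_iff hε] at h6
    exact h6
  refine hunif.continuousOn (Frequently.of_forall fun F => ?_)
  refine continuousOn_finsetSum _ fun j _ => ?_
  exact ((continuousOn_const.mul continuousOn_const).mul
    ((hx (k - j)).mono fun t ht => ht.1))

/-- continuity in time of the bilinear terms -/
lemma Cv_cont {v x : ℝ → Seq2} (hv : ContinuousOn v (Ici 0))
    (hx : ∀ k, ContinuousOn (fun t => x t k) (Ici 0))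
    (hb : ∀ T, ∃ C, ∀ t ∈ Icc 0 T, ‖x t‖ ≤ C) (k : K) :
    ContinuousOn (fun t => Cv c (v t) (x t) k) (Ici 0) := by
  intro t0 ht0
  obtain ⟨C, hC⟩ := hb (t0 + 1)
  have ht0' : (0:ℝ) ≤ t0 := ht0
  have hmem : Icc 0 (t0 + 1) ∈ 𝓝[Ici 0] t0 := by
    rw [mem_nhdsWithin]
    exact ⟨Iio (t0 + 1), isOpen_Iio, by simp, fun y hy => ⟨hy.2, (le_of_lt hy.1)⟩⟩
  have h1 : ContinuousWithinAt (fun t => Cv c (v t0) (x t) k) (Ici 0) t0 := by
    have := Cv_cont_right hc (v t0) hx hC k t0 ⟨ht0', by linarith⟩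
    exact this.mono_of_mem_nhdsWithin hmem
  have h2 : Tendsto (fun t => Cv c ((v t - v t0 : Seq2) : K → ℂ) (x t) k) (𝓝[Ici 0] t0)
      (𝓝 0) := by
    rw [tendsto_zero_iff_norm_tendsto_zero]
    have h3 : Tendsto (fun t => nrm k * (‖v t - v t0‖ * C)) (𝓝[Ici 0] t0)
        (𝓝 (nrm k * (0 * C))) := by
      apply Tendsto.const_mul
      apply Tendsto.mul_const
      have h4 : ContinuousWithinAt (fun t => v t - v t0) (Ici 0) t0 :=
        (hv t0 ht0).sub continuousWithinAt_const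
      have h5 := h4.norm
      simpa using h5.tendsto
    rw [zero_mul, mul_zero] at h3
    refine squeeze_zero' (Eventually.of_forall fun t => norm_nonneg _) ?_ h3
    filter_upwards [hmem] with t ht
    refine (Cv_norm_le hc (v t - v t0) (x t) k).trans ?_
    have := hC t ht
    have h6 := nrm_nonneg k
    gcongr
  have h3 := h2.add h1.tendsto
  rw [zero_add] at h3
  have h4 : (fun t => Cv c ((v t - v t0 : Seq2) : K → ℂ) (x t) k + Cv c (v t0) (x t) k) =
      fun t => Cv c (v t) (x t) k := by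
    funext t
    rw [Cv_sub_left hc]; ring
  rw [h4] at h3
  exact h3

end Pool.Agent.Bous.U
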