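import Pool.Agent.Bous.UKer

/-!
# Trilinear estimates for nonnegative sequences on `ℤ²`
-/

open Complex Set MeasureTheory Filter Topology
open scoped ComplexConjugate ENNReal

namespace Pool.Agent.Bous.U

/-- the `ℓ²` norm of a nonnegative family -/
noncomputable def N2 {ι : Type*} (f : ι → ℝ≥0∞) : ℝ≥0∞ := (∑' i, f i ^ 2) ^ (1 / 2 : ℝ)

lemma N2_sq {ι : Type*} (f : ι → ℝ≥0∞) : N2 f ^ 2 = ∑' i, f i ^ 2 := by
  unfold N2
  rw [← ENNReal.rpow_natCast, ← ENNReal.rpow_mul]
  norm_num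

lemma le_of_sq_le {a b : ℝ≥0∞} (h : a ^ 2 ≤ b ^ 2) : a ≤ b :=
  (ENNReal.pow_le_pow_left_iff two_ne_zero).1 h

lemma N2_le_of_sq {ι : Type*} {f : ι → ℝ≥0∞} {b : ℝ≥0∞} (h : ∑' i, f i ^ 2 ≤ b ^ 2) :
    N2 f ≤ b := by
  apply le_of_sq_le
  rw [N2_sq]
  exact h

lemma N2_mono {ι : Type*} {f g : ι → ℝ≥0∞} (h : ∀ i, f i ≤ g i) : N2 f ≤ N2 g := by
  apply N2_le_of_sq
  rw [N2_sq]
  exact ENNReal.tsum_le_tsum fun i => pow_le_pow_left₀ zero_le (h i) 2

lemma cs {ι : Type*} (f g : ι → ℝ≥0∞) : ∑' i, f i * g i ≤ N2 f * N2 g := by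
  let _ : MeasurableSpace ι := ⊤
  have h := ENNReal.lintegral_mul_le_Lp_mul_Lq (Measure.count : Measure ι)
    (Real.HolderConjugate.two_two) (f := f) (g := g) (measurable_from_top.aemeasurable)
    (measurable_from_top.aemeasurable)
  simp only [lintegral_count, Pi.mul_apply, ENNReal.rpow_two] at h
  exact h

lemma N2_shift (f : K → ℝ≥0∞) (j : K) : N2 (fun l => f (j + l)) = N2 f := by
  unfold N2
  congr 1
  exact (Equiv.addLeft j).tsum_eq (fun l => f l ^ 2)

lemma tsum_shift (f : K → ℝ≥0∞) (j : K) : ∑' l, f (j + l) = ∑' l, f l :=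
  (Equiv.addLeft j).tsum_eq f

lemma tsum_shift' (f : K → ℝ≥0∞) (j : K) : ∑' l, f (l + j) = ∑' l, f l :=
  (Equiv.addRight j).tsum_eq f

/-- sup norm -/
def M (k : K) : ℕ := max (k 0).natAbs (k 1).natAbs

/-- box -/
noncomputable def box (R : ℕ) : Finset K := Fintype.piFinset fun _ : Fin 2 => Finset.Icc (-(R : ℤ)) R

lemma mem_box {R : ℕ} {k : K} : k ∈ box R ↔ M k ≤ R := by
  unfold box M
  simp only [Fintype.mem_piFinset, Finset.mem_Icc, Fin.forall_fin_two]
  omega

lemma card_box (R : ℕ) : (box R).card = (2 * R + 1) ^ 2 := by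
  unfold box
  rw [Fintype.card_piFinset_const]
  congr 1
  rw [Int.card_Icc]
  omega

lemma M_le_nrm (k : K) : (M k : ℝ) ≤ nrm k := by
  unfold M nrm
  apply Real.le_sqrt_of_sq_le
  unfold nsq
  have h0 : ((k 0).natAbs : ℝ) ^ 2 = (k 0 : ℝ) ^ 2 := by
    rw [Nat.cast_natAbs, Int.cast_abs, sq_abs]
  have h1 : ((k 1).natAbs : ℝ) ^ 2 = (k 1 : ℝ) ^ 2 := by
    rw [Nat.cast_natAbs, Int.cast_abs, sq_abs]
  rcases le_total (k 0).natAbs (k 1).natAbs with h | h
  · rw [max_eq_right h, h1]; nlinarith [sq_nonneg (k 0 : ℝ)]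
  · rw [max_eq_left h, h0]; nlinarith [sq_nonneg (k 1 : ℝ)]

lemma M_pos {k : K} (hk : k ≠ 0) : 0 < M k := by
  by_contra h
  apply hk
  unfold M at h
  funext i
  fin_cases i <;> simp <;> omega

/-- weights -/
noncomputable def w (k : K) : ℝ≥0∞ := ENNReal.ofReal (nrm k)
noncomputable def wi (k : K) : ℝ≥0∞ := ENNReal.ofReal (nrm k)⁻¹

lemma w_ne_top (k : K) : w k ≠ ⊤ := ENNReal.ofReal_ne_top
lemma wi_ne_top (k : K) : wi k ≠ ⊤ := ENNReal.ofReal_ne_top

lemma w_zero : w 0 = 0 := by simp [w, nrm_zero]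
lemma wi_zero : wi 0 = 0 := by simp [wi, nrm_zero]

lemma w_mul_wi {k : K} (hk : k ≠ 0) : w k * wi k = 1 := by
  unfold w wi
  rw [← ENNReal.ofReal_mul (nrm_nonneg k), mul_inv_cancel₀ (nrm_pos hk).ne', ENNReal.ofReal_one]

lemma wi_mul_w {k : K} (hk : k ≠ 0) : wi k * w k = 1 := by rw [mul_comm, w_mul_wi hk]

lemma wi_le_one (k : K) : wi k ≤ 1 := by
  unfold wi
  rw [ENNReal.ofReal_le_one]
  by_cases hk : k = 0
  · subst hk; simp [nrm_zero]
  · exact inv_le_one_of_one_le₀ (one_le_nrm hk)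

lemma one_le_w {k : K} (hk : k ≠ 0) : 1 ≤ w k := by
  unfold w
  rw [ENNReal.one_le_ofReal]
  exact one_le_nrm hk

/-- `∑ |j|⁻³` -/
noncomputable def C3 : ℝ≥0∞ := ∑' j, wi j ^ 3

lemma C3_ne_top : C3 ≠ ⊤ := by
  have h1 := EisensteinSeries.summable_one_div_norm_rpow (k := 3) (by norm_num)
  have h2 : ∀ j : K, wi j ^ 3 ≤ ENNReal.ofReal (‖j‖ ^ (-3 : ℝ)) := by
    intro j
    unfold wi
    rw [← ENNReal.ofReal_pow (inv_nonneg.2 (nrm_nonneg j))]
    apply ENNReal.ofReal_le_ofReal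
    by_cases hj : j = 0
    · subst hj; simp [nrm_zero]
    · have h3 : 0 < ‖j‖ := norm_pos_iff.2 hj
      rw [Real.rpow_neg h3.le, inv_pow]
      apply inv_anti₀ (by positivity)
      have h4 : ‖j‖ ≤ nrm j := by
        refine le_trans ?_ (M_le_nrm j)
        rw [pi_norm_le_iff_of_nonneg (by positivity)]
        intro i
        unfold M
        have h0 : ‖j 0‖ = ((j 0).natAbs : ℝ) := by
          rw [Int.norm_eq_abs, Nat.cast_natAbs, Int.cast_abs]
        have h1 : ‖j 1‖ = ((j 1).natAbs : ℝ) := by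
          rw [Int.norm_eq_abs, Nat.cast_natAbs, Int.cast_abs]
        fin_cases i
        · change ‖j 0‖ ≤ _
          rw [h0]
          exact_mod_cast le_max_left _ _
        · change ‖j 1‖ ≤ _
          rw [h1]
          exact_mod_cast le_max_right _ _
      have h5 : ‖j‖ ^ (3:ℝ) = ‖j‖ ^ 3 := by exact_mod_cast Real.rpow_natCast ‖j‖ 3
      rw [h5]
      gcongr
  exact ne_top_of_le_ne_top h1.tsum_ofReal_ne_top (ENNReal.tsum_le_tsum h2)

lemma tsum_ind_finset (s : Finset K) (f : K → ℝ≥0∞) :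
    (∑' j, if j ∈ s then f j else 0) = ∑ j ∈ s, f j := by
  rw [tsum_eq_sum (s := s)]
  · exact Finset.sum_congr rfl fun j hj => if_pos hj
  · intro j hj; exact if_neg hj

/-- low modes: logarithmic growth -/
lemma lowSum_sq (n : ℕ) : ∑ j ∈ box (2 ^ n), wi j ^ 2 ≤ 25 * ((n : ℝ≥0∞) + 1) := by
  induction n with
  | zero =>
    calc ∑ j ∈ box (2 ^ 0), wi j ^ 2 ≤ ∑ j ∈ box (2 ^ 0), 1 :=
          Finset.sum_le_sum fun j _ => pow_le_one₀ zero_le (wi_le_one j)
      _ = ((box (2 ^ 0)).card : ℝ≥0∞) := by simp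
      _ ≤ 25 * (((0:ℕ) : ℝ≥0∞) + 1) := by
          rw [card_box]; norm_num
  | succ n ih =>
    have hsub : box (2 ^ n) ⊆ box (2 ^ (n + 1)) := by
      intro j hj
      rw [mem_box] at hj ⊢
      have : 2 ^ n ≤ 2 ^ (n + 1) := Nat.pow_le_pow_right (by norm_num) (by omega)
      omega
    classical
    rw [← Finset.sum_sdiff hsub]
    have h1 : ∑ j ∈ box (2 ^ (n + 1)) \ box (2 ^ n), wi j ^ 2 ≤ 25 := by
      have h2 : ∀ j ∈ box (2 ^ (n + 1)) \ box (2 ^ n),
          wi j ^ 2 ≤ ENNReal.ofReal (((4:ℝ) ^ n)⁻¹) := by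
        intro j hj
        rw [Finset.mem_sdiff, mem_box, mem_box] at hj
        have h3 : (2:ℝ) ^ n ≤ nrm j := by
          refine le_trans ?_ (M_le_nrm j)
          have : 2 ^ n ≤ M j := by omega
          exact_mod_cast this
        unfold wi
        rw [← ENNReal.ofReal_pow (inv_nonneg.2 (nrm_nonneg j))]
        apply ENNReal.ofReal_le_ofReal
        rw [inv_pow]
        apply inv_anti₀ (by positivity)
        calc (4:ℝ) ^ n = (2 ^ n) ^ 2 := by rw [← pow_mul, mul_comm, pow_mul]; norm_num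
          _ ≤ nrm j ^ 2 := by gcongr
      calc ∑ j ∈ box (2 ^ (n + 1)) \ box (2 ^ n), wi j ^ 2
          ≤ ∑ j ∈ box (2 ^ (n + 1)) \ box (2 ^ n), ENNReal.ofReal (((4:ℝ) ^ n)⁻¹) :=
            Finset.sum_le_sum h2
        _ ≤ ∑ j ∈ box (2 ^ (n + 1)), ENNReal.ofReal (((4:ℝ) ^ n)⁻¹) :=
            Finset.sum_le_sum_of_subset Finset.sdiff_subset
        _ = ENNReal.ofReal (((2 * 2 ^ (n + 1) + 1) ^ 2 : ℕ) * ((4:ℝ) ^ n)⁻¹) := by
            rw [Finset.sum_const, card_box, nsmul_eq_mul, ENNReal.ofReal_mul (by positivity),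
              ENNReal.ofReal_natCast]
        _ ≤ ENNReal.ofReal 25 := by
            apply ENNReal.ofReal_le_ofReal
            rw [← div_eq_mul_inv, div_le_iff₀ (by positivity)]
            push_cast
            have h5 : (1:ℝ) ≤ 2 ^ n := one_le_pow₀ (by norm_num)
            have h6 : (4:ℝ) ^ n = (2 ^ n) ^ 2 := by rw [← pow_mul, mul_comm, pow_mul]; norm_num
            have h7 : (2:ℝ) ^ (n + 1) = 2 * 2 ^ n := by ring
            rw [h6, h7]
            nlinarith
        _ = 25 := by norm_num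
    calc ∑ j ∈ box (2 ^ (n + 1)) \ box (2 ^ n), wi j ^ 2 + ∑ j ∈ box (2 ^ n), wi j ^ 2
        ≤ 25 + 25 * ((n : ℝ≥0∞) + 1) := add_le_add h1 ih
      _ = 25 * (((n + 1 : ℕ) : ℝ≥0∞) + 1) := by push_cast; ring

open Classical in
lemma highSum (n : ℕ) : (∑' j, if j ∈ box (2 ^ n) then 0 else wi j ^ 4) ≤
    ENNReal.ofReal ((2:ℝ) ^ n)⁻¹ * C3 := by
  unfold C3
  rw [← ENNReal.tsum_mul_left]
  refine ENNReal.tsum_le_tsum fun j => ?_
  split_ifs with hj
  · exact zero_le
  · rw [mem_box] at hj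
    rw [pow_succ, mul_comm]
    gcongr
    unfold wi
    apply ENNReal.ofReal_le_ofReal
    apply inv_anti₀ (by positivity)
    refine le_trans ?_ (M_le_nrm j)
    have : 2 ^ n ≤ M j := by omega
    exact_mod_cast this

lemma sum4_le : ∑' j, wi j ^ 4 ≤ C3 := by
  unfold C3
  refine ENNReal.tsum_le_tsum fun j => ?_
  rw [pow_succ]
  calc wi j ^ 3 * wi j ≤ wi j ^ 3 * 1 := by gcongr; exact wi_le_one j
    _ = wi j ^ 3 := mul_one _

/-- `ℓ¹ × ℓ² × ℓ²` -/
lemma E1 (a b c : K → ℝ≥0∞) :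
    ∑' j, ∑' l, a j * b l * c (j + l) ≤ (∑' j, a j) * N2 b * N2 c := by
  calc ∑' j, ∑' l, a j * b l * c (j + l) = ∑' j, a j * ∑' l, b l * c (j + l) := by
        refine tsum_congr fun j => ?_
        rw [← ENNReal.tsum_mul_left]
        exact tsum_congr fun l => by ring
    _ ≤ ∑' j, a j * (N2 b * N2 c) := by
        refine ENNReal.tsum_le_tsum fun j => ?_
        gcongr
        refine (cs _ _).trans ?_
        rw [N2_shift]
    _ = (∑' j, a j) * N2 b * N2 c := by rw [ENNReal.tsum_mul_right, mul_assoc]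

lemma N2_double (a c : K → ℝ≥0∞) : N2 (fun l => N2 (fun j => a j * c (j + l))) = N2 a * N2 c := by
  have h : N2 (fun l => N2 (fun j => a j * c (j + l))) ^ 2 = (N2 a * N2 c) ^ 2 := by
    rw [N2_sq, mul_pow, N2_sq, N2_sq]
    simp only [N2_sq, mul_pow]
    rw [ENNReal.tsum_comm, ← ENNReal.tsum_mul_right]
    refine tsum_congr fun j => ?_
    rw [ENNReal.tsum_mul_left]
    congr 1
    exact tsum_shift (fun l => c l ^ 2) j
  apply le_antisymm
  · exact le_of_sq_le h.le
  · exact le_of_sq_le h.ge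

open Classical in
/-- half of the Ladyzhenskaya inequality in Fourier form -/
lemma lady_half (a c : K → ℝ≥0∞) (ha : a 0 = 0) :
    (∑' l, ∑' j, if M j ≤ M l then a j * a l * c (j + l) else 0) ≤
      3 * (N2 a * N2 (fun l => w l * a l) * N2 c) := by
  calc (∑' l, ∑' j, if M j ≤ M l then a j * a l * c (j + l) else 0)
      ≤ ∑' l, (3 * (w l * a l)) * N2 (fun j => a j * c (j + l)) := by
        refine ENNReal.tsum_le_tsum fun l => ?_
        by_cases hl : l = 0
        · subst hl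
          simp [ha]
        · have h1 : (∑' j, if M j ≤ M l then a j * a l * c (j + l) else 0) =
              a l * ∑' j, (if j ∈ box (M l) then 1 else 0) * (a j * c (j + l)) := by
            rw [← ENNReal.tsum_mul_left]
            refine tsum_congr fun j => ?_
            simp only [mem_box]
            split_ifs <;> ring
          rw [h1]
          have h2 := cs (fun j => if j ∈ box (M l) then (1:ℝ≥0∞) else 0)
            (fun j => a j * c (j + l))
          have h3 : N2 (fun j => if j ∈ box (M l) then (1:ℝ≥0∞) else 0) ≤ 3 * w l := by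
            apply N2_le_of_sq
            have h4 : (∑' j, (if j ∈ box (M l) then (1:ℝ≥0∞) else 0) ^ 2) =
                ((box (M l)).card : ℝ≥0∞) := by
              have : ∀ j, (if j ∈ box (M l) then (1:ℝ≥0∞) else 0) ^ 2 =
                  if j ∈ box (M l) then (1:ℝ≥0∞) else 0 := by
                intro j; split_ifs <;> simp
              simp only [this]
              rw [tsum_ind_finset]; simp
            rw [h4, card_box]
            have h5 : ((2 * M l + 1 : ℕ) : ℝ≥0∞) ≤ 3 * w l := by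
              unfold w
              have h6 : ((2 * M l + 1 : ℕ) : ℝ) ≤ 3 * nrm l := by
                have := M_le_nrm l
                have h7 := one_le_nrm hl
                push_cast
                linarith
              calc ((2 * M l + 1 : ℕ) : ℝ≥0∞) = ENNReal.ofReal ((2 * M l + 1 : ℕ) : ℝ) := by
                    rw [ENNReal.ofReal_natCast]
                _ ≤ ENNReal.ofReal (3 * nrm l) := ENNReal.ofReal_le_ofReal h6
                _ = 3 * ENNReal.ofReal (nrm l) := by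
                    rw [ENNReal.ofReal_mul (by norm_num)]; norm_num
            calc (((2 * M l + 1) ^ 2 : ℕ) : ℝ≥0∞) = ((2 * M l + 1 : ℕ) : ℝ≥0∞) ^ 2 := by
                  push_cast; ring
              _ ≤ (3 * w l) ^ 2 := by gcongr
          calc a l * ∑' j, (if j ∈ box (M l) then 1 else 0) * (a j * c (j + l))
              ≤ a l * (N2 (fun j => if j ∈ box (M l) then (1:ℝ≥0∞) else 0) *
                  N2 (fun j => a j * c (j + l))) := by gcongr
            _ ≤ a l * (3 * w l * N2 (fun j => a j * c (j + l))) := by gcongr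
            _ = (3 * (w l * a l)) * N2 (fun j => a j * c (j + l)) := by ring
    _ ≤ N2 (fun l => 3 * (w l * a l)) * N2 (fun l => N2 (fun j => a j * c (j + l))) := cs _ _
    _ = 3 * (N2 a * N2 (fun l => w l * a l) * N2 c) := by
        rw [N2_double]
        have : N2 (fun l => 3 * (w l * a l)) = 3 * N2 (fun l => w l * a l) := by
          have h : N2 (fun l => 3 * (w l * a l)) ^ 2 = (3 * N2 (fun l => w l * a l)) ^ 2 := by
            rw [N2_sq, mul_pow, N2_sq, ← ENNReal.tsum_mul_left]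
            exact tsum_congr fun l => by ring
          exact le_antisymm (le_of_sq_le h.le) (le_of_sq_le h.ge)
        rw [this]; ring

open Classical in
/-- Ladyzhenskaya inequality in Fourier form -/
lemma lady (a c : K → ℝ≥0∞) (ha : a 0 = 0) :
    ∑' j, ∑' l, a j * a l * c (j + l) ≤ 6 * (N2 a * N2 (fun l => w l * a l) * N2 c) := by
  have e : (∑' l, ∑' j, if M j ≤ M l then a j * a l * c (j + l) else 0) =
      ∑' j, ∑' l, if M j ≤ M l then a j * a l * c (j + l) else 0 := ENNReal.tsum_comm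
  have h1 : ∑' j, ∑' l, a j * a l * c (j + l) ≤
      (∑' l, ∑' j, if M j ≤ M l then a j * a l * c (j + l) else 0) +
      (∑' j, ∑' l, if M l ≤ M j then a l * a j * c (l + j) else 0) := by
    refine le_trans ?_ (add_le_add_left e.ge _)
    rw [← ENNReal.tsum_add]
    refine ENNReal.tsum_le_tsum fun j => ?_
    rw [← ENNReal.tsum_add]
    refine ENNReal.tsum_le_tsum fun l => ?_
    rcases le_total (M j) (M l) with h | h
    · rw [if_pos h]; exact le_self_add
    · rw [if_pos h, add_comm l j, mul_comm (a l) (a j)]; exact le_add_self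
  calc ∑' j, ∑' l, a j * a l * c (j + l)
      ≤ _ := h1
    _ ≤ 3 * (N2 a * N2 (fun l => w l * a l) * N2 c) +
        3 * (N2 a * N2 (fun l => w l * a l) * N2 c) :=
        add_le_add (lady_half a c ha) (lady_half a c ha)
    _ = _ := by ring

end Pool.Agent.Bous.U
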