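import Pool.Agent.Bous.UEst

/-!
# Trilinear estimates with logarithmic loss
-/

open Complex Set MeasureTheory Filter Topology
open scoped ComplexConjugate ENNReal

namespace Pool.Agent.Bous.U

/-- `‖ |j|⁻² ‖` -/
noncomputable def c4 : ℝ≥0∞ := N2 (fun j : K => wi j ^ 2)

open Classical in
noncomputable def cl (n : ℕ) : ℝ≥0∞ := N2 (fun j : K => if j ∈ box (2 ^ n) then wi j else 0)

open Classical in
noncomputable def ch (n : ℕ) : ℝ≥0∞ := N2 (fun j : K => if j ∈ box (2 ^ n) then 0 else wi j ^ 2)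

noncomputable def c5 (n : ℕ) : ℝ≥0∞ := (ch n * c4) ^ (1 / 2 : ℝ)

lemma c5_sq (n : ℕ) : c5 n ^ 2 = ch n * c4 := by
  unfold c5
  rw [← ENNReal.rpow_natCast, ← ENNReal.rpow_mul]
  norm_num

lemma c4_sq : c4 ^ 2 ≤ C3 := by
  unfold c4
  rw [N2_sq]
  refine le_trans (le_of_eq ?_) sum4_le
  exact tsum_congr fun j => by rw [← pow_mul]

lemma cl_sq (n : ℕ) : cl n ^ 2 ≤ 25 * ((n : ℝ≥0∞) + 1) := by
  classical
  unfold cl
  rw [N2_sq]
  have : ∀ j : K, (if j ∈ box (2 ^ n) then wi j else 0) ^ 2 =
      if j ∈ box (2 ^ n) then wi j ^ 2 else 0 := by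
    intro j; split_ifs <;> simp
  simp only [this]
  rw [tsum_ind_finset]
  exact lowSum_sq n

lemma ch_sq (n : ℕ) : ch n ^ 2 ≤ ENNReal.ofReal ((2:ℝ) ^ n)⁻¹ * C3 := by
  classical
  unfold ch
  rw [N2_sq]
  refine le_trans (le_of_eq ?_) (highSum n)
  refine tsum_congr fun j => ?_
  split_ifs
  · simp
  · rw [← pow_mul]

lemma eq_wi_w (x : K → ℝ≥0∞) (hx : x 0 = 0) (j : K) : x j = wi j * (w j * x j) := by
  by_cases hj : j = 0
  · subst hj; simp [hx]
  · rw [← mul_assoc, wi_mul_w hj, one_mul]

lemma eq_wi_w2 (x : K → ℝ≥0∞) (hx : x 0 = 0) (j : K) : x j = wi j ^ 2 * (w j ^ 2 * x j) := by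
  by_cases hj : j = 0
  · subst hj; simp [hx]
  · rw [← mul_assoc, ← mul_pow, wi_mul_w hj, one_pow, one_mul]

lemma N1_le (x : K → ℝ≥0∞) (hx : x 0 = 0) :
    ∑' j, x j ≤ c4 * N2 (fun j => w j ^ 2 * x j) := by
  calc ∑' j, x j = ∑' j, wi j ^ 2 * (w j ^ 2 * x j) := tsum_congr fun j => eq_wi_w2 x hx j
    _ ≤ _ := cs _ _

open Classical in
lemma lowN1 (n : ℕ) (x : K → ℝ≥0∞) (hx : x 0 = 0) :
    (∑' j, if j ∈ box (2 ^ n) then x j else 0) ≤ cl n * N2 (fun j => w j * x j) := by
  refine le_trans (le_of_eq ?_) (cs _ _)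
  refine tsum_congr fun j => ?_
  split_ifs
  · exact eq_wi_w x hx j
  · simp

open Classical in
lemma highN1 (n : ℕ) (x : K → ℝ≥0∞) (hx : x 0 = 0) :
    (∑' j, if j ∈ box (2 ^ n) then 0 else x j) ≤ ch n * N2 (fun j => w j ^ 2 * x j) := by
  refine le_trans (le_of_eq ?_) (cs _ _)
  refine tsum_congr fun j => ?_
  split_ifs
  · simp
  · exact eq_wi_w2 x hx j

lemma split_sum (s : Finset K) (F : K → ℝ≥0∞) [DecidablePred (· ∈ s)] :
    ∑' j, F j = (∑' j, if j ∈ s then F j else 0) + ∑' j, if j ∈ s then 0 else F j := by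
  rw [← ENNReal.tsum_add]
  refine tsum_congr fun j => ?_
  split_ifs <;> simp

lemma w_wi_wi_le {v e : K → ℝ≥0∞} (hv : v 0 = 0) (he : e 0 = 0) (j l : K) :
    (w j * v j) * (wi l * e l) * (wi (j + l) * e (j + l)) ≤ 2 * (v j * e l * e (j + l)) := by
  by_cases hj : j = 0
  · subst hj; simp [hv]
  by_cases hl : l = 0
  · subst hl; simp [he]
  by_cases hk : j + l = 0
  · rw [hk]; simp [he]
  have h1 : w j * wi l * wi (j + l) ≤ 2 := by
    unfold w wi
    rw [← ENNReal.ofReal_mul (nrm_nonneg j), ← ENNReal.ofReal_mul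
      (mul_nonneg (nrm_nonneg j) (inv_nonneg.2 (nrm_nonneg l)))]
    have h2 := inv_mul_inv_le hj hl hk
    have h3 := nrm_pos hj
    have h4 : nrm j * (nrm l)⁻¹ * (nrm (j + l))⁻¹ ≤ 2 := by
      calc nrm j * (nrm l)⁻¹ * (nrm (j + l))⁻¹ = nrm j * ((nrm l)⁻¹ * (nrm (j + l))⁻¹) := by ring
        _ ≤ nrm j * (2 * (nrm j)⁻¹) := mul_le_mul_of_nonneg_left h2 h3.le
        _ = 2 := by field_simp
    calc ENNReal.ofReal (nrm j * (nrm l)⁻¹ * (nrm (j + l))⁻¹) ≤ ENNReal.ofReal 2 :=
          ENNReal.ofReal_le_ofReal h4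
      _ = 2 := by norm_num
  calc (w j * v j) * (wi l * e l) * (wi (j + l) * e (j + l))
      = (w j * wi l * wi (j + l)) * (v j * e l * e (j + l)) := by ring
    _ ≤ 2 * (v j * e l * e (j + l)) := by gcongr

/-- estimate of the symmetrised transport term in the negative norm -/
lemma T3 (n : ℕ) (v e : K → ℝ≥0∞) (hv : v 0 = 0) (he : e 0 = 0) :
    ∑' j, ∑' l, (w j * v j) * (wi l * e l) * (wi (j + l) * e (j + l)) ≤
      cl n * N2 (fun j => w j ^ 2 * v j) * N2 (fun l => wi l * e l) ^ 2 +
      2 * (ch n * N2 (fun j => w j ^ 2 * v j) * N2 e ^ 2) := by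
  classical
  rw [split_sum (box (2 ^ n))]
  apply add_le_add
  · calc (∑' j, if j ∈ box (2 ^ n) then
          ∑' l, (w j * v j) * (wi l * e l) * (wi (j + l) * e (j + l)) else 0)
        ≤ ∑' j, (if j ∈ box (2 ^ n) then w j * v j else 0) *
            N2 (fun l => wi l * e l) ^ 2 := by
          refine ENNReal.tsum_le_tsum fun j => ?_
          split_ifs
          · calc ∑' l, (w j * v j) * (wi l * e l) * (wi (j + l) * e (j + l))
                = (w j * v j) * ∑' l, (wi l * e l) * (wi (j + l) * e (j + l)) := by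
                  rw [← ENNReal.tsum_mul_left]
                  exact tsum_congr fun l => by ring
              _ ≤ (w j * v j) * (N2 (fun l => wi l * e l) *
                    N2 (fun l => wi (j + l) * e (j + l))) := by
                  gcongr; exact cs _ _
              _ = (w j * v j) * N2 (fun l => wi l * e l) ^ 2 := by
                  rw [N2_shift (fun l => wi l * e l) j, sq]
          · simp
      _ = (∑' j, if j ∈ box (2 ^ n) then w j * v j else 0) * N2 (fun l => wi l * e l) ^ 2 :=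
          ENNReal.tsum_mul_right
      _ ≤ (cl n * N2 (fun j => w j * (w j * v j))) * N2 (fun l => wi l * e l) ^ 2 := by
          gcongr
          exact lowN1 n (fun j => w j * v j) (by simp [hv])
      _ = _ := by
          congr 3
          funext j; ring
  · calc (∑' j, if j ∈ box (2 ^ n) then 0 else
          ∑' l, (w j * v j) * (wi l * e l) * (wi (j + l) * e (j + l)))
        ≤ ∑' j, (if j ∈ box (2 ^ n) then 0 else v j) * (2 * N2 e ^ 2) := by
          refine ENNReal.tsum_le_tsum fun j => ?_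
          split_ifs
          · simp
          · calc ∑' l, (w j * v j) * (wi l * e l) * (wi (j + l) * e (j + l))
                ≤ ∑' l, 2 * (v j * e l * e (j + l)) :=
                  ENNReal.tsum_le_tsum fun l => w_wi_wi_le hv he j l
              _ = (2 * v j) * ∑' l, e l * e (j + l) := by
                  rw [← ENNReal.tsum_mul_left]
                  exact tsum_congr fun l => by ring
              _ ≤ (2 * v j) * (N2 e * N2 (fun l => e (j + l))) := by
                  gcongr; exact cs _ _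
              _ = v j * (2 * N2 e ^ 2) := by
                  rw [N2_shift e j]; ring
      _ = (∑' j, if j ∈ box (2 ^ n) then 0 else v j) * (2 * N2 e ^ 2) :=
          ENNReal.tsum_mul_right
      _ ≤ (ch n * N2 (fun j => w j ^ 2 * v j)) * (2 * N2 e ^ 2) := by
          gcongr
          exact highN1 n v hv
      _ = _ := by ring

/-- estimate of the transport of the regular temperature by the velocity difference -/
lemma T4 (n : ℕ) (d t e : K → ℝ≥0∞) (hd : d 0 = 0) :
    ∑' j, ∑' l, d j * t l * (wi (j + l) * e (j + l)) ≤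
      cl n * N2 (fun j => w j * d j) * N2 t * N2 (fun l => wi l * e l) +
      c5 n * (N2 (fun j => w j * d j) * N2 t * N2 e) := by
  classical
  rw [split_sum (box (2 ^ n))]
  apply add_le_add
  · calc (∑' j, if j ∈ box (2 ^ n) then
          ∑' l, d j * t l * (wi (j + l) * e (j + l)) else 0)
        ≤ ∑' j, (if j ∈ box (2 ^ n) then d j else 0) *
            (N2 t * N2 (fun l => wi l * e l)) := by
          refine ENNReal.tsum_le_tsum fun j => ?_
          split_ifs
          · calc ∑' l, d j * t l * (wi (j + l) * e (j + l))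
                = d j * ∑' l, t l * (wi (j + l) * e (j + l)) := by
                  rw [← ENNReal.tsum_mul_left]
                  exact tsum_congr fun l => by ring
              _ ≤ d j * (N2 t * N2 (fun l => wi (j + l) * e (j + l))) := by
                  gcongr; exact cs _ _
              _ = d j * (N2 t * N2 (fun l => wi l * e l)) := by
                  rw [N2_shift (fun l => wi l * e l) j]
          · simp
      _ = (∑' j, if j ∈ box (2 ^ n) then d j else 0) * (N2 t * N2 (fun l => wi l * e l)) :=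
          ENNReal.tsum_mul_right
      _ ≤ (cl n * N2 (fun j => w j * d j)) * (N2 t * N2 (fun l => wi l * e l)) := by
          gcongr
          exact lowN1 n d hd
      _ = _ := by ring
  · set f : K × K → ℝ≥0∞ := fun p => (w p.1 * d p.1) * e (p.1 + p.2) with hf
    set g : K × K → ℝ≥0∞ := fun p =>
      (if p.1 ∈ box (2 ^ n) then 0 else wi p.1) * wi (p.1 + p.2) * t p.2 with hg
    have h1 : (∑' j, if j ∈ box (2 ^ n) then 0 else
          ∑' l, d j * t l * (wi (j + l) * e (j + l))) ≤ ∑' p, f p * g p := by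
      rw [ENNReal.tsum_prod' (f := fun p => f p * g p)]
      refine ENNReal.tsum_le_tsum fun j => ?_
      split_ifs with hj
      · exact zero_le
      · refine ENNReal.tsum_le_tsum fun l => ?_
        simp only [hf, hg, if_neg hj]
        refine le_of_eq ?_
        conv_lhs => rw [eq_wi_w d hd j]
        ring
    have h2 : N2 f = N2 (fun j => w j * d j) * N2 e := by
      have h : N2 f ^ 2 = (N2 (fun j => w j * d j) * N2 e) ^ 2 := by
        rw [N2_sq, mul_pow, N2_sq, N2_sq, ENNReal.tsum_prod' (f := fun p => f p ^ 2),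
          ← ENNReal.tsum_mul_right]
        refine tsum_congr fun j => ?_
        simp only [hf, mul_pow]
        rw [ENNReal.tsum_mul_left]
        congr 1
        exact tsum_shift (fun l => e l ^ 2) j
      exact le_antisymm (le_of_sq_le h.le) (le_of_sq_le h.ge)
    have h3 : N2 g ≤ c5 n * N2 t := by
      apply N2_le_of_sq
      rw [mul_pow, c5_sq, N2_sq, ENNReal.tsum_prod' (f := fun p => g p ^ 2), ENNReal.tsum_comm,
        ← ENNReal.tsum_mul_left]
      refine ENNReal.tsum_le_tsum fun l => ?_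
      calc ∑' j, g (j, l) ^ 2
          = (∑' j, (if j ∈ box (2 ^ n) then 0 else wi j ^ 2) * wi (j + l) ^ 2) * t l ^ 2 := by
            rw [← ENNReal.tsum_mul_right]
            refine tsum_congr fun j => ?_
            simp only [hg]
            split_ifs
            · simp
            · ring
        _ ≤ (N2 (fun j => if j ∈ box (2 ^ n) then 0 else wi j ^ 2) *
              N2 (fun j => wi (j + l) ^ 2)) * t l ^ 2 := by
            gcongr; exact cs _ _
        _ = (ch n * c4) * t l ^ 2 := by
            congr 2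
            have : (fun j => wi (j + l) ^ 2) = fun j => (fun k => wi k ^ 2) (l + j) := by
              funext j; rw [add_comm]
            rw [this, N2_shift (fun k => wi k ^ 2) l]
            rfl
    calc (∑' j, if j ∈ box (2 ^ n) then 0 else
          ∑' l, d j * t l * (wi (j + l) * e (j + l))) ≤ ∑' p, f p * g p := h1
      _ ≤ N2 f * N2 g := cs _ _
      _ ≤ (N2 (fun j => w j * d j) * N2 e) * (c5 n * N2 t) := by rw [h2]; gcongr
      _ = _ := by ring

/-- the decay rate -/
noncomputable def ρ : ℝ := (1 / 2 : ℝ) ^ (1 / 4 : ℝ)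

lemma ρ_pos : 0 < ρ := by unfold ρ; positivity

lemma ρ_four : ρ ^ 4 = 1 / 2 := by
  unfold ρ
  rw [← Real.rpow_natCast, ← Real.rpow_mul (by norm_num)]
  norm_num

lemma ρ_lt_one : ρ < 1 := by
  by_contra h
  push Not at h
  have := one_le_pow₀ h (n := 4)
  rw [ρ_four] at this
  norm_num at this

/-- all the constants -/
lemma constants : ∃ C : ℝ, 0 ≤ C ∧ c4 ≤ ENNReal.ofReal C ∧
    (∀ n : ℕ, cl n ≤ ENNReal.ofReal (C * Real.sqrt (n + 1))) ∧
    (∀ n : ℕ, ch n ≤ ENNReal.ofReal (C * ρ ^ n)) ∧
    (∀ n : ℕ, c5 n ≤ ENNReal.ofReal (C * ρ ^ n)) := by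
  set A : ℝ := Real.sqrt C3.toReal with hA
  have hA0 : 0 ≤ A := Real.sqrt_nonneg _
  have hC3 : C3 = ENNReal.ofReal (A ^ 2) := by
    rw [hA, Real.sq_sqrt ENNReal.toReal_nonneg, ENNReal.ofReal_toReal C3_ne_top]
  have hρ := ρ_pos
  have hρ1 := ρ_lt_one
  have hc4 : c4 ≤ ENNReal.ofReal A := by
    apply le_of_sq_le
    rw [← ENNReal.ofReal_pow hA0, ← hC3]
    exact c4_sq
  have hch : ∀ n : ℕ, ch n ≤ ENNReal.ofReal (A * (ρ ^ n) ^ 2) := by
    intro n
    apply le_of_sq_le
    refine (ch_sq n).trans (le_of_eq ?_)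
    rw [hC3, ← ENNReal.ofReal_pow (by positivity), ← ENNReal.ofReal_mul (by positivity)]
    congr 1
    have : (ρ ^ n) ^ 4 = ((2:ℝ) ^ n)⁻¹ := by
      rw [← pow_mul, mul_comm, pow_mul, ρ_four, one_div, inv_pow]
    rw [← this]; ring
  refine ⟨max A 5, by positivity, hc4.trans (ENNReal.ofReal_le_ofReal (le_max_left _ _)),
    ?_, ?_, ?_⟩
  · intro n
    have h5 : cl n ≤ ENNReal.ofReal (5 * Real.sqrt (n + 1)) := by
      apply le_of_sq_le
      refine (cl_sq n).trans (le_of_eq ?_)
      rw [← ENNReal.ofReal_pow (by positivity), mul_pow, Real.sq_sqrt (by positivity),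
        ENNReal.ofReal_mul (by norm_num), ENNReal.ofReal_add (by positivity) (by norm_num)]
      norm_num
    refine h5.trans (ENNReal.ofReal_le_ofReal ?_)
    gcongr
    exact le_max_right _ _
  · intro n
    refine (hch n).trans (ENNReal.ofReal_le_ofReal ?_)
    have h1 : (ρ ^ n) ^ 2 ≤ ρ ^ n := by
      have : ρ ^ n ≤ 1 := pow_le_one₀ hρ.le hρ1.le
      have h2 : 0 < ρ ^ n := by positivity
      nlinarith
    gcongr
    exact le_max_left _ _
  · intro n
    apply le_of_sq_le
    rw [c5_sq]
    calc ch n * c4 ≤ ENNReal.ofReal (A * (ρ ^ n) ^ 2) * ENNReal.ofReal A := by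
          gcongr; exact hch n
      _ = ENNReal.ofReal (A * ρ ^ n) ^ 2 := by
          rw [← ENNReal.ofReal_mul (by positivity), ← ENNReal.ofReal_pow (by positivity)]
          congr 1; ring
      _ ≤ ENNReal.ofReal (max A 5 * ρ ^ n) ^ 2 := by
          gcongr
          exact le_max_left _ _

end Pool.Agent.Bous.U
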