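import Pool.Agent.Bous.UInt

/-!
# Energy identity, Gronwall and uniqueness
-/

open Complex Set MeasureTheory Filter Topology
open scoped ComplexConjugate ENNReal

namespace Pool.Agent.Bous.U

/-- Gronwall's inequality with an integrable coefficient -/
lemma gronwall {a y : ℝ → ℝ} {s T δ : ℝ} (ha0 : ∀ r ∈ Icc s T, 0 ≤ a r)
    (haI : IntegrableOn a (Icc s T)) (hayI : IntegrableOn (fun r => a r * y r) (Icc s T))
    (hy0 : ∀ r ∈ Icc s T, 0 ≤ y r)
    (hy : ∀ t ∈ Icc s T, y t ≤ δ + ∫ r in s..t, a r * y r) (m : ℕ) :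
    ∀ t ∈ Icc s T, ∫ r in s..t, a r ≤ m / 2 → δ + ∫ r in s..t, a r * y r ≤ 2 ^ m * δ := by
  have hint : ∀ p ∈ Icc s T, ∀ q ∈ Icc s T, IntervalIntegrable a volume p q := by
    intro p hp q hq
    rw [intervalIntegrable_iff]
    exact haI.mono_set (uIoc_subset_uIcc.trans (uIcc_subset_Icc hp hq))
  have hint2 : ∀ p ∈ Icc s T, ∀ q ∈ Icc s T,
      IntervalIntegrable (fun r => a r * y r) volume p q := by
    intro p hp q hq
    rw [intervalIntegrable_iff]
    exact hayI.mono_set (uIoc_subset_uIcc.trans (uIcc_subset_Icc hp hq))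
  have hmono : ∀ p ∈ Icc s T, ∀ q ∈ Icc s T, p ≤ q →
      (∫ r in s..p, a r * y r) ≤ ∫ r in s..q, a r * y r := by
    intro p hp q hq hpq
    have hs : s ∈ Icc s T := ⟨le_rfl, hp.1.trans hp.2⟩
    rw [← intervalIntegral.integral_add_adjacent_intervals (hint2 s hs p hp) (hint2 p hp q hq)]
    have : 0 ≤ ∫ r in p..q, a r * y r := by
      apply intervalIntegral.integral_nonneg hpq
      intro r hr
      have hr' : r ∈ Icc s T := ⟨hp.1.trans hr.1, hr.2.trans hq.2⟩
      exact mul_nonneg (ha0 r hr') (hy0 r hr')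
    linarith
  -- the basic step
  have hstep : ∀ p ∈ Icc s T, ∀ q ∈ Icc s T, p ≤ q →
      (δ + ∫ r in s..q, a r * y r) ≤ (δ + ∫ r in s..p, a r * y r) +
        (∫ r in p..q, a r) * (δ + ∫ r in s..q, a r * y r) := by
    intro p hp q hq hpq
    have hs : s ∈ Icc s T := ⟨le_rfl, hp.1.trans hp.2⟩
    have e := intervalIntegral.integral_add_adjacent_intervals (hint2 s hs p hp) (hint2 p hp q hq)
    have h1 : (∫ r in p..q, a r * y r) ≤ ∫ r in p..q, a r * (δ + ∫ r in s..q, a r * y r) := by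
      apply intervalIntegral.integral_mono_on hpq (hint2 p hp q hq)
        ((hint p hp q hq).mul_const _)
      intro r hr
      have hr' : r ∈ Icc s T := ⟨hp.1.trans hr.1, hr.2.trans hq.2⟩
      apply mul_le_mul_of_nonneg_left _ (ha0 r hr')
      exact (hy r hr').trans (add_le_add_right (hmono r hr' q hq hr.2) _)
    rw [intervalIntegral.integral_mul_const] at h1
    linarith
  induction m with
  | zero =>
    intro t ht h0
    have hs : s ∈ Icc s T := ⟨le_rfl, ht.1.trans ht.2⟩
    have h1 := hstep s hs t ht ht.1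
    have h2 : 0 ≤ δ + ∫ r in s..t, a r * y r := (hy0 t ht).trans (hy t ht)
    rw [intervalIntegral.integral_same] at h1
    norm_num at h0
    have h3 : (∫ r in s..t, a r) * (δ + ∫ r in s..t, a r * y r) ≤ 0 :=
      mul_nonpos_of_nonpos_of_nonneg h0 h2
    rw [pow_zero, one_mul]
    linarith
  | succ m ih =>
    intro t ht hm
    have hs : s ∈ Icc s T := ⟨le_rfl, ht.1.trans ht.2⟩
    have hΦ0 : 0 ≤ ∫ r in s..t, a r := by
      apply intervalIntegral.integral_nonneg ht.1
      intro r hr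
      exact ha0 r ⟨hr.1, hr.2.trans ht.2⟩
    have hcont : ContinuousOn (fun q => ∫ r in s..q, a r) (Icc s t) := by
      have := intervalIntegral.continuousOn_primitive_interval' (hint s hs t ht)
        (left_mem_uIcc)
      rwa [uIcc_of_le ht.1] at this
    have hmem : max 0 ((∫ r in s..t, a r) - 1 / 2) ∈ Icc (∫ r in s..s, a r) (∫ r in s..t, a r) := by
      rw [intervalIntegral.integral_same]
      exact ⟨le_max_left _ _, max_le hΦ0 (by linarith)⟩
    obtain ⟨p, hp, hpe⟩ := intermediate_value_Icc ht.1 hcont hmem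
    simp only at hpe
    have hp' : p ∈ Icc s T := ⟨hp.1, hp.2.trans ht.2⟩
    have h1 : ∫ r in s..p, a r ≤ m / 2 := by
      rw [hpe]
      apply max_le (by positivity)
      push_cast at hm
      linarith
    have h2 := ih p hp' h1
    have h3 := hstep p hp' t ht hp.2
    have h4 : ∫ r in p..t, a r ≤ 1 / 2 := by
      have := intervalIntegral.integral_add_adjacent_intervals (hint s hs p hp') (hint p hp' t ht)
      have h5 := le_max_right 0 ((∫ r in s..t, a r) - 1 / 2)
      rw [← hpe] at h5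
      linarith
    have h5 : 0 ≤ δ + ∫ r in s..t, a r * y r := (hy0 t ht).trans (hy t ht)
    have h6 : (∫ r in p..t, a r) * (δ + ∫ r in s..t, a r * y r) ≤
        1 / 2 * (δ + ∫ r in s..t, a r * y r) := mul_le_mul_of_nonneg_right h4 h5
    rw [pow_succ]
    linarith

section
variable {κ ν g : ℝ} {v θ v' θ' : ℝ → Seq2}

lemma qq_cont (h : SeqSol κ ν g v θ) (h' : SeqSol κ ν g v' θ') (k : K) :
    ContinuousOn (fun r => qq κ ν g (v r) (dd v v' r) (θ' r) (dd θ θ' r) k) (Ici 0) := by
  have hd := dd_cont h h'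
  have hdk := v_coord hd
  have hek : ∀ k, ContinuousOn (fun t => dd θ θ' t k) (Ici 0) := by
    intro k
    exact (h'.t_cont k).sub (h.t_cont k)
  have heb : ∀ T, ∃ C, ∀ t ∈ Icc 0 T, ‖dd θ θ' t‖ ≤ C := by
    intro T
    obtain ⟨C1, h1⟩ := h.t_bdd T
    obtain ⟨C2, h2⟩ := h'.t_bdd T
    exact ⟨C2 + C1, fun t ht => (norm_sub_le _ _).trans (add_le_add (h2 t ht) (h1 t ht))⟩
  have c1 : ContinuousOn (fun r => q1 (v r) (dd v v' r) k) (Ici 0) :=
    (Cv_cont be_le_sum h.v_cont hdk (v_bdd hd) k).mul (continuous_conj.comp_continuousOn (hdk k))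
  have c2 : ContinuousOn (fun r => q2 (dd v v' r) k) (Ici 0) :=
    (Cv_cont be_le_sum hd hdk (v_bdd hd) k).mul (continuous_conj.comp_continuousOn (hdk k))
  have chn : ContinuousOn (fun r => hn (dd θ θ' r) k) (Ici 0) :=
    continuousOn_const.mul (continuous_conj.comp_continuousOn (hek k))
  have c3 : ContinuousOn (fun r => q3 (v r) (dd θ θ' r) k) (Ici 0) :=
    (Cv_cont al_le_sum h.v_cont hek heb k).mul chn
  have c4 : ContinuousOn (fun r => q4 (dd v v' r) (θ' r) (dd θ θ' r) k) (Ici 0) :=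
    (Cv_cont al_le_sum hd h'.t_cont h'.t_bdd k).mul chn
  have c5 : ContinuousOn (fun r => q5 (dd v v' r) k) (Ici 0) :=
    continuousOn_const.mul ((hdk k).mul (continuous_conj.comp_continuousOn (hdk k)))
  have c6 : ContinuousOn (fun r => q6 (dd v v' r) (dd θ θ' r) k) (Ici 0) :=
    continuousOn_const.mul ((hek k).mul (continuous_conj.comp_continuousOn (hdk k)))
  unfold qq
  exact (((continuousOn_const.mul ((continuousOn_const.mul c1).add c2)).sub
    (continuousOn_const.mul c5)).sub (continuousOn_const.mul c6)).add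
    (continuousOn_const.mul (c3.add c4))

lemma yk_cont (h : SeqSol κ ν g v θ) (h' : SeqSol κ ν g v' θ') (k : K) :
    ContinuousOn (yk (dd v v') (dd θ θ') k) (Ici 0) := by
  have hdk := v_coord (dd_cont h h') k
  have hek : ContinuousOn (fun t => dd θ θ' t k) (Ici 0) := (h'.t_cont k).sub (h.t_cont k)
  unfold yk
  exact ((hdk.norm.pow 2).add (continuousOn_const.mul (hek.norm.pow 2))).div_const 2

/-- a uniform constant for the majorant -/
lemma qq_major (hκ : 0 < κ) (hν : 0 < ν) (hg : 0 < g) {T M : ℝ}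
    (P : Pair κ ν g T M v θ v' θ') : ∃ C : ℝ, 0 ≤ C ∧
      ∀ᵐ r ∂(volume.restrict (Icc 0 T)),
        ∑' k, ‖qq κ ν g (v r) (dd v v' r) (θ' r) (dd θ θ' r) k‖ₑ ≤
          ENNReal.ofReal (C * mm v v' r) := by
  obtain ⟨C, hC, hc4, hcl, hch, hc5⟩ := constants
  have hM := P.hM
  refine ⟨2 * κ * C * M + 6 * κ * M + ν * κ ^ 2 + g * M + 3 * κ * C * M ^ 2, by positivity, ?_⟩
  filter_upwards [ae_fin P] with r hr
  have h1 := qq_sum (data_of P hr.1 hr.2.1 hr.2.2) hC hc4 hcl hc5 hκ hν hg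
  rwa [Real.sq_sqrt ENNReal.toReal_nonneg, Real.sq_sqrt ENNReal.toReal_nonneg] at h1

lemma energy_identity (hκ : 0 < κ) (hν : 0 < ν) (hg : 0 < g) {T M : ℝ}
    (P : Pair κ ν g T M v θ v' θ') :
    IntegrableOn (DD κ ν g v θ v' θ') (Icc 0 T) ∧
    ∀ s ∈ Icc 0 T, ∀ t ∈ Icc 0 T, s ≤ t →
      yy (dd v v') (dd θ θ') t - yy (dd v v') (dd θ θ') s =
        ∫ r in s..t, DD κ ν g v θ v' θ' r := by
  obtain ⟨C, hC, hmaj⟩ := qq_major hκ hν hg P
  have hmm := mm_int P
  have hmm0 : ∀ r, 0 ≤ mm v v' r := fun r => by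
    unfold mm
    have : 0 ≤ (H2 (v r)).toReal := ENNReal.toReal_nonneg
    have : 0 ≤ (H1 (dd v v' r)).toReal := ENNReal.toReal_nonneg
    linarith
  set Q : ℝ → K → ℂ := fun r k => qq κ ν g (v r) (dd v v' r) (θ' r) (dd θ θ' r) k with hQ
  have hcontF : ∀ F : Finset K, ContinuousOn (fun r => ∑ k ∈ F, (Q r k).re) (Ici 0) :=
    fun F => continuousOn_finsetSum _ fun k _ =>
      Complex.continuous_re.comp_continuousOn (qq_cont P.h P.h' k)
  have hmeasF : ∀ F : Finset K, AEStronglyMeasurable (fun r => ∑ k ∈ F, (Q r k).re)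
      (volume.restrict (Icc 0 T)) := fun F =>
    ((hcontF F).mono fun _ hr => hr.1).aestronglyMeasurable measurableSet_Icc
  have hbound : ∀ F : Finset K, ∀ᵐ r ∂(volume.restrict (Icc 0 T)),
      ‖∑ k ∈ F, (Q r k).re‖ ≤ C * mm v v' r := by
    intro F
    filter_upwards [hmaj] with r hr
    have h1 : ‖∑ k ∈ F, Q r k‖ ≤ C * mm v v' r := by
      apply norm_le_of_enorm (mul_nonneg hC (hmm0 r))
      refine ((enorm_sum_le _ _).trans ?_).trans hr
      exact ENNReal.sum_le_tsum F
    rw [← Complex.re_sum]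
    exact (Complex.abs_re_le_norm _).trans h1
  have hlim : ∀ᵐ r ∂(volume.restrict (Icc 0 T)),
      Tendsto (fun F : Finset K => ∑ k ∈ F, (Q r k).re) atTop
        (𝓝 (DD κ ν g v θ v' θ' r)) := by
    filter_upwards [hmaj] with r hr
    have hs : Summable (Q r) := summable_of_enorm (ne_top_of_le_ne_top ENNReal.ofReal_ne_top hr)
    have h1 : Tendsto (fun F : Finset K => (∑ k ∈ F, Q r k).re) atTop (𝓝 (∑' k, Q r k).re) :=
      (Complex.continuous_re.tendsto _).comp hs.hasSum
    have h2 : (fun F : Finset K => (∑ k ∈ F, Q r k).re) = fun F => ∑ k ∈ F, (Q r k).re := by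
      funext F; rw [Complex.re_sum]
    rw [h2] at h1
    exact h1
  have hDmeas : AEStronglyMeasurable (DD κ ν g v θ v' θ') (volume.restrict (Icc 0 T)) :=
    aestronglyMeasurable_of_tendsto_ae atTop hmeasF hlim
  have hDbound : ∀ᵐ r ∂(volume.restrict (Icc 0 T)), ‖DD κ ν g v θ v' θ' r‖ ≤ C * mm v v' r := by
    filter_upwards [hmaj] with r hr
    have h1 : ‖∑' k, Q r k‖ ≤ C * mm v v' r := by
      apply norm_le_of_enorm (mul_nonneg hC (hmm0 r))
      exact (enorm_tsum_le _).trans hr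
    exact (Complex.abs_re_le_norm _).trans h1
  have hDint : IntegrableOn (DD κ ν g v θ v' θ') (Icc 0 T) :=
    (hmm.const_mul C).mono' hDmeas hDbound
  refine ⟨hDint, fun s hs t ht hst => ?_⟩
  have hsub : Set.uIoc s t ⊆ Icc 0 T := uIoc_subset_uIcc.trans (uIcc_subset_Icc hs ht)
  have hT1 : Tendsto (fun F : Finset K => ∫ r in s..t, ∑ k ∈ F, (Q r k).re) atTop
      (𝓝 (∫ r in s..t, DD κ ν g v θ v' θ' r)) := by
    apply intervalIntegral.tendsto_integral_filter_of_dominated_convergence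
      (fun r => C * mm v v' r)
    · exact Eventually.of_forall fun F => (hmeasF F).mono_measure (Measure.restrict_mono hsub le_rfl)
    · refine Eventually.of_forall fun F => ?_
      have := ae_restrict_of_ae_restrict_of_subset hsub (hbound F)
      rwa [ae_restrict_iff' measurableSet_uIoc] at this
    · rw [intervalIntegrable_iff]
      have h3 : IntegrableOn (fun r => C * mm v v' r) (Icc 0 T) := hmm.const_mul C
      exact h3.mono_set hsub
    · have := ae_restrict_of_ae_restrict_of_subset hsub hlim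
      rwa [ae_restrict_iff' measurableSet_uIoc] at this
  have hid : ∀ F : Finset K, ∫ r in s..t, ∑ k ∈ F, (Q r k).re =
      ∑ k ∈ F, yk (dd v v') (dd θ θ') k t - ∑ k ∈ F, yk (dd v v') (dd θ θ') k s := by
    intro F
    apply intervalIntegral.integral_eq_sub_of_hasDerivAt_of_le
      (f := fun r => ∑ k ∈ F, yk (dd v v') (dd θ θ') k r) hst
    · exact continuousOn_finsetSum _ fun k _ => (yk_cont P.h P.h' k).mono
        fun r hr => hs.1.trans hr.1
    · intro r hr
      have hr0 : 0 < r := lt_of_le_of_lt hs.1 hr.1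
      apply HasDerivAt.fun_sum
      intro k _
      exact yk_deriv P.h P.h' k hr0
    · apply ContinuousOn.intervalIntegrable
      rw [uIcc_of_le hst]
      exact (hcontF F).mono fun r hr => hs.1.trans hr.1
  simp only [hid] at hT1
  have hT2 : Tendsto (fun F : Finset K => ∑ k ∈ F, yk (dd v v') (dd θ θ') k t -
      ∑ k ∈ F, yk (dd v v') (dd θ θ') k s) atTop
      (𝓝 (yy (dd v v') (dd θ θ') t - yy (dd v v') (dd θ θ') s)) :=
    Tendsto.sub (yk_hasSum _ _ t) (yk_hasSum _ _ s)
  exact tendsto_nhds_unique hT2 hT1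

end

end Pool.Agent.Bous.U
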