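import Pool.Agent.Bous.UTime

/-!
# The energy inequality in integrated form
-/

open Complex Set MeasureTheory Filter Topology
open scoped ComplexConjugate ENNReal

namespace Pool.Agent.Bous.U

lemma hasSum_of_N2 {f : K → ℝ} (hf : ∀ k, 0 ≤ f k) (h : N2 (fun k => ENNReal.ofReal (f k)) ≠ ⊤) :
    HasSum (fun k => f k ^ 2) ((N2 (fun k => ENNReal.ofReal (f k))).toReal ^ 2) := by
  have h1 : ∑' k, ENNReal.ofReal (f k ^ 2) = N2 (fun k => ENNReal.ofReal (f k)) ^ 2 := by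
    rw [N2_sq]
    exact tsum_congr fun k => ENNReal.ofReal_pow (hf k) 2
  have h2 : ∑' k, ENNReal.ofReal (f k ^ 2) ≠ ⊤ := by rw [h1]; exact ENNReal.pow_ne_top h
  have hs : Summable (fun k => f k ^ 2) := by
    have h3 : ∑' k, ((Real.toNNReal (f k ^ 2) : NNReal) : ℝ≥0∞) ≠ ⊤ := h2
    have h4 := ENNReal.tsum_coe_ne_top_iff_summable.1 h3
    have h5 := NNReal.summable_coe.2 h4
    refine h5.congr fun k => ?_
    rw [Real.coe_toNNReal _ (by positivity)]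
  have h3 : (∑' k, f k ^ 2) = (N2 (fun k => ENNReal.ofReal (f k))).toReal ^ 2 := by
    rw [← ENNReal.toReal_pow, ← h1, ← ENNReal.ofReal_tsum_of_nonneg (fun k => by positivity) hs,
      ENNReal.toReal_ofReal (tsum_nonneg fun k => by positivity)]
  rw [← h3]
  exact hs.hasSum

lemma wi_enorm (k : K) (x : ℂ) : wi k * ‖x‖ₑ = ENNReal.ofReal ((nrm k)⁻¹ * ‖x‖) := by
  unfold wi
  rw [ENNReal.ofReal_mul (inv_nonneg.2 (nrm_nonneg k)), ofReal_norm]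

lemma N2_wi_ne_top (e : Seq2) : N2 (fun k => wi k * ‖e k‖ₑ) ≠ ⊤ :=
  ne_top_of_le_ne_top (by rw [N2_lp]; exact ENNReal.ofReal_ne_top) (N2_wi_le e)

/-- the energy -/
noncomputable def yy (d e : ℝ → Seq2) (t : ℝ) : ℝ :=
  (‖d t‖ ^ 2 + (N2 (fun k => wi k * ‖e t k‖ₑ)).toReal ^ 2) / 2

lemma yk_hasSum (d e : ℝ → Seq2) (t : ℝ) : HasSum (fun k => yk d e k t) (yy d e t) := by
  have h1 := hasSum_sq (d t)
  have h2 := hasSum_of_N2 (f := fun k => (nrm k)⁻¹ * ‖e t k‖)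
    (fun k => mul_nonneg (inv_nonneg.2 (nrm_nonneg k)) (norm_nonneg _))
    (by simp only [← wi_enorm]; exact N2_wi_ne_top (e t))
  simp only [← wi_enorm] at h2
  have h3 := (h1.add h2).div_const 2
  unfold yy
  refine h3.congr_fun ?_ |> fun h => h
  intro k
  unfold yk
  rw [mul_pow, inv_pow, nrm_sq]

/-- `∑ |k|⁴ |v_k|²` -/
noncomputable def H2 (v : K → ℂ) : ℝ≥0∞ := ∑' k, (w k ^ 2 * ‖v k‖ₑ) ^ 2
/-- `∑ |k|² |v_k|²` -/
noncomputable def H1 (v : K → ℂ) : ℝ≥0∞ := ∑' k, (w k * ‖v k‖ₑ) ^ 2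

lemma H2_eq (v : K → ℂ) : H2 v = ∑' k, ENNReal.ofReal (nsq k ^ 2 * ‖v k‖ ^ 2) := by
  unfold H2
  refine tsum_congr fun k => ?_
  unfold w
  rw [← ofReal_norm, ← ENNReal.ofReal_pow (nrm_nonneg k), nrm_sq,
    ← ENNReal.ofReal_mul (nsq_nonneg k), ← ENNReal.ofReal_pow
    (mul_nonneg (nsq_nonneg k) (norm_nonneg _)), mul_pow]

lemma H1_eq (v : K → ℂ) : H1 v = ∑' k, ENNReal.ofReal (nsq k * ‖v k‖ ^ 2) := by
  unfold H1
  refine tsum_congr fun k => ?_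
  unfold w
  rw [← ofReal_norm, ← ENNReal.ofReal_mul (nrm_nonneg k), ← ENNReal.ofReal_pow
    (mul_nonneg (nrm_nonneg k) (norm_nonneg _)), mul_pow, nrm_sq]

lemma add_sq_le' (x y : ℝ≥0∞) : (x + y) ^ 2 ≤ 2 * (x ^ 2 + y ^ 2) := by
  rcases eq_or_ne x ⊤ with rfl | hx
  · simp
  rcases eq_or_ne y ⊤ with rfl | hy
  · simp
  lift x to NNReal using hx
  lift y to NNReal using hy
  have h : (x + y) ^ 2 ≤ 2 * (x ^ 2 + y ^ 2) := by
    rw [← NNReal.coe_le_coe]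
    push_cast
    nlinarith [sq_nonneg ((x:ℝ) - y)]
  exact_mod_cast h

lemma H1_sub_le (a b : Seq2) : H1 ((a - b : Seq2) : K → ℂ) ≤ 2 * (H1 a + H1 b) := by
  unfold H1
  rw [← ENNReal.tsum_add, ← ENNReal.tsum_mul_left]
  refine ENNReal.tsum_le_tsum fun k => ?_
  rw [lp.coeFn_sub, Pi.sub_apply]
  have h1 : ‖a k - b k‖ₑ ≤ ‖a k‖ₑ + ‖b k‖ₑ := enorm_sub_le
  have h2 : (w k * ‖a k - b k‖ₑ) ^ 2 ≤ (w k * ‖a k‖ₑ + w k * ‖b k‖ₑ) ^ 2 := by
    rw [← mul_add]; gcongr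
  refine h2.trans ?_
  exact add_sq_le' _ _

lemma H2_meas {v : ℝ → Seq2} (hv : ContinuousOn v (Ici 0)) (T : ℝ) :
    AEMeasurable (fun r => H2 (v r)) (volume.restrict (Icc 0 T)) := by
  unfold H2
  refine AEMeasurable.tsum fun k => ?_
  have h1 : ContinuousOn (fun r => v r k) (Icc 0 T) := (v_coord hv k).mono fun _ ht => ht.1
  exact (((h1.aemeasurable measurableSet_Icc).enorm).const_mul _).pow_const _

lemma H1_meas {v : ℝ → Seq2} (hv : ContinuousOn v (Ici 0)) (T : ℝ) :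
    AEMeasurable (fun r => H1 (v r)) (volume.restrict (Icc 0 T)) := by
  unfold H1
  refine AEMeasurable.tsum fun k => ?_
  have h1 : ContinuousOn (fun r => v r k) (Icc 0 T) := (v_coord hv k).mono fun _ ht => ht.1
  exact (((h1.aemeasurable measurableSet_Icc).enorm).const_mul _).pow_const _

section
variable {κ ν g : ℝ} {v θ v' θ' : ℝ → Seq2}

/-- everything known about a pair of solutions on `[0, T]` -/
structure Pair (κ ν g T M : ℝ) (v θ v' θ' : ℝ → Seq2) : Prop where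
  h : SeqSol κ ν g v θ
  h' : SeqSol κ ν g v' θ'
  hT : 0 ≤ T
  hM : 0 ≤ M
  bd : ∀ t ∈ Icc 0 T, ‖v' t - v t‖ ≤ M
  be : ∀ t ∈ Icc 0 T, ‖θ' t - θ t‖ ≤ M
  bt : ∀ t ∈ Icc 0 T, ‖θ' t‖ ≤ M
  f2 : ∫⁻ r in Icc 0 T, H2 (v r) ≠ ⊤

/-- `d` -/
noncomputable def dd (v v' : ℝ → Seq2) (t : ℝ) : Seq2 := v' t - v t

lemma dd_cont (h : SeqSol κ ν g v θ) (h' : SeqSol κ ν g v' θ') : ContinuousOn (dd v v') (Ici 0) :=
  h'.v_cont.sub h.v_cont

lemma f1_fin {T M : ℝ} (P : Pair κ ν g T M v θ v' θ') :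
    ∫⁻ r in Icc 0 T, H1 (dd v v' r) ≠ ⊤ := by
  have h1 : ∫⁻ r in Icc 0 T, H1 (dd v v' r) ≤
      ∫⁻ r in Icc 0 T, 2 * (H1 (v' r) + H1 (v r)) :=
    lintegral_mono fun r => H1_sub_le (v' r) (v r)
  refine ne_top_of_le_ne_top ?_ h1
  rw [lintegral_const_mul' _ _ (by norm_num), lintegral_add_left' (H1_meas P.h'.v_cont T)]
  apply ENNReal.mul_ne_top (by norm_num)
  apply ENNReal.add_ne_top.2
  have a1 := P.h'.v_h1 T
  have a2 := P.h.v_h1 T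
  simp only [← H1_eq] at a1 a2
  exact ⟨a1.ne, a2.ne⟩

lemma data_of {T M : ℝ} (P : Pair κ ν g T M v θ v' θ') {r : ℝ} (hr : r ∈ Icc 0 T)
    (h2 : H2 (v r) ≠ ⊤) (h1 : H1 (dd v v' r) ≠ ⊤) :
    Data (v r) (dd v v' r) (θ' r) (dd θ θ' r) (Real.sqrt (H2 (v r)).toReal)
      (Real.sqrt (H1 (dd v v' r)).toReal) ‖dd v v' r‖
      (N2 (fun k => wi k * ‖dd θ θ' r k‖ₑ)).toReal M where
  v0 := P.h.v_mean r hr.1
  d0 := by
    unfold dd
    rw [lp.coeFn_sub, Pi.sub_apply, P.h.v_mean r hr.1, P.h'.v_mean r hr.1, sub_zero]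
  e0 := by
    unfold dd
    rw [lp.coeFn_sub, Pi.sub_apply, P.h.t_mean r hr.1, P.h'.t_mean r hr.1, sub_zero]
  ds k := by
    unfold dd
    rw [lp.coeFn_sub, Pi.sub_apply, Pi.sub_apply, P.h.v_symm r hr.1, P.h'.v_symm r hr.1, map_sub]
  es k := by
    unfold dd
    rw [lp.coeFn_sub, Pi.sub_apply, Pi.sub_apply, P.h.t_symm r hr.1, P.h'.t_symm r hr.1, map_sub]
  hV := by
    have h3 : N2 (fun j => w j ^ 2 * ‖v r j‖ₑ) ^ 2 =
        ENNReal.ofReal (Real.sqrt (H2 (v r)).toReal) ^ 2 := by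
      rw [N2_sq, ← ENNReal.ofReal_pow (Real.sqrt_nonneg _), Real.sq_sqrt ENNReal.toReal_nonneg,
        ENNReal.ofReal_toReal h2]
      rfl
    exact le_antisymm (le_of_sq_le h3.le) (le_of_sq_le h3.ge)
  hX := by
    have h3 : N2 (fun j => w j * ‖dd v v' r j‖ₑ) ^ 2 =
        ENNReal.ofReal (Real.sqrt (H1 (dd v v' r)).toReal) ^ 2 := by
      rw [N2_sq, ← ENNReal.ofReal_pow (Real.sqrt_nonneg _), Real.sq_sqrt ENNReal.toReal_nonneg,
        ENNReal.ofReal_toReal h1]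
      rfl
    exact le_antisymm (le_of_sq_le h3.le) (le_of_sq_le h3.ge)
  hY := N2_lp _
  hm := (ENNReal.ofReal_toReal (N2_wi_ne_top _)).symm
  hE := by
    rw [N2_lp]
    exact ENNReal.ofReal_le_ofReal (P.be r hr)
  hT := by
    rw [N2_lp]
    exact ENNReal.ofReal_le_ofReal (P.bt r hr)
  nV := Real.sqrt_nonneg _
  nX := Real.sqrt_nonneg _
  nY := norm_nonneg _
  nm := ENNReal.toReal_nonneg
  nM := P.hM
  YM := P.bd r hr
  mM := by
    have h3 : N2 (fun k => wi k * ‖dd θ θ' r k‖ₑ) ≤ ENNReal.ofReal M := by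
      refine (N2_wi_le _).trans ?_
      rw [N2_lp]
      exact ENNReal.ofReal_le_ofReal (P.be r hr)
    exact ENNReal.toReal_le_of_le_ofReal P.hM h3

/-- the derivative of the energy -/
noncomputable def DD (κ ν g : ℝ) (v θ v' θ' : ℝ → Seq2) (r : ℝ) : ℝ :=
  (∑' k, qq κ ν g (v r) (dd v v' r) (θ' r) (dd θ θ' r) k).re

/-- the weight -/
noncomputable def mm (v v' : ℝ → Seq2) (r : ℝ) : ℝ :=
  1 + (H2 (v r)).toReal + (H1 (dd v v' r)).toReal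

lemma mm_int {T M : ℝ} (P : Pair κ ν g T M v θ v' θ') : IntegrableOn (mm v v') (Icc 0 T) := by
  unfold mm
  apply Integrable.add
  · apply Integrable.add
    · exact integrable_const _
    · exact integrable_toReal_of_lintegral_ne_top (H2_meas P.h.v_cont T) P.f2
  · exact integrable_toReal_of_lintegral_ne_top (H1_meas (dd_cont P.h P.h') T) (f1_fin P)

lemma ae_fin {T M : ℝ} (P : Pair κ ν g T M v θ v' θ') :
    ∀ᵐ r ∂(volume.restrict (Icc 0 T)), r ∈ Icc 0 T ∧ H2 (v r) ≠ ⊤ ∧ H1 (dd v v' r) ≠ ⊤ := by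
  filter_upwards [ae_lt_top' (H2_meas P.h.v_cont T) P.f2,
    ae_lt_top' (H1_meas (dd_cont P.h P.h') T) (f1_fin P),
    ae_restrict_mem measurableSet_Icc] with r h1 h2 h3
  exact ⟨h3, h1.ne, h2.ne⟩

end

end Pool.Agent.Bous.U
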