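import Pool.Agent.Bous.Seq

/-!
# Kernel inequalities for the Boussinesq system in Fourier coefficients
-/

open Complex Set MeasureTheory Filter Topology
open scoped ComplexConjugate ENNReal

namespace Pool.Agent.Bous.U

lemma nsq_nonneg (k : K) : 0 ≤ nsq k := by unfold nsq; positivity

lemma nrm_nonneg (k : K) : 0 ≤ nrm k := Real.sqrt_nonneg _

lemma nrm_sq (k : K) : nrm k ^ 2 = nsq k := Real.sq_sqrt (nsq_nonneg k)

lemma nsq_eq_zero {k : K} : nsq k = 0 ↔ k = 0 := by
  constructor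
  · intro h
    unfold nsq at h
    have h0 : (k 0 : ℝ) = 0 := by nlinarith [sq_nonneg (k 0 : ℝ), sq_nonneg (k 1 : ℝ)]
    have h1 : (k 1 : ℝ) = 0 := by nlinarith [sq_nonneg (k 0 : ℝ), sq_nonneg (k 1 : ℝ)]
    funext i
    fin_cases i
    · exact_mod_cast h0
    · exact_mod_cast h1
  · rintro rfl
    simp [nsq]

lemma nrm_eq_zero {k : K} : nrm k = 0 ↔ k = 0 := by
  unfold nrm
  rw [Real.sqrt_eq_zero (nsq_nonneg k), nsq_eq_zero]

lemma nrm_zero : nrm (0 : K) = 0 := nrm_eq_zero.2 rfl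

lemma one_le_nsq {k : K} (hk : k ≠ 0) : 1 ≤ nsq k := by
  have h : nsq k = (((k 0) ^ 2 + (k 1) ^ 2 : ℤ) : ℝ) := by unfold nsq; push_cast; ring
  have h2 : nsq k ≠ 0 := fun h => hk (nsq_eq_zero.1 h)
  have h3 := nsq_nonneg k
  rw [h] at h2 h3 ⊢
  have h4 : (0:ℤ) ≤ (k 0) ^ 2 + (k 1) ^ 2 := by exact_mod_cast h3
  have h5 : (k 0) ^ 2 + (k 1) ^ 2 ≠ (0:ℤ) := by exact_mod_cast h2
  have : (1:ℤ) ≤ (k 0) ^ 2 + (k 1) ^ 2 := by omega
  exact_mod_cast this

lemma one_le_nrm {k : K} (hk : k ≠ 0) : 1 ≤ nrm k := by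
  unfold nrm
  rw [Real.one_le_sqrt]
  exact one_le_nsq hk

lemma nrm_pos {k : K} (hk : k ≠ 0) : 0 < nrm k := lt_of_lt_of_le one_pos (one_le_nrm hk)

lemma nsq_neg (k : K) : nsq (-k) = nsq k := by unfold nsq; simp

lemma nrm_neg (k : K) : nrm (-k) = nrm k := by unfold nrm; rw [nsq_neg]

lemma cross_le (j l : K) : |cross j l| ≤ nrm j * nrm l := by
  unfold nrm
  rw [← Real.sqrt_mul (nsq_nonneg j)]
  apply Real.abs_le_sqrt
  unfold cross nsq
  nlinarith [sq_nonneg ((j 0 : ℝ) * l 0 + (j 1 : ℝ) * l 1)]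

lemma nrm_add_le (j l : K) : nrm (j + l) ≤ nrm j + nrm l := by
  have h1 : nsq (j + l) ≤ (nrm j + nrm l) ^ 2 := by
    have h2 : (j 0 : ℝ) * l 0 + (j 1 : ℝ) * l 1 ≤ nrm j * nrm l := by
      unfold nrm
      rw [← Real.sqrt_mul (nsq_nonneg j)]
      apply Real.le_sqrt_of_sq_le
      unfold nsq
      nlinarith [sq_nonneg ((j 0 : ℝ) * l 1 - (j 1 : ℝ) * l 0)]
    have h3 : nsq (j + l) = nsq j + nsq l + 2 * ((j 0 : ℝ) * l 0 + (j 1 : ℝ) * l 1) := by
      unfold nsq; simp only [Pi.add_apply]; push_cast; ring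
    rw [h3, ← nrm_sq j, ← nrm_sq l]
    nlinarith
  calc nrm (j + l) = Real.sqrt (nsq (j + l)) := rfl
    _ ≤ Real.sqrt ((nrm j + nrm l) ^ 2) := Real.sqrt_le_sqrt h1
    _ = nrm j + nrm l := Real.sqrt_sq (add_nonneg (nrm_nonneg j) (nrm_nonneg l))

lemma cross_add_right (j l : K) : cross j (j + l) = cross j l := by
  unfold cross; simp only [Pi.add_apply]; push_cast; ring

lemma cross_add_left (j l : K) : cross (j + l) l = cross j l := by
  unfold cross; simp only [Pi.add_apply]; push_cast; ring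

lemma cross_le_left (j l : K) : |cross j l| ≤ nrm j * nrm (j + l) := by
  rw [← cross_add_right]; exact cross_le _ _

lemma cross_le_right (j l : K) : |cross j l| ≤ nrm (j + l) * nrm l := by
  rw [← cross_add_left]; exact cross_le _ _

lemma abs_nrm_sub_le (j l : K) : |nrm l - nrm j| ≤ nrm (j + l) := by
  have h1 := nrm_add_le (j + l) (-j)
  have h2 := nrm_add_le (j + l) (-l)
  rw [nrm_neg] at h1 h2
  have e1 : j + l + -j = l := by abel
  have e2 : j + l + -l = j := by abel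
  rw [e1] at h1
  rw [e2] at h2
  rw [abs_le]
  constructor <;> linarith

lemma al_le_right (j l : K) : |al j l| ≤ nrm l := by
  unfold al
  by_cases hj : j = 0
  · subst hj; simp [nrm_zero, nrm_nonneg]
  · rw [abs_div, abs_of_nonneg (nrm_nonneg j), div_le_iff₀ (nrm_pos hj), mul_comm]
    exact cross_le j l

lemma al_le_sum (j l : K) : |al j l| ≤ nrm (j + l) := by
  unfold al
  by_cases hj : j = 0
  · subst hj; simp [nrm_zero, nrm_nonneg]
  · rw [abs_div, abs_of_nonneg (nrm_nonneg j), div_le_iff₀ (nrm_pos hj), mul_comm]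
    exact cross_le_left j l

lemma be_le_sum (j l : K) : |be j l| ≤ nrm (j + l) := by
  by_cases hj : j = 0
  · subst hj; unfold be; simp [nrm_zero, nrm_nonneg]
  by_cases hl : l = 0
  · subst hl; unfold be; simp [nrm_zero, nrm_nonneg]
  by_cases hk : j + l = 0
  · unfold be; rw [hk]; simp [nrm_zero]
  have pj := nrm_pos hj
  have pl := nrm_pos hl
  have pk := nrm_pos hk
  unfold be
  rw [abs_div, abs_mul, abs_of_pos (by positivity : 0 < 2 * nrm j * nrm l * nrm (j + l)),
    div_le_iff₀ (by positivity)]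
  have h1 : |nsq l - nsq j| ≤ nrm (j + l) * (nrm l + nrm j) := by
    rw [← nrm_sq, ← nrm_sq, sq_sub_sq, abs_mul, abs_of_pos (by positivity), mul_comm]
    exact mul_le_mul_of_nonneg_right (abs_nrm_sub_le j l) (by positivity)
  have h2 := cross_le_left j l
  have h3 := cross_le_right j l
  calc |cross j l| * |nsq l - nsq j| ≤ |cross j l| * (nrm (j + l) * (nrm l + nrm j)) :=
        mul_le_mul_of_nonneg_left h1 (abs_nonneg _)
    _ = nrm (j + l) * (nrm l * |cross j l| + nrm j * |cross j l|) := by ring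
    _ ≤ nrm (j + l) * (nrm l * (nrm j * nrm (j + l)) + nrm j * (nrm (j + l) * nrm l)) := by
        gcongr
    _ = nrm (j + l) * (2 * nrm j * nrm l * nrm (j + l)) := by ring

lemma be_symm (j l : K) : be l j = be j l := by
  unfold be cross
  rw [add_comm l j]
  ring

/-- the cyclic identity -/
lemma be_cyclic (j l : K) : be j l + be l (-(j + l)) + be (-(j + l)) j = 0 := by
  have e1 : l + -(j + l) = -j := by abel
  have e2 : -(j + l) + j = -l := by abel
  have c1 : cross l (-(j + l)) = cross j l := by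
    unfold cross; simp only [Pi.neg_apply, Pi.add_apply]; push_cast; ring
  have c2 : cross (-(j + l)) j = cross j l := by
    unfold cross; simp only [Pi.neg_apply, Pi.add_apply]; push_cast; ring
  unfold be
  rw [e1, e2, c1, c2, nrm_neg, nrm_neg, nrm_neg, nsq_neg]
  have e3 : 2 * nrm l * nrm (j + l) * nrm j = 2 * nrm j * nrm l * nrm (j + l) := by ring
  have e4 : 2 * nrm (j + l) * nrm j * nrm l = 2 * nrm j * nrm l * nrm (j + l) := by ring
  rw [e3, e4, ← add_div, ← add_div]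
  have : cross j l * (nsq l - nsq j) + cross j l * (nsq (j + l) - nsq l) +
      cross j l * (nsq j - nsq (j + l)) = 0 := by ring
  rw [this, zero_div]

lemma al_neg_sum (j l : K) : al j (-(j + l)) = - al j l := by
  unfold al
  have c1 : cross j (-(j + l)) = - cross j l := by
    unfold cross; simp only [Pi.neg_apply, Pi.add_apply]; push_cast; ring
  rw [c1, neg_div]

/-- bound of the symmetrised kernel of the transport term in the negative norm -/
lemma al_diff_le {j l : K} (hl : l ≠ 0) (hk : j + l ≠ 0) :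
    |al j l| * |(nsq (j + l))⁻¹ - (nsq l)⁻¹| ≤ 2 * (nrm j * ((nrm l)⁻¹ * (nrm (j + l))⁻¹)) := by
  have pl := nrm_pos hl
  have pk := nrm_pos hk
  set a := nrm l with ha
  set b := nrm (j + l) with hb
  have h1 : |al j l| ≤ a := al_le_right j l
  have h2 : |al j l| ≤ b := al_le_sum j l
  have h3 : |a - b| ≤ nrm j := by
    have h4 := nrm_add_le j l
    have h5 := nrm_add_le (j + l) (-j)
    rw [nrm_neg] at h5
    have e1 : j + l + -j = l := by abel
    rw [e1] at h5
    rw [abs_le]; constructor <;> linarith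
  have e : (nsq (j + l))⁻¹ - (nsq l)⁻¹ = (a - b) * (a + b) / (a ^ 2 * b ^ 2) := by
    rw [← nrm_sq (j + l), ← nrm_sq l, ← ha, ← hb]
    field_simp
    ring
  rw [e, abs_div, abs_mul, abs_of_pos (by positivity : 0 < a + b),
    abs_of_pos (by positivity : 0 < a ^ 2 * b ^ 2), mul_div_assoc', div_le_iff₀ (by positivity)]
  have e2 : 2 * (nrm j * (a⁻¹ * b⁻¹)) * (a ^ 2 * b ^ 2) = nrm j * (2 * (a * b)) := by
    field_simp
  rw [e2]
  have h4 : |al j l| * (a + b) ≤ 2 * (a * b) := by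
    nlinarith [mul_le_mul_of_nonneg_right h1 pk.le, mul_le_mul_of_nonneg_right h2 pl.le]
  have h5 : 0 ≤ |al j l| * (a + b) := by positivity
  calc |al j l| * (|a - b| * (a + b)) = |a - b| * (|al j l| * (a + b)) := by ring
    _ ≤ nrm j * (|al j l| * (a + b)) := by gcongr
    _ ≤ nrm j * (2 * (a * b)) := by
        apply mul_le_mul_of_nonneg_left h4 (nrm_nonneg j)

lemma inv_mul_inv_le {j l : K} (hj : j ≠ 0) (hl : l ≠ 0) (hk : j + l ≠ 0) :
    (nrm l)⁻¹ * (nrm (j + l))⁻¹ ≤ 2 * (nrm j)⁻¹ := by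
  have pj := nrm_pos hj
  have ol := one_le_nrm hl
  have ok := one_le_nrm hk
  have h5 := nrm_add_le (j + l) (-l)
  rw [nrm_neg] at h5
  have e1 : j + l + -l = j := by abel
  rw [e1] at h5
  rw [← mul_inv, ← div_eq_mul_inv, inv_eq_one_div, div_le_div_iff₀ (by positivity) pj]
  nlinarith

lemma k0_le (k : K) : |(k 0 : ℝ) / nrm k| ≤ 1 := by
  by_cases hk : k = 0
  · subst hk; simp
  · rw [abs_div, abs_of_nonneg (nrm_nonneg k), div_le_one (nrm_pos hk)]
    unfold nrm
    apply Real.abs_le_sqrt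
    unfold nsq
    nlinarith [sq_nonneg (k 1 : ℝ)]

end Pool.Agent.Bous.U
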