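import Pool.Agent.Bous.UTri2

/-!
# The pointwise (in time) energy inequality for the difference of two solutions
-/

open Complex Set MeasureTheory Filter Topology
open scoped ComplexConjugate ENNReal

namespace Pool.Agent.Bous.U

/-- all norms at a fixed time -/
structure Data (v d t e : K → ℂ) (V X Y0 Ym M : ℝ) : Prop where
  v0 : v 0 = 0
  d0 : d 0 = 0
  e0 : e 0 = 0
  ds : ∀ k, d (-k) = conj (d k)
  es : ∀ k, e (-k) = conj (e k)
  hV : N2 (fun j => w j ^ 2 * ‖v j‖ₑ) = ENNReal.ofReal V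
  hX : N2 (fun j => w j * ‖d j‖ₑ) = ENNReal.ofReal X
  hY : N2 (fun j => ‖d j‖ₑ) = ENNReal.ofReal Y0
  hm : N2 (fun j => wi j * ‖e j‖ₑ) = ENNReal.ofReal Ym
  hE : N2 (fun j => ‖e j‖ₑ) ≤ ENNReal.ofReal M
  hT : N2 (fun j => ‖t j‖ₑ) ≤ ENNReal.ofReal M
  nV : 0 ≤ V
  nX : 0 ≤ X
  nY : 0 ≤ Y0
  nm : 0 ≤ Ym
  nM : 0 ≤ M
  YM : Y0 ≤ M
  mM : Ym ≤ M

lemma norm_le_of_enorm {z : ℂ} {x : ℝ} (hx : 0 ≤ x) (h : ‖z‖ₑ ≤ ENNReal.ofReal x) : ‖z‖ ≤ x := by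
  rwa [← ofReal_norm, ENNReal.ofReal_le_ofReal_iff hx] at h

/-- the four kinds of terms -/
noncomputable def q1 (v d : K → ℂ) (k : K) : ℂ := Cv be v d k * conj (d k)
noncomputable def q2 (d : K → ℂ) (k : K) : ℂ := Cv be d d k * conj (d k)
noncomputable def q3 (v e : K → ℂ) (k : K) : ℂ := Cv al v e k * hn e k
noncomputable def q4 (d t e : K → ℂ) (k : K) : ℂ := Cv al d t k * hn e k
noncomputable def q5 (d : K → ℂ) (k : K) : ℂ := ((nsq k : ℝ) : ℂ) * (d k * conj (d k))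
noncomputable def q6 (d e : K → ℂ) (k : K) : ℂ := (((k 0 : ℝ) / nrm k : ℝ) : ℂ) * (e k * conj (d k))

/-- the derivative of the energy, mode by mode -/
noncomputable def qq (κ ν g : ℝ) (v d t e : K → ℂ) (k : K) : ℂ :=
  (κ : ℂ) * (2 * q1 v d k + q2 d k) - ((ν * κ ^ 2 : ℝ) : ℂ) * q5 d k - I * (g : ℂ) * q6 d e k +
    (κ : ℂ) * (q3 v e k + q4 d t e k)

lemma young0 {c : ℝ} (hc : 0 < c) (a b : ℝ) : a * b ≤ c / 4 * b ^ 2 + a ^ 2 / c := by
  have h1 : a ^ 2 / c + c / 4 * b ^ 2 - a * b = (a - c / 2 * b) ^ 2 / c := by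
    field_simp; ring
  have h2 : 0 ≤ (a - c / 2 * b) ^ 2 / c := by positivity
  linarith

lemma young1 {κ ν : ℝ} (hκ : 0 < κ) (hν : 0 < ν) (C V Y0 X : ℝ) :
    κ * (2 * (C * V * Y0 * X)) ≤
      ν * κ ^ 2 / 4 * X ^ 2 + 8 * C ^ 2 / ν / 2 * (V ^ 2 * Y0 ^ 2) := by
  have h := young0 (by positivity : 0 < ν * κ ^ 2) (2 * κ * C * V * Y0) X
  have z : (2 * κ * C * V * Y0) ^ 2 / (ν * κ ^ 2) = 8 * C ^ 2 / ν / 2 * (V ^ 2 * Y0 ^ 2) := by
    field_simp; ring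
  rw [z] at h
  linarith

lemma young2 {κ ν : ℝ} (hκ : 0 < κ) (hν : 0 < ν) (g Ym X : ℝ) :
    g * (Ym * X) ≤ ν * κ ^ 2 / 4 * X ^ 2 + g ^ 2 / (ν * κ ^ 2) * Ym ^ 2 := by
  have h := young0 (by positivity : 0 < ν * κ ^ 2) (g * Ym) X
  have z : (g * Ym) ^ 2 / (ν * κ ^ 2) = g ^ 2 / (ν * κ ^ 2) * Ym ^ 2 := by ring
  rw [z] at h
  linarith

lemma young3 {κ ν : ℝ} (hκ : 0 < κ) (hν : 0 < ν) (C S M Ym X : ℝ) :
    κ * (C * S * X * M * Ym) ≤
      ν * κ ^ 2 / 4 * X ^ 2 + C ^ 2 * M ^ 2 / ν * (S ^ 2 * Ym ^ 2) := by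
  have h := young0 (by positivity : 0 < ν * κ ^ 2) (κ * C * S * M * Ym) X
  have z : (κ * C * S * M * Ym) ^ 2 / (ν * κ ^ 2) = C ^ 2 * M ^ 2 / ν * (S ^ 2 * Ym ^ 2) := by
    field_simp
  rw [z] at h
  linarith

lemma young4 {κ ν : ℝ} (hκ : 0 < κ) (hν : 0 < ν) (C r M X : ℝ) :
    κ * (C * r * (X * M * M)) ≤ ν * κ ^ 2 / 4 * X ^ 2 + C ^ 2 * M ^ 4 / ν * r ^ 2 := by
  have h := young0 (by positivity : 0 < ν * κ ^ 2) (κ * C * r * M ^ 2) X
  have z : (κ * C * r * M ^ 2) ^ 2 / (ν * κ ^ 2) = C ^ 2 * M ^ 4 / ν * r ^ 2 := by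
    field_simp
  rw [z] at h
  linarith

lemma young6 {κ C S V Ym N : ℝ} (hκ : 0 ≤ κ) (hC : 0 ≤ C) (hS : S ^ 2 = N) :
    κ * (C * S * V * Ym ^ 2) ≤ κ * C * ((N + V ^ 2) * Ym ^ 2) := by
  have z5 : S * V ≤ N + V ^ 2 := by nlinarith [sq_nonneg (S - V), sq_nonneg (S + V)]
  calc κ * (C * S * V * Ym ^ 2) = κ * C * ((S * V) * Ym ^ 2) := by ring
    _ ≤ _ := by gcongr

lemma young7 {κ C r V M : ℝ} (hκ : 0 ≤ κ) (hC : 0 ≤ C) (hr : 0 ≤ r) :
    κ * (2 * (C * r * V * M ^ 2)) ≤ r * (2 * (κ * C * M ^ 2) * (1 + V ^ 2)) := by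
  have : V ≤ 1 + V ^ 2 := by nlinarith [sq_nonneg (V - 1)]
  calc κ * (2 * (C * r * V * M ^ 2)) = r * (2 * (κ * C * M ^ 2) * V) := by ring
    _ ≤ _ := by gcongr

lemma young8 {p r V : ℝ} (hp : 0 ≤ p) (hr : 0 ≤ r) (hr1 : r ≤ 1) :
    p * r ^ 2 ≤ r * (p * (1 + V ^ 2)) := by
  have h1 : r ^ 2 ≤ r := by nlinarith
  calc p * r ^ 2 ≤ p * r := by gcongr
    _ = r * (p * 1) := by ring
    _ ≤ _ := by gcongr; nlinarith [sq_nonneg V]

lemma alg {p1 p2 p3 p4 p5 p6 W y0 ym N r : ℝ} (h1 : 0 ≤ p1) (h2 : 0 ≤ p2) (h3 : 0 ≤ p3)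
    (h4 : 0 ≤ p4) (h5 : 0 ≤ p5) (h6 : 0 ≤ p6) (hW : 0 ≤ W) (hy0 : 0 ≤ y0) (hym : 0 ≤ ym)
    (hN : 0 ≤ N) (hr : 0 ≤ r) :
    p1 / 2 * (W * y0) + p3 * ym + p6 * (N * ym) + p2 * ((N + W) * ym) +
      r * (2 * p4 * (1 + W)) + r * (p5 * (1 + W)) ≤
    ((p1 + 2 * p2 + 2 * p3 + 2 * p4 + p5) * (1 + W) + (2 * p6 + 2 * p2) * N) * ((y0 + ym) / 2) +
      r * ((p1 + 2 * p2 + 2 * p3 + 2 * p4 + p5) * (1 + W)) := by
  have e : ((p1 + 2 * p2 + 2 * p3 + 2 * p4 + p5) * (1 + W) + (2 * p6 + 2 * p2) * N) *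
        ((y0 + ym) / 2) + r * ((p1 + 2 * p2 + 2 * p3 + 2 * p4 + p5) * (1 + W)) -
      (p1 / 2 * (W * y0) + p3 * ym + p6 * (N * ym) + p2 * ((N + W) * ym) +
      r * (2 * p4 * (1 + W)) + r * (p5 * (1 + W))) =
      p1 / 2 * (y0 + ym + W * ym) + p3 * (y0 + W * (y0 + ym)) + p6 * N * y0 +
      p2 * ((1 + W + N) * y0 + ym) + p4 * (1 + W) * (y0 + ym) +
      p5 * (1 + W) * (y0 + ym) / 2 + r * (p1 + 2 * p2 + 2 * p3) * (1 + W) := by ring
  have h : 0 ≤ p1 / 2 * (y0 + ym + W * ym) + p3 * (y0 + W * (y0 + ym)) + p6 * N * y0 +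
      p2 * ((1 + W + N) * y0 + ym) + p4 * (1 + W) * (y0 + ym) +
      p5 * (1 + W) * (y0 + ym) / 2 + r * (p1 + 2 * p2 + 2 * p3) * (1 + W) := by positivity
  linarith

lemma numeric {V X Y0 Ym M C κ ν g R1 R3 R6 : ℝ} (hC : 0 ≤ C) (hκ : 0 < κ) (hν : 0 < ν)
    (n : ℕ)
    (r1 : R1 ≤ κ * (2 * (C * V * Y0 * X)))
    (r3 : R3 ≤ κ * ((C * Real.sqrt (n + 1) * V * Ym ^ 2 + 2 * (C * ρ ^ n * V * M ^ 2)) +
        (C * Real.sqrt (n + 1) * X * M * Ym + C * ρ ^ n * (X * M * M))))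
    (r6 : -R6 ≤ g * (Ym * X)) :
    R1 - ν * κ ^ 2 * X ^ 2 - R6 + R3 ≤
      ((8 * C ^ 2 / ν + 2 * (κ * C) + 2 * (g ^ 2 / (ν * κ ^ 2)) + 2 * (κ * C * M ^ 2) +
          C ^ 2 * M ^ 4 / ν) * (1 + V ^ 2) + (2 * (C ^ 2 * M ^ 2 / ν) + 2 * (κ * C)) * (n + 1)) *
        ((Y0 ^ 2 + Ym ^ 2) / 2) +
      ρ ^ n * ((8 * C ^ 2 / ν + 2 * (κ * C) + 2 * (g ^ 2 / (ν * κ ^ 2)) + 2 * (κ * C * M ^ 2) +
          C ^ 2 * M ^ 4 / ν) * (1 + V ^ 2)) := by
  have hρn : 0 ≤ ρ ^ n := (pow_pos ρ_pos n).le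
  have hρn1 : ρ ^ n ≤ 1 := pow_le_one₀ ρ_pos.le ρ_lt_one.le
  have hS2 : (Real.sqrt ((n:ℝ) + 1)) ^ 2 = (n:ℝ) + 1 := Real.sq_sqrt (by positivity)
  have y1 := young1 hκ hν C V Y0 X
  have y2 := young2 hκ hν g Ym X
  have y3 := young3 hκ hν C (Real.sqrt ((n:ℝ) + 1)) M Ym X
  have y4 := young4 hκ hν C (ρ ^ n) M X
  have y6 := young6 (V := V) (Ym := Ym) hκ.le hC hS2
  have y7 := young7 (V := V) (M := M) hκ.le hC hρn
  have y8 := young8 (V := V) (by positivity : 0 ≤ C ^ 2 * M ^ 4 / ν) hρn hρn1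
  rw [hS2] at y3
  refine le_trans ?_ (alg (p1 := 8 * C ^ 2 / ν) (p2 := κ * C) (p3 := g ^ 2 / (ν * κ ^ 2))
    (p4 := κ * C * M ^ 2) (p5 := C ^ 2 * M ^ 4 / ν) (p6 := C ^ 2 * M ^ 2 / ν) (W := V ^ 2)
    (y0 := Y0 ^ 2) (ym := Ym ^ 2) (N := (n:ℝ) + 1) (r := ρ ^ n) (by positivity) (by positivity)
    (by positivity) (by positivity) (by positivity) (by positivity) (by positivity)
    (by positivity) (by positivity) (by positivity) hρn)
  rw [mul_add κ, mul_add κ, mul_add κ] at r3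
  linarith

section
variable {v d t e : K → ℂ} {V X Y0 Ym M C : ℝ}

lemma q5_sum (h : Data v d t e V X Y0 Ym M) : ∑' k, ‖q5 d k‖ₑ = ENNReal.ofReal (X ^ 2) := by
  rw [ENNReal.ofReal_pow h.nX, ← h.hX, N2_sq]
  refine tsum_congr fun k => ?_
  unfold q5 w
  rw [enorm_mul, enorm_mul, enorm_conj', enorm_real, abs_of_nonneg (nsq_nonneg k), ← nrm_sq,
    ENNReal.ofReal_pow (nrm_nonneg k)]
  ring

lemma q5_tsum (h : Data v d t e V X Y0 Ym M) : ∑' k, q5 d k = ((X ^ 2 : ℝ) : ℂ) := by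
  have h1 : ∀ k, q5 d k = ((nsq k * ‖d k‖ ^ 2 : ℝ) : ℂ) := by
    intro k
    unfold q5
    rw [Complex.mul_conj, Complex.normSq_eq_norm_sq]
    push_cast; ring
  have h2 := q5_sum h
  have h3 : ∀ k, ‖q5 d k‖ₑ = ENNReal.ofReal (nsq k * ‖d k‖ ^ 2) := by
    intro k
    rw [h1, enorm_real, abs_of_nonneg (mul_nonneg (nsq_nonneg k) (by positivity))]
  simp only [h3] at h2
  have hs : Summable (fun k => nsq k * ‖d k‖ ^ 2) := by
    have h4 : ∑' k, ‖q5 d k‖ₑ ≠ ⊤ := by rw [q5_sum h]; exact ENNReal.ofReal_ne_top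
    have h5 := (summable_of_enorm h4).norm
    refine h5.congr fun k => ?_
    rw [h1, Complex.norm_real, Real.norm_eq_abs,
      abs_of_nonneg (mul_nonneg (nsq_nonneg k) (by positivity))]
  rw [← ENNReal.ofReal_tsum_of_nonneg
    (fun k => mul_nonneg (nsq_nonneg k) (by positivity)) hs] at h2
  have h6 : ∑' k, nsq k * ‖d k‖ ^ 2 = X ^ 2 := by
    have := (ENNReal.ofReal_eq_ofReal_iff
      (tsum_nonneg fun k => mul_nonneg (nsq_nonneg k) (by positivity)) (sq_nonneg X)).1 h2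
    exact this
  simp only [h1]
  rw [← h6, Complex.ofReal_tsum]

lemma q6_sum (h : Data v d t e V X Y0 Ym M) : ∑' k, ‖q6 d e k‖ₑ ≤ ENNReal.ofReal (Ym * X) := by
  rw [ENNReal.ofReal_mul h.nm, ← h.hm, ← h.hX]
  refine le_trans ?_ (cs _ _)
  refine ENNReal.tsum_le_tsum fun k => ?_
  by_cases hk : k = 0
  · subst hk; simp [q6, h.d0]
  · unfold q6
    rw [enorm_mul, enorm_mul, enorm_conj', enorm_real]
    have h1 : ENNReal.ofReal |(k 0 : ℝ) / nrm k| ≤ 1 := by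
      rw [ENNReal.ofReal_le_one]; exact k0_le k
    calc ENNReal.ofReal |(k 0 : ℝ) / nrm k| * (‖e k‖ₑ * ‖d k‖ₑ) ≤ 1 * (‖e k‖ₑ * ‖d k‖ₑ) := by
          gcongr
      _ = (wi k * w k) * (‖e k‖ₑ * ‖d k‖ₑ) := by rw [wi_mul_w hk]
      _ = _ := by ring

lemma N1v_le (h : Data v d t e V X Y0 Ym M) (hC : 0 ≤ C) (hc4 : c4 ≤ ENNReal.ofReal C) :
    ∑' j, ‖v j‖ₑ ≤ ENNReal.ofReal (C * V) := by
  rw [ENNReal.ofReal_mul hC, ← h.hV]
  refine (N1_le _ (by simp [h.v0])).trans ?_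
  gcongr

lemma conj_weight (d : K → ℂ) :
    N2 (fun k => w k * ‖(fun k => conj (d k)) k‖ₑ) = N2 (fun k => w k * ‖d k‖ₑ) := by
  congr 1; funext k; rw [enorm_conj']

lemma t1_sum (h : Data v d t e V X Y0 Ym M) (hC : 0 ≤ C) (hc4 : c4 ≤ ENNReal.ofReal C) :
    ∑' p, ‖tri be v d (fun k => conj (d k)) p‖ₑ ≤ ENNReal.ofReal (C * V * Y0 * X) := by
  refine (tri_bound1 be_le_sum _ _ _).trans ?_
  rw [conj_weight, h.hX, h.hY, ENNReal.ofReal_mul (by have := h.nV; have := h.nY; positivity),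
    ENNReal.ofReal_mul (by have := h.nV; positivity)]
  gcongr
  exact N1v_le h hC hc4

lemma t2_sum (h : Data v d t e V X Y0 Ym M) :
    ∑' p, ‖tri be d d (fun k => conj (d k)) p‖ₑ ≤ ENNReal.ofReal (6 * (Y0 * X * X)) := by
  refine (tri_bound2 be_le_sum _ _ h.d0).trans ?_
  have := h.nX
  have := h.nY
  rw [conj_weight, h.hX, h.hY, ENNReal.ofReal_mul (by norm_num),
    ENNReal.ofReal_mul (by positivity), ENNReal.ofReal_mul (by positivity)]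
  norm_num

lemma t3_sum (h : Data v d t e V X Y0 Ym M) (hC : 0 ≤ C) (hc4 : c4 ≤ ENNReal.ofReal C) :
    ∑' p, ‖tri al v e (hn e) p‖ₑ ≤ ENNReal.ofReal (C * V * M * M) := by
  refine (tri_hn_bound _ _ _).trans ?_
  have := h.nV
  have := h.nM
  rw [ENNReal.ofReal_mul (by positivity), ENNReal.ofReal_mul (by positivity), h.hm]
  gcongr
  · exact N1v_le h hC hc4
  · exact h.hE
  · exact h.mM

lemma t4_sum (h : Data v d t e V X Y0 Ym M) (hC : 0 ≤ C)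
    (hcl : ∀ n : ℕ, cl n ≤ ENNReal.ofReal (C * Real.sqrt (n + 1)))
    (hc5 : ∀ n : ℕ, c5 n ≤ ENNReal.ofReal (C * ρ ^ n)) (n : ℕ) :
    ∑' p, ‖tri al d t (hn e) p‖ₑ ≤
      ENNReal.ofReal (C * Real.sqrt (n + 1) * X * M * Ym + C * ρ ^ n * (X * M * M)) := by
  refine (S4_bound n _ _ _ h.d0).trans ?_
  have := h.nX
  have := h.nM
  have := h.nm
  have := ρ_pos
  rw [ENNReal.ofReal_add (by positivity) (by positivity)]
  apply add_le_add
  · rw [ENNReal.ofReal_mul (by positivity), ENNReal.ofReal_mul (by positivity),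
      ENNReal.ofReal_mul (by positivity), h.hX, h.hm]
    gcongr
    · exact hcl n
    · exact h.hT
  · have e1 : ENNReal.ofReal (C * ρ ^ n * (X * M * M)) = ENNReal.ofReal (C * ρ ^ n) *
        (ENNReal.ofReal X * ENNReal.ofReal M * ENNReal.ofReal M) := by
      rw [← ENNReal.ofReal_mul (by positivity), ← ENNReal.ofReal_mul (by positivity),
        ← ENNReal.ofReal_mul (by positivity)]
    rw [e1, h.hX]
    gcongr
    · exact hc5 n
    · exact h.hT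
    · exact h.hE

lemma s3_norm (h : Data v d t e V X Y0 Ym M) (hC : 0 ≤ C) (hc4 : c4 ≤ ENNReal.ofReal C)
    (hcl : ∀ n : ℕ, cl n ≤ ENNReal.ofReal (C * Real.sqrt (n + 1)))
    (hch : ∀ n : ℕ, ch n ≤ ENNReal.ofReal (C * ρ ^ n)) (n : ℕ) :
    ‖∑' k, q3 v e k‖ ≤ C * Real.sqrt (n + 1) * V * Ym ^ 2 + 2 * (C * ρ ^ n * V * M ^ 2) := by
  have := h.nV
  have := h.nM
  have := h.nm
  have := ρ_pos
  apply norm_le_of_enorm (by positivity)
  have hfin : ∑' p, ‖tri al v e (hn e) p‖ₑ ≠ ⊤ :=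
    ne_top_of_le_ne_top ENNReal.ofReal_ne_top (t3_sum h hC hc4)
  refine (S3_bound n h.v0 h.e0 h.es hfin).trans ?_
  rw [ENNReal.ofReal_add (by positivity) (by positivity)]
  apply add_le_add
  · rw [ENNReal.ofReal_mul (by positivity), ENNReal.ofReal_mul (by positivity),
      ENNReal.ofReal_pow h.nm, h.hV, h.hm]
    gcongr
    exact hcl n
  · rw [ENNReal.ofReal_mul (by norm_num), ENNReal.ofReal_mul (by positivity),
      ENNReal.ofReal_mul (by positivity), ENNReal.ofReal_pow h.nM, h.hV]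
    gcongr
    · norm_num
    · exact hch n
    · exact h.hE

set_option maxHeartbeats 1000000 in
/-- absolute convergence with an integrable majorant -/
lemma qq_sum (h : Data v d t e V X Y0 Ym M) (hC : 0 ≤ C) (hc4 : c4 ≤ ENNReal.ofReal C)
    (hcl : ∀ n : ℕ, cl n ≤ ENNReal.ofReal (C * Real.sqrt (n + 1)))
    (hc5 : ∀ n : ℕ, c5 n ≤ ENNReal.ofReal (C * ρ ^ n))
    {κ ν g : ℝ} (hκ : 0 < κ) (hν : 0 < ν) (hg : 0 < g) :
    ∑' k, ‖qq κ ν g v d t e k‖ₑ ≤ ENNReal.ofReal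
      ((2 * κ * C * M + 6 * κ * M + ν * κ ^ 2 + g * M + 3 * κ * C * M ^ 2) *
        (1 + V ^ 2 + X ^ 2)) := by
  have nV := h.nV
  have nM := h.nM
  have nm := h.nm
  have nX := h.nX
  have nY := h.nY
  have h1 : ∑' k, ‖q1 v d k‖ₑ ≤ ENNReal.ofReal (C * V * Y0 * X) :=
    (Cv_enorm_sum _ _ _ (fun k => conj (d k))).trans (t1_sum h hC hc4)
  have h2 : ∑' k, ‖q2 d k‖ₑ ≤ ENNReal.ofReal (6 * (Y0 * X * X)) :=
    (Cv_enorm_sum _ _ _ (fun k => conj (d k))).trans (t2_sum h)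
  have h3 : ∑' k, ‖q3 v e k‖ₑ ≤ ENNReal.ofReal (C * V * M * M) :=
    (Cv_enorm_sum _ _ _ _).trans (t3_sum h hC hc4)
  have h4 : ∑' k, ‖q4 d t e k‖ₑ ≤ ENNReal.ofReal (C * X * M * Ym + C * (X * M * M)) := by
    refine ((Cv_enorm_sum _ _ _ _).trans (t4_sum h hC hcl hc5 0)).trans (le_of_eq ?_)
    simp
  have h5 := q5_sum h
  have h6 := q6_sum h
  have hle : ∀ k, ‖qq κ ν g v d t e k‖ₑ ≤
      ENNReal.ofReal κ * (2 * ‖q1 v d k‖ₑ + ‖q2 d k‖ₑ) + ENNReal.ofReal (ν * κ ^ 2) * ‖q5 d k‖ₑ +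
      ENNReal.ofReal g * ‖q6 d e k‖ₑ + ENNReal.ofReal κ * (‖q3 v e k‖ₑ + ‖q4 d t e k‖ₑ) := by
    intro k
    unfold qq
    refine (enorm_add_le _ _).trans ?_
    apply add_le_add
    · refine (enorm_sub_le).trans ?_
      apply add_le_add
      · refine (enorm_sub_le).trans ?_
        apply add_le_add
        · rw [enorm_mul, enorm_real, abs_of_pos hκ]
          gcongr
          refine (enorm_add_le _ _).trans ?_
          rw [enorm_mul]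
          gcongr
          rw [← ofReal_norm]; norm_num
        · rw [enorm_mul, enorm_real, abs_of_pos (by positivity)]
      · rw [enorm_mul, enorm_mul, enorm_real, abs_of_pos hg]
        have : ‖(I:ℂ)‖ₑ = 1 := by rw [← ofReal_norm]; simp
        rw [this, one_mul]
    · rw [enorm_mul, enorm_real, abs_of_pos hκ]
      gcongr
      exact enorm_add_le _ _
  refine (ENNReal.tsum_le_tsum hle).trans ?_
  rw [ENNReal.tsum_add, ENNReal.tsum_add, ENNReal.tsum_add, ENNReal.tsum_mul_left,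
    ENNReal.tsum_mul_left, ENNReal.tsum_mul_left, ENNReal.tsum_mul_left, ENNReal.tsum_add,
    ENNReal.tsum_add, ENNReal.tsum_mul_left, h5]
  calc ENNReal.ofReal κ * (2 * ∑' k, ‖q1 v d k‖ₑ + ∑' k, ‖q2 d k‖ₑ) +
        ENNReal.ofReal (ν * κ ^ 2) * ENNReal.ofReal (X ^ 2) +
        ENNReal.ofReal g * ∑' k, ‖q6 d e k‖ₑ +
        ENNReal.ofReal κ * (∑' k, ‖q3 v e k‖ₑ + ∑' k, ‖q4 d t e k‖ₑ)
      ≤ ENNReal.ofReal κ * (ENNReal.ofReal 2 * ENNReal.ofReal (C * V * Y0 * X) +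
          ENNReal.ofReal (6 * (Y0 * X * X))) +
        ENNReal.ofReal (ν * κ ^ 2) * ENNReal.ofReal (X ^ 2) +
        ENNReal.ofReal g * ENNReal.ofReal (Ym * X) +
        ENNReal.ofReal κ * (ENNReal.ofReal (C * V * M * M) +
          ENNReal.ofReal (C * X * M * Ym + C * (X * M * M))) := by
        gcongr
        norm_num
    _ = ENNReal.ofReal (κ * (2 * (C * V * Y0 * X) + 6 * (Y0 * X * X)) + ν * κ ^ 2 * X ^ 2 +
          g * (Ym * X) + κ * (C * V * M * M + (C * X * M * Ym + C * (X * M * M)))) := by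
        rw [← ENNReal.ofReal_mul (by norm_num), ← ENNReal.ofReal_add (by positivity) (by positivity),
          ← ENNReal.ofReal_mul hκ.le, ← ENNReal.ofReal_mul (by positivity),
          ← ENNReal.ofReal_mul hg.le, ← ENNReal.ofReal_add (by positivity) (by positivity),
          ← ENNReal.ofReal_add (by positivity) (by positivity),
          ← ENNReal.ofReal_add (by positivity) (by positivity),
          ← ENNReal.ofReal_mul hκ.le, ← ENNReal.ofReal_add (by positivity) (by positivity)]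
    _ ≤ _ := by
        apply ENNReal.ofReal_le_ofReal
        have YM := h.YM
        have mM := h.mM
        have a1 : κ * (2 * (C * V * Y0 * X)) ≤ 2 * κ * C * M * (1 + V ^ 2 + X ^ 2) := by
          have : V * X ≤ 1 + V ^ 2 + X ^ 2 := by nlinarith [sq_nonneg (V - X)]
          have h7 : Y0 * (V * X) ≤ M * (1 + V ^ 2 + X ^ 2) :=
            mul_le_mul YM this (by positivity) nM
          calc κ * (2 * (C * V * Y0 * X)) = 2 * κ * C * (Y0 * (V * X)) := by ring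
            _ ≤ 2 * κ * C * (M * (1 + V ^ 2 + X ^ 2)) := by gcongr
            _ = _ := by ring
        have a2 : κ * (6 * (Y0 * X * X)) ≤ 6 * κ * M * (1 + V ^ 2 + X ^ 2) := by
          have : X * X ≤ 1 + V ^ 2 + X ^ 2 := by nlinarith [sq_nonneg V]
          have h7 : Y0 * (X * X) ≤ M * (1 + V ^ 2 + X ^ 2) :=
            mul_le_mul YM this (by positivity) nM
          calc κ * (6 * (Y0 * X * X)) = 6 * κ * (Y0 * (X * X)) := by ring
            _ ≤ 6 * κ * (M * (1 + V ^ 2 + X ^ 2)) := by gcongr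
            _ = _ := by ring
        have a3 : ν * κ ^ 2 * X ^ 2 ≤ ν * κ ^ 2 * (1 + V ^ 2 + X ^ 2) := by
          gcongr; nlinarith [sq_nonneg V]
        have a4 : g * (Ym * X) ≤ g * M * (1 + V ^ 2 + X ^ 2) := by
          have : X ≤ 1 + V ^ 2 + X ^ 2 := by nlinarith [sq_nonneg V, sq_nonneg (X - 1)]
          have h7 : Ym * X ≤ M * (1 + V ^ 2 + X ^ 2) := mul_le_mul mM this nX nM
          calc g * (Ym * X) ≤ g * (M * (1 + V ^ 2 + X ^ 2)) := by gcongr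
            _ = _ := by ring
        have a5 : κ * (C * V * M * M) ≤ κ * C * M ^ 2 * (1 + V ^ 2 + X ^ 2) := by
          have : V ≤ 1 + V ^ 2 + X ^ 2 := by nlinarith [sq_nonneg X, sq_nonneg (V - 1)]
          calc κ * (C * V * M * M) = κ * C * M ^ 2 * V := by ring
            _ ≤ _ := by gcongr
        have a6 : κ * (C * X * M * Ym + C * (X * M * M)) ≤
            2 * κ * C * M ^ 2 * (1 + V ^ 2 + X ^ 2) := by
          have : X ≤ 1 + V ^ 2 + X ^ 2 := by nlinarith [sq_nonneg V, sq_nonneg (X - 1)]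
          have h7 : C * X * M * Ym ≤ C * X * M * M := by gcongr
          calc κ * (C * X * M * Ym + C * (X * M * M)) ≤ κ * (C * X * M * M + C * (X * M * M)) := by
                gcongr
            _ = 2 * κ * C * M ^ 2 * X := by ring
            _ ≤ _ := by gcongr
        linarith

set_option maxHeartbeats 1000000 in
/-- the energy inequality at a fixed time -/
lemma qq_re (h : Data v d t e V X Y0 Ym M) (hC : 0 ≤ C) (hc4 : c4 ≤ ENNReal.ofReal C)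
    (hcl : ∀ n : ℕ, cl n ≤ ENNReal.ofReal (C * Real.sqrt (n + 1)))
    (hch : ∀ n : ℕ, ch n ≤ ENNReal.ofReal (C * ρ ^ n))
    (hc5 : ∀ n : ℕ, c5 n ≤ ENNReal.ofReal (C * ρ ^ n))
    {κ ν g : ℝ} (hκ : 0 < κ) (hν : 0 < ν) (hg : 0 < g) (n : ℕ) :
    (∑' k, qq κ ν g v d t e k).re ≤
      ((8 * C ^ 2 / ν + 2 * (κ * C) + 2 * (g ^ 2 / (ν * κ ^ 2)) + 2 * (κ * C * M ^ 2) +
          C ^ 2 * M ^ 4 / ν) * (1 + V ^ 2) + (2 * (C ^ 2 * M ^ 2 / ν) + 2 * (κ * C)) * (n + 1)) *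
        ((Y0 ^ 2 + Ym ^ 2) / 2) +
      ρ ^ n * ((8 * C ^ 2 / ν + 2 * (κ * C) + 2 * (g ^ 2 / (ν * κ ^ 2)) + 2 * (κ * C * M ^ 2) +
          C ^ 2 * M ^ 4 / ν) * (1 + V ^ 2)) := by
  have nV := h.nV
  have nM := h.nM
  have nm := h.nm
  have nX := h.nX
  have nY := h.nY
  have hρ := ρ_pos
  have hρ1 := ρ_lt_one
  have f1 : ∑' k, ‖q1 v d k‖ₑ ≠ ⊤ := ne_top_of_le_ne_top ENNReal.ofReal_ne_top
    ((Cv_enorm_sum _ _ _ (fun k => conj (d k))).trans (t1_sum h hC hc4))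
  have f2 : ∑' k, ‖q2 d k‖ₑ ≠ ⊤ := ne_top_of_le_ne_top ENNReal.ofReal_ne_top
    ((Cv_enorm_sum _ _ _ (fun k => conj (d k))).trans (t2_sum h))
  have f3 : ∑' k, ‖q3 v e k‖ₑ ≠ ⊤ := ne_top_of_le_ne_top ENNReal.ofReal_ne_top
    ((Cv_enorm_sum _ _ _ _).trans (t3_sum h hC hc4))
  have f4 : ∑' k, ‖q4 d t e k‖ₑ ≠ ⊤ := ne_top_of_le_ne_top ENNReal.ofReal_ne_top
    ((Cv_enorm_sum _ _ _ _).trans (t4_sum h hC hcl hc5 n))
  have f5 : ∑' k, ‖q5 d k‖ₑ ≠ ⊤ := by rw [q5_sum h]; exact ENNReal.ofReal_ne_top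
  have f6 : ∑' k, ‖q6 d e k‖ₑ ≠ ⊤ := ne_top_of_le_ne_top ENNReal.ofReal_ne_top (q6_sum h)
  have s1 := summable_of_enorm f1
  have s2 := summable_of_enorm f2
  have s3 := summable_of_enorm f3
  have s4 := summable_of_enorm f4
  have s5 := summable_of_enorm f5
  have s6 := summable_of_enorm f6
  have e1 : ∑' k, qq κ ν g v d t e k = (κ : ℂ) * (2 * ∑' k, q1 v d k + ∑' k, q2 d k) -
      ((ν * κ ^ 2 : ℝ) : ℂ) * ∑' k, q5 d k - I * (g : ℂ) * ∑' k, q6 d e k +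
      (κ : ℂ) * (∑' k, q3 v e k + ∑' k, q4 d t e k) := by
    have a1 : HasSum (fun k => (κ : ℂ) * (2 * q1 v d k + q2 d k))
        ((κ : ℂ) * (2 * ∑' k, q1 v d k + ∑' k, q2 d k)) :=
      ((s1.hasSum.mul_left 2).add s2.hasSum).mul_left _
    have a2 : HasSum (fun k => ((ν * κ ^ 2 : ℝ) : ℂ) * q5 d k)
        (((ν * κ ^ 2 : ℝ) : ℂ) * ∑' k, q5 d k) := s5.hasSum.mul_left _
    have a3 : HasSum (fun k => I * (g : ℂ) * q6 d e k) (I * (g : ℂ) * ∑' k, q6 d e k) :=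
      s6.hasSum.mul_left _
    have a4 : HasSum (fun k => (κ : ℂ) * (q3 v e k + q4 d t e k))
        ((κ : ℂ) * (∑' k, q3 v e k + ∑' k, q4 d t e k)) := (s3.hasSum.add s4.hasSum).mul_left _
    exact (((a1.sub a2).sub a3).add a4).tsum_eq
  have e2 : ∑' k, q2 d k = 0 := S2_zero h.ds
    (ne_top_of_le_ne_top ENNReal.ofReal_ne_top (t2_sum h))
  have b1 : ‖∑' k, q1 v d k‖ ≤ C * V * Y0 * X := by
    apply norm_le_of_enorm (by positivity)
    exact (enorm_tsum_le _).trans ((Cv_enorm_sum _ _ _ (fun k => conj (d k))).trans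
      (t1_sum h hC hc4))
  have b3 := s3_norm h hC hc4 hcl hch n
  have b4 : ‖∑' k, q4 d t e k‖ ≤ C * Real.sqrt (n + 1) * X * M * Ym + C * ρ ^ n * (X * M * M) := by
    apply norm_le_of_enorm (by positivity)
    exact (enorm_tsum_le _).trans ((Cv_enorm_sum _ _ _ _).trans (t4_sum h hC hcl hc5 n))
  have b6 : ‖∑' k, q6 d e k‖ ≤ Ym * X := by
    apply norm_le_of_enorm (by positivity)
    exact (enorm_tsum_le _).trans (q6_sum h)
  have hre : ∀ z : ℂ, z.re ≤ ‖z‖ := fun z => Complex.re_le_norm z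
  rw [e1, e2, q5_tsum h]
  have r1 : ((κ : ℂ) * (2 * ∑' k, q1 v d k + 0)).re ≤ κ * (2 * (C * V * Y0 * X)) := by
    refine (hre _).trans ?_
    rw [norm_mul, Complex.norm_real, Real.norm_eq_abs, abs_of_pos hκ, add_zero, norm_mul]
    gcongr
    simp
  have r3 : ((κ : ℂ) * (∑' k, q3 v e k + ∑' k, q4 d t e k)).re ≤
      κ * ((C * Real.sqrt (n + 1) * V * Ym ^ 2 + 2 * (C * ρ ^ n * V * M ^ 2)) +
        (C * Real.sqrt (n + 1) * X * M * Ym + C * ρ ^ n * (X * M * M))) := by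
    refine (hre _).trans ?_
    rw [norm_mul, Complex.norm_real, Real.norm_eq_abs, abs_of_pos hκ]
    gcongr
    exact (norm_add_le _ _).trans (add_le_add b3 b4)
  have r5 : (((ν * κ ^ 2 : ℝ) : ℂ) * ((X ^ 2 : ℝ) : ℂ)).re = ν * κ ^ 2 * X ^ 2 := by
    rw [← Complex.ofReal_mul, Complex.ofReal_re]
  have r6 : -((I * (g : ℂ) * ∑' k, q6 d e k).re) ≤ g * (Ym * X) := by
    have : -((I * (g : ℂ) * ∑' k, q6 d e k).re) = (-(I * (g : ℂ) * ∑' k, q6 d e k)).re := by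
      rw [Complex.neg_re]
    rw [this]
    refine (hre _).trans ?_
    rw [norm_neg, norm_mul, norm_mul, Complex.norm_I, one_mul, Complex.norm_real,
      Real.norm_eq_abs, abs_of_pos hg]
    gcongr
  rw [Complex.add_re, Complex.sub_re, Complex.sub_re, r5]
  exact numeric hC hκ hν n r1 r3 r6

end

end Pool.Agent.Bous.U
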