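import Pool.Agent.Bous.UCont

/-!
# The energy identity for the difference of two solutions
-/

open Complex Set MeasureTheory Filter Topology
open scoped ComplexConjugate ENNReal

namespace Pool.Agent.Bous.U

lemma coord_cont (k : K) : Continuous (fun x : Seq2 => x k) := by
  have : LipschitzWith 1 (fun x : Seq2 => x k) := by
    apply LipschitzWith.of_dist_le_mul
    intro x y
    rw [dist_eq_norm, dist_eq_norm, NNReal.coe_one, one_mul]
    have h := norm_coord_le (x - y) k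
    rwa [lp.coeFn_sub, Pi.sub_apply] at h
  exact this.continuous

lemma v_coord {v : ℝ → Seq2} (hv : ContinuousOn v (Ici 0)) (k : K) :
    ContinuousOn (fun t => v t k) (Ici 0) := (coord_cont k).comp_continuousOn hv

lemma v_bdd {v : ℝ → Seq2} (hv : ContinuousOn v (Ici 0)) (T : ℝ) :
    ∃ C, ∀ t ∈ Icc 0 T, ‖v t‖ ≤ C :=
  isCompact_Icc.exists_bound_of_continuousOn (hv.mono fun _ ht => ht.1)

section
variable {κ ν g : ℝ} {v θ v' θ' : ℝ → Seq2}

lemma rv_cont (h : SeqSol κ ν g v θ) (k : K) :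
    ContinuousOn (fun t => rv κ ν g (v t) (θ t) k) (Ici 0) := by
  unfold rv
  have h1 : ContinuousOn (fun t => BE (v t) (v t) k) (Ici 0) :=
    Cv_cont be_le_sum h.v_cont (v_coord h.v_cont) (v_bdd h.v_cont) k
  exact ((continuousOn_const.mul h1).sub (continuousOn_const.mul (v_coord h.v_cont k))).sub
    (continuousOn_const.mul (h.t_cont k))

lemma rt_cont (h : SeqSol κ ν g v θ) (k : K) :
    ContinuousOn (fun t => rt κ (v t) (θ t) k) (Ici 0) := by
  unfold rt
  have h1 : ContinuousOn (fun t => AL (v t) (θ t) k) (Ici 0) :=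
    Cv_cont al_le_sum h.v_cont h.t_cont h.t_bdd k
  exact continuousOn_const.mul h1

/-- differentiation of an integral equation -/
lemma deriv_of_eq {f F : ℝ → ℂ} (hf : ContinuousOn f (Ici 0)) {c : ℂ}
    (hF : ∀ t, 0 ≤ t → F t = c + ∫ s in (0:ℝ)..t, f s) {t : ℝ} (ht : 0 < t) :
    HasDerivAt F (f t) t := by
  have h1 : HasDerivAt (fun u => ∫ s in (0:ℝ)..u, f s) (f t) t := by
    apply intervalIntegral.integral_hasDerivAt_right
    · apply ContinuousOn.intervalIntegrable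
      rw [uIcc_of_le ht.le]
      exact hf.mono fun s hs => hs.1
    · exact (hf.mono (fun s hs => (le_of_lt hs : (0:ℝ) ≤ s))).stronglyMeasurableAtFilter
        isOpen_Ioi t ht
    · exact hf.continuousAt (Ici_mem_nhds ht)
  have h2 : HasDerivAt (fun u => c + ∫ s in (0:ℝ)..u, f s) (f t) t := h1.const_add c
  refine h2.congr_of_eventuallyEq ?_
  filter_upwards [Ioi_mem_nhds ht] with s hs
  exact hF s (le_of_lt hs)

/-- the difference of the right-hand sides -/
lemma rv_diff (a b : Seq2) (t s : K → ℂ) (k : K) :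
    rv κ ν g ((a + b : Seq2) : K → ℂ) (fun k => t k + s k) k - rv κ ν g a t k =
      (κ : ℂ) * (2 * Cv be a b k + Cv be b b k) - ((ν * κ ^ 2 : ℝ) : ℂ) * ((nsq k : ℝ) : ℂ) * b k -
        I * (g : ℂ) * (((k 0 : ℝ) / nrm k : ℝ) : ℂ) * s k := by
  have hsym : Cv be b a k = Cv be a b k := by
    unfold Cv
    rw [← (Equiv.subLeft k).tsum_eq]
    refine tsum_congr fun j => ?_
    simp only [Equiv.subLeft_apply, sub_sub_cancel]
    rw [be_symm]; ring
  unfold rv
  rw [BE_eq, BE_eq, Cv_add_left be_le_sum, Cv_add_right be_le_sum, Cv_add_right be_le_sum, hsym,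
    lp.coeFn_add, Pi.add_apply]
  push_cast
  ring

lemma rt_diff (a b t s : Seq2) (k : K) :
    rt κ ((a + b : Seq2) : K → ℂ) ((t + s : Seq2) : K → ℂ) k - rt κ a t k =
      (κ : ℂ) * (Cv al a s k + Cv al b ((t + s : Seq2) : K → ℂ) k) := by
  unfold rt
  rw [AL_eq, AL_eq, Cv_add_left al_le_sum, Cv_add_right al_le_sum a]
  ring

/-- energy of one mode -/
noncomputable def yk (d e : ℝ → Seq2) (k : K) (t : ℝ) : ℝ :=
  (‖d t k‖ ^ 2 + (nsq k)⁻¹ * ‖e t k‖ ^ 2) / 2

lemma yk_deriv (h : SeqSol κ ν g v θ) (h' : SeqSol κ ν g v' θ') (k : K) {t : ℝ} (ht : 0 < t) :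
    HasDerivAt (yk (fun t => v' t - v t) (fun t => θ' t - θ t) k)
      (qq κ ν g (v t) ((v' t - v t : Seq2) : K → ℂ) (θ' t) ((θ' t - θ t : Seq2) : K → ℂ) k).re
      t := by
  have d1 : HasDerivAt (fun t => v t k) (rv κ ν g (v t) (θ t) k) t :=
    deriv_of_eq (rv_cont h k) (fun t ht => h.v_eq k t ht) ht
  have d1' : HasDerivAt (fun t => v' t k) (rv κ ν g (v' t) (θ' t) k) t :=
    deriv_of_eq (rv_cont h' k) (fun t ht => h'.v_eq k t ht) ht
  have d2 : HasDerivAt (fun t => θ t k) (rt κ (v t) (θ t) k) t :=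
    deriv_of_eq (rt_cont h k) (fun t ht => h.t_eq k t ht) ht
  have d2' : HasDerivAt (fun t => θ' t k) (rt κ (v' t) (θ' t) k) t :=
    deriv_of_eq (rt_cont h' k) (fun t ht => h'.t_eq k t ht) ht
  set b : Seq2 := v' t - v t with hb
  set s : Seq2 := θ' t - θ t with hs
  have eb : v' t = v t + b := by rw [hb]; abel
  have es : θ' t = θ t + s := by rw [hs]; abel
  have D1 : HasDerivAt (fun t => (v' t - v t : Seq2) k)
      ((κ : ℂ) * (2 * Cv be (v t) b k + Cv be b b k) -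
        ((ν * κ ^ 2 : ℝ) : ℂ) * ((nsq k : ℝ) : ℂ) * b k -
        I * (g : ℂ) * (((k 0 : ℝ) / nrm k : ℝ) : ℂ) * s k) t := by
    have h3 := d1'.sub d1
    have e : rv κ ν g (v' t) (θ' t) k - rv κ ν g (v t) (θ t) k =
        (κ : ℂ) * (2 * Cv be (v t) b k + Cv be b b k) -
        ((ν * κ ^ 2 : ℝ) : ℂ) * ((nsq k : ℝ) : ℂ) * b k -
        I * (g : ℂ) * (((k 0 : ℝ) / nrm k : ℝ) : ℂ) * s k := by
      have e3 := rv_diff (κ := κ) (ν := ν) (g := g) (v t) b (θ t) s k
      rw [← eb] at e3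
      rw [← e3]
      congr 2
      rw [es, lp.coeFn_add]; rfl
    rw [e] at h3
    exact h3
  have D2 : HasDerivAt (fun t => (θ' t - θ t : Seq2) k)
      ((κ : ℂ) * (Cv al (v t) s k + Cv al b (θ' t) k)) t := by
    have h3 := d2'.sub d2
    have e : rt κ (v' t) (θ' t) k - rt κ (v t) (θ t) k =
        (κ : ℂ) * (Cv al (v t) s k + Cv al b (θ' t) k) := by
      have e3 := rt_diff (κ := κ) (v t) b (θ t) s k
      rw [← eb, ← es] at e3
      exact e3
    rw [e] at h3
    exact h3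
  have N1 := D1.norm_sq
  have N2' := D2.norm_sq
  have hsum := ((N1.add (N2'.const_mul ((nsq k)⁻¹))).div_const 2)
  have hfun : yk (fun t => v' t - v t) (fun t => θ' t - θ t) k =
      fun x => ((fun x => ‖(v' x - v x : Seq2) k‖ ^ 2) x +
        (nsq k)⁻¹ * (fun x => ‖(θ' x - θ x : Seq2) k‖ ^ 2) x) / 2 := by
    funext x; rfl
  rw [hfun]
  refine hsum.congr_deriv ?_
  rw [Complex.inner, Complex.inner]
  have e1 : (v' t - v t : Seq2) k = b k := rfl
  have e2 : (θ' t - θ t : Seq2) k = s k := rfl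
  rw [e1, e2]
  have key : qq κ ν g (v t) b (θ' t) s k =
      ((κ : ℂ) * (2 * Cv be (v t) b k + Cv be b b k) -
        ((ν * κ ^ 2 : ℝ) : ℂ) * ((nsq k : ℝ) : ℂ) * b k -
        I * (g : ℂ) * (((k 0 : ℝ) / nrm k : ℝ) : ℂ) * s k) * conj (b k) +
      (((nsq k)⁻¹ : ℝ) : ℂ) * ((κ : ℂ) * (Cv al (v t) s k + Cv al b (θ' t) k) * conj (s k)) := by
    unfold qq q1 q2 q3 q4 q5 q6 hn
    ring
  rw [key, Complex.add_re, Complex.re_ofReal_mul]
  ring

end

end Pool.Agent.Bous.U
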