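import Pool.Agent.Bous.UEst2

/-!
# Complex trilinear forms
-/

open Complex Set MeasureTheory Filter Topology
open scoped ComplexConjugate ENNReal

namespace Pool.Agent.Bous.U

lemma summable_of_enorm {ι : Type*} {f : ι → ℂ} (h : ∑' i, ‖f i‖ₑ ≠ ⊤) : Summable f := by
  have h1 : Summable (fun i => ‖f i‖₊) := ENNReal.tsum_coe_ne_top_iff_summable.1 h
  exact Summable.of_nnnorm h1

lemma enorm_tsum_le {ι : Type*} (f : ι → ℂ) : ‖∑' i, f i‖ₑ ≤ ∑' i, ‖f i‖ₑ := by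
  by_cases h : ∑' i, ‖f i‖ₑ = ⊤
  · rw [h]; exact le_top
  · have h1 : Summable (fun i => ‖f i‖₊) := ENNReal.tsum_coe_ne_top_iff_summable.1 h
    have h2 := nnnorm_tsum_le h1
    have h3 : ∑' i, ‖f i‖ₑ = ((∑' i, ‖f i‖₊ : NNReal) : ℝ≥0∞) := (ENNReal.coe_tsum h1).symm
    rw [h3]
    exact_mod_cast h2

/-- convolution with a kernel -/
noncomputable def Cv (c : K → K → ℝ) (a b : K → ℂ) (k : K) : ℂ :=
  ∑' j, (c j (k - j) : ℂ) * a j * b (k - j)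

lemma AL_eq (a b : K → ℂ) : AL a b = Cv al a b := rfl
lemma BE_eq (a b : K → ℂ) : BE a b = Cv be a b := rfl

/-- trilinear family -/
noncomputable def tri (c : K → K → ℝ) (a b h : K → ℂ) (p : K × K) : ℂ :=
  (c p.1 p.2 : ℂ) * a p.1 * b p.2 * h (p.1 + p.2)

/-- reindexing -/
def psi : K × K ≃ K × K where
  toFun p := (p.2, p.1 - p.2)
  invFun p := (p.1 + p.2, p.1)
  left_inv p := by ext1 <;> simp
  right_inv p := by ext1 <;> simp

lemma tri_psi (c : K → K → ℝ) (a b h : K → ℂ) (k j : K) :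
    tri c a b h (psi (k, j)) = (c j (k - j) : ℂ) * a j * b (k - j) * h k := by
  simp [tri, psi]

lemma Cv_mul (c : K → K → ℝ) (a b h : K → ℂ) (k : K) :
    Cv c a b k * h k = ∑' j, tri c a b h (psi (k, j)) := by
  unfold Cv
  rw [← tsum_mul_right]
  exact tsum_congr fun j => (tri_psi c a b h k j).symm

lemma tri_psi_sum (c : K → K → ℝ) (a b h : K → ℂ) :
    ∑' k, ∑' j, ‖tri c a b h (psi (k, j))‖ₑ = ∑' p, ‖tri c a b h p‖ₑ := by
  rw [← ENNReal.tsum_prod' (f := fun p : K × K => ‖tri c a b h (psi p)‖ₑ)]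
  exact psi.tsum_eq (fun p => ‖tri c a b h p‖ₑ)

lemma Cv_enorm_sum (c : K → K → ℝ) (a b h : K → ℂ) :
    ∑' k, ‖Cv c a b k * h k‖ₑ ≤ ∑' p, ‖tri c a b h p‖ₑ := by
  rw [← tri_psi_sum]
  refine ENNReal.tsum_le_tsum fun k => ?_
  rw [Cv_mul]
  exact enorm_tsum_le _

lemma Cv_tsum {c : K → K → ℝ} {a b h : K → ℂ} (hfin : ∑' p, ‖tri c a b h p‖ₑ ≠ ⊤) :
    ∑' k, Cv c a b k * h k = ∑' p, tri c a b h p := by
  have hs : Summable (tri c a b h) := summable_of_enorm hfin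
  have hs2 : Summable (fun p => tri c a b h (psi p)) := psi.summable_iff.2 hs
  rw [← psi.tsum_eq (tri c a b h), hs2.tsum_prod]
  exact tsum_congr fun k => Cv_mul c a b h k

lemma tri_sum_eq (c : K → K → ℝ) (a b h : K → ℂ) :
    ∑' p, ‖tri c a b h p‖ₑ =
      ∑' j, ∑' l, ‖(c j l : ℂ) * a j * b l * h (j + l)‖ₑ :=
  ENNReal.tsum_prod' (f := fun p : K × K => ‖tri c a b h p‖ₑ)

lemma enorm_real (x : ℝ) : ‖(x : ℂ)‖ₑ = ENNReal.ofReal |x| := by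
  rw [← ofReal_norm, Complex.norm_real, Real.norm_eq_abs]

lemma enorm_conj' (x : ℂ) : ‖conj x‖ₑ = ‖x‖ₑ := by
  rw [← ofReal_norm, ← ofReal_norm, Complex.norm_conj]

lemma weight_enorm (k : K) (x : ℂ) : ‖((nrm k : ℝ) : ℂ) * x‖ₑ = w k * ‖x‖ₑ := by
  rw [enorm_mul, enorm_real, abs_of_nonneg (nrm_nonneg k)]; rfl

/-- bound for kernels with `|c j l| ≤ |j + l|`, form `ℓ¹ ℓ² ℓ²` -/
lemma tri_bound1 {c : K → K → ℝ} (hc : ∀ j l, |c j l| ≤ nrm (j + l)) (a b h : K → ℂ) :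
    ∑' p, ‖tri c a b h p‖ₑ ≤ (∑' j, ‖a j‖ₑ) * N2 (fun l => ‖b l‖ₑ) *
      N2 (fun k => w k * ‖h k‖ₑ) := by
  rw [tri_sum_eq]
  refine le_trans ?_ (E1 _ _ _)
  refine ENNReal.tsum_le_tsum fun j => ENNReal.tsum_le_tsum fun l => ?_
  rw [enorm_mul, enorm_mul, enorm_mul, enorm_real]
  have h1 : ENNReal.ofReal |c j l| ≤ w (j + l) := ENNReal.ofReal_le_ofReal (hc j l)
  calc ENNReal.ofReal |c j l| * ‖a j‖ₑ * ‖b l‖ₑ * ‖h (j + l)‖ₑ
      ≤ w (j + l) * ‖a j‖ₑ * ‖b l‖ₑ * ‖h (j + l)‖ₑ := by gcongr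
    _ = ‖a j‖ₑ * ‖b l‖ₑ * (w (j + l) * ‖h (j + l)‖ₑ) := by ring

/-- Ladyzhenskaya form -/
lemma tri_bound2 {c : K → K → ℝ} (hc : ∀ j l, |c j l| ≤ nrm (j + l)) (a h : K → ℂ)
    (ha : a 0 = 0) :
    ∑' p, ‖tri c a a h p‖ₑ ≤ 6 * (N2 (fun l => ‖a l‖ₑ) * N2 (fun l => w l * ‖a l‖ₑ) *
      N2 (fun k => w k * ‖h k‖ₑ)) := by
  rw [tri_sum_eq]
  refine le_trans ?_ (lady (fun l => ‖a l‖ₑ) (fun k => w k * ‖h k‖ₑ) (by simp [ha]))
  refine ENNReal.tsum_le_tsum fun j => ENNReal.tsum_le_tsum fun l => ?_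
  rw [enorm_mul, enorm_mul, enorm_mul, enorm_real]
  have h1 : ENNReal.ofReal |c j l| ≤ w (j + l) := ENNReal.ofReal_le_ofReal (hc j l)
  calc ENNReal.ofReal |c j l| * ‖a j‖ₑ * ‖a l‖ₑ * ‖h (j + l)‖ₑ
      ≤ w (j + l) * ‖a j‖ₑ * ‖a l‖ₑ * ‖h (j + l)‖ₑ := by gcongr
    _ = ‖a j‖ₑ * ‖a l‖ₑ * (w (j + l) * ‖h (j + l)‖ₑ) := by ring

/-- cyclic permutation -/
def cyc : K × K ≃ K × K where
  toFun p := (p.2, -(p.1 + p.2))
  invFun p := (-(p.1 + p.2), p.1)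
  left_inv p := by ext1 <;> simp
  right_inv p := by ext1 <;> simp

/-- The Navier-Stokes nonlinearity is orthogonal to the velocity. -/
lemma S2_zero {d : K → ℂ} (hs : ∀ k, d (-k) = conj (d k))
    (hfin : ∑' p, ‖tri be d d (fun k => conj (d k)) p‖ₑ ≠ ⊤) :
    ∑' k, BE d d k * conj (d k) = 0 := by
  rw [BE_eq, Cv_tsum hfin]
  set f := tri be d d (fun k => conj (d k)) with hf
  have hS : Summable f := summable_of_enorm hfin
  have h1 : ∑' p, f (cyc p) = ∑' p, f p := cyc.tsum_eq f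
  have h2 : ∑' p, f (cyc (cyc p)) = ∑' p, f p :=
    (cyc.tsum_eq (fun p => f (cyc p))).trans h1
  have hS1 : Summable (fun p => f (cyc p)) := cyc.summable_iff.2 hS
  have hS2 : Summable (fun p => f (cyc (cyc p))) := cyc.summable_iff.2 hS1
  have h3 : ∑' p, (f p + f (cyc p) + f (cyc (cyc p))) = 0 := by
    have : ∀ p, f p + f (cyc p) + f (cyc (cyc p)) = 0 := by
      rintro ⟨j, l⟩
      have e1 : l + -(j + l) = -j := by abel
      have e2 : -(j + l) + -(l + -(j + l)) = -l := by abel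
      have e3 : -(l + -(j + l)) = j := by abel
      have hc := be_cyclic j l
      simp only [hf, tri, cyc, Equiv.coe_fn_mk]
      rw [e2, e1, neg_neg, ← hs, ← hs, ← hs, neg_neg, neg_neg]
      have hc' : (be j l : ℂ) + (be l (-(j + l)) : ℂ) + (be (-(j + l)) j : ℂ) = 0 := by
        exact_mod_cast hc
      linear_combination (d j * d l * d (-(j + l))) * hc'
    simp only [this, tsum_zero]
  rw [(hS.add hS1).tsum_add hS2, hS.tsum_add hS1, h1, h2] at h3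
  have h4 : (3:ℂ) * ∑' p, f p = 0 := by linear_combination h3
  simpa using h4

end Pool.Agent.Bous.U
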