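import Pool.Agent.Bous.UTri

/-!
# The transport terms in the negative norm
-/

open Complex Set MeasureTheory Filter Topology
open scoped ComplexConjugate ENNReal

namespace Pool.Agent.Bous.U

/-- `|k|⁻² conj e_k` -/
noncomputable def hn (e : K → ℂ) (k : K) : ℂ := (((nsq k)⁻¹ : ℝ) : ℂ) * conj (e k)

lemma al_hn_le (j l : K) : |al j l| * (nsq (j + l))⁻¹ ≤ (nrm (j + l))⁻¹ := by
  by_cases hk : j + l = 0
  · rw [hk]; simp [nrm_zero, nsq_eq_zero.2]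
  · have hp := nrm_pos hk
    rw [← nrm_sq, ← div_eq_mul_inv, inv_eq_one_div, div_le_div_iff₀ (by positivity) hp]
    have := al_le_sum j l
    nlinarith

lemma tri_hn_le (a b e : K → ℂ) (j l : K) :
    ‖(al j l : ℂ) * a j * b l * hn e (j + l)‖ₑ ≤
      ‖a j‖ₑ * ‖b l‖ₑ * (wi (j + l) * ‖e (j + l)‖ₑ) := by
  unfold hn
  rw [enorm_mul, enorm_mul, enorm_mul, enorm_mul, enorm_real, enorm_real, enorm_conj']
  have h1 : ENNReal.ofReal |al j l| * ENNReal.ofReal |(nsq (j + l))⁻¹| ≤ wi (j + l) := by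
    rw [abs_of_nonneg (inv_nonneg.2 (nsq_nonneg _)), ← ENNReal.ofReal_mul (abs_nonneg _)]
    exact ENNReal.ofReal_le_ofReal (al_hn_le j l)
  calc ENNReal.ofReal |al j l| * ‖a j‖ₑ * ‖b l‖ₑ *
        (ENNReal.ofReal |(nsq (j + l))⁻¹| * ‖e (j + l)‖ₑ)
      = (ENNReal.ofReal |al j l| * ENNReal.ofReal |(nsq (j + l))⁻¹|) *
        (‖a j‖ₑ * ‖b l‖ₑ * ‖e (j + l)‖ₑ) := by ring
    _ ≤ wi (j + l) * (‖a j‖ₑ * ‖b l‖ₑ * ‖e (j + l)‖ₑ) := by gcongr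
    _ = _ := by ring

lemma N2_wi_le (e : K → ℂ) : N2 (fun l => wi l * ‖e l‖ₑ) ≤ N2 (fun l => ‖e l‖ₑ) :=
  N2_mono fun l => by
    calc wi l * ‖e l‖ₑ ≤ 1 * ‖e l‖ₑ := by gcongr; exact wi_le_one l
      _ = ‖e l‖ₑ := one_mul _

lemma tri_hn_bound (a b e : K → ℂ) :
    ∑' p, ‖tri al a b (hn e) p‖ₑ ≤ (∑' j, ‖a j‖ₑ) * N2 (fun l => ‖b l‖ₑ) *
      N2 (fun k => wi k * ‖e k‖ₑ) := by
  rw [tri_sum_eq]
  refine le_trans ?_ (E1 _ _ _)
  exact ENNReal.tsum_le_tsum fun j => ENNReal.tsum_le_tsum fun l => tri_hn_le a b e j l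

/-- bound of the fourth term -/
lemma S4_bound (n : ℕ) (d t e : K → ℂ) (hd : d 0 = 0) :
    ∑' p, ‖tri al d t (hn e) p‖ₑ ≤
      cl n * N2 (fun j => w j * ‖d j‖ₑ) * N2 (fun l => ‖t l‖ₑ) * N2 (fun l => wi l * ‖e l‖ₑ) +
      c5 n * (N2 (fun j => w j * ‖d j‖ₑ) * N2 (fun l => ‖t l‖ₑ) * N2 (fun l => ‖e l‖ₑ)) := by
  rw [tri_sum_eq]
  refine le_trans ?_ (T4 n _ _ _ (by simp [hd]))
  exact ENNReal.tsum_le_tsum fun j => ENNReal.tsum_le_tsum fun l => tri_hn_le d t e j l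

/-- the involution used to symmetrise -/
def inv3 : K × K ≃ K × K where
  toFun p := (p.1, -(p.1 + p.2))
  invFun p := (p.1, -(p.1 + p.2))
  left_inv p := by ext1 <;> simp
  right_inv p := by ext1 <;> simp

/-- bound of the third term -/
lemma S3_bound (n : ℕ) {v e : K → ℂ} (hv : v 0 = 0) (he : e 0 = 0)
    (hs : ∀ k, e (-k) = conj (e k))
    (hfin : ∑' p, ‖tri al v e (hn e) p‖ₑ ≠ ⊤) :
    ‖∑' k, AL v e k * hn e k‖ₑ ≤
      cl n * N2 (fun j => w j ^ 2 * ‖v j‖ₑ) * N2 (fun l => wi l * ‖e l‖ₑ) ^ 2 +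
      2 * (ch n * N2 (fun j => w j ^ 2 * ‖v j‖ₑ) * N2 (fun l => ‖e l‖ₑ) ^ 2) := by
  rw [AL_eq, Cv_tsum hfin]
  set f := tri al v e (hn e) with hf
  have hS : Summable f := summable_of_enorm hfin
  have hS1 : Summable (fun p => f (inv3 p)) := inv3.summable_iff.2 hS
  have h1 : ∑' p, f (inv3 p) = ∑' p, f p := inv3.tsum_eq f
  have h2 : ∑' p, f p = ∑' p, (1 / 2 : ℂ) * (f p + f (inv3 p)) := by
    rw [tsum_mul_left, hS.tsum_add hS1, h1]; ring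
  rw [h2]
  refine (enorm_tsum_le _).trans ?_
  refine le_trans ?_ (T3 n (fun j => ‖v j‖ₑ) (fun j => ‖e j‖ₑ) (by simp [hv]) (by simp [he]))
  rw [ENNReal.tsum_prod' (f := fun p : K × K => ‖(1 / 2 : ℂ) * (f p + f (inv3 p))‖ₑ)]
  refine ENNReal.tsum_le_tsum fun j => ENNReal.tsum_le_tsum fun l => ?_
  have e3 : j + -(j + l) = -l := by abel
  have key : (1 / 2 : ℂ) * (f (j, l) + f (inv3 (j, l))) =
      (((1 / 2) * (al j l * ((nsq (j + l))⁻¹ - (nsq l)⁻¹)) : ℝ) : ℂ) *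
        (v j * e l * conj (e (j + l))) := by
    simp only [hf, tri, hn, inv3, Equiv.coe_fn_mk]
    rw [e3, al_neg_sum, nsq_neg, hs, hs, Complex.conj_conj]
    push_cast
    ring
  rw [key, enorm_mul, enorm_mul, enorm_mul, enorm_real, enorm_conj']
  by_cases hl : l = 0
  · subst hl; simp [he]
  by_cases hk : j + l = 0
  · rw [hk]; simp [he]
  have h4 := al_diff_le hl hk
  have h5 : ENNReal.ofReal |(1 / 2) * (al j l * ((nsq (j + l))⁻¹ - (nsq l)⁻¹))| ≤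
      w j * wi l * wi (j + l) := by
    unfold w wi
    rw [← ENNReal.ofReal_mul (nrm_nonneg j), ← ENNReal.ofReal_mul
      (mul_nonneg (nrm_nonneg j) (inv_nonneg.2 (nrm_nonneg l)))]
    apply ENNReal.ofReal_le_ofReal
    rw [abs_mul, abs_mul, abs_of_pos (by norm_num : (0:ℝ) < 1 / 2)]
    linarith
  calc ENNReal.ofReal |(1 / 2) * (al j l * ((nsq (j + l))⁻¹ - (nsq l)⁻¹))| *
        (‖v j‖ₑ * ‖e l‖ₑ * ‖e (j + l)‖ₑ)
      ≤ (w j * wi l * wi (j + l)) * (‖v j‖ₑ * ‖e l‖ₑ * ‖e (j + l)‖ₑ) := by gcongr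
    _ = w j * ‖v j‖ₑ * (wi l * ‖e l‖ₑ) * (wi (j + l) * ‖e (j + l)‖ₑ) := by ring

end Pool.Agent.Bous.U
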